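import Pool.Agent.Lib.P5m.Defs
import Pool.Agent.Lib.P5e96.BlockScale

/-!
# Attainable diagonal blocks, decompositions, and the scaling theorem

`Att α s D`: the diagonal matrix `D` of size `s` is a value of the polynomial at a tuple for which
the part of the polynomial starting with the letter `0` has an invertible value.

PROOF of `value_of_att` (adaptation of `Pool.Agent.P5e96.zero_block_aux`). Index set
`ι = Σ a : Fin k, Fin (s a)`, colour `col x = x.1`. Let `C q` be the block diagonal matrix with the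
blocks `C^a q`, and let `Y` be the block diagonal matrix with blocks `X^a`. `gmat α C` is block
diagonal with the blocks `gmat α C^a`, so `Z * gmat α C = 0` implies `Z = 0` (blockwise).
`finite_bad` with `E σ = α σ • act C σ`, `e σ = σ.symm 0`, and `pencil_zero` give a finite set of
bad ratios, `exists_scales` gives scales `s a ≠ 0` with good ratios. Let `D'` be the diagonal matrix
of the scales (it commutes with the block diagonal `C q`), and
`L X = mval α (fun q => if q = 0 then X else D' * C q)`, a linear map (see `mval_scaled`). On the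
space `O` of matrices with vanishing diagonal blocks `L` is injective, hence bijective onto `O`
(exactly as in `zero_block_aux`). For a block diagonal `X` with blocks `X_a`: `L X` is block
diagonal with the blocks `(s a)^r • mval α (X_a, C^a)`. So for `X_d` with the blocks
`(s a)^(-r) • X^a` the matrix `L X_d` is the block diagonal part of `T` (blocks `diagonal (D a)`).
`T - L X_d ∈ O`, so `T - L X_d = L X_o` with `X_o ∈ O`, and `T = L (X_d + X_o)`.

PROOF of `value_of_dec`: change of basis (`mval_algHom` with `Matrix.toLinAlgEquiv`, see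
`Pool.Agent.P5e96.value_of_basis` in `P5e96.Cyc`).
-/

open Finset Matrix

namespace Pool.Agent.P5m

variable {r : ℕ} {K : Type*} [Field K]

/-- The diagonal matrix `D` is a value at a tuple with invertible `gmat`. -/
def Att (α : Equiv.Perm (Fin (r + 1)) → K) (s : ℕ) (D : Fin s → K) : Prop :=
  ∃ (C : ℕ → Matrix (Fin s) (Fin s) K) (X : Matrix (Fin s) (Fin s) K),
    (∀ Y : Matrix (Fin s) (Fin s) K, Y * P5e96.gmat α C = 0 → Y = 0) ∧
    P5e96.mval α (fun q : Fin (r + 1) => if q = 0 then X else C q) = diagonal D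

/-- A decomposition of the space into blocks on which the compression of `T` is an attainable
diagonal matrix. -/
def Dec (α : Equiv.Perm (Fin (r + 1)) → K) {V : Type*} [AddCommGroup V] [Module K V]
    (T : V →ₗ[K] V) : Prop :=
  ∃ (k : ℕ) (s : Fin k → ℕ) (D : ∀ a, Fin (s a) → K) (b : Module.Basis (Σ a, Fin (s a)) K V),
    (∀ a, Att α (s a) (D a)) ∧
    ∀ a i j, b.repr (T (b ⟨a, j⟩)) ⟨a, i⟩ = if i = j then D a i else 0

theorem isUnit_of_mul_inj {s : ℕ} (G : Matrix (Fin s) (Fin s) K)
    (h : ∀ Y : Matrix (Fin s) (Fin s) K, Y * G = 0 → Y = 0) : IsUnit G := by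
  rw [Matrix.isUnit_iff_isUnit_det, isUnit_iff_ne_zero]
  intro h0
  obtain ⟨v, hv, hv0⟩ := Matrix.exists_vecMul_eq_zero_iff.2 h0
  apply hv
  have h1 := h (fun _ j => v j) (by
    ext i j
    rw [Matrix.mul_apply, Matrix.zero_apply]
    exact congrFun hv0 j)
  funext j
  exact congrFun (congrFun h1 j) j

theorem gmat_algHom {ι ι' : Type*} [Fintype ι] [DecidableEq ι] [Fintype ι'] [DecidableEq ι']
    (α : Equiv.Perm (Fin (r + 1)) → K) (Ψ : Matrix ι ι K →ₐ[K] Matrix ι' ι' K)
    (C : ℕ → Matrix ι ι K) :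
    P5e96.gmat α (fun q => Ψ (C q)) = Ψ (P5e96.gmat α C) := by
  rw [P5e96.gmat, P5e96.gmat, map_sum]
  refine Finset.sum_congr rfl fun σ _ => ?_
  split_ifs
  · rw [map_smul, map_list_prod, List.map_map]
    rfl
  · rw [map_zero]

theorem mval_algHom' {ι ι' : Type*} [Fintype ι] [DecidableEq ι] [Fintype ι'] [DecidableEq ι']
    {m : ℕ} (α : Equiv.Perm (Fin m) → K) (Ψ : Matrix ι ι K →ₐ[K] Matrix ι' ι' K)
    (A : Fin m → Matrix ι ι K) : P5e96.mval α (fun q => Ψ (A q)) = Ψ (P5e96.mval α A) := by
  rw [P5e96.mval, P5e96.mval, map_sum]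
  refine Finset.sum_congr rfl fun σ _ => ?_
  rw [map_smul, map_list_prod, List.map_ofFn]
  rfl

theorem value_of_att [Infinite K] (α : Equiv.Perm (Fin (r + 1)) → K) {k : ℕ} (s : Fin k → ℕ)
    (D : ∀ a, Fin (s a) → K) (hD : ∀ a, Att α (s a) (D a))
    (T : Matrix (Σ a, Fin (s a)) (Σ a, Fin (s a)) K)
    (hT : ∀ a i j, T ⟨a, i⟩ ⟨a, j⟩ = if i = j then D a i else 0) :
    ∃ A : Fin (r + 1) → Matrix (Σ a, Fin (s a)) (Σ a, Fin (s a)) K, P5e96.mval α A = T := by
  choose C X hC hX using hD
  refine P5e96.block_scale_family α C (fun a => isUnit_of_mul_inj _ (hC a)) X T ?_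
  intro a i j
  rw [hX a, hT, Matrix.diagonal_apply]

theorem value_of_dec [Infinite K] (α : Equiv.Perm (Fin (r + 1)) → K) {n : ℕ}
    (T : Matrix (Fin n) (Fin n) K) (h : Dec α (Matrix.toLin' T)) :
    ∃ A : Fin (r + 1) → Matrix (Fin n) (Fin n) K, P5e96.mval α A = T := by
  obtain ⟨k, s, D, b, hD, hb⟩ := h
  obtain ⟨A, hA⟩ := value_of_att α s D hD (LinearMap.toMatrix b b (Matrix.toLin' T))
    (fun a i j => by
      rw [LinearMap.toMatrix_apply]
      exact hb a i j)
  set Ψ : Matrix (Σ a, Fin (s a)) (Σ a, Fin (s a)) K →ₐ[K] Matrix (Fin n) (Fin n) K :=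
    ((Matrix.toLinAlgEquiv b).trans LinearMap.toMatrixAlgEquiv').toAlgHom with hΨ
  refine ⟨fun q => Ψ (A q), ?_⟩
  rw [mval_algHom', hA, hΨ]
  change LinearMap.toMatrix' (Matrix.toLin b b (LinearMap.toMatrix b b (Matrix.toLin' T))) = T
  rw [Matrix.toLin_toMatrix, LinearMap.toMatrix'_toLin']

/-- Attainability does not depend on the order of the diagonal entries. PROOF: conjugate all
matrices with the permutation matrix (`Matrix.reindexAlgEquiv`, `mval_algHom`; `gmat` is transported
in the same way). -/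
theorem att_perm (α : Equiv.Perm (Fin (r + 1)) → K) {s : ℕ} (D : Fin s → K)
    (e : Equiv.Perm (Fin s)) (h : Att α s D) : Att α s (fun i => D (e i)) := by
  obtain ⟨C, X, hC, hX⟩ := h
  set Ψ := Matrix.reindexAlgEquiv K K e.symm with hΨ
  have hΨa : ∀ M i j, Ψ M i j = M (e i) (e j) := fun M i j => rfl
  refine ⟨fun q => Ψ (C q), Ψ X, ?_, ?_⟩
  · intro Y hY
    have h1 : P5e96.gmat α (fun q => Ψ (C q)) = Ψ (P5e96.gmat α C) :=
      gmat_algHom α (Ψ : Matrix (Fin s) (Fin s) K →ₐ[K] Matrix (Fin s) (Fin s) K) C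
    rw [h1] at hY
    have h2 : Ψ.symm Y * P5e96.gmat α C = 0 := by
      apply Ψ.injective
      rw [map_mul, AlgEquiv.apply_symm_apply, hY, map_zero]
    have h3 := hC _ h2
    rw [← AlgEquiv.apply_symm_apply Ψ Y, h3, map_zero]
  · have h1 : (fun q : Fin (r + 1) => if q = 0 then Ψ X else Ψ (C q)) =
        fun q : Fin (r + 1) => Ψ (if q = 0 then X else C q) := by
      funext q
      split_ifs <;> rfl
    have h2 : P5e96.mval α (fun q : Fin (r + 1) => Ψ (if q = 0 then X else C q)) =
        Ψ (P5e96.mval α (fun q : Fin (r + 1) => if q = 0 then X else C q)) :=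
      mval_algHom' α (Ψ : Matrix (Fin s) (Fin s) K →ₐ[K] Matrix (Fin s) (Fin s) K) _
    rw [h1, h2, hX]
    ext i j
    rw [hΨa, Matrix.diagonal_apply, Matrix.diagonal_apply]
    by_cases hij : i = j
    · rw [if_pos hij, if_pos (congrArg e hij)]
    · rw [if_neg hij, if_neg (fun h => hij (e.injective h))]

end Pool.Agent.P5m
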