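import Pool.Agent.Lib.P5m.Att

/-!
# Attainable matrices: conjugation, change of the index set, direct sums

`AttM α T`: the matrix `T` is a value at a tuple with invertible `gmat` (`Att α s D` is
`AttM α (diagonal D)` by definition).

PROOFS. `attM_alg`: apply the algebra isomorphism to all matrices of the tuple; `gmat_algHom`,
`mval_algHom'` (in `Att`); if `Y * gmat α (Ψ C) = 0` then
`Ψ.symm Y * gmat α C = 0` (`gmat α (Ψ ∘ C) = Ψ (gmat α C)`), so `Y = 0`.
`attM_conj`: `M ↦ P * M * Q` with `P * Q = 1 = Q * P` is an algebra automorphism.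
`attM_diag`: `att_of_conj`: combine `Matrix.reindexAlgEquiv` and conjugation.
`attM_sum`: matrices `fromBlocks (C q) 0 0 (C' q)`; `fromBlocks` of block diagonal matrices is
multiplicative and additive, so `gmat` and `mval` are block diagonal, and a matrix `Y` with
`Y * fromBlocks G 0 0 G' = 0` has `Y₁₁ G = 0`, `Y₁₂ G' = 0`, `Y₂₁ G = 0`, `Y₂₂ G' = 0`; here
`Y₁₂` is not square: its rows are handled by: `G` is a unit (`isUnit_of_mul_inj` in `Att` for
`Fin s`; for general index types the same proof) so `Y₁₂ G' = 0` gives `Y₁₂ = 0`.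
(Or use `mval_blockDiagonal'`, `gmat_blockDiagonal'` of `P5e96.BlockScale`.)
`att_add`: reindex `Fin s ⊕ Fin s'` by `finSumFinEquiv`.
`val_add`: the same for values without condition on `gmat`.
-/

open Finset Matrix

namespace Pool.Agent.P5m

variable {r : ℕ} {K : Type*} [Field K] {ι κ : Type*} [Fintype ι] [DecidableEq ι] [Fintype κ]
  [DecidableEq κ]

/-- The matrix `T` is a value at a tuple with invertible `gmat`. -/
def AttM (α : Equiv.Perm (Fin (r + 1)) → K) (T : Matrix ι ι K) : Prop :=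
  ∃ (C : ℕ → Matrix ι ι K) (X : Matrix ι ι K),
    (∀ Y : Matrix ι ι K, Y * P5e96.gmat α C = 0 → Y = 0) ∧
    P5e96.mval α (fun q : Fin (r + 1) => if q = 0 then X else C q) = T

theorem att_iff (α : Equiv.Perm (Fin (r + 1)) → K) (s : ℕ) (D : Fin s → K) :
    Att α s D ↔ AttM α (diagonal D) := Iff.rfl

namespace AttMAux

theorem isUnit_of_inj (G : Matrix ι ι K) (h : ∀ Y : Matrix ι ι K, Y * G = 0 → Y = 0) :
    IsUnit G := by
  rw [Matrix.isUnit_iff_isUnit_det, isUnit_iff_ne_zero]
  intro h0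
  obtain ⟨v, hv, hv0⟩ := Matrix.exists_vecMul_eq_zero_iff.2 h0
  apply hv
  have h1 := h (fun _ j => v j) (by
    ext i j
    rw [Matrix.mul_apply, Matrix.zero_apply]
    exact congrFun hv0 j)
  funext j
  exact congrFun (congrFun h1 j) j

theorem prod_fb {β : Type*} (l : List β) (F : β → Matrix ι ι K) (G : β → Matrix κ κ K) :
    (l.map fun q => fromBlocks (F q) 0 0 (G q)).prod =
      fromBlocks (l.map F).prod 0 0 (l.map G).prod := by
  induction l with
  | nil => simp [Matrix.fromBlocks_one]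
  | cons a l ih =>
    rw [List.map_cons, List.prod_cons, ih, Matrix.fromBlocks_multiply]
    simp

omit [Fintype ι] [DecidableEq ι] [Fintype κ] [DecidableEq κ] in
theorem sum_fb {β : Type*} (s : Finset β) (F : β → Matrix ι ι K) (G : β → Matrix κ κ K) :
    (∑ q ∈ s, fromBlocks (F q) 0 0 (G q)) = fromBlocks (∑ q ∈ s, F q) 0 0 (∑ q ∈ s, G q) := by
  ext (i | i) (j | j) <;> simp [Matrix.sum_apply]

theorem gmat_fb (α : Equiv.Perm (Fin (r + 1)) → K) (C : ℕ → Matrix ι ι K)
    (C' : ℕ → Matrix κ κ K) :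
    P5e96.gmat α (fun q => fromBlocks (C q) 0 0 (C' q)) =
      fromBlocks (P5e96.gmat α C) 0 0 (P5e96.gmat α C') := by
  rw [P5e96.gmat, P5e96.gmat, P5e96.gmat, ← sum_fb]
  refine Finset.sum_congr rfl fun σ _ => ?_
  split_ifs
  · rw [prod_fb, Matrix.fromBlocks_smul, smul_zero, smul_zero]
  · rw [Matrix.fromBlocks_zero]

theorem mval_fb {m : ℕ} (α : Equiv.Perm (Fin m) → K) (A : Fin m → Matrix ι ι K)
    (A' : Fin m → Matrix κ κ K) :
    P5e96.mval α (fun q => fromBlocks (A q) 0 0 (A' q)) =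
      fromBlocks (P5e96.mval α A) 0 0 (P5e96.mval α A') := by
  rw [P5e96.mval, P5e96.mval, P5e96.mval, ← sum_fb]
  refine Finset.sum_congr rfl fun σ _ => ?_
  have h := prod_fb (List.ofFn σ) A A'
  rw [List.map_ofFn, List.map_ofFn, List.map_ofFn] at h
  have h' : (List.ofFn fun i => fromBlocks (A (σ i)) 0 0 (A' (σ i))).prod =
      fromBlocks (List.ofFn fun i => A (σ i)).prod 0 0 (List.ofFn fun i => A' (σ i)).prod := h
  rw [h', Matrix.fromBlocks_smul, smul_zero, smul_zero]

theorem mval_equiv {m : ℕ} (α : Equiv.Perm (Fin m) → K)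
    (Ψ : Matrix ι ι K ≃ₐ[K] Matrix κ κ K) (A : Fin m → Matrix ι ι K) :
    P5e96.mval α (fun q => Ψ (A q)) = Ψ (P5e96.mval α A) :=
  mval_algHom' α (Ψ : Matrix ι ι K →ₐ[K] Matrix κ κ K) A

/-- Conjugation. -/
def conj (P Q : Matrix ι ι K) (h1 : P * Q = 1) (h2 : Q * P = 1) :
    Matrix ι ι K ≃ₐ[K] Matrix ι ι K where
  toFun M := P * M * Q
  invFun M := Q * M * P
  left_inv M := by
    calc Q * (P * M * Q) * P = (Q * P) * M * (Q * P) := by simp only [mul_assoc]
      _ = M := by rw [h2, one_mul, mul_one]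
  right_inv M := by
    calc P * (Q * M * P) * Q = (P * Q) * M * (P * Q) := by simp only [mul_assoc]
      _ = M := by rw [h1, one_mul, mul_one]
  map_mul' M N := by
    calc P * (M * N) * Q = P * M * 1 * (N * Q) := by simp only [mul_assoc, mul_one]
      _ = P * M * Q * (P * N * Q) := by rw [← h2]; simp only [mul_assoc]
  map_add' M N := by rw [mul_add, add_mul]
  commutes' c := by
    rw [← Algebra.commutes, mul_assoc, h1, mul_one]

end AttMAux

open AttMAux

theorem attM_alg (α : Equiv.Perm (Fin (r + 1)) → K) (T : Matrix ι ι K)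
    (Ψ : Matrix ι ι K ≃ₐ[K] Matrix κ κ K) (h : AttM α T) : AttM α (Ψ T) := by
  obtain ⟨C, X, hC, hv⟩ := h
  refine ⟨fun q => Ψ (C q), Ψ X, ?_, ?_⟩
  · intro Y hY
    have h1 : P5e96.gmat α (fun q => Ψ (C q)) = Ψ (P5e96.gmat α C) :=
      gmat_algHom α (Ψ : Matrix ι ι K →ₐ[K] Matrix κ κ K) C
    rw [h1] at hY
    have h2 : Ψ.symm Y * P5e96.gmat α C = 0 := by
      apply Ψ.injective
      rw [map_mul, AlgEquiv.apply_symm_apply, hY, map_zero]
    have h3 := hC _ h2
    have h4 := congrArg Ψ h3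
    rwa [AlgEquiv.apply_symm_apply, map_zero] at h4
  · have h1 : P5e96.mval α (fun q : Fin (r + 1) => Ψ (if q = 0 then X else C q)) =
        Ψ (P5e96.mval α (fun q : Fin (r + 1) => if q = 0 then X else C q)) :=
      mval_equiv α Ψ _
    rw [← hv, ← h1]
    congr 1
    funext q
    split_ifs <;> rfl

theorem attM_conj (α : Equiv.Perm (Fin (r + 1)) → K) (T P Q : Matrix ι ι K) (h1 : P * Q = 1)
    (h2 : Q * P = 1) (h : AttM α T) : AttM α (P * T * Q) :=
  attM_alg α T (conj P Q h1 h2) h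

/-- If `T * P = P * diagonal (D ∘ e)` with invertible `P` then `D` is attainable. -/
theorem att_of_conj (α : Equiv.Perm (Fin (r + 1)) → K) {s : ℕ} (D : Fin s → K) (e : ι ≃ Fin s)
    (T P : Matrix ι ι K) (hP : IsUnit P.det) (hT : T * P = P * diagonal fun i => D (e i))
    (h : AttM α T) : Att α s D := by
  have h1 : P⁻¹ * P = 1 := Matrix.nonsing_inv_mul P hP
  have h2 : P * P⁻¹ = 1 := Matrix.mul_nonsing_inv P hP
  have h3 := attM_conj α T P⁻¹ P h1 h2 h
  have h4 : P⁻¹ * T * P = diagonal fun i => D (e i) := by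
    rw [mul_assoc, hT, ← mul_assoc, h1, one_mul]
  rw [h4] at h3
  have h5 := attM_alg α _ (Matrix.reindexAlgEquiv K K e) h3
  have h6 : (Matrix.reindexAlgEquiv K K e) (diagonal fun i => D (e i)) = diagonal D := by
    ext i j
    rw [Matrix.coe_reindexAlgEquiv, Matrix.reindex_apply, Matrix.submatrix_apply,
      Matrix.diagonal_apply, Matrix.diagonal_apply]
    by_cases hij : i = j
    · subst hij
      rw [if_pos rfl, if_pos rfl, Equiv.apply_symm_apply]
    · have : e.symm i ≠ e.symm j := fun h => hij (e.symm.injective h)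
      rw [if_neg hij, if_neg this]
  rw [h6] at h5
  exact (att_iff α s D).2 h5

theorem attM_sum (α : Equiv.Perm (Fin (r + 1)) → K) (T : Matrix ι ι K) (T' : Matrix κ κ K)
    (h : AttM α T) (h' : AttM α T') : AttM α (fromBlocks T 0 0 T') := by
  obtain ⟨C, X, hC, hv⟩ := h
  obtain ⟨C', X', hC', hv'⟩ := h'
  refine ⟨fun q => fromBlocks (C q) 0 0 (C' q), fromBlocks X 0 0 X', ?_, ?_⟩
  · intro Y hY
    rw [gmat_fb] at hY
    have hG := isUnit_of_inj _ hC
    have hG' := isUnit_of_inj _ hC'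
    have hU : IsUnit (fromBlocks (P5e96.gmat α C) 0 0 (P5e96.gmat α C')) := by
      rw [Matrix.isUnit_iff_isUnit_det, Matrix.det_fromBlocks_zero₂₁]
      exact ((Matrix.isUnit_iff_isUnit_det _).1 hG).mul ((Matrix.isUnit_iff_isUnit_det _).1 hG')
    exact hU.mul_left_eq_zero.1 hY
  · rw [← hv, ← hv', ← mval_fb]
    congr 1
    funext q
    split_ifs <;> rfl

theorem att_add (α : Equiv.Perm (Fin (r + 1)) → K) {s s' : ℕ} (D : Fin (s + s') → K)
    (h : Att α s fun i => D (Fin.castAdd s' i)) (h' : Att α s' fun i => D (Fin.natAdd s i)) :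
    Att α (s + s') D := by
  have h1 := attM_sum α _ _ ((att_iff α s _).1 h) ((att_iff α s' _).1 h')
  refine att_of_conj α D finSumFinEquiv _ 1 (by rw [Matrix.det_one]; exact isUnit_one) ?_ h1
  rw [mul_one, one_mul, Matrix.fromBlocks_diagonal]
  congr 1
  funext i
  rcases i with i | i
  · simp
  · simp

/-- Scalar values add up: if `c` is a value in sizes `s` and `s'` then in size `s + s'`. -/
theorem val_add {m : ℕ} (α : Equiv.Perm (Fin (m + 1)) → K) {s s' : ℕ} (c : K)
    (h : ∃ A : Fin (m + 1) → Matrix (Fin s) (Fin s) K, P5e96.mval α A = c • 1)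
    (h' : ∃ A : Fin (m + 1) → Matrix (Fin s') (Fin s') K, P5e96.mval α A = c • 1) :
    ∃ A : Fin (m + 1) → Matrix (Fin (s + s')) (Fin (s + s')) K, P5e96.mval α A = c • 1 := by
  obtain ⟨A, hA⟩ := h
  obtain ⟨A', hA'⟩ := h'
  have h1 := mval_fb α A A'
  rw [hA, hA'] at h1
  have h2 : fromBlocks (c • (1 : Matrix (Fin s) (Fin s) K)) 0 0
      (c • (1 : Matrix (Fin s') (Fin s') K)) = c • 1 := by
    rw [← Matrix.fromBlocks_one, Matrix.fromBlocks_smul, smul_zero, smul_zero]
  rw [h2] at h1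
  refine ⟨fun q => (Matrix.reindexAlgEquiv K K finSumFinEquiv) (fromBlocks (A q) 0 0 (A' q)), ?_⟩
  rw [mval_equiv α (Matrix.reindexAlgEquiv K K finSumFinEquiv)
    (fun q => fromBlocks (A q) 0 0 (A' q)), h1, map_smul, map_one]

end Pool.Agent.P5m
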