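import Mathlib

/-!
# Generic properties of weights

`Gn p`: the property `p` holds on the complement of a hypersurface. `Pl F`: the function `F` of the
weights is a polynomial function.
-/

open Finset

namespace Pool.Agent.P5m

variable {r : ℕ} {K : Type*} [Field K] {l : ℕ}

/-- The property `p` holds wherever some fixed nonzero polynomial does not vanish. -/
def Gn (p : (Fin (r + 1) → ZMod l → K) → Prop) : Prop :=
  ∃ P : MvPolynomial (Fin (r + 1) × ZMod l) K, P ≠ 0 ∧
    ∀ w : Fin (r + 1) → ZMod l → K, MvPolynomial.eval (fun q => w q.1 q.2) P ≠ 0 → p w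

/-- Polynomial functions of the weights. -/
def Pl (F : (Fin (r + 1) → ZMod l → K) → K) : Prop :=
  ∃ P : MvPolynomial (Fin (r + 1) × ZMod l) K, ∀ w : Fin (r + 1) → ZMod l → K,
    F w = MvPolynomial.eval (fun q => w q.1 q.2) P

theorem Gn.mono {p q : (Fin (r + 1) → ZMod l → K) → Prop} (h : Gn p) (hpq : ∀ w, p w → q w) :
    Gn q := by
  obtain ⟨P, hP, h⟩ := h
  exact ⟨P, hP, fun w hw => hpq w (h w hw)⟩

theorem Gn.and {p q : (Fin (r + 1) → ZMod l → K) → Prop} (hp : Gn p) (hq : Gn q) :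
    Gn fun w => p w ∧ q w := by
  obtain ⟨P, hP, hp⟩ := hp
  obtain ⟨Q, hQ, hq⟩ := hq
  refine ⟨P * Q, mul_ne_zero hP hQ, fun w hw => ?_⟩
  rw [map_mul] at hw
  exact ⟨hp w (left_ne_zero_of_mul hw), hq w (right_ne_zero_of_mul hw)⟩

theorem Gn.true : Gn (K := K) (l := l) fun _ : Fin (r + 1) → ZMod l → K => True :=
  ⟨1, one_ne_zero, fun _ _ => trivial⟩

theorem Gn.all {κ : Type*} [Finite κ] {p : κ → (Fin (r + 1) → ZMod l → K) → Prop}
    (h : ∀ k, Gn (p k)) : Gn fun w => ∀ k, p k w := by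
  classical
  have := Fintype.ofFinite κ
  choose P hP h using h
  refine ⟨∏ k, P k, Finset.prod_ne_zero_iff.2 fun k _ => hP k, fun w hw k => h k w ?_⟩
  rw [map_prod] at hw
  exact Finset.prod_ne_zero_iff.1 hw k (mem_univ k)

theorem Gn.exists [Infinite K] {p : (Fin (r + 1) → ZMod l → K) → Prop} (h : Gn p) :
    ∃ w, p w := by
  obtain ⟨P, hP, h⟩ := h
  by_contra hcon
  push Not at hcon
  refine hP (MvPolynomial.funext fun x => ?_)
  rw [map_zero]
  by_contra hx
  exact hcon (fun k i => x (k, i)) (h _ hx)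

theorem Pl.gn {F : (Fin (r + 1) → ZMod l → K) → K} (h : Pl F) {w₀ : Fin (r + 1) → ZMod l → K}
    (h0 : F w₀ ≠ 0) : Gn fun w => F w ≠ 0 := by
  obtain ⟨P, hP⟩ := h
  refine ⟨P, ?_, fun w hw => by simpa only [hP] using hw⟩
  rintro rfl
  rw [hP, map_zero] at h0
  exact h0 rfl

theorem Pl.const (c : K) : Pl (l := l) fun _ : Fin (r + 1) → ZMod l → K => c :=
  ⟨MvPolynomial.C c, fun w => by simp⟩

theorem Pl.coord (k : Fin (r + 1)) (i : ZMod l) :
    Pl fun w : Fin (r + 1) → ZMod l → K => w k i :=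
  ⟨MvPolynomial.X (k, i), fun w => by simp⟩

theorem Pl.add {F G : (Fin (r + 1) → ZMod l → K) → K} (hF : Pl F) (hG : Pl G) :
    Pl fun w => F w + G w := by
  obtain ⟨P, hP⟩ := hF
  obtain ⟨Q, hQ⟩ := hG
  exact ⟨P + Q, fun w => by simp only [map_add, hP, hQ]⟩

theorem Pl.mul {F G : (Fin (r + 1) → ZMod l → K) → K} (hF : Pl F) (hG : Pl G) :
    Pl fun w => F w * G w := by
  obtain ⟨P, hP⟩ := hF
  obtain ⟨Q, hQ⟩ := hG
  exact ⟨P * Q, fun w => by simp only [map_mul, hP, hQ]⟩

theorem Pl.sum {κ : Type*} (s : Finset κ) {F : κ → (Fin (r + 1) → ZMod l → K) → K}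
    (h : ∀ k ∈ s, Pl (F k)) : Pl fun w => ∑ k ∈ s, F k w := by
  classical
  induction s using Finset.induction_on with
  | empty => simpa using Pl.const 0
  | insert a s ha ih =>
    simp only [Finset.sum_insert ha]
    exact (h a (mem_insert_self a s)).add (ih fun k hk => h k (mem_insert_of_mem hk))

theorem Pl.prod {κ : Type*} (s : Finset κ) {F : κ → (Fin (r + 1) → ZMod l → K) → K}
    (h : ∀ k ∈ s, Pl (F k)) : Pl fun w => ∏ k ∈ s, F k w := by
  classical
  induction s using Finset.induction_on with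
  | empty => simpa using Pl.const 1
  | insert a s ha ih =>
    simp only [Finset.prod_insert ha]
    exact (h a (mem_insert_self a s)).mul (ih fun k hk => h k (mem_insert_of_mem hk))

theorem Pl.det {ι : Type*} [Fintype ι] [DecidableEq ι]
    {M : (Fin (r + 1) → ZMod l → K) → Matrix ι ι K} (h : ∀ i j, Pl fun w => M w i j) :
    Pl fun w => (M w).det := by
  simp only [Matrix.det_apply']
  refine Pl.sum _ fun σ _ => (Pl.const _).mul (Pl.prod _ fun i _ => h _ _)

end Pool.Agent.P5m
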