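import Pool.Agent.Lib.P5m.Gvec

/-!
# Weighted shifts on `ZMod l`

`ws s u` has the entry `u i` at the position `(i, i + s)`.

PROOF of `mval_ws`. `ws s u * ws t v = ws (s + t) (fun i => u i * v (i + s))`. So a product over a
list `(s_1, u_1), ..., (s_m, u_m)` is `ws (∑ s) (fun i => ∏_t u_t (i + s_1 + ... + s_(t-1)))`. For
the word `σ` (`List.ofFn fun t => ws (a (σ t)) (W (σ t))`) the shift in front of the position `t`
is `∑_{t' < t} a (σ t') = pre σ a (σ t)`; reindex the product over the positions by the letters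
`k = σ t`. The total shift is `∑ k, a k`.

PROOF of `gmat_ws`. `gmat α C = ∑_{σ 0 = 0} α σ • ((tailList σ).map C).prod`, and `tailList σ` is
the list of the letters `σ 1, ..., σ r` (as natural numbers). The shift in front of the letter `k`
is `∑_{j ≠ 0, j before k} a j = pre σ a k - a 0` (the letter `0` is the first one). The total shift
is `∑_{k ≠ 0} a k`.
-/

open Finset Matrix

namespace Pool.Agent.P5m

variable {r : ℕ} {K : Type*} [Field K]

/-- A weighted shift. -/
def ws {l : ℕ} (s : ZMod l) (u : ZMod l → K) : Matrix (ZMod l) (ZMod l) K :=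
  fun i j => if j = i + s then u i else 0

private theorem ws_one {l : ℕ} [NeZero l] : ws (K := K) (0 : ZMod l) (fun _ => 1) = 1 := by
  ext i j
  rw [Matrix.one_apply]
  unfold ws
  rw [add_zero]
  by_cases h : i = j
  · rw [if_pos h.symm, if_pos h]
  · rw [if_neg (fun h' => h h'.symm), if_neg h]

private theorem ws_mul {l : ℕ} [NeZero l] (s t : ZMod l) (u v : ZMod l → K) :
    ws s u * ws t v = ws (s + t) (fun i => u i * v (i + s)) := by
  ext i j
  rw [Matrix.mul_apply]
  unfold ws
  rw [Finset.sum_eq_single (i + s)]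
  · rw [if_pos rfl, add_assoc]
    split_ifs <;> simp
  · intro k _ hk
    rw [if_neg hk, zero_mul]
  · intro h
    exact absurd (Finset.mem_univ _) h

private theorem ws_prod {l : ℕ} [NeZero l] : ∀ (n : ℕ) (s : Fin n → ZMod l)
    (u : Fin n → ZMod l → K), (List.ofFn fun t => ws (s t) (u t)).prod =
      ws (∑ t, s t) (fun i => ∏ t, u t (i + ∑ t', if t' < t then s t' else 0)) := by
  intro n
  induction n with
  | zero =>
    intro s u
    simp only [List.ofFn_zero, List.prod_nil, Finset.univ_eq_empty, Finset.sum_empty,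
      Finset.prod_empty]
    exact ws_one.symm
  | succ n ih =>
    intro s u
    rw [List.ofFn_succ, List.prod_cons, ih, ws_mul, Fin.sum_univ_succ]
    congr 1
    funext i
    rw [Fin.prod_univ_succ]
    congr 1
    · congr 1
      simp
    · refine Finset.prod_congr rfl fun t _ => ?_
      congr 1
      rw [Fin.sum_univ_succ, if_pos (Fin.succ_pos t), add_assoc]
      simp only [Fin.succ_lt_succ_iff]

private theorem ws_pre {l m : ℕ} (a : Fin m → ZMod l) (σ : Equiv.Perm (Fin m)) (t : Fin m) :
    pre σ a (σ t) = ∑ t', if t' < t then a (σ t') else 0 := by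
  unfold pre
  rw [← Equiv.sum_comp σ]
  refine Finset.sum_congr rfl fun t' _ => ?_
  unfold O
  rw [Equiv.symm_apply_apply, Equiv.symm_apply_apply]
  split_ifs <;> simp

private theorem ws_sum {l : ℕ} {W : Type*} [Fintype W] (s : ZMod l) (c : W → K)
    (u : W → ZMod l → K) : ∑ σ, c σ • ws s (u σ) = ws s (fun i => ∑ σ, c σ * u σ i) := by
  ext i j
  rw [Matrix.sum_apply]
  have h1 : ∀ σ, (c σ • ws s (u σ)) i j = c σ * (if j = i + s then u σ i else 0) :=
    fun σ => rfl
  simp only [h1]
  change _ = if j = i + s then ∑ σ, c σ * u σ i else 0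
  by_cases h : j = i + s
  · simp only [if_pos h]
  · simp only [if_neg h, mul_zero, Finset.sum_const_zero]

theorem mval_ws {l : ℕ} [NeZero l] {m : ℕ} (α : Equiv.Perm (Fin m) → K) (a : Fin m → ZMod l)
    (W : Fin m → ZMod l → K) :
    P5e96.mval α (fun k => ws (a k) (W k)) = ws (∑ k, a k) (Psi α a W) := by
  unfold P5e96.mval
  have h : ∀ σ : Equiv.Perm (Fin m), (List.ofFn fun i => ws (a (σ i)) (W (σ i))).prod =
      ws (∑ k, a k) (fun i => ∏ k, W k (i + pre σ a k)) := by
    intro σ
    rw [ws_prod m (fun t => a (σ t)) (fun t => W (σ t)), Equiv.sum_comp σ a]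
    congr 1
    funext i
    rw [← Equiv.prod_comp σ (fun k => W k (i + pre σ a k))]
    refine Finset.prod_congr rfl fun t _ => ?_
    rw [ws_pre]
  simp only [h]
  rw [ws_sum]
  rfl

theorem gmat_ws {l : ℕ} [NeZero l] (α : Equiv.Perm (Fin (r + 1)) → K)
    (a : Fin (r + 1) → ZMod l) (w : Fin (r + 1) → ZMod l → K)
    (C : ℕ → Matrix (ZMod l) (ZMod l) K) (hC : ∀ k : Fin (r + 1), C k = ws (a k) (w k)) :
    P5e96.gmat α C = ws (∑ k ∈ univ.erase 0, a k) (gvec α a w) := by
  unfold P5e96.gmat
  have h : ∀ σ : Equiv.Perm (Fin (r + 1)), σ 0 = 0 → ((P5e96.tailList σ).map C).prod =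
      ws (∑ k ∈ univ.erase 0, a k) (fun i => ∏ k ∈ univ.erase 0, w k (i - a 0 + pre σ a k)) := by
    intro σ hσ
    unfold P5e96.tailList
    have h1 : List.map C (List.ofFn fun t : Fin r => ((σ t.succ : Fin (r + 1)) : ℕ)) =
        List.ofFn fun t : Fin r => ws (a (σ t.succ)) (w (σ t.succ)) := by
      rw [List.map_ofFn]
      congr 1
      funext t
      exact hC _
    have h2 : ∑ t : Fin r, a (σ t.succ) = ∑ k ∈ univ.erase 0, a k := by
      have h3 := Fin.sum_univ_succ (fun t : Fin (r + 1) => a (σ t))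
      rw [Equiv.sum_comp σ a, hσ, ← Finset.add_sum_erase _ a (Finset.mem_univ 0)] at h3
      exact (add_left_cancel h3).symm
    have hne : ∀ t : Fin r, σ t.succ ≠ 0 := by
      intro t ht
      rw [← hσ] at ht
      exact Fin.succ_ne_zero t (σ.injective ht)
    rw [h1, ws_prod r (fun t => a (σ t.succ)) (fun t => w (σ t.succ)), h2]
    congr 1
    funext i
    have h4 : ∀ f : Fin (r + 1) → K, ∏ k ∈ univ.erase 0, f k = ∏ t : Fin r, f (σ t.succ) := by
      intro f
      have h5 : ∏ k ∈ univ.erase 0, f k = ∏ k : Fin (r + 1), if k = 0 then 1 else f k := by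
        rw [← Finset.mul_prod_erase _ (fun k : Fin (r + 1) => if k = 0 then 1 else f k)
          (Finset.mem_univ 0), if_pos rfl, one_mul]
        refine Finset.prod_congr rfl fun k hk => ?_
        rw [if_neg (Finset.mem_erase.1 hk).1]
      rw [h5, ← Equiv.prod_comp σ, Fin.prod_univ_succ, if_pos hσ, one_mul]
      refine Finset.prod_congr rfl fun t _ => ?_
      rw [if_neg (hne t)]
    rw [h4]
    refine Finset.prod_congr rfl fun t _ => ?_
    congr 1
    rw [ws_pre, Fin.sum_univ_succ, if_pos (Fin.succ_pos t), hσ]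
    simp only [Fin.succ_lt_succ_iff]
    ring
  have h6 : ∀ σ : Equiv.Perm (Fin (r + 1)),
      (if σ 0 = 0 then α σ • ((P5e96.tailList σ).map C).prod else 0) =
        (if σ 0 = 0 then α σ else 0) • ws (∑ k ∈ univ.erase 0, a k)
          (fun i => ∏ k ∈ univ.erase 0, w k (i - a 0 + pre σ a k)) := by
    intro σ
    split_ifs with h7
    · rw [h σ h7]
    · rw [zero_smul]
  simp only [h6]
  rw [ws_sum]
  congr 1
  funext i
  unfold gvec
  refine Finset.sum_congr rfl fun σ _ => ?_
  split_ifs
  · rfl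
  · rw [zero_mul]

theorem mul_ws_eq_zero {l : ℕ} [NeZero l] (s : ZMod l) (u : ZMod l → K) (hu : ∀ i, u i ≠ 0)
    (Y : Matrix (ZMod l) (ZMod l) K) (h : Y * ws s u = 0) : Y = 0 := by
  ext i k
  have h1 := congrFun (congrFun h i) (k + s)
  rw [Matrix.mul_apply, Finset.sum_eq_single k] at h1
  · unfold ws at h1
    rw [if_pos rfl, Matrix.zero_apply] at h1
    rw [Matrix.zero_apply]
    exact (mul_eq_zero.1 h1).resolve_right (hu k)
  · intro k' _ hk'
    unfold ws
    rw [if_neg (fun h' => hk' (add_right_cancel h').symm), mul_zero]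
  · intro h'
    exact absurd (Finset.mem_univ _) h'

end Pool.Agent.P5m
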