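import Pool.Agent.Lib.P5m.CorPoly
import Pool.Agent.Lib.P5m.Ws
import Pool.Agent.Lib.P5m.Att
import Pool.Agent.Lib.P5e96.Cyc

/-!
# Trace-vanishing polynomials attain every diagonal matrix of trace zero of good prime size

PROOF. Let `Δ` be from `corank_poly` and `Γ` from `gvec_poly`. `Δ * Γ ≠ 0`, `K` is infinite, so there
are weights `w` with both values nonzero. Since the trace of every value on `l × l` matrices is zero,
`mval_ws` (total shift `∑ a = 0`, so the value is the diagonal matrix of `Psi`) gives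
`∑_i Psi α a W i = 0` for all `W`, that is `LK α a w 1`. By the corank bound every left kernel
vector `y` is constant (`y i * 1 = y j * 1`). So the image of `x ↦ Psi α a (update w 0 x)` is the
set of all `D` with `∑ D = 0`: a subspace `U` of `ZMod l → K` such that every linear functional
vanishing on `U` is a multiple of the sum functional contains the kernel of the sum
functional (`Submodule.exists_le_ker_of_notMem`, or dual annihilators). So for `D : Fin l → K` with
sum zero, transported to `ZMod l` by the bijection `e : Fin l ≃ ZMod l`, there is `x` with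
`mval α (update ... ) = diagonal D`. Take `C q = ws (a q) (w q)` for `q < r + 1` (reindexed by
`e`, `Matrix.reindexAlgEquiv`), `X = ws (a 0) x`. The condition on `gmat` is `gmat_ws` and
`mul_ws_eq_zero`.
-/

open Finset Matrix

namespace Pool.Agent.P5m

variable {r : ℕ}

namespace TBAux

theorem gmat_algHom {K : Type*} [Field K] {ι ι' : Type*} [Fintype ι] [DecidableEq ι] [Fintype ι']
    [DecidableEq ι'] (α : Equiv.Perm (Fin (r + 1)) → K)
    (Ψ : Matrix ι ι K →ₐ[K] Matrix ι' ι' K) (C : ℕ → Matrix ι ι K) :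
    P5e96.gmat α (fun q => Ψ (C q)) = Ψ (P5e96.gmat α C) := by
  rw [P5e96.gmat, P5e96.gmat, map_sum]
  refine Finset.sum_congr rfl fun σ _ => ?_
  split_ifs
  · rw [map_smul, map_list_prod, List.map_map]
    rfl
  · rw [map_zero]

theorem psi_update {K : Type*} [Field K] {G : Type*} [CommRing G]
    (α : Equiv.Perm (Fin (r + 1)) → K) (a : Fin (r + 1) → G) (w : Fin (r + 1) → G → K)
    (x : G → K) (i : G) :
    Psi α a (Function.update w 0 x) i =
      ∑ σ, α σ * (x (i + pre σ a 0) * ∏ k ∈ univ.erase 0, w k (i + pre σ a k)) := by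
  unfold Psi
  refine sum_congr rfl fun σ _ => ?_
  rw [← Finset.mul_prod_erase univ _ (mem_univ (0 : Fin (r + 1)))]
  congr 1
  rw [Function.update_self]
  congr 1
  refine prod_congr rfl fun k hk => ?_
  rw [Function.update_of_ne (Finset.ne_of_mem_erase hk)]

/-- The linear map `x ↦ Psi α a (update w 0 x)`. -/
def F {K : Type*} [Field K] {G : Type*} [CommRing G]
    (α : Equiv.Perm (Fin (r + 1)) → K) (a : Fin (r + 1) → G) (w : Fin (r + 1) → G → K) :
    (G → K) →ₗ[K] (G → K) where
  toFun x := Psi α a (Function.update w 0 x)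
  map_add' x y := by
    funext i
    rw [Pi.add_apply, psi_update, psi_update, psi_update, ← sum_add_distrib]
    refine sum_congr rfl fun σ _ => ?_
    rw [Pi.add_apply]
    ring
  map_smul' c x := by
    funext i
    rw [Pi.smul_apply, psi_update, psi_update, smul_eq_mul, mul_sum]
    refine sum_congr rfl fun σ _ => ?_
    rw [Pi.smul_apply, smul_eq_mul, RingHom.id_apply]
    ring

end TBAux

open TBAux in
theorem att_trace {K : Type*} [Field K] [CharZero K] {l : ℕ} (hl : l.Prime)
    (α : Equiv.Perm (Fin (r + 1)) → K) (hα : α 1 ≠ 0) (hg : Good l α)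
    (a b : Fin (r + 1) → ZMod l) (hab : Gpt l a b)
    (hT : ∀ A : Fin (r + 1) → Matrix (Fin l) (Fin l) K, (P5e96.mval α A).trace = 0)
    (D : Fin l → K) (hD : ∑ i, D i = 0) : Att α l D := by
  classical
  have : NeZero l := ⟨hl.ne_zero⟩
  obtain ⟨Δ, hΔ, hΔw⟩ := corank_poly hl α ⟨1, hα⟩ hg a b hab
  obtain ⟨Γ, hΓ, hΓw⟩ := gvec_poly α hα a b hab
  obtain ⟨v, hv⟩ : ∃ v : Fin (r + 1) × ZMod l → K, MvPolynomial.eval v (Δ * Γ) ≠ 0 := by
    by_contra hcon
    push Not at hcon
    exact mul_ne_zero hΔ hΓ (MvPolynomial.funext fun v => by rw [hcon v, map_zero])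
  rw [map_mul] at hv
  set w : Fin (r + 1) → ZMod l → K := fun k i => v (k, i) with hw
  have hvw : (fun p : Fin (r + 1) × ZMod l => w p.1 p.2) = v := by
    funext p
    rfl
  have h1 := hΔw w (by rw [hvw]; exact left_ne_zero_of_mul hv)
  have h2 := hΓw w (by rw [hvw]; exact right_ne_zero_of_mul hv)
  set e : ZMod l ≃ Fin l := (ZMod.finEquiv l).symm.toEquiv with he
  set Ψ : Matrix (ZMod l) (ZMod l) K →ₐ[K] Matrix (Fin l) (Fin l) K :=
    (Matrix.reindexAlgEquiv K K e).toAlgHom with hΨ
  have hΨapp : ∀ M : Matrix (ZMod l) (ZMod l) K, ∀ i j, Ψ M i j = M (e.symm i) (e.symm j) := by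
    intro M i j
    rfl
  have htr : ∀ M : Matrix (ZMod l) (ZMod l) K, (Ψ M).trace = M.trace := by
    intro M
    simp only [Matrix.trace, Matrix.diag_apply, hΨapp]
    exact Equiv.sum_comp e.symm fun i => M i i
  -- the trace
  have hone : LK α a w fun _ => 1 := by
    intro x
    have h3 := hT fun k => Ψ (ws (a k) (Function.update w 0 x k))
    rw [P5e96.mval_algHom α Ψ (fun k => ws (a k) (Function.update w 0 x k)), htr, mval_ws,
      hab.sum] at h3
    rw [Matrix.trace] at h3
    simpa [ws, Matrix.diag] using h3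
  -- surjectivity onto trace zero
  obtain ⟨x, hx⟩ : ∃ x : ZMod l → K, F α a w x = fun i => D (e i) := by
    by_contra hcon
    have hnm : (fun i => D (e i)) ∉ LinearMap.range (F α a w) := by
      rintro ⟨x, hx⟩
      exact hcon ⟨x, hx⟩
    obtain ⟨f, hf1, hf2⟩ := Submodule.exists_le_ker_of_notMem hnm
    have hfsum : ∀ z : ZMod l → K, f z = ∑ i, f (Pi.single i 1) * z i := by
      intro z
      conv_lhs => rw [← Finset.univ_sum_single z, map_sum]
      refine sum_congr rfl fun i _ => ?_
      have : (Pi.single i (z i) : ZMod l → K) = z i • Pi.single i 1 := by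
        rw [← Pi.single_smul, smul_eq_mul, mul_one]
      rw [this, map_smul, smul_eq_mul, mul_comm]
    have hlk : LK α a w fun i => f (Pi.single i 1) := by
      intro x
      rw [← hfsum (Psi α a (Function.update w 0 x))]
      have : F α a w x ∈ LinearMap.ker f := hf2 ⟨x, rfl⟩
      exact LinearMap.mem_ker.1 this
    have hconst : ∀ i, f (Pi.single i 1) = f (Pi.single 0 1) := by
      intro i
      have := h1 _ _ hlk hone i 0
      simpa using this
    apply hf1
    rw [hfsum]
    simp_rw [hconst]
    rw [← mul_sum, Equiv.sum_comp e D, hD, mul_zero]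
  -- the matrices
  refine ⟨fun q => if h : q < r + 1 then Ψ (ws (a ⟨q, h⟩) (w ⟨q, h⟩)) else Ψ 0,
    Ψ (ws (a 0) x), ?_, ?_⟩
  · intro Y hY
    set C : ℕ → Matrix (ZMod l) (ZMod l) K :=
      fun q => if h : q < r + 1 then ws (a ⟨q, h⟩) (w ⟨q, h⟩) else 0 with hC
    have hCΨ : (fun q => if h : q < r + 1 then Ψ (ws (a ⟨q, h⟩) (w ⟨q, h⟩)) else Ψ 0) =
        fun q => Ψ (C q) := by
      funext q
      simp only [hC]
      split_ifs <;> rfl
    rw [hCΨ, gmat_algHom] at hY
    have hCk : ∀ k : Fin (r + 1), C k = ws (a k) (w k) := by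
      intro k
      simp only [hC]
      rw [dif_pos k.2]
    rw [gmat_ws α a w C hCk] at hY
    have hY' : (Matrix.reindexAlgEquiv K K e.symm) Y *
        ws (∑ k ∈ univ.erase 0, a k) (gvec α a w) = 0 := by
      have h5 := congrArg (Matrix.reindexAlgEquiv K K e.symm) hY
      rw [map_mul, map_zero] at h5
      rw [← h5]
      congr 1
      ext i j
      simp [hΨ]
    have h6 := mul_ws_eq_zero _ _ h2 _ hY'
    exact (map_eq_zero_iff _ (Matrix.reindexAlgEquiv K K e.symm).injective).1 h6
  · have h7 : (fun q : Fin (r + 1) => if q = 0 then Ψ (ws (a 0) x) else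
        (if h : (q : ℕ) < r + 1 then Ψ (ws (a ⟨q, h⟩) (w ⟨q, h⟩)) else Ψ 0)) =
        fun q => Ψ (ws (a q) (Function.update w 0 x q)) := by
      funext q
      by_cases hq : q = 0
      · subst hq
        rw [if_pos rfl, Function.update_self]
      · rw [if_neg hq, dif_pos q.2, Function.update_of_ne hq]
    rw [h7, P5e96.mval_algHom α Ψ (fun k => ws (a k) (Function.update w 0 x k)), mval_ws,
      hab.sum]
    ext i j
    rw [hΨapp]
    have h8 : Psi α a (Function.update w 0 x) = fun i => D (e i) := hx
    rw [h8, ws, Matrix.diagonal_apply]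
    by_cases hij : i = j
    · subst hij
      simp
    · rw [if_neg hij, if_neg]
      rw [add_zero]
      intro h9
      exact hij (e.symm.injective h9.symm)

end Pool.Agent.P5m
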