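import Pool.Agent.Lib.P5m.CorStrong
import Pool.Agent.Lib.P5m.Gn
import Pool.Agent.Lib.P5m.Ws
import Pool.Agent.Lib.P5m.AttM
import Pool.Agent.Lib.P5m.TBlock

/-!
# Attainable diagonal matrices of prime size

PROOF of `solve_LK`. The map `F : x ↦ Psi α a (update w 0 x)` is linear (`TBAux.F` in `TBlock`). If
`u` is not in its range there is a linear functional `g` with `g u ≠ 0` which vanishes on the range
(`Submodule.exists_le_ker_of_notMem`); write `g z = ∑ i, y' i * z i`; then `LK α a w y'`, so by `hs`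
`Y i * y' j = Y j * y' i` for all `i, j`; with `Y i₀ ≠ 0`: `y' = (y' i₀ / Y i₀) • Y`, so
`g u = (y' i₀ / Y i₀) * ∑ Y i * u i = 0`, a contradiction.

PROOF of `solve_zero`: the same with `y' = 0`.

PROOF of `att_of_x`: see the end of the proof of `att_trace` in `TBlock`: the tuple
`C q = ws (a q) (w q)`, `X = ws (a 0) x` on the index set `ZMod l` (`mval_ws`: the value is
`ws 0 (Psi α a (update w 0 x))`, a diagonal matrix; `gmat_ws`, `mul_ws_eq_zero`), and `att_of_conj`
with `P = 1`.

PROOF of `att_one`. By `cor_strong`, `gvec_poly` choose `w` (`Gn.and`, `Gn.exists`) such that every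
kernel vector with a zero entry is zero and `gvec α a w i ≠ 0` for all `i`. If the left kernel is
zero every `D` is attainable (`solve_zero`), take `u = 1`. Otherwise let `Y ≠ 0` be a kernel vector;
all its entries are nonzero, `u = Y ∘ e`, `e : Fin l ≃ ZMod l`; `hs` holds because
`Y i * y' - y' i • Y` is a kernel vector with zero entry at `i`.

PROOF of `att_free`. `hS` gives weights `w₁` with zero left kernel: the matrix of `F` is invertible,
its determinant is a polynomial in the weights (`Pl.det`), nonzero at `w₁`; so generically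
(`Pl.gn`) the left kernel is zero. Together with `gvec_poly` choose `w`; `solve_zero`, `att_of_x`.
-/

open Finset Matrix

namespace Pool.Agent.P5m

variable {r : ℕ} {K : Type*} [Field K] {l : ℕ}

private theorem ao_func [NeZero l] (α : Equiv.Perm (Fin (r + 1)) → K) (a : Fin (r + 1) → ZMod l)
    (w : Fin (r + 1) → ZMod l → K) (u : ZMod l → K)
    (h : ¬ ∃ x, ∀ i, Psi α a (Function.update w 0 x) i = u i) :
    ∃ y', LK α a w y' ∧ ∑ i, y' i * u i ≠ 0 := by
  have hnm : u ∉ LinearMap.range (TBAux.F α a w) := by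
    rintro ⟨x, hx⟩
    exact h ⟨x, fun i => congrFun hx i⟩
  obtain ⟨f, hf1, hf2⟩ := Submodule.exists_le_ker_of_notMem hnm
  have hfsum : ∀ z : ZMod l → K, f z = ∑ i, f (Pi.single i 1) * z i := by
    intro z
    conv_lhs => rw [← Finset.univ_sum_single z, map_sum]
    refine sum_congr rfl fun i _ => ?_
    have : (Pi.single i (z i) : ZMod l → K) = z i • Pi.single i 1 := by
      rw [← Pi.single_smul, smul_eq_mul, mul_one]
    rw [this, map_smul, smul_eq_mul, mul_comm]
  refine ⟨fun i => f (Pi.single i 1), ?_, ?_⟩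
  · intro x
    rw [← hfsum (Psi α a (Function.update w 0 x))]
    have : TBAux.F α a w x ∈ LinearMap.ker f := hf2 ⟨x, rfl⟩
    exact LinearMap.mem_ker.1 this
  · rw [← hfsum u]
    exact hf1

theorem solve_LK [NeZero l] (α : Equiv.Perm (Fin (r + 1)) → K) (a : Fin (r + 1) → ZMod l)
    (w : Fin (r + 1) → ZMod l → K) (Y : ZMod l → K) (hY : ∀ i, Y i ≠ 0)
    (hs : ∀ y', LK α a w y' → ∀ i j, Y i * y' j = Y j * y' i) (u : ZMod l → K)
    (hu : ∑ i, Y i * u i = 0) : ∃ x, ∀ i, Psi α a (Function.update w 0 x) i = u i := by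
  by_contra hcon
  obtain ⟨y', h1, h2⟩ := ao_func α a w u hcon
  apply h2
  have h3 := hs y' h1 0
  have h4 : Y 0 * ∑ i, y' i * u i = 0 := by
    rw [mul_sum]
    calc ∑ i, Y 0 * (y' i * u i) = ∑ i, y' 0 * (Y i * u i) := by
          refine sum_congr rfl fun i _ => ?_
          rw [← mul_assoc, h3 i]
          ring
      _ = 0 := by rw [← mul_sum, hu, mul_zero]
  exact (mul_eq_zero.1 h4).resolve_left (hY 0)

theorem solve_zero [NeZero l] (α : Equiv.Perm (Fin (r + 1)) → K) (a : Fin (r + 1) → ZMod l)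
    (w : Fin (r + 1) → ZMod l → K) (hs : ∀ y', LK α a w y' → y' = 0) (u : ZMod l → K) :
    ∃ x, ∀ i, Psi α a (Function.update w 0 x) i = u i := by
  by_contra hcon
  obtain ⟨y', h1, h2⟩ := ao_func α a w u hcon
  apply h2
  rw [hs y' h1]
  simp

theorem att_of_x [NeZero l] (α : Equiv.Perm (Fin (r + 1)) → K) (a : Fin (r + 1) → ZMod l)
    (ha : ∑ k, a k = 0) (w : Fin (r + 1) → ZMod l → K) (hw : ∀ i, gvec α a w i ≠ 0)
    (x : ZMod l → K) (e : ZMod l ≃ Fin l) (D : Fin l → K)
    (hx : ∀ i, Psi α a (Function.update w 0 x) i = D (e i)) : Att α l D := by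
  classical
  have hT : AttM α (diagonal fun i => D (e i)) := by
    set C : ℕ → Matrix (ZMod l) (ZMod l) K :=
      fun q => if h : q < r + 1 then ws (a ⟨q, h⟩) (w ⟨q, h⟩) else 0 with hC
    have hCk : ∀ k : Fin (r + 1), C k = ws (a k) (w k) := by
      intro k
      simp only [hC]
      rw [dif_pos k.2]
    refine ⟨C, ws (a 0) x, ?_, ?_⟩
    · intro Y hY
      rw [gmat_ws α a w C hCk] at hY
      exact mul_ws_eq_zero _ _ hw _ hY
    · have h7 : (fun q : Fin (r + 1) => if q = 0 then ws (a 0) x else C q) =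
          fun q => ws (a q) (Function.update w 0 x q) := by
        funext q
        by_cases hq : q = 0
        · subst hq
          rw [if_pos rfl, Function.update_self]
        · rw [if_neg hq, hCk, Function.update_of_ne hq]
      rw [h7, mval_ws, ha]
      ext i j
      unfold ws
      rw [add_zero, Matrix.diagonal_apply, hx]
      by_cases hij : i = j
      · rw [if_pos hij, if_pos hij.symm]
      · rw [if_neg hij, if_neg (fun h => hij h.symm)]
  refine att_of_conj α D e _ 1 ?_ ?_ hT
  · rw [Matrix.det_one]; exact isUnit_one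
  · rw [Matrix.mul_one, Matrix.one_mul]

private theorem ao_LK_sub [NeZero l] (α : Equiv.Perm (Fin (r + 1)) → K) (a : Fin (r + 1) → ZMod l)
    (w : Fin (r + 1) → ZMod l → K) (Y y' : ZMod l → K) (hY : LK α a w Y) (hy : LK α a w y')
    (c d : K) : LK α a w (fun j => c * y' j - d * Y j) := by
  intro x
  have h1 := hY x
  have h2 := hy x
  calc ∑ i, (c * y' i - d * Y i) * Psi α a (Function.update w 0 x) i =
        c * ∑ i, y' i * Psi α a (Function.update w 0 x) i -
        d * ∑ i, Y i * Psi α a (Function.update w 0 x) i := by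
        rw [mul_sum, mul_sum, ← sum_sub_distrib]
        refine sum_congr rfl fun i _ => ?_
        ring
    _ = 0 := by rw [h1, h2]; ring

theorem att_one [CharZero K] (hl : l.Prime) (α : Equiv.Perm (Fin (r + 1)) → K)
    (hα : α 1 ≠ 0) (hg : Good l α) (a b : Fin (r + 1) → ZMod l) (hab : Gpt l a b) :
    ∃ u : Fin l → K, (∃ i, u i ≠ 0) ∧ ∀ D : Fin l → K, ∑ i, u i * D i = 0 → Att α l D := by
  have : NeZero l := ⟨hl.ne_zero⟩
  have g1 : Gn fun w : Fin (r + 1) → ZMod l → K =>
      ∀ y : ZMod l → K, LK α a w y → ∀ i, y i = 0 → y = 0 :=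
    cor_strong hl α ⟨1, hα⟩ hg a b hab
  have g2 : Gn fun w : Fin (r + 1) → ZMod l → K => ∀ i, gvec α a w i ≠ 0 :=
    gvec_poly α hα a b hab
  obtain ⟨w, hw1, hw2⟩ := (g1.and g2).exists
  set e : ZMod l ≃ Fin l := (ZMod.finEquiv l).symm.toEquiv with he
  by_cases h : ∀ y', LK α a w y' → y' = 0
  · refine ⟨fun _ => 1, ⟨e 0, one_ne_zero⟩, fun D _ => ?_⟩
    obtain ⟨x, hx⟩ := solve_zero α a w h (fun i => D (e i))
    exact att_of_x α a hab.sum w hw2 x e D hx
  · push Not at h
    obtain ⟨Y, hY, hY0⟩ := h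
    have hYi : ∀ i, Y i ≠ 0 := fun i hi => hY0 (hw1 Y hY i hi)
    refine ⟨fun i => Y (e.symm i), ⟨e 0, hYi _⟩, fun D hD => ?_⟩
    obtain ⟨x, hx⟩ := solve_LK α a w Y hYi (fun y' hy' i j => by
      have h1 := hw1 _ (ao_LK_sub α a w Y y' hY hy' (Y i) (y' i)) i (by ring)
      have h2 := congrFun h1 j
      simp only [Pi.zero_apply] at h2
      linear_combination h2) (fun i => D (e i)) (by
      rw [← hD, ← Equiv.sum_comp e]
      refine sum_congr rfl fun i _ => ?_
      show Y i * D (e i) = Y (e.symm (e i)) * D (e i)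
      rw [Equiv.symm_apply_apply])
    exact att_of_x α a hab.sum w hw2 x e D hx

/-- the matrix of the linear map -/
private def aoM (α : Equiv.Perm (Fin (r + 1)) → K) (a : Fin (r + 1) → ZMod l)
    (w : Fin (r + 1) → ZMod l → K) : Matrix (ZMod l) (ZMod l) K :=
  fun i j => Psi α a (Function.update w 0 (Pi.single j 1)) i

private theorem ao_LK_iff [NeZero l] (α : Equiv.Perm (Fin (r + 1)) → K) (a : Fin (r + 1) → ZMod l)
    (w : Fin (r + 1) → ZMod l → K) (y : ZMod l → K) : LK α a w y ↔ y ᵥ* aoM α a w = 0 := by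
  constructor
  · intro h
    funext j
    exact h (Pi.single j 1)
  · intro h x
    have h1 : TBAux.F α a w x = ∑ j, x j • TBAux.F α a w (Pi.single j 1) := by
      conv_lhs => rw [← Finset.univ_sum_single x, map_sum]
      refine sum_congr rfl fun j _ => ?_
      have : (Pi.single j (x j) : ZMod l → K) = x j • Pi.single j 1 := by
        rw [← Pi.single_smul, smul_eq_mul, mul_one]
      rw [this, map_smul]
    have h2 : ∀ i, Psi α a (Function.update w 0 x) i = ∑ j, x j * aoM α a w i j := by
      intro i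
      have := congrFun h1 i
      rw [Finset.sum_apply] at this
      exact this
    calc ∑ i, y i * Psi α a (Function.update w 0 x) i = ∑ i, ∑ j, x j * (y i * aoM α a w i j) := by
          refine sum_congr rfl fun i _ => ?_
          rw [h2, mul_sum]
          refine sum_congr rfl fun j _ => ?_
          ring
      _ = ∑ j, x j * ∑ i, y i * aoM α a w i j := by
          rw [sum_comm]
          refine sum_congr rfl fun j _ => ?_
          rw [mul_sum]
      _ = 0 := by
          refine sum_eq_zero fun j _ => ?_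
          have h3 := congrFun h j
          change ∑ i, y i * aoM α a w i j = 0 at h3
          rw [h3, mul_zero]

private theorem ao_det [NeZero l] (α : Equiv.Perm (Fin (r + 1)) → K) (a : Fin (r + 1) → ZMod l)
    (w : Fin (r + 1) → ZMod l → K) : (aoM α a w).det ≠ 0 ↔ ∀ y, LK α a w y → y = 0 := by
  constructor
  · intro h y hy
    exact Matrix.eq_zero_of_vecMul_eq_zero h ((ao_LK_iff α a w y).1 hy)
  · intro h h0
    obtain ⟨v, hv, hv0⟩ := Matrix.exists_vecMul_eq_zero_iff.2 h0
    exact hv (h v ((ao_LK_iff α a w v).2 hv0))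

private theorem ao_pl [NeZero l] (α : Equiv.Perm (Fin (r + 1)) → K) (a : Fin (r + 1) → ZMod l) :
    Pl fun w : Fin (r + 1) → ZMod l → K => (aoM α a w).det := by
  refine Pl.det fun i j => ?_
  have h : (fun w : Fin (r + 1) → ZMod l → K => aoM α a w i j) = fun w =>
      ∑ σ, α σ * ((Pi.single j 1 : ZMod l → K) (i + pre σ a 0) *
        ∏ k ∈ univ.erase 0, w k (i + pre σ a k)) := by
    funext w
    exact TBAux.psi_update α a w _ i
  rw [h]
  exact Pl.sum _ fun σ _ => (Pl.const _).mul ((Pl.const _).mul (Pl.prod _ fun k _ => Pl.coord _ _))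

theorem att_free [CharZero K] [NeZero l] (α : Equiv.Perm (Fin (r + 1)) → K)
    (hα : α 1 ≠ 0) (a b : Fin (r + 1) → ZMod l) (hab : Gpt l a b)
    (hS : ∃ w : Fin (r + 1) → ZMod l → K, ∀ y, LK α a w y → y = 0) (D : Fin l → K) :
    Att α l D := by
  obtain ⟨w₁, h1⟩ := hS
  have g1 := (ao_pl α a).gn ((ao_det α a w₁).2 h1)
  have g2 : Gn fun w : Fin (r + 1) → ZMod l → K => ∀ i, gvec α a w i ≠ 0 :=
    gvec_poly α hα a b hab
  obtain ⟨w, hw1, hw2⟩ := (g1.and g2).exists
  set e : ZMod l ≃ Fin l := (ZMod.finEquiv l).symm.toEquiv with he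
  obtain ⟨x, hx⟩ := solve_zero α a w ((ao_det α a w).1 hw1) (fun i => D (e i))
  exact att_of_x α a hab.sum w hw2 x e D hx

end Pool.Agent.P5m
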