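import Pool.Agent.Lib.P5m.Defs

/-!
# The part of the polynomial that starts with the letter `0`

`gvec α a w i` is the weight at `i` of `∑_{σ 0 = 0} α σ * (product of the other letters)`.

PROOF of `gvec_poly`. For fixed `i` let `G_i` be the polynomial
`∑_{σ 0 = 0} C (α σ) * ∏_{k ≠ 0} X (k, i - a 0 + pre σ a k)` in the variables
`Fin (r+1) × ZMod l`. The coefficient of the monomial of `σ = 1` is `α 1`: if `σ 0 = 0` has the same
monomial then `pre σ a k = pre 1 a k` for all `k ≠ 0` (the monomial is multilinear in the letters,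
one variable for each letter `k ≠ 0`). Now `pre σ a k` is the sum of the `a j` over the letters
`j` before `k` in `σ`. For `k ≠ 0` the letter `0` is before `k` in both words; removing `a 0` the
subset sums over `{j ≠ 0 | j before k}` agree, so by `sub` these sets agree. So `O σ j k = O 1 j k`
for all `j` and all `k ≠ 0`, and for `k = 0` both are zero. So `σ = 1` (`eq_of_Dl`). Hence every
`G_i` is nonzero; take `Γ = ∏ i, G_i`.
-/

open Finset

namespace Pool.Agent.P5m

variable {r : ℕ} {K : Type*} [Field K]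

/-- The weight at `i` of the part that starts with the letter `0`. -/
def gvec {l : ℕ} (α : Equiv.Perm (Fin (r + 1)) → K) (a : Fin (r + 1) → ZMod l)
    (w : Fin (r + 1) → ZMod l → K) (i : ZMod l) : K :=
  ∑ σ, if σ 0 = 0 then α σ * ∏ k ∈ univ.erase 0, w k (i - a 0 + pre σ a k) else 0

private theorem gv_pre {l : ℕ} (a : Fin (r + 1) → ZMod l) (σ : Equiv.Perm (Fin (r + 1)))
    (hσ : σ 0 = 0) (k : Fin (r + 1)) (hk : k ≠ 0) :
    pre σ a k = a 0 + ∑ j with j ≠ 0 ∧ σ.symm j < σ.symm k, a j := by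
  have h0 : σ.symm 0 = 0 := by rw [Equiv.symm_apply_eq, hσ]
  have h1 : σ.symm k ≠ 0 := by
    intro h
    rw [Equiv.symm_apply_eq, hσ] at h
    exact hk h
  have h2 : σ.symm 0 < σ.symm k := by
    rw [h0]
    exact Fin.pos_iff_ne_zero.2 h1
  unfold pre
  rw [← Finset.add_sum_erase _ _ (Finset.mem_univ (0 : Fin (r + 1)))]
  congr 1
  · simp only [O, if_pos h2]
    simp
  · rw [Finset.sum_filter]
    rw [← Finset.add_sum_erase _ (fun j => if j ≠ 0 ∧ σ.symm j < σ.symm k then a j else 0)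
      (Finset.mem_univ (0 : Fin (r + 1)))]
    simp only [ne_eq, not_true_eq_false, false_and, if_false, zero_add]
    refine Finset.sum_congr rfl fun j hj => ?_
    have hj0 : j ≠ 0 := (Finset.mem_erase.1 hj).1
    unfold O
    by_cases h : σ.symm j < σ.symm k
    · simp [h, hj0]
    · simp [h]

private theorem gv_inj {l : ℕ} (a b : Fin (r + 1) → ZMod l) (hab : Gpt l a b)
    (σ : Equiv.Perm (Fin (r + 1))) (hσ : σ 0 = 0)
    (h : ∀ k, k ≠ 0 → pre σ a k = pre 1 a k) : σ = 1 := by
  apply eq_of_Dl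
  intro j k
  have h1 : (1 : Equiv.Perm (Fin (r + 1))) 0 = 0 := rfl
  have key : ∀ τ : Equiv.Perm (Fin (r + 1)), τ 0 = 0 → ¬ τ.symm j < τ.symm 0 := by
    intro τ hτ h2
    have h0 : τ.symm 0 = 0 := by rw [Equiv.symm_apply_eq, hτ]
    rw [h0] at h2
    exact absurd h2 (Fin.not_lt_zero _)
  by_cases hk : k = 0
  · subst hk
    unfold Dl O
    rw [if_neg (key σ hσ), if_neg (key 1 h1)]
    simp
  · have h2 := h k hk
    rw [gv_pre a σ hσ k hk, gv_pre a 1 h1 k hk] at h2
    have h3 := hab.sub _ _ (by simp) (by simp) (add_left_cancel h2)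
    have h4 : ∀ τ : Equiv.Perm (Fin (r + 1)), τ 0 = 0 → τ.symm 0 < τ.symm k := by
      intro τ hτ
      have h0 : τ.symm 0 = 0 := by rw [Equiv.symm_apply_eq, hτ]
      rw [h0]
      refine Fin.pos_iff_ne_zero.2 ?_
      intro h
      rw [Equiv.symm_apply_eq, hτ] at h
      exact hk h
    unfold Dl O
    by_cases hj : j = 0
    · subst hj
      rw [if_pos (h4 σ hσ), if_pos (h4 1 h1)]
      simp
    · have h5 := Finset.ext_iff.1 h3 j
      simp only [Finset.mem_filter, Finset.mem_univ, true_and, ne_eq, hj, not_false_eq_true] at h5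
      by_cases h6 : σ.symm j < σ.symm k
      · rw [if_pos h6, if_pos (h5.1 h6)]
        simp
      · rw [if_neg h6, if_neg (fun h7 => h6 (h5.2 h7))]
        simp

/-- the polynomial of the weight at `i` -/
private noncomputable def gvP {l : ℕ} (α : Equiv.Perm (Fin (r + 1)) → K)
    (a : Fin (r + 1) → ZMod l) (i : ZMod l) : MvPolynomial (Fin (r + 1) × ZMod l) K :=
  ∑ σ, if σ 0 = 0 then MvPolynomial.C (α σ) *
    ∏ k ∈ univ.erase 0, MvPolynomial.X (k, i - a 0 + pre σ a k) else 0

private theorem gvP_eval {l : ℕ} (α : Equiv.Perm (Fin (r + 1)) → K)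
    (a : Fin (r + 1) → ZMod l) (i : ZMod l) (w : Fin (r + 1) → ZMod l → K) :
    MvPolynomial.eval (fun p => w p.1 p.2) (gvP α a i) = gvec α a w i := by
  unfold gvP gvec
  rw [map_sum]
  refine Finset.sum_congr rfl fun σ _ => ?_
  split_ifs
  · rw [map_mul, map_prod, MvPolynomial.eval_C]
    simp only [MvPolynomial.eval_X]
  · rw [map_zero]

/-- the exponent -/
private noncomputable def gvE {l : ℕ} (a : Fin (r + 1) → ZMod l) (i : ZMod l)
    (σ : Equiv.Perm (Fin (r + 1))) : (Fin (r + 1) × ZMod l) →₀ ℕ :=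
  ∑ k ∈ univ.erase 0, Finsupp.single (k, i - a 0 + pre σ a k) 1

private theorem gvE_apply {l : ℕ} (a : Fin (r + 1) → ZMod l) (i : ZMod l)
    (σ : Equiv.Perm (Fin (r + 1))) (k : Fin (r + 1)) (hk : k ≠ 0) (x : ZMod l) :
    gvE a i σ (k, x) = if x = i - a 0 + pre σ a k then 1 else 0 := by
  classical
  unfold gvE
  rw [Finsupp.finsetSum_apply, Finset.sum_eq_single k]
  · rw [Finsupp.single_apply]
    by_cases h : x = i - a 0 + pre σ a k
    · rw [if_pos h, if_pos (by rw [h])]
    · rw [if_neg h, if_neg (fun h' => h (Prod.mk.inj h').2.symm)]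
  · intro k' _ hk'
    rw [Finsupp.single_apply, if_neg (fun h' => hk' (Prod.mk.inj h').1)]
  · intro h
    exact absurd (Finset.mem_erase.2 ⟨hk, Finset.mem_univ _⟩) h

private theorem gvP_prod {l : ℕ} (a : Fin (r + 1) → ZMod l) (i : ZMod l)
    (σ : Equiv.Perm (Fin (r + 1))) :
    (∏ k ∈ univ.erase 0, MvPolynomial.X (k, i - a 0 + pre σ a k) :
      MvPolynomial (Fin (r + 1) × ZMod l) K) = MvPolynomial.monomial (gvE a i σ) 1 := by
  unfold gvE
  rw [MvPolynomial.monomial_sum_one]
  rfl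

private theorem gvP_ne {l : ℕ} (α : Equiv.Perm (Fin (r + 1)) → K) (hα : α 1 ≠ 0)
    (a b : Fin (r + 1) → ZMod l) (hab : Gpt l a b) (i : ZMod l) : gvP α a i ≠ 0 := by
  classical
  intro h0
  have h1 : MvPolynomial.coeff (gvE a i 1) (gvP α a i) = α 1 := by
    unfold gvP
    rw [MvPolynomial.coeff_sum, Finset.sum_eq_single 1]
    · rw [if_pos (show (1 : Equiv.Perm (Fin (r + 1))) 0 = 0 from rfl), gvP_prod, MvPolynomial.coeff_C_mul, MvPolynomial.coeff_monomial, if_pos rfl,
        mul_one]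
    · intro σ _ hσ
      by_cases h2 : σ 0 = 0
      · rw [if_pos h2, gvP_prod, MvPolynomial.coeff_C_mul, MvPolynomial.coeff_monomial, if_neg,
          mul_zero]
        intro h3
        apply hσ
        refine gv_inj a b hab σ h2 fun k hk => ?_
        have h4 := DFunLike.congr_fun h3 (k, i - a 0 + pre σ a k)
        rw [gvE_apply a i σ k hk, gvE_apply a i 1 k hk, if_pos rfl] at h4
        by_contra h5
        rw [if_neg (fun h6 => h5 (add_left_cancel h6))] at h4
        exact one_ne_zero h4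
      · rw [if_neg h2, MvPolynomial.coeff_zero]
    · intro h
      exact absurd (Finset.mem_univ _) h
  rw [h0, MvPolynomial.coeff_zero] at h1
  exact hα h1.symm

theorem gvec_poly {l : ℕ} [NeZero l] (α : Equiv.Perm (Fin (r + 1)) → K) (hα : α 1 ≠ 0)
    (a b : Fin (r + 1) → ZMod l) (hab : Gpt l a b) :
    ∃ Γ : MvPolynomial (Fin (r + 1) × ZMod l) K, Γ ≠ 0 ∧
      ∀ w : Fin (r + 1) → ZMod l → K, MvPolynomial.eval (fun p => w p.1 p.2) Γ ≠ 0 →
        ∀ i, gvec α a w i ≠ 0 := by
  refine ⟨∏ i : ZMod l, gvP α a i, ?_, ?_⟩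
  · exact Finset.prod_ne_zero_iff.2 fun i _ => gvP_ne α hα a b hab i
  · intro w hw i
    rw [map_prod, Finset.prod_ne_zero_iff] at hw
    have := hw i (Finset.mem_univ _)
    rwa [gvP_eval] at this

end Pool.Agent.P5m
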