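import Pool.Agent.Lib.P5m.CorStrong
import Pool.Agent.Lib.P5m.Gvec

/-!
# The operators of a coupled pair of blocks

`w`: weights of block one, `v`: weights of block two; `t = Fin.last r` is the coupling letter.
All statements here are direct computations with finite sums.

* `pair1`, `pair2`: substitute `j = i + pre σ a t` in the double sum over `i` and `σ`.
* `T21_add`, `T21_smul`, ...: every product contains the function `ξ` exactly once.
* `T21_dbl`: split the words according to whether `t` is before `0`; for these words the factor of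
  the letter `t` is `v t`, doubled by `dbl`; for the others it is `w t`.
* `LK_dbl`: `Psi α a (update (dbl v) 0 x) = 2 * Psi α a (update v 0 x)` (if `t ≠ 0`).
* `T0_diag`: coefficient of `ξ i` in `T0 ... ξ i`: only words with `pre σ a 0 = 0`, that is (by
  `e1`, compare with the word `1`) words with first letter `0`; they give
  `gvec α a w (i + a 0)`.
* `supp_disj`: if `T0 w v ξ` restricted to row `i` uses `ξ (i + s)` then `s = a(S)`, `S ∌ t`, while
  for `Tp'` one has `S ∋ t`; by `sub` these shifts are different. Statement: if `c * T0 ξ i =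
  c' * Tp ξ i` for all `ξ`, then `c * T0 ξ i = 0` for all `ξ`.
-/

open Finset

namespace Pool.Agent.P5m

variable {r : ℕ} {K : Type*} [Field K] {l : ℕ}

/-- Words with weights depending on the word. -/
def PsiG (α : Equiv.Perm (Fin (r + 1)) → K) (a : Fin (r + 1) → ZMod l)
    (W : Equiv.Perm (Fin (r + 1)) → Fin (r + 1) → ZMod l → K) (i : ZMod l) : K :=
  ∑ σ, α σ * ∏ k, W σ k (i + pre σ a k)

/-- Weights in the block (2, 1): `v` before the letter `0`, `w` after it. -/
def W21 (w v : Fin (r + 1) → ZMod l → K) (ξ : ZMod l → K) (σ : Equiv.Perm (Fin (r + 1)))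
    (k : Fin (r + 1)) : ZMod l → K :=
  if k = 0 then ξ else if σ.symm k < σ.symm 0 then v k else w k

/-- The operator of the block (2, 1). The one of the block (1, 2) is `T21 α a v w`. -/
def T21 (α : Equiv.Perm (Fin (r + 1)) → K) (a : Fin (r + 1) → ZMod l)
    (w v : Fin (r + 1) → ZMod l → K) (ξ : ZMod l → K) : ZMod l → K :=
  PsiG α a (W21 w v ξ)

/-- The words with `t` after `0`. -/
def T0 (α : Equiv.Perm (Fin (r + 1)) → K) (a : Fin (r + 1) → ZMod l)
    (w v : Fin (r + 1) → ZMod l → K) (ξ : ZMod l → K) : ZMod l → K :=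
  PsiG (fun σ => if σ.symm (Fin.last r) < σ.symm 0 then 0 else α σ) a (W21 w v ξ)

/-- The words with `t` before `0`. -/
def Tq (α : Equiv.Perm (Fin (r + 1)) → K) (a : Fin (r + 1) → ZMod l)
    (w v : Fin (r + 1) → ZMod l → K) (ξ : ZMod l → K) : ZMod l → K :=
  PsiG (fun σ => if σ.symm (Fin.last r) < σ.symm 0 then α σ else 0) a (W21 w v ξ)

/-- Weights of the block (1, 1) with coupling: `w`, then `ν` at `t`, then `v`, then `ξ` at `0`,
then `w`. -/
def W11 (w v : Fin (r + 1) → ZMod l → K) (ν ξ : ZMod l → K) (σ : Equiv.Perm (Fin (r + 1)))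
    (k : Fin (r + 1)) : ZMod l → K :=
  if k = 0 then ξ else if k = Fin.last r then ν else
    if σ.symm (Fin.last r) < σ.symm k ∧ σ.symm k < σ.symm 0 then v k else w k

/-- The coupling contribution in block (1, 1). -/
def L11 (α : Equiv.Perm (Fin (r + 1)) → K) (a : Fin (r + 1) → ZMod l)
    (w v : Fin (r + 1) → ZMod l → K) (ν ξ : ZMod l → K) : ZMod l → K :=
  PsiG (fun σ => if σ.symm (Fin.last r) < σ.symm 0 then α σ else 0) a (W11 w v ν ξ)

/-- Weights of the block (2, 2) with coupling: `v`, then `ξ` at `0`, then `w`, then `ν` at `t`,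
then `v`. -/
def W22 (w v : Fin (r + 1) → ZMod l → K) (ν ξ : ZMod l → K) (σ : Equiv.Perm (Fin (r + 1)))
    (k : Fin (r + 1)) : ZMod l → K :=
  if k = 0 then ξ else if k = Fin.last r then ν else
    if σ.symm 0 < σ.symm k ∧ σ.symm k < σ.symm (Fin.last r) then w k else v k

/-- The coupling contribution in block (2, 2). -/
def L22 (α : Equiv.Perm (Fin (r + 1)) → K) (a : Fin (r + 1) → ZMod l)
    (w v : Fin (r + 1) → ZMod l → K) (ν ξ : ZMod l → K) : ZMod l → K :=
  PsiG (fun σ => if σ.symm 0 < σ.symm (Fin.last r) then α σ else 0) a (W22 w v ν ξ)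

/-- The gradient of `∑ Y * L11` with respect to `ν`. -/
def G1 (α : Equiv.Perm (Fin (r + 1)) → K) (a : Fin (r + 1) → ZMod l)
    (w v : Fin (r + 1) → ZMod l → K) (Y ξ : ZMod l → K) (j : ZMod l) : K :=
  ∑ σ, if σ.symm (Fin.last r) < σ.symm 0 then
    α σ * Y (j - pre σ a (Fin.last r)) * ∏ k ∈ univ.erase (Fin.last r),
      W11 w v 0 ξ σ k (j - pre σ a (Fin.last r) + pre σ a k) else 0

/-- The gradient of `∑ y * L22` with respect to `ν`. -/
def G2 (α : Equiv.Perm (Fin (r + 1)) → K) (a : Fin (r + 1) → ZMod l)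
    (w v : Fin (r + 1) → ZMod l → K) (y ξ : ZMod l → K) (j : ZMod l) : K :=
  ∑ σ, if σ.symm 0 < σ.symm (Fin.last r) then
    α σ * y (j - pre σ a (Fin.last r)) * ∏ k ∈ univ.erase (Fin.last r),
      W22 w v 0 ξ σ k (j - pre σ a (Fin.last r) + pre σ a k) else 0

/-- Double the weights of the letter `t`. -/
def dbl (v : Fin (r + 1) → ZMod l → K) (k : Fin (r + 1)) (i : ZMod l) : K :=
  if k = Fin.last r then 2 * v k i else v k i

/-! ### Auxiliary lemmas -/

private theorem op_shift [NeZero l] (p : ZMod l) (c : K) (Y ν R : ZMod l → K) :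
    ∑ i, Y i * (c * (ν (i + p) * R i)) = ∑ j, ν j * (c * Y (j - p) * R (j - p)) := by
  refine Fintype.sum_equiv (Equiv.addRight p) _ _ fun i => ?_
  simp only [Equiv.coe_addRight, add_sub_cancel_right]
  ring

private theorem op_pre {a : Fin (r + 1) → ZMod l} (σ : Equiv.Perm (Fin (r + 1)))
    (k : Fin (r + 1)) :
    pre σ a k = ∑ j ∈ univ.filter (fun j => σ.symm j < σ.symm k), a j := by
  unfold pre O
  rw [Finset.sum_filter]
  refine Finset.sum_congr rfl fun j _ => ?_
  split_ifs <;> simp

theorem pair1 [NeZero l] (α : Equiv.Perm (Fin (r + 1)) → K) (a : Fin (r + 1) → ZMod l)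
    (w v : Fin (r + 1) → ZMod l → K) (hr : Fin.last r ≠ 0) (Y ν ξ : ZMod l → K) :
    ∑ i, Y i * L11 α a w v ν ξ i = ∑ j, ν j * G1 α a w v Y ξ j := by
  unfold L11 PsiG G1
  simp only [Finset.mul_sum]
  rw [Finset.sum_comm, Finset.sum_comm (s := (univ : Finset (ZMod l)))]
  refine Finset.sum_congr rfl fun σ _ => ?_
  by_cases h : σ.symm (Fin.last r) < σ.symm 0
  · simp only [if_pos h]
    rw [← op_shift (pre σ a (Fin.last r)) (α σ) Y ν (fun i => ∏ k ∈ univ.erase (Fin.last r),
      W11 w v 0 ξ σ k (i + pre σ a k))]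
    refine Finset.sum_congr rfl fun i _ => ?_
    rw [← Finset.mul_prod_erase univ _ (Finset.mem_univ (Fin.last r))]
    congr 3
    · simp only [W11, if_neg hr, if_true]
    · refine Finset.prod_congr rfl fun k hk => ?_
      simp only [W11, if_neg (Finset.ne_of_mem_erase hk)]
  · simp only [if_neg h, zero_mul, mul_zero]

theorem pair2 [NeZero l] (α : Equiv.Perm (Fin (r + 1)) → K) (a : Fin (r + 1) → ZMod l)
    (w v : Fin (r + 1) → ZMod l → K) (hr : Fin.last r ≠ 0) (y ν ξ : ZMod l → K) :
    ∑ i, y i * L22 α a w v ν ξ i = ∑ j, ν j * G2 α a w v y ξ j := by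
  unfold L22 PsiG G2
  simp only [Finset.mul_sum]
  rw [Finset.sum_comm, Finset.sum_comm (s := (univ : Finset (ZMod l)))]
  refine Finset.sum_congr rfl fun σ _ => ?_
  by_cases h : σ.symm 0 < σ.symm (Fin.last r)
  · simp only [if_pos h]
    rw [← op_shift (pre σ a (Fin.last r)) (α σ) y ν (fun i => ∏ k ∈ univ.erase (Fin.last r),
      W22 w v 0 ξ σ k (i + pre σ a k))]
    refine Finset.sum_congr rfl fun i _ => ?_
    rw [← Finset.mul_prod_erase univ _ (Finset.mem_univ (Fin.last r))]
    congr 3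
    · simp only [W22, if_neg hr, if_true]
    · refine Finset.prod_congr rfl fun k hk => ?_
      simp only [W22, if_neg (Finset.ne_of_mem_erase hk)]
  · simp only [if_neg h, zero_mul, mul_zero]

theorem PsiG_lin (α : Equiv.Perm (Fin (r + 1)) → K) (a : Fin (r + 1) → ZMod l)
    (U : Equiv.Perm (Fin (r + 1)) → Fin (r + 1) → ZMod l → K) (c : K) (ξ ξ' : ZMod l → K)
    (i : ZMod l) :
    PsiG α a (fun σ k => if k = 0 then c • ξ + ξ' else U σ k) i =
      c * PsiG α a (fun σ k => if k = 0 then ξ else U σ k) i +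
        PsiG α a (fun σ k => if k = 0 then ξ' else U σ k) i := by
  unfold PsiG
  rw [Finset.mul_sum, ← Finset.sum_add_distrib]
  refine Finset.sum_congr rfl fun σ _ => ?_
  have h : ∀ η : ZMod l → K, ∏ k, (if k = 0 then η else U σ k) (i + pre σ a k) =
      η (i + pre σ a 0) * ∏ k ∈ univ.erase 0, U σ k (i + pre σ a k) := by
    intro η
    rw [← Finset.mul_prod_erase univ _ (Finset.mem_univ (0 : Fin (r + 1)))]
    congr 1
    refine Finset.prod_congr rfl fun k hk => ?_
    rw [if_neg (Finset.ne_of_mem_erase hk)]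
  simp only
  rw [h, h, h, Pi.add_apply, Pi.smul_apply, smul_eq_mul]
  ring

theorem T21_split (α : Equiv.Perm (Fin (r + 1)) → K) (a : Fin (r + 1) → ZMod l)
    (w v : Fin (r + 1) → ZMod l → K) (ξ : ZMod l → K) (i : ZMod l) :
    T21 α a w v ξ i = T0 α a w v ξ i + Tq α a w v ξ i := by
  unfold T21 T0 Tq PsiG
  rw [← Finset.sum_add_distrib]
  refine Finset.sum_congr rfl fun σ _ => ?_
  rw [← add_mul]
  congr 1
  beta_reduce
  split_ifs <;> simp

theorem T21_dbl (α : Equiv.Perm (Fin (r + 1)) → K) (a : Fin (r + 1) → ZMod l)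
    (w v : Fin (r + 1) → ZMod l → K) (hr : Fin.last r ≠ 0) (ξ : ZMod l → K) (i : ZMod l) :
    T21 α a w (dbl v) ξ i = T0 α a w v ξ i + 2 * Tq α a w v ξ i := by
  unfold T21 T0 Tq PsiG
  rw [Finset.mul_sum, ← Finset.sum_add_distrib]
  refine Finset.sum_congr rfl fun σ _ => ?_
  have h : ∀ v' : Fin (r + 1) → ZMod l → K, ∏ k, W21 w v' ξ σ k (i + pre σ a k) =
      (if σ.symm (Fin.last r) < σ.symm 0 then v' (Fin.last r) else w (Fin.last r))
        (i + pre σ a (Fin.last r)) * ∏ k ∈ univ.erase (Fin.last r),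
          W21 w v' ξ σ k (i + pre σ a k) := by
    intro v'
    rw [← Finset.mul_prod_erase univ _ (Finset.mem_univ (Fin.last r))]
    congr 1
    simp only [W21, if_neg hr]
  have h2 : ∏ k ∈ univ.erase (Fin.last r), W21 w (dbl v) ξ σ k (i + pre σ a k) =
      ∏ k ∈ univ.erase (Fin.last r), W21 w v ξ σ k (i + pre σ a k) := by
    refine Finset.prod_congr rfl fun k hk => ?_
    have : dbl v k = v k := by
      funext j
      unfold dbl
      rw [if_neg (Finset.ne_of_mem_erase hk)]
    simp only [W21, this]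
  rw [h, h v, h2]
  by_cases ht : σ.symm (Fin.last r) < σ.symm 0
  · simp only [if_pos ht, dbl, if_true]
    ring
  · simp only [if_neg ht]
    ring

theorem G1_dbl (α : Equiv.Perm (Fin (r + 1)) → K) (a : Fin (r + 1) → ZMod l)
    (w v : Fin (r + 1) → ZMod l → K) : G1 α a w (dbl v) = G1 α a w v := by
  funext Y ξ j
  unfold G1
  refine Finset.sum_congr rfl fun σ _ => ?_
  by_cases h : σ.symm (Fin.last r) < σ.symm 0
  · rw [if_pos h, if_pos h]
    congr 1
    refine Finset.prod_congr rfl fun k hk => ?_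
    have : dbl v k = v k := by
      funext j
      unfold dbl
      rw [if_neg (Finset.ne_of_mem_erase hk)]
    simp only [W11, this]
  · rw [if_neg h, if_neg h]

theorem G2_dbl (α : Equiv.Perm (Fin (r + 1)) → K) (a : Fin (r + 1) → ZMod l)
    (w v : Fin (r + 1) → ZMod l → K) : G2 α a w (dbl v) = G2 α a w v := by
  funext Y ξ j
  unfold G2
  refine Finset.sum_congr rfl fun σ _ => ?_
  by_cases h : σ.symm 0 < σ.symm (Fin.last r)
  · rw [if_pos h, if_pos h]
    congr 1
    refine Finset.prod_congr rfl fun k hk => ?_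
    have : dbl v k = v k := by
      funext j
      unfold dbl
      rw [if_neg (Finset.ne_of_mem_erase hk)]
    simp only [W22, this]
  · rw [if_neg h, if_neg h]

theorem LK_dbl [NeZero l] [CharZero K] (α : Equiv.Perm (Fin (r + 1)) → K)
    (a : Fin (r + 1) → ZMod l) (v : Fin (r + 1) → ZMod l → K) (hr : Fin.last r ≠ 0)
    (y : ZMod l → K) : LK α a (dbl v) y ↔ LK α a v y := by
  have h : ∀ (x : ZMod l → K) (i : ZMod l), Psi α a (Function.update (dbl v) 0 x) i =
      2 * Psi α a (Function.update v 0 x) i := by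
    intro x i
    unfold Psi
    rw [Finset.mul_sum]
    refine Finset.sum_congr rfl fun σ _ => ?_
    rw [← Finset.mul_prod_erase univ _ (Finset.mem_univ (Fin.last r)),
      ← Finset.mul_prod_erase univ (fun k => Function.update v 0 x k (i + pre σ a k))
        (Finset.mem_univ (Fin.last r))]
    have h2 : ∏ k ∈ univ.erase (Fin.last r), Function.update (dbl v) 0 x k (i + pre σ a k) =
        ∏ k ∈ univ.erase (Fin.last r), Function.update v 0 x k (i + pre σ a k) := by
      refine Finset.prod_congr rfl fun k hk => ?_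
      by_cases hk0 : k = 0
      · subst hk0
        rw [Function.update_self, Function.update_self]
      · rw [Function.update_of_ne hk0, Function.update_of_ne hk0]
        unfold dbl
        rw [if_neg (Finset.ne_of_mem_erase hk)]
    rw [h2, Function.update_of_ne hr, Function.update_of_ne hr]
    simp only [dbl, if_true]
    ring
  unfold LK
  refine forall_congr' fun x => ?_
  have h3 : ∑ i, y i * Psi α a (Function.update (dbl v) 0 x) i =
      2 * ∑ i, y i * Psi α a (Function.update v 0 x) i := by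
    rw [Finset.mul_sum]
    refine Finset.sum_congr rfl fun i _ => ?_
    rw [h]
    ring
  rw [h3]
  simp

theorem gvec_dbl (α : Equiv.Perm (Fin (r + 1)) → K) (a : Fin (r + 1) → ZMod l)
    (v : Fin (r + 1) → ZMod l → K) (hr : Fin.last r ≠ 0) (i : ZMod l) :
    gvec α a (dbl v) i = 2 * gvec α a v i := by
  unfold gvec
  rw [Finset.mul_sum]
  refine Finset.sum_congr rfl fun σ _ => ?_
  by_cases h : σ 0 = 0
  · rw [if_pos h, if_pos h]
    have ht : Fin.last r ∈ (univ.erase 0 : Finset (Fin (r + 1))) :=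
      Finset.mem_erase.2 ⟨hr, Finset.mem_univ _⟩
    rw [← Finset.mul_prod_erase _ _ ht,
      ← Finset.mul_prod_erase _ (fun k => v k (i - a 0 + pre σ a k)) ht]
    have h2 : ∏ k ∈ (univ.erase 0 : Finset (Fin (r + 1))).erase (Fin.last r),
        dbl v k (i - a 0 + pre σ a k) =
        ∏ k ∈ (univ.erase 0 : Finset (Fin (r + 1))).erase (Fin.last r),
          v k (i - a 0 + pre σ a k) := by
      refine Finset.prod_congr rfl fun k hk => ?_
      unfold dbl
      rw [if_neg (Finset.ne_of_mem_erase hk)]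
    rw [h2]
    simp only [dbl, if_true]
    ring
  · rw [if_neg h, if_neg h, mul_zero]

private theorem op_W21 (w v : Fin (r + 1) → ZMod l → K) (a : Fin (r + 1) → ZMod l)
    (ξ : ZMod l → K) (σ : Equiv.Perm (Fin (r + 1))) (i : ZMod l) :
    ∏ k, W21 w v ξ σ k (i + pre σ a k) = ξ (i + pre σ a 0) *
      ∏ k ∈ univ.erase 0, (if σ.symm k < σ.symm 0 then v k else w k) (i + pre σ a k) := by
  rw [← Finset.mul_prod_erase univ _ (Finset.mem_univ (0 : Fin (r + 1)))]
  congr 1
  refine Finset.prod_congr rfl fun k hk => ?_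
  simp only [W21, if_neg (Finset.ne_of_mem_erase hk)]

private theorem op_zero {a b : Fin (r + 1) → ZMod l} (hab : Gpt l a b)
    (σ : Equiv.Perm (Fin (r + 1))) (h : pre σ a 0 = 0) : σ 0 = 0 := by
  rw [op_pre] at h
  have h2 := hab.sub (univ.filter (fun j => σ.symm j < σ.symm 0)) ∅ (by simp) (by simp)
    (by rw [h, Finset.sum_empty])
  have h3 : ∀ j, ¬ σ.symm j < σ.symm 0 := by
    intro j hj
    have : j ∈ univ.filter (fun j => σ.symm j < σ.symm 0) := by simp [hj]
    rw [h2] at this
    simp at this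
  have h4 : σ.symm 0 = 0 := by
    by_contra h5
    refine h3 (σ 0) ?_
    rw [Equiv.symm_apply_apply]
    exact Fin.pos_iff_ne_zero.2 h5
  rw [Equiv.symm_apply_eq] at h4
  exact h4.symm

theorem T0_diag [NeZero l] (α : Equiv.Perm (Fin (r + 1)) → K) (a b : Fin (r + 1) → ZMod l)
    (hab : Gpt l a b) (w v : Fin (r + 1) → ZMod l → K) (hr : Fin.last r ≠ 0) (i : ZMod l) :
    T0 α a w v (Pi.single i 1) i = gvec α a w (i + a 0) := by
  unfold T0 PsiG gvec
  refine Finset.sum_congr rfl fun σ _ => ?_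
  rw [op_W21]
  beta_reduce
  by_cases h : σ 0 = 0
  · have h0 : σ.symm 0 = 0 := by rw [Equiv.symm_apply_eq, h]
    have h1 : ∀ k, ¬ σ.symm k < σ.symm 0 := fun k => by
      rw [h0]
      exact Fin.not_lt_zero _
    have hp : pre σ a 0 = 0 := by
      rw [op_pre]
      refine Finset.sum_eq_zero fun j hj => ?_
      exact absurd (Finset.mem_filter.1 hj).2 (h1 j)
    rw [if_neg (h1 _), if_pos h, hp, add_zero, Pi.single_eq_same, one_mul, add_sub_cancel_right]
    congr 1
    refine Finset.prod_congr rfl fun k _ => ?_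
    rw [if_neg (h1 k)]
  · rw [if_neg h]
    have hp : i + pre σ a 0 ≠ i := by
      intro h2
      exact h (op_zero hab σ (by simpa using h2))
    rw [Pi.single_eq_of_ne hp, zero_mul, mul_zero]

theorem supp_disj [NeZero l] (α : Equiv.Perm (Fin (r + 1)) → K) (a b : Fin (r + 1) → ZMod l)
    (hab : Gpt l a b) (w v : Fin (r + 1) → ZMod l → K) (hr : Fin.last r ≠ 0) (i : ZMod l)
    (c c' : K) (h : ∀ ξ, c * T0 α a w v ξ i = c' * Tq α a w v ξ i) (ξ : ZMod l → K) :
    c * T0 α a w v ξ i = 0 ∧ c' * Tq α a w v ξ i = 0 := by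
  classical
  set ξ' : ZMod l → K := fun x => if ∃ S : Finset (Fin (r + 1)), 0 ∉ S ∧ Fin.last r ∉ S ∧
    x = i + ∑ j ∈ S, a j then ξ x else 0 with hξ'
  have h1 : T0 α a w v ξ' i = T0 α a w v ξ i := by
    unfold T0 PsiG
    refine Finset.sum_congr rfl fun σ _ => ?_
    beta_reduce
    by_cases ht : σ.symm (Fin.last r) < σ.symm 0
    · rw [if_pos ht, zero_mul, zero_mul]
    · rw [op_W21, op_W21]
      congr 2
      rw [hξ']
      simp only
      rw [if_pos]
      exact ⟨univ.filter (fun j => σ.symm j < σ.symm 0), by simp, by simpa using ht, by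
        rw [op_pre]⟩
  have h2 : Tq α a w v ξ' i = 0 := by
    unfold Tq PsiG
    refine Finset.sum_eq_zero fun σ _ => ?_
    beta_reduce
    by_cases ht : σ.symm (Fin.last r) < σ.symm 0
    · rw [op_W21]
      have h3 : ξ' (i + pre σ a 0) = 0 := by
        rw [hξ']
        simp only
        rw [if_neg]
        rintro ⟨S, hS0, hSt, hS⟩
        rw [op_pre] at hS
        have h4 := hab.sub _ S (by simp) hS0 (add_left_cancel hS)
        apply hSt
        rw [← h4]
        simpa using ht
      rw [h3, zero_mul, mul_zero]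
    · rw [if_neg ht, zero_mul]
  have h3 := h ξ'
  rw [h1, h2, mul_zero] at h3
  exact ⟨h3, by rw [← h ξ, h3]⟩

end Pool.Agent.P5m
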