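import Pool.Agent.Lib.P5m.Wsm
import Pool.Agent.Lib.P5m.Oper

/-!
# The entries of the value on block weighted shifts with one coupling letter

`Uc`: the letters `k ≠ 0, t` (`t = Fin.last r`) have diagonal `2 × 2` blocks `w k i, v k i`, the
letter `t` has in addition the entry `ν i` at `(0, 1)`, and the letter `0` is an arbitrary
`2 × 2` block `x00, x01, x10, x11`.

PROOF. For a word `σ` the product over the positions is `P * X * Q` where `P` is the product of the
letters before `0`, `Q` of those after `0` (split the list at the position `σ.symm 0`, as in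
`Pool.Agent.P5e96.ofFn_split`). `P, Q` are upper triangular (`(1, 0)` entry zero), their diagonal
entries are the products of the diagonal entries (`w` for `(0, 0)`, `v` for `(1, 1)`), and the
entry `(0, 1)` is zero if `t` does not occur in the list; if `t` occurs, list `= L₁, t, L₂`, it is
`(∏_{L₁} w) * ν (at t) * (∏_{L₂} v)`. All matrices of the letter `k` are taken at the argument
`i + pre σ a k`. Then
* `(1, 0)`: `P 1 1 * x10 * Q 0 0` (weights `v` before `0` and `w` after it; this is `T21 α a w v`);
* `(0, 0)`: `P 0 0 * x00 * Q 0 0 + P 0 1 * x10 * Q 0 0`, the second term is nonzero only if `t` is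
  before `0`; the weights are `w` before `t`, `ν` at `t`, `v` between `t` and `0`, `w` after `0`:
  `L11`;
* `(1, 1)`: `P 1 1 * x11 * Q 1 1 + P 1 1 * x10 * Q 0 1`: `L22`;
* `(0, 1)`: `P 0 0 * x01 * Q 1 1 + P 0 0 * x00 * Q 0 1 + P 0 1 * x11 * Q 1 1 + P 0 1 * x10 * Q 0 1`,
  the last term is zero because `t` cannot be both before and after `0`; the first term gives
  `T21 α a v w x01`.
Every product of numbers over the positions is reindexed as a product over the letters
(`Finset.prod` over `k`, `k = σ t`), see the proof of `mval_ws`.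
A convenient way: an induction over lists for the general statement: for a list of upper triangular
`2 × 2` matrices the entries of the product are as described; `List.prod_ofFn`.
-/

open Finset Matrix

namespace Pool.Agent.P5m

variable {r : ℕ} {K : Type*} [Field K] {l : ℕ}

/-- The block weights of a coupled pair. -/
def Uc (w v : Fin (r + 1) → ZMod l → K) (ν x00 x01 x10 x11 : ZMod l → K) (k : Fin (r + 1))
    (i : ZMod l) : Matrix (Fin 2) (Fin 2) K :=
  if k = 0 then !![x00 i, x01 i; x10 i, x11 i]
  else !![w k i, if k = Fin.last r then ν i else 0; 0, v k i]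

namespace Ent2Aux

theorem mul2 (A B : Matrix (Fin 2) (Fin 2) K) (x y : Fin 2) :
    (A * B) x y = A x 0 * B 0 y + A x 1 * B 1 y := by
  rw [Matrix.mul_apply, Fin.sum_univ_two]

theorem cons (n : ℕ) (M : Fin (n + 1) → Matrix (Fin 2) (Fin 2) K) (x y : Fin 2) :
    (List.ofFn M).prod x y = M 0 x 0 * (List.ofFn fun j => M j.succ).prod 0 y +
      M 0 x 1 * (List.ofFn fun j => M j.succ).prod 1 y := by
  rw [List.ofFn_succ, List.prod_cons, mul2]

theorem up (n : ℕ) : ∀ M : Fin n → Matrix (Fin 2) (Fin 2) K, (∀ j, M j 1 0 = 0) →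
    (List.ofFn M).prod 1 0 = 0 ∧ (List.ofFn M).prod 0 0 = ∏ j, M j 0 0 ∧
      (List.ofFn M).prod 1 1 = ∏ j, M j 1 1 := by
  induction n with
  | zero =>
    intro M _
    simp
  | succ n ih =>
    intro M h
    obtain ⟨h1, h2, h3⟩ := ih (fun j => M j.succ) fun j => h j.succ
    refine ⟨?_, ?_, ?_⟩
    · rw [cons, h, h1, zero_mul, mul_zero, add_zero]
    · rw [cons, h1, h2, mul_zero, add_zero, Fin.prod_univ_succ]
    · rw [cons, h, h3, zero_mul, zero_add, Fin.prod_univ_succ]

theorem p10 (n : ℕ) : ∀ (M : Fin n → Matrix (Fin 2) (Fin 2) K) (s : Fin n),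
    (∀ j, j ≠ s → M j 1 0 = 0) → (List.ofFn M).prod 1 0 =
      ∏ j, (if j = s then M j 1 0 else if j < s then M j 1 1 else M j 0 0) := by
  induction n with
  | zero =>
    intro M s
    exact s.elim0
  | succ n ih =>
    intro M s h
    rw [cons, Fin.prod_univ_succ]
    refine Fin.cases ?_ (fun s' => ?_) s h
    · intro h
      obtain ⟨h1, h2, -⟩ := up n (fun j => M j.succ) fun j => h j.succ (Fin.succ_ne_zero j)
      rw [h1, h2, mul_zero, add_zero, if_pos rfl]
      refine congrArg (M 0 1 0 * ·) (prod_congr rfl fun j _ => ?_)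
      rw [if_neg (Fin.succ_ne_zero j), if_neg (Fin.not_lt_zero _)]
    · intro h
      have h0 := h 0 (Fin.succ_ne_zero s').symm
      rw [h0, zero_mul, zero_add, if_neg (Fin.succ_ne_zero s').symm, if_pos (Fin.succ_pos s'),
        ih (fun j => M j.succ) s' fun j hj => h j.succ fun h' => hj (Fin.succ_injective _ h')]
      congr 1
      refine prod_congr rfl fun j _ => ?_
      simp only [Fin.succ_inj, Fin.succ_lt_succ_iff]

theorem diag (n : ℕ) : ∀ (M : Fin n → Matrix (Fin 2) (Fin 2) K) (s : Fin n),
    (∀ j, j ≠ s → M j 1 0 = 0) → (∀ j, j ≠ s → M j 0 1 = 0) →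
    (List.ofFn M).prod 0 0 = ∏ j, M j 0 0 ∧ (List.ofFn M).prod 1 1 = ∏ j, M j 1 1 := by
  induction n with
  | zero =>
    intro M s
    exact s.elim0
  | succ n ih =>
    intro M s h h'
    rw [cons, cons, Fin.prod_univ_succ, Fin.prod_univ_succ]
    revert h h'
    refine Fin.cases ?_ (fun s' => ?_) s
    · intro h h'
      obtain ⟨h1, h2, h3⟩ := up n (fun j => M j.succ) fun j => h j.succ (Fin.succ_ne_zero j)
      have h4 : (List.ofFn fun j => M j.succ).prod 0 1 = 0 := by
        have h5 : ∀ m, ∀ N : Fin m → Matrix (Fin 2) (Fin 2) K, (∀ j, N j 0 1 = 0) →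
            (List.ofFn N).prod 0 1 = 0 := by
          intro m
          induction m with
          | zero =>
            intro N _
            simp
          | succ m ih =>
            intro N hN
            rw [cons, hN, ih _ fun j => hN j.succ]
            ring
        exact h5 n _ fun j => h' j.succ (Fin.succ_ne_zero j)
      rw [h1, h2, h3, h4]
      constructor <;> ring
    · intro h h'
      obtain ⟨h1, h2⟩ := ih (fun j => M j.succ) s'
        (fun j hj => h j.succ fun e => hj (Fin.succ_injective _ e))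
        (fun j hj => h' j.succ fun e => hj (Fin.succ_injective _ e))
      rw [h1, h2, h 0 (Fin.succ_ne_zero s').symm, h' 0 (Fin.succ_ne_zero s').symm]
      constructor <;> ring

theorem p01u (n : ℕ) : ∀ (M : Fin n → Matrix (Fin 2) (Fin 2) K) (t : Fin n),
    (∀ j, M j 1 0 = 0) → (∀ j, j ≠ t → M j 0 1 = 0) → (List.ofFn M).prod 0 1 =
      ∏ j, (if j = t then M j 0 1 else if j < t then M j 0 0 else M j 1 1) := by
  induction n with
  | zero =>
    intro M s
    exact s.elim0
  | succ n ih =>
    intro M t h h'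
    rw [cons, Fin.prod_univ_succ]
    revert h'
    refine Fin.cases ?_ (fun t' => ?_) t
    · intro h'
      obtain ⟨h1, h2, h3⟩ := up n (fun j => M j.succ) fun j => h j.succ
      have h4 : (List.ofFn fun j => M j.succ).prod 0 1 = 0 := by
        have h5 : ∀ m, ∀ N : Fin m → Matrix (Fin 2) (Fin 2) K, (∀ j, N j 0 1 = 0) →
            (List.ofFn N).prod 0 1 = 0 := by
          intro m
          induction m with
          | zero =>
            intro N _
            simp
          | succ m ih =>
            intro N hN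
            rw [cons, hN, ih _ fun j => hN j.succ]
            ring
        exact h5 n _ fun j => h' j.succ (Fin.succ_ne_zero j)
      rw [h4, h3, mul_zero, zero_add, if_pos rfl]
      refine congrArg (M 0 0 1 * ·) (prod_congr rfl fun j _ => ?_)
      rw [if_neg (Fin.succ_ne_zero j), if_neg (Fin.not_lt_zero _)]
    · intro h'
      rw [h' 0 (Fin.succ_ne_zero t').symm, zero_mul, add_zero,
        if_neg (Fin.succ_ne_zero t').symm, if_pos (Fin.succ_pos t'),
        ih (fun j => M j.succ) t' (fun j => h j.succ)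
          fun j hj => h' j.succ fun e => hj (Fin.succ_injective _ e)]
      congr 1
      refine prod_congr rfl fun j _ => ?_
      simp only [Fin.succ_inj, Fin.succ_lt_succ_iff]

theorem p00 (n : ℕ) : ∀ (M : Fin n → Matrix (Fin 2) (Fin 2) K) (s t : Fin n), s ≠ t →
    (∀ j, j ≠ s → M j 1 0 = 0) → (∀ j, j ≠ s → j ≠ t → M j 0 1 = 0) →
    (List.ofFn M).prod 0 0 = ∏ j, M j 0 0 + (if t < s then
      ∏ j, (if j = s then M j 1 0 else if j = t then M j 0 1 else
        if t < j ∧ j < s then M j 1 1 else M j 0 0) else 0) := by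
  induction n with
  | zero =>
    intro M s
    exact s.elim0
  | succ n ih =>
    intro M s t hst h h'
    rw [cons, Fin.prod_univ_succ, Fin.prod_univ_succ]
    revert hst h h'
    refine Fin.cases ?_ (fun s' => ?_) s
    · intro hst h h'
      obtain ⟨h1, h2, -⟩ := up n (fun j => M j.succ) fun j => h j.succ (Fin.succ_ne_zero j)
      rw [h1, h2, if_neg (Fin.not_lt_zero _)]
      ring
    · refine Fin.cases ?_ (fun t' => ?_) t
      · intro hst h h'
        have hd := diag n (fun j => M j.succ) s'
          (fun j hj => h j.succ fun e => hj (Fin.succ_injective _ e))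
          (fun j hj => h' j.succ (fun e => hj (Fin.succ_injective _ e)) (Fin.succ_ne_zero j))
        rw [hd.1, p10 n (fun j => M j.succ) s'
          (fun j hj => h j.succ fun e => hj (Fin.succ_injective _ e)),
          if_pos (Fin.succ_pos s'), if_neg (Fin.succ_ne_zero s').symm, if_pos rfl]
        congr 2
        refine prod_congr rfl fun j _ => ?_
        simp only [Fin.succ_inj, Fin.succ_lt_succ_iff, Fin.succ_ne_zero, if_false, Fin.succ_pos,
          true_and]
      · intro hst h h'
        have hst' : s' ≠ t' := fun e => hst (by rw [e])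
        rw [h' 0 (Fin.succ_ne_zero s').symm (Fin.succ_ne_zero t').symm, zero_mul, add_zero,
          ih (fun j => M j.succ) s' t' hst'
            (fun j hj => h j.succ fun e => hj (Fin.succ_injective _ e))
            (fun j hj hj' => h' j.succ (fun e => hj (Fin.succ_injective _ e))
              fun e => hj' (Fin.succ_injective _ e)),
          if_neg (Fin.succ_ne_zero s').symm, if_neg (Fin.succ_ne_zero t').symm,
          if_neg (fun e : t'.succ < 0 ∧ (0 : Fin (n + 1)) < s'.succ => Fin.not_lt_zero _ e.1),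
          mul_add]
        simp only [Fin.succ_inj, Fin.succ_lt_succ_iff]
        congr 1
        split_ifs
        · rfl
        · exact mul_zero _

theorem p11 (n : ℕ) : ∀ (M : Fin n → Matrix (Fin 2) (Fin 2) K) (s t : Fin n), s ≠ t →
    (∀ j, j ≠ s → M j 1 0 = 0) → (∀ j, j ≠ s → j ≠ t → M j 0 1 = 0) →
    (List.ofFn M).prod 1 1 = ∏ j, M j 1 1 + (if s < t then
      ∏ j, (if j = s then M j 1 0 else if j = t then M j 0 1 else
        if s < j ∧ j < t then M j 0 0 else M j 1 1) else 0) := by
  induction n with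
  | zero =>
    intro M s
    exact s.elim0
  | succ n ih =>
    intro M s t hst h h'
    rw [cons, Fin.prod_univ_succ, Fin.prod_univ_succ]
    revert hst h h'
    refine Fin.cases ?_ (fun s' => ?_) s
    · refine Fin.cases ?_ (fun t' => ?_) t
      · intro hst
        exact absurd rfl hst
      · intro hst h h'
        obtain ⟨h1, h2, h3⟩ := up n (fun j => M j.succ) fun j => h j.succ (Fin.succ_ne_zero j)
        rw [h3, p01u n (fun j => M j.succ) t' (fun j => h j.succ (Fin.succ_ne_zero j))
          (fun j hj => h' j.succ (Fin.succ_ne_zero j) fun e => hj (Fin.succ_injective _ e)),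
          if_pos (Fin.succ_pos t'), if_pos rfl, add_comm]
        congr 2
        refine prod_congr rfl fun j _ => ?_
        simp only [Fin.succ_inj, Fin.succ_lt_succ_iff, Fin.succ_ne_zero, if_false, Fin.succ_pos,
          true_and]
    · refine Fin.cases ?_ (fun t' => ?_) t
      · intro hst h h'
        have hd := diag n (fun j => M j.succ) s'
          (fun j hj => h j.succ fun e => hj (Fin.succ_injective _ e))
          (fun j hj => h' j.succ (fun e => hj (Fin.succ_injective _ e)) (Fin.succ_ne_zero j))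
        rw [hd.2, h 0 (Fin.succ_ne_zero s').symm, if_neg (Fin.not_lt_zero _)]
        ring
      · intro hst h h'
        have hst' : s' ≠ t' := fun e => hst (by rw [e])
        rw [h 0 (Fin.succ_ne_zero s').symm, zero_mul, zero_add,
          ih (fun j => M j.succ) s' t' hst'
            (fun j hj => h j.succ fun e => hj (Fin.succ_injective _ e))
            (fun j hj hj' => h' j.succ (fun e => hj (Fin.succ_injective _ e))
              fun e => hj' (Fin.succ_injective _ e)),
          if_neg (Fin.succ_ne_zero s').symm, if_neg (Fin.succ_ne_zero t').symm,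
          if_neg (fun e : s'.succ < 0 ∧ (0 : Fin (n + 1)) < t'.succ => Fin.not_lt_zero _ e.1),
          mul_add]
        simp only [Fin.succ_inj, Fin.succ_lt_succ_iff]
        congr 1
        split_ifs
        · rfl
        · exact mul_zero _

theorem p11e (n : ℕ) : ∀ (M M' : Fin n → Matrix (Fin 2) (Fin 2) K) (s : Fin n),
    (∀ j, j ≠ s → M j = M' j) → (∀ j, j ≠ s → M j 1 0 = 0) → M s 1 0 = M' s 1 0 →
    M s 1 1 = M' s 1 1 → (List.ofFn M).prod 1 1 = (List.ofFn M').prod 1 1 := by
  induction n with
  | zero =>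
    intro M M' s
    exact s.elim0
  | succ n ih =>
    intro M M' s
    rw [cons, cons]
    refine Fin.cases ?_ (fun s' => ?_) s
    · intro h h0 h1 h2
      rw [h1, h2]
      have e : (fun j : Fin n => M j.succ) = fun j => M' j.succ := by
        funext j
        exact h j.succ (Fin.succ_ne_zero j)
      rw [e]
    · intro h h0 h1 h2
      rw [← h 0 (Fin.succ_ne_zero s').symm, h0 0 (Fin.succ_ne_zero s').symm,
        ih (fun j => M j.succ) (fun j => M' j.succ) s'
          (fun j hj => h j.succ fun e => hj (Fin.succ_injective _ e))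
          (fun j hj => h0 j.succ fun e => hj (Fin.succ_injective _ e)) h1 h2]
      ring

theorem p01 (n : ℕ) : ∀ (M M' : Fin n → Matrix (Fin 2) (Fin 2) K) (s : Fin n),
    (∀ j, j ≠ s → M j = M' j) → (∀ j, j ≠ s → M j 1 0 = 0) → M s 0 0 = M' s 0 0 →
    M s 1 0 = M' s 1 0 → M s 1 1 = M' s 1 1 →
    (List.ofFn M).prod 0 1 = (∏ j, (if j = s then M j 0 1 - M' j 0 1 else
      if j < s then M j 0 0 else M j 1 1)) + (List.ofFn M').prod 0 1 := by
  induction n with
  | zero =>
    intro M M' s
    exact s.elim0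
  | succ n ih =>
    intro M M' s
    rw [cons, cons, Fin.prod_univ_succ]
    refine Fin.cases ?_ (fun s' => ?_) s
    · intro h h0 h1 h2 h3
      obtain ⟨-, -, h4⟩ := up n (fun j => M j.succ) fun j => h0 j.succ (Fin.succ_ne_zero j)
      have e : (fun j : Fin n => M j.succ) = fun j => M' j.succ := by
        funext j
        exact h j.succ (Fin.succ_ne_zero j)
      rw [← e, h4, h1, if_pos rfl]
      have e2 : ∏ j : Fin n, (if j.succ = 0 then M j.succ 0 1 - M' j.succ 0 1 else
          if j.succ < 0 then M j.succ 0 0 else M j.succ 1 1) = ∏ j : Fin n, M j.succ 1 1 := by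
        refine prod_congr rfl fun j _ => ?_
        rw [if_neg (Fin.succ_ne_zero j), if_neg (Fin.not_lt_zero _)]
      rw [e2]
      ring
    · intro h h0 h1 h2 h3
      have e0 := h 0 (Fin.succ_ne_zero s').symm
      have e1 := ih (fun j => M j.succ) (fun j => M' j.succ) s'
          (fun j hj => h j.succ fun e => hj (Fin.succ_injective _ e))
          (fun j hj => h0 j.succ fun e => hj (Fin.succ_injective _ e)) h1 h2 h3
      have e2 := p11e n (fun j => M j.succ) (fun j => M' j.succ) s'
          (fun j hj => h j.succ fun e => hj (Fin.succ_injective _ e))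
          (fun j hj => h0 j.succ fun e => hj (Fin.succ_injective _ e)) h2 h3
      rw [← e0, e1, e2, if_neg (Fin.succ_ne_zero s').symm, if_pos (Fin.succ_pos s')]
      simp only [Fin.succ_inj, Fin.succ_lt_succ_iff]
      ring

theorem Uc_zero (w v : Fin (r + 1) → ZMod l → K) (ν x00 x01 x10 x11 : ZMod l → K)
    (i : ZMod l) : Uc w v ν x00 x01 x10 x11 0 i = !![x00 i, x01 i; x10 i, x11 i] := by
  unfold Uc
  rw [if_pos rfl]

theorem Uc_ne (w v : Fin (r + 1) → ZMod l → K) (ν x00 x01 x10 x11 : ZMod l → K)
    {k : Fin (r + 1)} (hk : k ≠ 0) (i : ZMod l) : Uc w v ν x00 x01 x10 x11 k i =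
      !![w k i, if k = Fin.last r then ν i else 0; 0, v k i] := by
  unfold Uc
  rw [if_neg hk]

theorem ne_of {σ : Equiv.Perm (Fin (r + 1))} {j k : Fin (r + 1)} (h : j ≠ σ.symm k) :
    σ j ≠ k := fun e => h (by rw [← e, Equiv.symm_apply_apply])

theorem PsiM_apply (α : Equiv.Perm (Fin (r + 1)) → K) (a : Fin (r + 1) → ZMod l)
    (U : Fin (r + 1) → ZMod l → Matrix (Fin 2) (Fin 2) K) (i : ZMod l) (x y : Fin 2) :
    PsiM α a U i x y = ∑ σ, α σ * (List.ofFn fun t => U (σ t) (i + pre σ a (σ t))).prod x y := by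
  unfold PsiM
  rw [Matrix.sum_apply]
  rfl

end Ent2Aux

open Ent2Aux

theorem PsiM_10 (α : Equiv.Perm (Fin (r + 1)) → K) (a : Fin (r + 1) → ZMod l)
    (w v : Fin (r + 1) → ZMod l → K) (hr : Fin.last r ≠ 0) (ν x00 x01 x10 x11 : ZMod l → K)
    (i : ZMod l) :
    PsiM α a (Uc w v ν x00 x01 x10 x11) i 1 0 = T21 α a w v x10 i := by
  rw [PsiM_apply]
  unfold T21 PsiG
  refine sum_congr rfl fun σ _ => ?_
  congr 1
  rw [p10 (r + 1) _ (σ.symm 0) (fun j hj => by simp [Uc_ne _ _ _ _ _ _ _ (ne_of hj)]),
    ← Equiv.prod_comp σ (fun k => W21 w v x10 σ k (i + pre σ a k))]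
  refine prod_congr rfl fun j _ => ?_
  by_cases hj : j = σ.symm 0
  · subst hj
    simp [Uc_zero, W21]
  · have hk := ne_of hj
    simp only [if_neg hj, W21, if_neg hk, Equiv.symm_apply_apply, Uc_ne _ _ _ _ _ _ _ hk]
    split_ifs <;> simp

theorem PsiM_00 (α : Equiv.Perm (Fin (r + 1)) → K) (a : Fin (r + 1) → ZMod l)
    (w v : Fin (r + 1) → ZMod l → K) (hr : Fin.last r ≠ 0) (ν x00 x01 x10 x11 : ZMod l → K)
    (i : ZMod l) :
    PsiM α a (Uc w v ν x00 x01 x10 x11) i 0 0 =
      Psi α a (Function.update w 0 x00) i + L11 α a w v ν x10 i := by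
  rw [PsiM_apply]
  unfold Psi L11 PsiG
  rw [← sum_add_distrib]
  refine sum_congr rfl fun σ _ => ?_
  have hst : σ.symm 0 ≠ σ.symm (Fin.last r) := fun e => hr (σ.symm.injective e).symm
  rw [p00 (r + 1) _ (σ.symm 0) (σ.symm (Fin.last r)) hst
    (fun j hj => by simp [Uc_ne _ _ _ _ _ _ _ (ne_of hj)])
    (fun j hj hj' => by simp [Uc_ne _ _ _ _ _ _ _ (ne_of hj), ne_of hj']), mul_add]
  congr 1
  · congr 1
    rw [← Equiv.prod_comp σ (fun k => Function.update w 0 x00 k (i + pre σ a k))]
    refine prod_congr rfl fun j _ => ?_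
    by_cases hk : σ j = 0
    · rw [hk]
      simp [Uc_zero]
    · simp [Uc_ne _ _ _ _ _ _ _ hk, hk]
  · beta_reduce
    split_ifs with hlt
    · congr 1
      rw [← Equiv.prod_comp σ (fun k => W11 w v ν x10 σ k (i + pre σ a k))]
      refine prod_congr rfl fun j _ => ?_
      by_cases hj : j = σ.symm 0
      · subst hj
        simp [Uc_zero, W11]
      · have hk := ne_of hj
        by_cases hj' : j = σ.symm (Fin.last r)
        · subst hj'
          simp [Uc_ne _ _ _ _ _ _ _ hr, W11, hr, hst.symm]
        · have hk' := ne_of hj'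
          simp only [if_neg hj, if_neg hj', W11, if_neg hk, if_neg hk', Equiv.symm_apply_apply,
            Uc_ne _ _ _ _ _ _ _ hk]
          split_ifs <;> simp
    · rw [mul_zero, zero_mul]

theorem PsiM_11 (α : Equiv.Perm (Fin (r + 1)) → K) (a : Fin (r + 1) → ZMod l)
    (w v : Fin (r + 1) → ZMod l → K) (hr : Fin.last r ≠ 0) (ν x00 x01 x10 x11 : ZMod l → K)
    (i : ZMod l) :
    PsiM α a (Uc w v ν x00 x01 x10 x11) i 1 1 =
      Psi α a (Function.update v 0 x11) i + L22 α a w v ν x10 i := by
  rw [PsiM_apply]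
  unfold Psi L22 PsiG
  rw [← sum_add_distrib]
  refine sum_congr rfl fun σ _ => ?_
  have hst : σ.symm 0 ≠ σ.symm (Fin.last r) := fun e => hr (σ.symm.injective e).symm
  rw [p11 (r + 1) _ (σ.symm 0) (σ.symm (Fin.last r)) hst
    (fun j hj => by simp [Uc_ne _ _ _ _ _ _ _ (ne_of hj)])
    (fun j hj hj' => by simp [Uc_ne _ _ _ _ _ _ _ (ne_of hj), ne_of hj']), mul_add]
  congr 1
  · congr 1
    rw [← Equiv.prod_comp σ (fun k => Function.update v 0 x11 k (i + pre σ a k))]
    refine prod_congr rfl fun j _ => ?_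
    by_cases hk : σ j = 0
    · rw [hk]
      simp [Uc_zero]
    · simp [Uc_ne _ _ _ _ _ _ _ hk, hk]
  · beta_reduce
    split_ifs with hlt
    · congr 1
      rw [← Equiv.prod_comp σ (fun k => W22 w v ν x10 σ k (i + pre σ a k))]
      refine prod_congr rfl fun j _ => ?_
      by_cases hj : j = σ.symm 0
      · subst hj
        simp [Uc_zero, W22]
      · have hk := ne_of hj
        by_cases hj' : j = σ.symm (Fin.last r)
        · subst hj'
          simp [Uc_ne _ _ _ _ _ _ _ hr, W22, hr, hst.symm]
        · have hk' := ne_of hj'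
          simp only [if_neg hj, if_neg hj', W22, if_neg hk, if_neg hk', Equiv.symm_apply_apply,
            Uc_ne _ _ _ _ _ _ _ hk]
          split_ifs <;> simp
    · rw [mul_zero, zero_mul]

/-- The entry `(0, 1)` is `T21 α a v w x01` plus a term which does not depend on `x01`. -/
theorem PsiM_01 (α : Equiv.Perm (Fin (r + 1)) → K) (a : Fin (r + 1) → ZMod l)
    (w v : Fin (r + 1) → ZMod l → K) (hr : Fin.last r ≠ 0) (ν x00 x10 x11 : ZMod l → K) :
    ∃ R : ZMod l → K, ∀ (x01 : ZMod l → K) (i : ZMod l),
      PsiM α a (Uc w v ν x00 x01 x10 x11) i 0 1 = T21 α a v w x01 i + R i := by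
  refine ⟨fun i => PsiM α a (Uc w v ν x00 0 x10 x11) i 0 1, fun x01 i => ?_⟩
  beta_reduce
  rw [PsiM_apply, PsiM_apply]
  unfold T21 PsiG
  rw [← sum_add_distrib]
  refine sum_congr rfl fun σ _ => ?_
  rw [← mul_add]
  congr 1
  rw [p01 (r + 1) (fun t => Uc w v ν x00 x01 x10 x11 (σ t) (i + pre σ a (σ t)))
    (fun t => Uc w v ν x00 0 x10 x11 (σ t) (i + pre σ a (σ t))) (σ.symm 0)
    (fun j hj => by rw [Uc_ne _ _ _ _ _ _ _ (ne_of hj), Uc_ne _ _ _ _ _ _ _ (ne_of hj)])
    (fun j hj => by simp [Uc_ne _ _ _ _ _ _ _ (ne_of hj)])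
    (by simp [Uc_zero]) (by simp [Uc_zero]) (by simp [Uc_zero])]
  congr 1
  rw [← Equiv.prod_comp σ (fun k => W21 v w x01 σ k (i + pre σ a k))]
  refine prod_congr rfl fun j _ => ?_
  by_cases hj : j = σ.symm 0
  · subst hj
    simp [Uc_zero, W21]
  · have hk := ne_of hj
    simp only [if_neg hj, W21, if_neg hk, Equiv.symm_apply_apply, Uc_ne _ _ _ _ _ _ _ hk]
    split_ifs <;> simp

end Pool.Agent.P5m
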