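import Pool.Agent.Lib.P5m.Contr
import Pool.Agent.Lib.P5m.AttOne
import Pool.Agent.Lib.P5m.Ent2

/-!
# Non-constant diagonal matrices of size `2 l` are attainable in the singular case

PROOF of `exists_split`. `D` is not constant: `D p ≠ D q`. Start with any bijection
`e : Fin 2 × ZMod l ≃ Fin (2 * l)` and compose it with a permutation of `Fin (2 * l)` sending
`e (0, i₀)` to `p` and `e (1, i₀)` to `q` (two swaps, or
`Equiv.Perm` extending an injection of a two element set).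

PROOF of `att_pt2`. Let `D₁ i = D (e (0, i))`, `D₂ i = D (e (1, i))`, `D₁ i₀ ≠ D₂ i₀`, and
`δ = Pi.single i₀ 1`, `S j = G1 α a w v Y ξ j * y i₀ + G2 α a w v y ξ j * Y i₀`. Choose `ν` with
`∑ ν j * S j = Y i₀ * ∑ y i * D₂ i + y i₀ * ∑ Y i * D₁ i` (possible: some `S j ≠ 0`). Let
`c = (∑ ν j * G1 α a w v Y ξ j - ∑ Y i * D₁ i) / Y i₀`. Then
`∑ Y i * (D₁ i + c δ i - L11 ν ξ i) = 0` by `pair1`, and
`∑ y i * (D₂ i - c δ i - L22 ν ξ i) = 0` by `pair2` (multiply by `Y i₀`: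
`Y i₀ ∑ y D₂ - y i₀ (∑ ν G1 - ∑ Y D₁) - Y i₀ ∑ ν G2 = 0`). By `solve_LK` (for `w` with `Y`, for `v`
with `y`) there are `x00`, `x11` with `Psi (update w 0 x00) + L11 = D₁ + c δ` and
`Psi (update v 0 x11) + L22 = D₂ - c δ`. `T21 α a v w` is injective, hence surjective
(`LinearMap.injective_iff_surjective`; it is linear, `PsiG_lin`), so by `PsiM_01` there is `x01`
such that the entry `(0, 1)` is `z * δ i` with `z = (D₁ i₀ + c) (D₂ i₀ - c) - D₁ i₀ * D₂ i₀`. With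
`Uc w v ν x00 x01 ξ x11` the value is `wsM 0 B` (`∑ a = 0`), `B i = diag (D₁ i, D₂ i)` for `i ≠ i₀`
and `B i₀ = !![p, z; 1, q]`, `p = D₁ i₀ + c`, `q = D₂ i₀ - c`, `z = p q - D₁ i₀ D₂ i₀`. Let
`P = wsM 0 (fun i => if i = i₀ then !![D₁ i₀ - q, D₂ i₀ - q; 1, 1] else 1)`. Then
`wsM 0 B * P = P * diagonal` (check `2 × 2`: `B i₀ * s = s * diag (D₁ i₀, D₂ i₀)` where
`s = !![D₁ i₀ - q, D₂ i₀ - q; 1, 1]`, using `p + q = D₁ i₀ + D₂ i₀`), and `P` is invertible: its
inverse is `wsM 0` of the inverse blocks (`det s = D₁ i₀ - D₂ i₀ ≠ 0`). `att_of_conj` with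
`AttM` from `gmat_wsM` and `mval_wsM` (`C q` for `q ≥ r + 1` is arbitrary, for example `0`;
`C k = wsM (a k) (Uc ... k)` for `k < r + 1`).

PROOF of `att_double`: `points`, `contr`, `exists_split`, `att_pt2`.
-/

open Finset Matrix

namespace Pool.Agent.P5m

variable {r : ℕ} {K : Type*} [Field K] {l : ℕ}

theorem exists_split [NeZero l] (D : Fin (2 * l) → K) (hD : ∃ p q, D p ≠ D q) (i₀ : ZMod l) :
    ∃ e : Fin 2 × ZMod l ≃ Fin (2 * l), D (e (0, i₀)) ≠ D (e (1, i₀)) := by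
  obtain ⟨p, q, hpq⟩ := hD
  have hne : p ≠ q := fun h => hpq (by rw [h])
  have hc : Fintype.card (Fin 2 × ZMod l) = Fintype.card (Fin (2 * l)) := by
    rw [Fintype.card_prod, Fintype.card_fin, Fintype.card_fin, ZMod.card]
  let e₀ : Fin 2 × ZMod l ≃ Fin (2 * l) := Fintype.equivOfCardEq hc
  have h01 : ((0 : Fin 2), i₀) ≠ ((1 : Fin 2), i₀) := by
    intro h
    have := congrArg Prod.fst h
    simp at this
  let e₁ : Fin 2 × ZMod l ≃ Fin (2 * l) := e₀.trans (Equiv.swap (e₀ (0, i₀)) p)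
  have h1 : e₁ (0, i₀) = p := Equiv.swap_apply_left _ _
  have h2 : e₁ (1, i₀) ≠ p := by
    rw [← h1]
    exact fun h => h01 (e₁.injective h).symm
  let e₂ : Fin 2 × ZMod l ≃ Fin (2 * l) := e₁.trans (Equiv.swap (e₁ (1, i₀)) q)
  have h3 : e₂ (1, i₀) = q := Equiv.swap_apply_left _ _
  have h4 : e₂ (0, i₀) = p := by
    show Equiv.swap (e₁ (1, i₀)) q (e₁ (0, i₀)) = p
    rw [h1]
    exact Equiv.swap_apply_of_ne_of_ne h2.symm hne
  exact ⟨e₂, by rw [h3, h4]; exact hpq⟩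

namespace AttDoubleAux

theorem wsM_zero [NeZero l] (U : ZMod l → Matrix (Fin 2) (Fin 2) K) :
    wsM 0 U = Matrix.blockDiagonal U := by
  ext ⟨x, i⟩ ⟨y, j⟩
  simp only [wsM, Matrix.blockDiagonal_apply, add_zero, eq_comm]

theorem blk (p q z d₁ d₂ : K) (h : p + q = d₁ + d₂) (hz : z = p * q - d₁ * d₂) :
    !![p, z; 1, q] * !![d₁ - q, d₂ - q; 1, 1] =
      !![d₁ - q, d₂ - q; 1, 1] * Matrix.diagonal ![d₁, d₂] := by
  subst hz
  have hq : q = d₁ + d₂ - p := by linear_combination h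
  subst hq
  ext i j
  fin_cases i <;> fin_cases j <;> simp [Matrix.mul_apply, Fin.sum_univ_two] <;> ring

end AttDoubleAux

open AttDoubleAux in
theorem att_pt2 [NeZero l] (α : Equiv.Perm (Fin (r + 1)) → K) (a : Fin (r + 1) → ZMod l)
    (ha : ∑ k, a k = 0) (hr : Fin.last r ≠ 0) (w v : Fin (r + 1) → ZMod l → K)
    (Y y ξ : ZMod l → K) (i₀ : ZMod l) (h : Pt2 α a w v Y y ξ i₀)
    (D : Fin (2 * l) → K) (e : Fin 2 × ZMod l ≃ Fin (2 * l))
    (he : D (e (0, i₀)) ≠ D (e (1, i₀))) : Att α (2 * l) D := by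
  -- the data
  set D₁ : ZMod l → K := fun i => D (e (0, i)) with hD₁
  set D₂ : ZMod l → K := fun i => D (e (1, i)) with hD₂
  have he' : D₁ i₀ ≠ D₂ i₀ := he
  obtain ⟨j₀, hj₀⟩ := h.hS
  set s₁ := ∑ i, Y i * D₁ i with hs₁
  set s₂ := ∑ i, y i * D₂ i with hs₂
  set ν : ZMod l → K := Pi.single j₀ ((Y i₀ * s₂ + y i₀ * s₁) /
    (G1 α a w v Y ξ j₀ * y i₀ + G2 α a w v y ξ j₀ * Y i₀)) with hν
  have hsum : ∀ F : ZMod l → K, ∑ j, ν j * F j = (Y i₀ * s₂ + y i₀ * s₁) /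
    (G1 α a w v Y ξ j₀ * y i₀ + G2 α a w v y ξ j₀ * Y i₀) * F j₀ := by
    intro F
    rw [Finset.sum_eq_single j₀]
    · rw [hν, Pi.single_eq_same]
    · intro j _ hj
      rw [hν, Pi.single_eq_of_ne hj, zero_mul]
    · intro hj
      exact absurd (Finset.mem_univ _) hj
  set g₁ := ∑ j, ν j * G1 α a w v Y ξ j with hg₁
  set g₂ := ∑ j, ν j * G2 α a w v y ξ j with hg₂
  have hg : g₁ * y i₀ + g₂ * Y i₀ = Y i₀ * s₂ + y i₀ * s₁ := by
    rw [hg₁, hg₂, hsum, hsum]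
    linear_combination div_mul_cancel₀ (Y i₀ * s₂ + y i₀ * s₁) hj₀
  have hY := h.nw i₀
  set c := (g₁ - s₁) / Y i₀ with hc
  have hcY : Y i₀ * c = g₁ - s₁ := by
    rw [hc]
    field_simp
  have hδ : ∀ F : ZMod l → K, ∑ i, F i * (c * (Pi.single i₀ 1 : ZMod l → K) i) = F i₀ * c := by
    intro F
    rw [Finset.sum_eq_single i₀]
    · rw [Pi.single_eq_same, mul_one]
    · intro j _ hj
      rw [Pi.single_eq_of_ne hj]
      ring
    · intro hj
      exact absurd (Finset.mem_univ _) hj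
  -- the diagonal entries
  obtain ⟨x00, h00⟩ := solve_LK α a w Y h.nw h.sw
    (fun i => D₁ i + c * (Pi.single i₀ 1 : ZMod l → K) i - L11 α a w v ν ξ i) (by
      simp only [mul_sub, mul_add, Finset.sum_sub_distrib, Finset.sum_add_distrib]
      rw [pair1 α a w v hr, hδ, ← hs₁, ← hg₁, hcY]
      ring)
  obtain ⟨x11, h11⟩ := solve_LK α a v y h.nv h.sv
    (fun i => D₂ i - c * (Pi.single i₀ 1 : ZMod l → K) i - L22 α a w v ν ξ i) (by
      simp only [mul_sub, Finset.sum_sub_distrib]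
      rw [pair2 α a w v hr, hδ, ← hs₂, ← hg₂]
      have h1 : Y i₀ * (s₂ - y i₀ * c - g₂) = 0 := by
        linear_combination (-1 : K) * hg - y i₀ * hcY
      rcases mul_eq_zero.1 h1 with h2 | h2
      · exact absurd h2 hY
      · exact h2)
  -- the corner
  obtain ⟨R, hR⟩ := PsiM_01 α a w v hr ν x00 ξ x11
  set p := D₁ i₀ + c with hp
  set q := D₂ i₀ - c with hq
  set z := p * q - D₁ i₀ * D₂ i₀ with hz
  obtain ⟨x01, h01⟩ := (LinearMap.injective_iff_surjective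
    (f := ContrAux.mkLin (T21 α a v w) (ContrAux.T21_lin α a v w))).1 h.i3
    (fun i => z * (Pi.single i₀ 1 : ZMod l → K) i - R i)
  have h01' : ∀ i, T21 α a v w x01 i = z * (Pi.single i₀ 1 : ZMod l → K) i - R i :=
    fun i => congrFun h01 i
  set U := Uc w v ν x00 x01 ξ x11 with hU
  -- the blocks
  have b00 : ∀ i, PsiM α a U i 0 0 = D₁ i + c * (Pi.single i₀ 1 : ZMod l → K) i := by
    intro i
    rw [hU, PsiM_00 α a w v hr, h00]
    ring
  have b11 : ∀ i, PsiM α a U i 1 1 = D₂ i - c * (Pi.single i₀ 1 : ZMod l → K) i := by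
    intro i
    rw [hU, PsiM_11 α a w v hr, h11]
    ring
  have b10 : ∀ i, PsiM α a U i 1 0 = (Pi.single i₀ 1 : ZMod l → K) i := by
    intro i
    rw [hU, PsiM_10 α a w v hr, h.hξ]
  have b01 : ∀ i, PsiM α a U i 0 1 = z * (Pi.single i₀ 1 : ZMod l → K) i := by
    intro i
    rw [hU, hR, h01']
    ring
  have bi₀ : PsiM α a U i₀ = !![p, z; 1, q] := by
    ext i j
    fin_cases i <;> fin_cases j
    · simp [b00, hp]
    · simp [b01]
    · simp [b10]
    · simp [b11, hq]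
  have bi : ∀ i, i ≠ i₀ → PsiM α a U i = Matrix.diagonal fun x => D (e (x, i)) := by
    intro i hi
    ext x x'
    fin_cases x <;> fin_cases x'
    · simp [b00, hi, hD₁]
    · simp [b01, hi]
    · simp [b10, hi]
    · simp [b11, hi, hD₂]
  -- conclusion
  refine att_of_conj α D e (wsM 0 (PsiM α a U))
    (wsM 0 (fun i => if i = i₀ then !![D₁ i₀ - q, D₂ i₀ - q; 1, 1] else 1)) ?_ ?_ ?_
  · rw [wsM_zero, Matrix.det_blockDiagonal, isUnit_iff_ne_zero]
    refine Finset.prod_ne_zero_iff.2 fun i _ => ?_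
    by_cases hi : i = i₀
    · rw [if_pos hi, Matrix.det_fin_two_of]
      intro h1
      exact he' (by linear_combination h1)
    · rw [if_neg hi, Matrix.det_one]
      exact one_ne_zero
  · have hdiag : (Matrix.diagonal fun i => D (e i)) =
        Matrix.blockDiagonal (fun i : ZMod l => Matrix.diagonal fun x : Fin 2 => D (e (x, i))) := by
      rw [Matrix.blockDiagonal_diagonal]
    rw [hdiag, wsM_zero, wsM_zero, ← Matrix.blockDiagonal_mul, ← Matrix.blockDiagonal_mul]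
    congr 1
    funext i
    by_cases hi : i = i₀
    · subst hi
      rw [if_pos rfl, bi₀, blk p q z (D₁ i) (D₂ i) (by rw [hp, hq]; ring) hz]
      congr 2
      funext x
      fin_cases x <;> rfl
    · rw [if_neg hi, bi i hi, one_mul, mul_one]
  · refine ⟨fun n => if hn : n < r + 1 then wsM (a ⟨n, hn⟩) (U ⟨n, hn⟩) else 0,
      wsM (a 0) (U 0), ?_, ?_⟩
    · intro Z hZ
      refine gmat_wsM α a w v (fun k i => if k = Fin.last r then ν i else 0) h.gw h.gv _ ?_ Z hZ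
      intro k hk
      have hk' : (k : ℕ) < r + 1 := k.2
      simp only [hk', dif_pos, Fin.eta]
      congr 1
      funext i
      simp only [hU, Uc, if_neg hk]
    · have h1 : (fun k : Fin (r + 1) => if k = 0 then wsM (a 0) (U 0) else
          (if hn : (k : ℕ) < r + 1 then wsM (a ⟨k, hn⟩) (U ⟨k, hn⟩) else 0)) =
          fun k => wsM (a k) (U k) := by
        funext k
        by_cases hk : k = 0
        · rw [if_pos hk, hk]
        · rw [if_neg hk, dif_pos k.2]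
      rw [h1, mval_wsM, ha]

theorem att_double [CharZero K] [NeZero l] (hl : l.Prime) (α : Equiv.Perm (Fin (r + 1)) → K)
    (hα : α 1 ≠ 0) (hg : Good l α) (hc : ¬ Cs α) (a b : Fin (r + 1) → ZMod l)
    (hab : Gpt l a b) (hr : Fin.last r ≠ 0)
    (hS : ∀ w : Fin (r + 1) → ZMod l → K, ∃ y, LK α a w y ∧ y ≠ 0)
    (D : Fin (2 * l) → K) (hD : ∃ p q, D p ≠ D q) : Att α (2 * l) D := by
  obtain ⟨w, v, Y, y, h⟩ := points hl α hα hg hc a b hab hr hS
  obtain ⟨v', ξ, i₀, h'⟩ := contr α a b hab hr w v Y y h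
  obtain ⟨e, he⟩ := exists_split D hD i₀
  exact att_pt2 α a hab.sum hr w v' Y y ξ i₀ h' D e he

end Pool.Agent.P5m
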