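import Mathlib

/-!
# Every endomorphism is a direct sum of chains with prescribed diagonal

PROOF of `chains`. Consider `V` as a `K[X]`-module (`Module.AEval K T`, or `Module.AEval'`); it is
finitely generated and torsion (`V` is finite-dimensional), so by
`Module.equiv_directSum_of_isTorsion` it is isomorphic to `⨁ i, K[X] ⧸ (q i)` with `q i = p i ^ e i`,
`p i` irreducible; drop the trivial summands (`e i = 0`), and make `q i` monic, of degree
`d i ≥ 1`. In `K[X] ⧸ (q)`, `q` monic of degree `d`, with scalars `δ 0, ..., δ (d-1)` with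
`∑ δ j = t` where `t = - coeff q (d - 1)`, take the vectors
`v j = ∏_{i < j} (X - δ i)`, `j < d` (monic of degree `j`, so a basis). Then
`X * v j = δ j v j + v (j+1)` for `j + 1 < d`. For `j = d - 1`: `X v (d-1) - δ (d-1) v (d-1)` is the
class of `∏_{i < d} (X - δ i) - q`, a polynomial whose coefficient at `X^(d-1)` is
`- ∑ δ i + t = 0`, so of degree `< d - 1`, so a combination of `v 0, ..., v (d-2)`. So the
coefficient of `v (d-1)` is `δ (d-1)`.
(Any other proof of the structure is fine, for instance by induction on the dimension: a cyclic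
subspace generated by a vector of maximal order has an invariant complement.)

PROOF of `chains_two`. If some `d i ≥ 2` nothing is to do. Otherwise all `d i = 1`: `T` is diagonal
in a basis, with eigenvalues `t i`; as `T` is not scalar there are `i ≠ i'` with `t i ≠ t i'`.
Replace the two chains `i, i'` of length `1` by one chain of length `2` with trace
`t i + t i'`: for `δ 0 + δ 1 = t i + t i'` take the vectors
`u = b i + b i'`, `v = (T - δ 0) u = (t i - δ 0) b i + (t i' - δ 0) b i'`. They are
independent because `t i ≠ t i'`, and `T v - δ 1 v` has the coefficients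
`(t i - δ 0) (t i - δ 1)` and `(t i' - δ 0) (t i' - δ 1)` at `b i`, `b i'`; both are equal to
`δ 0 δ 1 - t i t i'` because `t i - δ 1 = δ 0 - t i'`, ..., so `T v = δ 1 v + (const) u`.
-/

open Finset

namespace Pool.Agent.P5m

/-- A chain structure: lengths `d i`, traces `t i`, and for every choice of diagonal entries with
these traces a basis with the block form described in the header. -/
def IsCh {K V : Type*} [Field K] [AddCommGroup V] [Module K V] (T : V →ₗ[K] V) (k : ℕ)
    (d : Fin k → ℕ) (t : Fin k → K) : Prop :=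
  (∀ i, 1 ≤ d i) ∧ ∀ δ : (i : Fin k) → Fin (d i) → K, (∀ i, ∑ j, δ i j = t i) →
    ∃ b : Module.Basis (Σ i, Fin (d i)) K V,
      (∀ i i' j j', i ≠ i' → b.repr (T (b ⟨i', j'⟩)) ⟨i, j⟩ = 0) ∧
      (∀ i j, b.repr (T (b ⟨i, j⟩)) ⟨i, j⟩ = δ i j) ∧
      ∀ (i : Fin k) (j j' : Fin (d i)), (j' : ℕ) + 1 < j → b.repr (T (b ⟨i, j'⟩)) ⟨i, j⟩ = 0

namespace ChAux

open Polynomial

/-- a decomposition into cyclic subspaces -/
structure Pk {K V : Type*} [Field K] [AddCommGroup V] [Module K V] (T : V →ₗ[K] V)
    (ι : Type) [Fintype ι] (q : ι → K[X]) (x : ι → V) : Prop where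
  monic : ∀ i, (q i).Monic
  deg : ∀ i, 1 ≤ (q i).natDegree
  zero : ∀ i, aeval T (q i) (x i) = 0
  span : ∀ v, ∃ g : ι → K[X], v = ∑ i, aeval T (g i) (x i)
  ind : ∀ g : ι → K[X], ∑ i, aeval T (g i) (x i) = 0 → ∀ i, q i ∣ g i

section

variable {K V : Type*} [Field K] [AddCommGroup V] [Module K V]

lemma Pk.reindex {T : V →ₗ[K] V} {ι κ : Type} [Fintype ι] [Fintype κ] {q : ι → K[X]} {x : ι → V}
    (h : Pk T ι q x) (σ : κ ≃ ι) : Pk T κ (fun i => q (σ i)) (fun i => x (σ i)) where
  monic i := h.monic _
  deg i := h.deg _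
  zero i := h.zero _
  span v := by
    obtain ⟨g, hg⟩ := h.span v
    refine ⟨fun i => g (σ i), ?_⟩
    rw [hg]
    exact (Equiv.sum_comp σ fun i => aeval T (g i) (x i)).symm
  ind g hg i := by
    have h1 : ∑ i, aeval T (g (σ.symm i)) (x i) = 0 := by
      rw [← hg, ← Equiv.sum_comp σ fun i => aeval T (g (σ.symm i)) (x i)]
      simp
    have h2 := h.ind _ h1 (σ i)
    rwa [σ.symm_apply_apply] at h2

/-- the monic polynomials -/
noncomputable def PP (δ : ℕ → K) (j : ℕ) : K[X] := ∏ l ∈ range j, (X - C (δ l))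

lemma PP_monic (δ : ℕ → K) (j : ℕ) : (PP δ j).Monic := monic_prod_of_monic _ _ fun _ _ => monic_X_sub_C _

lemma PP_natDegree (δ : ℕ → K) (j : ℕ) : (PP δ j).natDegree = j := by
  unfold PP
  rw [natDegree_prod_of_monic _ _ fun _ _ => monic_X_sub_C _]
  simp

lemma PP_succ (δ : ℕ → K) (j : ℕ) : PP δ (j + 1) = PP δ j * (X - C (δ j)) := prod_range_succ _ _

lemma PP_coeff (δ : ℕ → K) (j : ℕ) : (PP δ j).coeff j = 1 := by
  have := (PP_monic δ j).coeff_natDegree
  rwa [PP_natDegree] at this

lemma PP_coeff_gt (δ : ℕ → K) {j n : ℕ} (h : j < n) : (PP δ j).coeff n = 0 :=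
  coeff_eq_zero_of_natDegree_lt (by rwa [PP_natDegree])

lemma PP_ind (δ : ℕ → K) : ∀ (n : ℕ) (c : ℕ → K), ∑ j ∈ range n, C (c j) * PP δ j = 0 →
    ∀ j < n, c j = 0 := by
  intro n
  induction n with
  | zero => intro c _ j hj; omega
  | succ n ih =>
    intro c hc j hj
    have h1 : c n = 0 := by
      have h2 := congrArg (fun f => coeff f n) hc
      simp only [finset_sum_coeff, coeff_C_mul, coeff_zero] at h2
      rw [Finset.sum_range_succ, PP_coeff, mul_one] at h2
      rw [Finset.sum_eq_zero fun i hi => by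
        rw [PP_coeff_gt δ (Finset.mem_range.1 hi), mul_zero], zero_add] at h2
      exact h2
    rcases Nat.lt_or_ge j n with h | h
    · rw [Finset.sum_range_succ, h1, C_0, zero_mul, add_zero] at hc
      exact ih c hc j h
    · have : j = n := by omega
      rw [this]
      exact h1

/-- polynomials of small degree are combinations of the monic polynomials -/
lemma span_lt (T : V →ₗ[K] V) (δ : ℕ → K) (x : V) : ∀ (m : ℕ) (f : K[X]), f.degree < m →
    aeval T f x ∈ Submodule.span K {v | ∃ j < m, v = aeval T (PP δ j) x} := by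
  intro m
  induction m with
  | zero =>
    intro f hf
    have h0 : f = 0 := by
      rw [← degree_eq_bot]
      have : f.degree < 0 := by exact_mod_cast hf
      exact Nat.WithBot.lt_zero_iff.1 this
    rw [h0]
    simp
  | succ m ih =>
    intro f hf
    have h1 : (f - C (f.coeff m) * PP δ m).degree < m := by
      rw [degree_lt_iff_coeff_zero]
      intro n hn
      rw [coeff_sub, coeff_C_mul]
      rcases Nat.lt_or_ge m n with h | h
      · rw [PP_coeff_gt δ h, mul_zero, sub_zero]
        exact (degree_lt_iff_coeff_zero f (m + 1)).1 hf n h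
      · have : n = m := by omega
        rw [this, PP_coeff, mul_one, sub_self]
    have h2 := ih _ h1
    have h3 : aeval T f x = aeval T (f - C (f.coeff m) * PP δ m) x +
        f.coeff m • aeval T (PP δ m) x := by
      rw [map_sub, map_mul, aeval_C, LinearMap.sub_apply, Module.End.mul_apply]
      simp
    rw [h3]
    refine Submodule.add_mem _ (Submodule.span_mono ?_ h2)
      (Submodule.smul_mem _ _ (Submodule.subset_span ⟨m, by omega, rfl⟩))
    rintro v ⟨j, hj, rfl⟩
    exact ⟨j, by omega, rfl⟩

end

section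

variable {K V : Type*} [Field K] [AddCommGroup V] [Module K V]

lemma aeval_mul_apply (T : V →ₗ[K] V) (f g : K[X]) (x : V) :
    aeval T (f * g) x = aeval T f (aeval T g x) := by
  rw [map_mul, Module.End.mul_apply]

lemma aeval_sum_apply {ι : Type*} (s : Finset ι) (T : V →ₗ[K] V) (f : ι → K[X]) (x : V) :
    aeval T (∑ i ∈ s, f i) x = ∑ i ∈ s, aeval T (f i) x := by
  rw [map_sum, LinearMap.sum_apply]

lemma aeval_C_mul_apply (T : V →ₗ[K] V) (c : K) (f : K[X]) (x : V) :
    aeval T (C c * f) x = c • aeval T f x := by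
  rw [aeval_mul_apply, aeval_C]
  simp

theorem Pk.isCh {T : V →ₗ[K] V} {k : ℕ} {q : Fin k → K[X]} {x : Fin k → V}
    (h : Pk T (Fin k) q x) :
    IsCh T k (fun i => (q i).natDegree) (fun i => -(q i).coeff ((q i).natDegree - 1)) := by
  classical
  refine ⟨h.deg, fun δ hδ => ?_⟩
  let δ' : Fin k → ℕ → K := fun i l => if hl : l < (q i).natDegree then δ i ⟨l, hl⟩ else 0
  have hδ' : ∀ i (j : Fin (q i).natDegree), δ' i j = δ i j := fun i j => by
    simp only [δ']
    rw [dif_pos j.isLt]
  let w : (Σ i, Fin (q i).natDegree) → V := fun s => aeval T (PP (δ' s.1) (s.2 : ℕ)) (x s.1)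
  -- independence
  have hli : LinearIndependent K w := by
    rw [Fintype.linearIndependent_iff]
    intro c hc s
    let c' : Fin k → ℕ → K := fun i l => if hl : l < (q i).natDegree then c ⟨i, ⟨l, hl⟩⟩ else 0
    have hc' : ∀ i (j : Fin (q i).natDegree), c' i j = c ⟨i, j⟩ := fun i j => by
      simp only [c']
      rw [dif_pos j.isLt]
    let f : Fin k → K[X] := fun i => ∑ j ∈ range (q i).natDegree, C (c' i j) * PP (δ' i) j
    have h1 : ∑ i, aeval T (f i) (x i) = 0 := by
      rw [← hc, Fintype.sum_sigma]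
      refine Finset.sum_congr rfl fun i _ => ?_
      simp only [f]
      rw [aeval_sum_apply, ← Fin.sum_univ_eq_sum_range (fun j =>
        aeval T (C (c' i j) * PP (δ' i) j) (x i))]
      refine Finset.sum_congr rfl fun j _ => ?_
      rw [aeval_C_mul_apply, hc']
    have h2 : f s.1 = 0 := by
      refine eq_zero_of_dvd_of_degree_lt (h.ind f h1 s.1) ?_
      rw [degree_eq_natDegree (h.monic s.1).ne_zero, degree_lt_iff_coeff_zero]
      intro n hn
      simp only [f, finset_sum_coeff, coeff_C_mul]
      refine Finset.sum_eq_zero fun j hj => ?_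
      rw [PP_coeff_gt _ (lt_of_lt_of_le (Finset.mem_range.1 hj) hn), mul_zero]
    have h3 := PP_ind (δ' s.1) _ (c' s.1) h2 s.2 s.2.isLt
    rw [hc'] at h3
    exact h3
  -- membership
  have hmem : ∀ (i : Fin k) (m : ℕ) (hm : m ≤ (q i).natDegree) (f : K[X]), f.degree < m →
      aeval T f (x i) ∈ Submodule.span K (w '' {s | s.1 = i ∧ (s.2 : ℕ) < m}) := by
    intro i m hm f hf
    refine Submodule.span_mono ?_ (span_lt T (δ' i) (x i) m f hf)
    rintro v ⟨j, hj, rfl⟩
    exact ⟨⟨i, ⟨j, lt_of_lt_of_le hj hm⟩⟩, ⟨rfl, hj⟩, rfl⟩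
  have hsp : ⊤ ≤ Submodule.span K (Set.range w) := by
    intro v _
    obtain ⟨g, rfl⟩ := h.span v
    refine Submodule.sum_mem _ fun i _ => ?_
    have h1 : aeval T (g i) (x i) = aeval T (g i %ₘ q i) (x i) := by
      conv_lhs => rw [← modByMonic_add_div (g i) (q i)]
      rw [map_add, LinearMap.add_apply, mul_comm, aeval_mul_apply, h.zero i, map_zero, add_zero]
    rw [h1]
    have h2 := hmem i _ le_rfl (g i %ₘ q i) (by
      rw [← degree_eq_natDegree (h.monic i).ne_zero]
      exact degree_modByMonic_lt _ (h.monic i))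
    exact Submodule.span_mono (Set.image_subset_range _ _) h2
  let b := Module.Basis.mk hli hsp
  have hb : ∀ s, b s = w s := fun s => by simp [b]
  have hbw : (b : (Σ i, Fin (q i).natDegree) → V) = w := funext hb
  -- action of `T`
  have hT : ∀ (i : Fin k) (j : Fin (q i).natDegree), ∃ u ∈ Submodule.span K
      (w '' {s | s.1 = i ∧ (s.2 : ℕ) ≠ j ∧ (s.2 : ℕ) ≤ j + 1}), T (w ⟨i, j⟩) = δ i j • w ⟨i, j⟩ + u := by
    intro i j
    have h1 : T (w ⟨i, j⟩) = δ i j • w ⟨i, j⟩ + aeval T (PP (δ' i) ((j : ℕ) + 1)) (x i) := by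
      have h2 : X * PP (δ' i) (j : ℕ) = C (δ i j) * PP (δ' i) (j : ℕ) + PP (δ' i) ((j : ℕ) + 1) := by
        rw [PP_succ, hδ']
        ring
      have h3 : T (w ⟨i, j⟩) = aeval T (X * PP (δ' i) (j : ℕ)) (x i) := by
        rw [aeval_mul_apply, aeval_X]
      rw [h3, h2, map_add, LinearMap.add_apply, aeval_C_mul_apply]
    refine ⟨_, ?_, h1⟩
    rcases Nat.lt_or_ge ((j : ℕ) + 1) (q i).natDegree with hj | hj
    · refine Submodule.subset_span ⟨⟨i, ⟨(j : ℕ) + 1, hj⟩⟩, ⟨rfl, ?_, ?_⟩, rfl⟩
      · simp
      · simp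
    · have hjd : (j : ℕ) + 1 = (q i).natDegree := by
        have := j.isLt
        omega
      have h4 : aeval T (PP (δ' i) ((j : ℕ) + 1)) (x i) =
          aeval T (PP (δ' i) ((j : ℕ) + 1) - q i) (x i) := by
        rw [map_sub, LinearMap.sub_apply, h.zero i, sub_zero]
      rw [h4]
      refine Submodule.span_mono ?_ (hmem i (j : ℕ) (by omega) _ ?_)
      · refine Set.image_mono ?_
        rintro s ⟨h5, h6⟩
        exact ⟨h5, by omega, by omega⟩
      · rw [degree_lt_iff_coeff_zero]
        intro n hn
        rw [coeff_sub]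
        rcases Nat.lt_or_ge ((j : ℕ) + 1) n with h6 | h6
        · rw [PP_coeff_gt _ h6, coeff_eq_zero_of_natDegree_lt (by omega), sub_zero]
        · rcases Nat.lt_or_ge (j : ℕ) n with h7 | h7
          · have h8 : n = (j : ℕ) + 1 := by omega
            rw [h8, PP_coeff, hjd, (h.monic i).coeff_natDegree, sub_self]
          · have h8 : n = (j : ℕ) := by omega
            rw [h8]
            have h9 : (PP (δ' i) ((j : ℕ) + 1)).coeff (j : ℕ) = -∑ l ∈ range ((j : ℕ) + 1), δ' i l := by
              have h10 := prod_X_sub_C_coeff_card_pred (range ((j : ℕ) + 1)) (δ' i) (by simp)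
              rw [Finset.card_range, Nat.add_sub_cancel] at h10
              exact h10
            have h11 : ∑ l ∈ range ((j : ℕ) + 1), δ' i l =
                -(q i).coeff ((q i).natDegree - 1) := by
              have hδi : ∑ j, δ i j = -(q i).coeff ((q i).natDegree - 1) := hδ i
              rw [← hδi, hjd, ← Fin.sum_univ_eq_sum_range (δ' i)]
              exact Finset.sum_congr rfl fun l _ => hδ' i l
            have h12 : (q i).natDegree - 1 = (j : ℕ) := by omega
            rw [h9, h11, h12, neg_neg, sub_self]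
  have hrep : ∀ {S : Set (Σ i, Fin (q i).natDegree)} {u : V},
      u ∈ Submodule.span K (w '' S) → ∀ s, s ∉ S → b.repr u s = 0 := by
    intro S u hu s hs
    rw [← hbw, Module.Basis.mem_span_image] at hu
    by_contra hne
    exact hs (hu (by simpa using hne))
  refine ⟨b, ?_, ?_, ?_⟩
  · intro i i' j j' hii
    obtain ⟨u, hu, hTu⟩ := hT i' j'
    rw [hb, hTu, map_add, Finsupp.add_apply, hrep hu ⟨i, j⟩ (fun hs => hii hs.1), map_smul,
      Finsupp.smul_apply, ← hb, b.repr_self, Finsupp.single_apply, if_neg, smul_zero, add_zero]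
    intro he
    exact hii (congrArg Sigma.fst he).symm
  · intro i j
    obtain ⟨u, hu, hTu⟩ := hT i j
    rw [hb, hTu, map_add, Finsupp.add_apply, hrep hu ⟨i, j⟩ (fun hs => hs.2.1 rfl), map_smul,
      Finsupp.smul_apply, ← hb, b.repr_self, Finsupp.single_eq_same, smul_eq_mul, mul_one, add_zero]
  · intro i j j' hjj
    obtain ⟨u, hu, hTu⟩ := hT i j'
    rw [hb, hTu, map_add, Finsupp.add_apply, hrep hu ⟨i, j⟩ (fun hs => by
      have := hs.2.2
      simp only at this
      omega), map_smul,
      Finsupp.smul_apply, ← hb, b.repr_self, Finsupp.single_apply, if_neg, smul_zero, add_zero]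
    intro he
    have h1 : j' = j := by
      simpa using he
    rw [h1] at hjj
    omega

end

theorem exists_pk {K V : Type*} [Field K] [AddCommGroup V] [Module K V] [FiniteDimensional K V]
    (T : V →ₗ[K] V) : ∃ (k : ℕ) (q : Fin k → K[X]) (x : Fin k → V), Pk T (Fin k) q x := by
  classical
  have htor : Module.IsTorsion K[X] (Module.AEval' T) := by
    intro m
    have h0 : minpoly K T ≠ 0 := minpoly.ne_zero (Algebra.IsIntegral.isIntegral T)
    refine ⟨⟨minpoly K T, mem_nonZeroDivisors_of_ne_zero h0⟩, ?_⟩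
    have h1 : (minpoly K T) • m = 0 := by
      apply (Module.AEval'.of T).symm.injective
      rw [Module.AEval.of_symm_smul, minpoly.aeval, zero_smul, map_zero]
    exact h1
  obtain ⟨ι, _, p, hp, e, ⟨φ⟩⟩ := Module.equiv_directSum_of_isTorsion htor
  let ι' := {i : ι // e i ≠ 0}
  let σ : Fin (Fintype.card ι') ≃ ι' := (Fintype.equivFin ι').symm
  let r : ι → K[X] := fun i => p i ^ e i
  have hr0 : ∀ i, r i ≠ 0 := fun i => pow_ne_zero _ (hp i).ne_zero
  let M : ι → Type _ := fun i => K[X] ⧸ Submodule.span K[X] {r i}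
  let y : Fin (Fintype.card ι') → DirectSum ι M := fun j =>
    DirectSum.lof K[X] ι M (σ j).1 (Submodule.Quotient.mk 1)
  let x : Fin (Fintype.card ι') → V := fun j => (Module.AEval'.of T).symm (φ.symm (y j))
  let q : Fin (Fintype.card ι') → K[X] := fun j => r (σ j).1 * C (leadingCoeff (r (σ j).1))⁻¹
  have hq : ∀ j, (q j).Monic := fun j => monic_mul_leadingCoeff_inv (hr0 _)
  have hdvd : ∀ (j : Fin (Fintype.card ι')) (g : K[X]), r (σ j).1 ∣ g ↔ q j ∣ g := by
    intro j g
    have hu : IsUnit (C (leadingCoeff (r (σ j).1))⁻¹ : K[X]) :=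
      isUnit_C.2 (isUnit_iff_ne_zero.2 (inv_ne_zero (leadingCoeff_ne_zero.2 (hr0 _))))
    exact (hu.mul_right_dvd).symm
  -- the key computation
  have key : ∀ g : Fin (Fintype.card ι') → K[X],
      φ (Module.AEval'.of T (∑ j, aeval T (g j) (x j))) =
        ∑ j, DirectSum.lof K[X] ι M (σ j).1 (Submodule.Quotient.mk (g j)) := by
    intro g
    rw [map_sum, map_sum]
    refine Finset.sum_congr rfl fun j _ => ?_
    have h1 : Module.AEval'.of T (aeval T (g j) (x j)) = g j • φ.symm (y j) := by
      have h2 := Module.AEval.of_aeval_smul (R := K) (M := V) T (g j) (x j)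
      rw [Module.End.smul_def] at h2
      rw [h2]
      congr 1
    rw [h1, map_smul, LinearEquiv.apply_symm_apply, ← map_smul, ← Submodule.Quotient.mk_smul,
      smul_eq_mul, mul_one]
  have hcomp : ∀ (g : Fin (Fintype.card ι') → K[X]) (j : Fin (Fintype.card ι')),
      DirectSum.component K[X] ι M (σ j).1
        (∑ j', DirectSum.lof K[X] ι M (σ j').1 (Submodule.Quotient.mk (g j'))) =
      Submodule.Quotient.mk (g j) := by
    intro g j
    rw [map_sum, Finset.sum_eq_single j]
    · exact DirectSum.component.lof_self _ _ _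
    · intro j' _ hj'
      rw [DirectSum.component.of, dif_neg]
      intro h
      exact hj' (σ.injective (Subtype.ext h))
    · intro h
      exact absurd (Finset.mem_univ j) h
  have hinj : ∀ v : V, φ (Module.AEval'.of T v) = 0 → v = 0 := by
    intro v hv
    have h1 : Module.AEval'.of T v = 0 := by
      apply φ.injective
      rw [hv, map_zero]
    apply (Module.AEval'.of T).injective
    rw [h1, map_zero]
  refine ⟨Fintype.card ι', q, x, ⟨hq, ?_, ?_, ?_, ?_⟩⟩
  · intro j
    have h1 : (q j).natDegree = e (σ j).1 * (p (σ j).1).natDegree := by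
      simp only [q, r]
      rw [natDegree_mul_C (inv_ne_zero (leadingCoeff_ne_zero.2 (hr0 _))), natDegree_pow]
    rw [h1]
    exact Nat.mul_pos (Nat.pos_of_ne_zero (σ j).2) (hp _).natDegree_pos
  · intro j
    apply hinj
    have h1 := key (Pi.single j (q j))
    rw [Finset.sum_eq_single j, Finset.sum_eq_single j] at h1
    · rw [Pi.single_eq_same] at h1
      rw [h1]
      have h2 : (Submodule.Quotient.mk (q j) : M (σ j).1) = 0 := by
        rw [Submodule.Quotient.mk_eq_zero, Submodule.mem_span_singleton]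
        exact ⟨C (leadingCoeff (r (σ j).1))⁻¹, by rw [smul_eq_mul, mul_comm]⟩
      rw [h2, map_zero]
    · intro j' _ hj'
      rw [Pi.single_eq_of_ne hj', Submodule.Quotient.mk_zero, map_zero]
    · intro h
      exact absurd (Finset.mem_univ j) h
    · intro j' _ hj'
      rw [Pi.single_eq_of_ne hj', map_zero, LinearMap.zero_apply]
    · intro h
      exact absurd (Finset.mem_univ j) h
  · intro v
    choose g hg using fun j : Fin (Fintype.card ι') => Submodule.Quotient.mk_surjective _
      (DirectSum.component K[X] ι M (σ j).1 (φ (Module.AEval'.of T v)))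
    refine ⟨g, ?_⟩
    rw [← sub_eq_zero]
    apply hinj
    rw [map_sub, map_sub, key, sub_eq_zero]
    apply DirectSum.ext_component K[X]
    intro i
    by_cases hi : e i = 0
    · have hsub : ∀ a b : M i, a = b := by
        intro a b
        obtain ⟨a, rfl⟩ := Submodule.Quotient.mk_surjective _ a
        obtain ⟨b, rfl⟩ := Submodule.Quotient.mk_surjective _ b
        rw [Submodule.Quotient.eq, Submodule.mem_span_singleton]
        refine ⟨a - b, ?_⟩
        simp only [r]
        rw [hi, pow_zero, smul_eq_mul, mul_one]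
      exact hsub _ _
    · obtain ⟨j, hj⟩ := σ.surjective ⟨i, hi⟩
      have hij : i = (σ j).1 := by rw [hj]
      subst hij
      rw [hcomp, hg]
  · intro g hg j
    have h1 := key g
    rw [hg, map_zero, map_zero] at h1
    have h2 := hcomp g j
    rw [← h1, map_zero] at h2
    have h3 := (Submodule.Quotient.mk_eq_zero _).1 h2.symm
    rw [Submodule.mem_span_singleton] at h3
    obtain ⟨a, ha⟩ := h3
    exact (hdvd j _).1 ⟨a, by rw [← ha, smul_eq_mul, mul_comm]⟩

/-- replacing two different eigenvalues by a cyclic subspace of dimension two -/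
theorem exists_pk_two {K V : Type*} [Field K] [AddCommGroup V] [Module K V]
    {T : V →ₗ[K] V} (hT : ∀ μ : K, T ≠ μ • LinearMap.id) {k : ℕ} {q : Fin k → K[X]} {x : Fin k → V}
    (h : Pk T (Fin k) q x) : ∃ (k : ℕ) (q : Fin k → K[X]) (x : Fin k → V),
      Pk T (Fin k) q x ∧ ∃ i, 2 ≤ (q i).natDegree := by
  classical
  by_cases hex : ∃ i, 2 ≤ (q i).natDegree
  · exact ⟨k, q, x, h, hex⟩
  push Not at hex
  have hdeg : ∀ i, (q i).natDegree = 1 := fun i => by
    have h1 := hex i
    have h2 := h.deg i
    omega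
  let t : Fin k → K := fun i => -(q i).coeff 0
  have hqt : ∀ i, q i = X - C (t i) := by
    intro i
    have h1 := (h.monic i)
    have h2 := h1.eq_X_add_C (hdeg i)
    rw [h2]
    simp [t]
  have hTx : ∀ i, T (x i) = t i • x i := by
    intro i
    have h1 := h.zero i
    rw [hqt, map_sub, LinearMap.sub_apply, aeval_X, aeval_C, sub_eq_zero] at h1
    rw [h1]
    simp
  obtain ⟨i, i', hii⟩ : ∃ i i', t i ≠ t i' := by
    by_contra hcon
    push Not at hcon
    rcases isEmpty_or_nonempty (Fin k) with he | ⟨⟨i⟩⟩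
    · refine hT 0 (LinearMap.ext fun v => ?_)
      obtain ⟨g, hg⟩ := h.span v
      rw [hg]
      simp
    · refine hT (t i) (LinearMap.ext fun v => ?_)
      obtain ⟨g, rfl⟩ := h.span v
      rw [map_sum, LinearMap.smul_apply, LinearMap.id_apply, Finset.smul_sum]
      refine Finset.sum_congr rfl fun j _ => ?_
      have h1 : T (aeval T (g j) (x j)) = aeval T (g j) (T (x j)) := by
        have h2 := aeval_mul_apply T X (g j) (x j)
        rw [mul_comm, aeval_mul_apply, aeval_X] at h2
        exact h2.symm
      rw [h1, hTx, map_smul, hcon j i]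
  have hne : i ≠ i' := fun e => hii (by rw [e])
  let κ := {j : Fin k // j ≠ i'}
  let q' : κ → K[X] := fun j => if j.1 = i then (X - C (t i)) * (X - C (t i')) else q j.1
  let x' : κ → V := fun j => if j.1 = i then x i + x i' else x j.1
  let i₀ : κ := ⟨i, hne⟩
  -- sums over all indices
  have hsum : ∀ F : Fin k → V, ∑ j, F j = F i' + ∑ j : κ, F j.1 := by
    intro F
    rw [← Finset.add_sum_erase _ _ (Finset.mem_univ i')]
    congr 1
    rw [← Finset.sum_coe_sort]
    refine Fintype.sum_equiv (Equiv.subtypeEquivRight fun j => by simp) _ _ fun j => rfl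
  have hterm : ∀ (g : κ → K[X]) (j : κ), aeval T (g j) (x' j) =
      (if j = i₀ then aeval T (g i₀) (x i') else 0) + aeval T (g j) (x j.1) := by
    intro g j
    by_cases hj : j = i₀
    · subst hj
      simp only [x', i₀]
      rw [if_pos trivial, if_pos trivial, map_add, add_comm]
    · have hj' : j.1 ≠ i := fun e => hj (Subtype.ext e)
      simp only [x']
      rw [if_neg hj', if_neg hj, zero_add]
  have hsum2 : ∀ g : κ → K[X], ∑ j, aeval T (g j) (x' j) =
      aeval T (g i₀) (x i') + ∑ j : κ, aeval T (g j) (x j.1) := by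
    intro g
    simp only [hterm g]
    rw [Finset.sum_add_distrib, Finset.sum_ite_eq' Finset.univ i₀, if_pos (Finset.mem_univ _)]
  have hPk : Pk T κ q' x' := by
    refine ⟨?_, ?_, ?_, ?_, ?_⟩
    · intro j
      simp only [q']
      split_ifs
      · exact (monic_X_sub_C _).mul (monic_X_sub_C _)
      · exact h.monic _
    · intro j
      simp only [q']
      split_ifs
      · rw [(monic_X_sub_C _).natDegree_mul (monic_X_sub_C _), natDegree_X_sub_C,
          natDegree_X_sub_C]
        norm_num
      · exact h.deg _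
    · intro j
      simp only [q', x']
      split_ifs
      · rw [map_add]
        have h1 := h.zero i
        have h2 := h.zero i'
        rw [hqt] at h1 h2
        rw [aeval_mul_apply T _ _ (x i'), h2, map_zero, add_zero, mul_comm, aeval_mul_apply, h1,
          map_zero]
      · exact h.zero _
    · intro v
      obtain ⟨g, hg⟩ := h.span v
      -- scalars
      have hsc : ∀ (l : Fin k) (f : K[X]), aeval T f (x l) = f.eval (t l) • x l := by
        intro l f
        have h1 : f = (X - C (t l)) * (f /ₘ (X - C (t l))) + C (f.eval (t l)) := by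
          rw [← modByMonic_X_sub_C_eq_C_eval, add_comm]
          exact (modByMonic_add_div f (X - C (t l))).symm
        have h2 := h.zero l
        rw [hqt] at h2
        conv_lhs => rw [h1]
        rw [map_add, LinearMap.add_apply, mul_comm, aeval_mul_apply, h2, map_zero, zero_add,
          aeval_C]
        simp
      let a : K := (g i).eval (t i)
      let c : K := (g i').eval (t i')
      let m : K[X] := C (a / (t i - t i')) * (X - C (t i')) + C (c / (t i' - t i)) * (X - C (t i))
      have hd1 : t i - t i' ≠ 0 := sub_ne_zero.2 hii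
      have hd2 : t i' - t i ≠ 0 := sub_ne_zero.2 (Ne.symm hii)
      have hm1 : m.eval (t i) = a := by
        simp only [m, eval_add, eval_mul, eval_C, eval_sub, eval_X, sub_self, mul_zero, add_zero]
        field_simp
      have hm2 : m.eval (t i') = c := by
        simp only [m, eval_add, eval_mul, eval_C, eval_sub, eval_X, sub_self, mul_zero, zero_add]
        field_simp
      refine ⟨fun j => if j = i₀ then m else g j.1, ?_⟩
      rw [hsum2, hg, hsum]
      simp only [if_true]
      rw [hsc i' m, hm2, hsc i' (g i')]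
      congr 1
      refine Finset.sum_congr rfl fun j _ => ?_
      by_cases hj : j = i₀
      · rw [if_pos hj, hj]
        simp only [i₀]
        rw [hsc i m, hm1, hsc i (g i)]
      · rw [if_neg hj]
    · intro g hg j
      rw [hsum2] at hg
      let g' : Fin k → K[X] := fun l => if hl : l ≠ i' then g ⟨l, hl⟩ else g i₀
      have h1 : ∑ l, aeval T (g' l) (x l) = 0 := by
        rw [hsum, ← hg]
        congr 1
        · simp only [g']
          rw [dif_neg (by simp)]
        · refine Finset.sum_congr rfl fun j _ => ?_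
          simp only [g']
          rw [dif_pos j.2]
      have h2 := h.ind g' h1
      by_cases hj : j = i₀
      · subst hj
        have h3 := h2 i
        have h4 := h2 i'
        simp only [g'] at h3 h4
        rw [dif_pos hne, hqt] at h3
        rw [dif_neg (by simp), hqt] at h4
        simp only [q', i₀]
        rw [if_pos trivial]
        exact (isCoprime_X_sub_C_of_isUnit_sub (isUnit_iff_ne_zero.2 (sub_ne_zero.2 hii))).mul_dvd
          h3 h4
      · have hj' : j.1 ≠ i := fun e => hj (Subtype.ext e)
        have h3 := h2 j.1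
        simp only [g'] at h3
        rw [dif_pos j.2] at h3
        simp only [q']
        rw [if_neg hj']
        exact h3
  let τ : Fin (Fintype.card κ) ≃ κ := (Fintype.equivFin κ).symm
  refine ⟨_, _, _, hPk.reindex τ, τ.symm i₀, ?_⟩
  rw [τ.apply_symm_apply]
  simp only [q', i₀]
  rw [if_pos trivial, (monic_X_sub_C _).natDegree_mul (monic_X_sub_C _), natDegree_X_sub_C,
    natDegree_X_sub_C]

end ChAux

theorem chains {K V : Type*} [Field K] [AddCommGroup V] [Module K V] [FiniteDimensional K V]
    (T : V →ₗ[K] V) : ∃ (k : ℕ) (d : Fin k → ℕ) (t : Fin k → K), IsCh T k d t := by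
  obtain ⟨k, q, x, h⟩ := ChAux.exists_pk T
  exact ⟨k, _, _, h.isCh⟩

theorem chains_two {K V : Type*} [Field K] [AddCommGroup V] [Module K V] [FiniteDimensional K V]
    (T : V →ₗ[K] V) (hT : ∀ μ : K, T ≠ μ • LinearMap.id) :
    ∃ (k : ℕ) (d : Fin k → ℕ) (t : Fin k → K), IsCh T k d t ∧ ∃ i, 2 ≤ d i := by
  obtain ⟨k, q, x, h⟩ := ChAux.exists_pk T
  obtain ⟨k, q, x, h, hi⟩ := ChAux.exists_pk_two hT h
  exact ⟨k, _, _, h.isCh, hi⟩

end Pool.Agent.P5m
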