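import Pool.Agent.Lib.P5m.Defs

/-!
# Linear forms of antisymmetric pair matrices

Let `H` be the hyperplane `∑ a = 0` in `Fin (r+1) → ℚ`. The restriction to `H` of the linear
functional `a ↦ ∑ v j * a j` is zero iff `v` is constant.

`lin_ne`: finitely many nonzero linear functionals on a rational vector space have a common point
where none vanishes (a vector space over an infinite field is not a finite union of proper
subspaces, or: the product of the corresponding polynomials is not zero).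

`prop_of_ker`: if `f` vanishes where `p` vanishes then `f = c * p` (on `H`).

`form_zero`: `A Q a k = 0` on `H` gives `Q j k` constant in `j`; `Q k k = 0` by antisymmetry.

`form_eq`: if `A_k(Q) = c A_k(P) - c' A_k(P')` on `H` for all `k`, the rational antisymmetric
matrix `R = Q - c P + c' P'` has `∑_j R j k a j = 0` on `H`, so `R j k` does not depend on `j`, and
`R k k = 0`; so `R = 0`.

`tp_ring`: `Tp Q` says that `Q j k - Q j 0` does not depend on `j` (test on `H`; integers), so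
`A Q a k - A Q a 0 = (Q 0 k - Q 0 0) * ∑ a = 0` in every ring.

`irr`: suppose that `A_k(Q)` vanishes on `H ∩ ker A_0(Q)` for every `k`. Then
`A_k(Q) = μ_k A_0(Q)` on `H` for all `k` (`A_0(Q) ≠ 0` on `H` because `Q j 0 ≠ 0` for some `j` and
`Q 0 0 = 0`). In terms of coefficients, normalised by the index `0`: for all `j k`
`Q j k - Q 0 k = μ_k * Q j 0` (*) (the vector `j ↦ Q j k - μ_k Q j 0` is constant and its value at
`j = 0` is `Q 0 k`). For `j = k`: `- Q 0 k = μ_k Q k 0`, that is `Q k 0 = μ_k Q k 0`, so `μ_k = 1`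
if `Q k 0 ≠ 0`. Let `Q k 0 = 0`, so `Q 0 k = 0`. Choose `j` with `Q j 0 ≠ 0`. Then (*) gives
`Q j k = μ_k Q j 0`, and (*) with `j, k` exchanged and `μ_j = 1` gives
`Q k j - Q 0 j = Q k 0 = 0`, so `Q k j = Q 0 j`, `Q j k = Q j 0`, so `μ_k = 1`. Hence all `μ_k = 1`,
that is `Tp Q`, a contradiction.

`zero_pair`: on `H` and for all `b`: `A_0(P) ∑ b_k A_k(Q) = A_0(Q) ∑ b_k A_k(P)`; comparing the
coefficients of `b_k` (take `b = Pi.single k 1`): `A_0(P) A_k(Q) = A_0(Q) A_k(P)` for `k ≠ 0`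
(also for `k = 0`). By `irr` there is `k` with `A_k(P) ≠ 0` on `H ∩ ker A_0(P)`, so on
`H ∩ ker A_0(P)` the product of `A_0(Q)` and `A_k(P)` is zero, hence `A_0(Q) = 0` there (two
functionals with product zero: one is zero), so `A_0(Q) = c A_0(P)` on `H`. Then
`A_0(P) (A_k(Q) - c A_k(P)) = 0` on `H`, so `A_k(Q) = c A_k(P)` on `H` for all `k`, so `Q = c P` by
`form_eq`. As both have entries in `-1, 0, 1` and `Q ≠ 0`: `c = 1` or `c = -1`.
-/

open Finset

namespace Pool.Agent.P5m

variable {r : ℕ}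

theorem lin_ne {V : Type*} [AddCommGroup V] [Module ℚ V] {ι : Type*} (S : Finset ι)
    (f : ι → V →ₗ[ℚ] ℚ) (hf : ∀ i ∈ S, f i ≠ 0) : ∃ v, ∀ i ∈ S, f i v ≠ 0 := by
  obtain ⟨v, hv⟩ := Module.Dual.exists_forall_ne_zero_of_forall_exists
    (fun i : S => f i.1) (fun i => by
      by_contra hc
      push Not at hc
      exact hf i.1 i.2 (LinearMap.ext hc))
  exact ⟨v, fun i hi => hv ⟨i, hi⟩⟩

/-- The hyperplane. -/
def Hp (r : ℕ) : Submodule ℚ (Fin (r + 1) → ℚ) where
  carrier := {a | ∑ j, a j = 0}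
  add_mem' := by
    intro a b ha hb
    simp only [Set.mem_ofPred_eq, Pi.add_apply, sum_add_distrib] at *
    rw [ha, hb, add_zero]
  zero_mem' := by simp
  smul_mem' := by
    intro c a ha
    simp only [Set.mem_ofPred_eq, Pi.smul_apply, smul_eq_mul, ← mul_sum] at *
    rw [ha, mul_zero]

/-- `A Q _ k` as a linear functional on the hyperplane. -/
def Af (Q : Fin (r + 1) → Fin (r + 1) → ℤ) (k : Fin (r + 1)) : Hp r →ₗ[ℚ] ℚ where
  toFun a := A Q a.1 k
  map_add' := by
    intro a b
    simp only [A, Submodule.coe_add, Pi.add_apply, mul_add, sum_add_distrib]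
  map_smul' := by
    intro c a
    simp only [A, Submodule.coe_smul, Pi.smul_apply, smul_eq_mul, RingHom.id_apply, mul_sum]
    exact sum_congr rfl fun j _ => by ring

/-- The vector `e_i - e_j` of the hyperplane. -/
def dv (i j : Fin (r + 1)) : Hp r :=
  ⟨Pi.single i 1 - Pi.single j 1, by
    change ∑ l, (Pi.single i (1 : ℚ) - Pi.single j (1 : ℚ) : Fin (r + 1) → ℚ) l = 0
    simp [sum_sub_distrib]⟩

theorem A_dv (Q : Fin (r + 1) → Fin (r + 1) → ℤ) (k i j : Fin (r + 1)) :
    A Q (Pi.single i (1 : ℚ) - Pi.single j (1 : ℚ) : Fin (r + 1) → ℚ) k = Q i k - Q j k := by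
  simp only [A, Pi.sub_apply, mul_sub, sum_sub_distrib]
  congr 1
  · rw [sum_eq_single i]
    · simp
    · intro b _ hb
      simp [hb]
    · simp
  · rw [sum_eq_single j]
    · simp
    · intro b _ hb
      simp [hb]
    · simp

theorem Af_dv (Q : Fin (r + 1) → Fin (r + 1) → ℤ) (k i j : Fin (r + 1)) :
    Af Q k (dv i j) = Q i k - Q j k := A_dv Q k i j

theorem anti_diag {Q : Fin (r + 1) → Fin (r + 1) → ℤ} (hQ : ∀ j k, Q k j = - Q j k)
    (k : Fin (r + 1)) : Q k k = 0 := by
  have := hQ k k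
  omega

theorem prod_zero {V : Type*} [AddCommGroup V] [Module ℚ V] (p f g : V →ₗ[ℚ] ℚ)
    (h : ∀ v, p v = 0 → f v * g v = 0) (v : V) (hv : p v = 0) (hfv : f v ≠ 0) :
    ∀ w, p w = 0 → g w = 0 := by
  intro w hw
  by_contra hg
  have h1 : f w = 0 := by
    rcases mul_eq_zero.1 (h w hw) with h' | h'
    · exact h'
    · exact absurd h' hg
  have h2 : g v = 0 := by
    rcases mul_eq_zero.1 (h v hv) with h' | h'
    · exact absurd h' hfv
    · exact h'
  have h3 := h (v + w) (by rw [map_add, hv, hw, add_zero])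
  rw [map_add, map_add, h1, h2, add_zero, zero_add] at h3
  rcases mul_eq_zero.1 h3 with h' | h'
  · exact hfv h'
  · exact hg h'

theorem prop_of_ker {V : Type*} [AddCommGroup V] [Module ℚ V] (p f : V →ₗ[ℚ] ℚ)
    (h : ∀ v, p v = 0 → f v = 0) : ∃ c : ℚ, f = c • p := by
  by_cases hp : p = 0
  · refine ⟨0, ?_⟩
    ext v
    rw [h v (by rw [hp]; rfl)]
    simp
  · obtain ⟨u, hu⟩ : ∃ u, p u ≠ 0 := by
      by_contra hc
      push Not at hc
      exact hp (LinearMap.ext hc)
    refine ⟨f u / p u, ?_⟩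
    ext v
    have h1 := h (v - (p v / p u) • u) (by
      rw [map_sub, map_smul, smul_eq_mul, div_mul_cancel₀ _ hu, sub_self])
    rw [map_sub, map_smul, smul_eq_mul, sub_eq_zero] at h1
    rw [LinearMap.smul_apply, smul_eq_mul, h1]
    ring

theorem form_zero {Q : Fin (r + 1) → Fin (r + 1) → ℤ} (hQ : ∀ j k, Q k j = - Q j k)
    (k : Fin (r + 1)) (h : Af Q k = 0) : ∀ j, Q j k = 0 := by
  intro j
  have h1 := Af_dv Q k j k
  rw [h, LinearMap.zero_apply, anti_diag hQ k] at h1
  have h2 : (Q j k : ℚ) = 0 := by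
    push_cast at h1
    linarith
  exact_mod_cast h2

theorem form_eq {P P' Q : Fin (r + 1) → Fin (r + 1) → ℤ} (hP : ∀ j k, P k j = - P j k)
    (hP' : ∀ j k, P' k j = - P' j k) (hQ : ∀ j k, Q k j = - Q j k) (c c' : ℚ)
    (h : ∀ k, Af Q k = c • Af P k - c' • Af P' k) :
    ∀ j k, (Q j k : ℚ) = c * P j k - c' * P' j k := by
  intro j k
  have h1 := Af_dv Q k j k
  rw [h k, LinearMap.sub_apply, LinearMap.smul_apply, LinearMap.smul_apply, Af_dv, Af_dv,
    anti_diag hQ k, anti_diag hP k, anti_diag hP' k] at h1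
  push_cast at h1
  simp only [smul_eq_mul, sub_zero] at h1
  exact h1.symm

theorem tp_ring {Q : Fin (r + 1) → Fin (r + 1) → ℤ} (hQ : Tp Q) {R : Type*} [CommRing R]
    (a : Fin (r + 1) → R) (ha : ∑ j, a j = 0) (k : Fin (r + 1)) : A Q a k = A Q a 0 := by
  have h1 : ∀ j, Q j k - Q j 0 = Q 0 k - Q 0 0 := by
    intro j
    have h2 := hQ k (dv j 0).1 (dv j 0).2
    have h3 : A Q (dv j 0 : Hp r).1 k = Q j k - Q 0 k := A_dv Q k j 0
    have h4 : A Q (dv j 0 : Hp r).1 0 = Q j 0 - Q 0 0 := A_dv Q 0 j 0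
    rw [h3, h4] at h2
    have h5 : Q j k - Q 0 k = Q j 0 - Q 0 0 := by exact_mod_cast h2
    omega
  rw [← sub_eq_zero]
  unfold A
  rw [← sum_sub_distrib]
  have h2 : ∀ j, (Q j k : R) * a j - (Q j 0 : R) * a j = ((Q 0 k - Q 0 0 : ℤ) : R) * a j := by
    intro j
    rw [← sub_mul, ← h1 j]
    push_cast
    ring
  simp only [h2]
  rw [← mul_sum, ha, mul_zero]

theorem irr {Q : Fin (r + 1) → Fin (r + 1) → ℤ} (hQ : Nt Q) :
    ∃ k, ∃ v : Hp r, Af Q 0 v = 0 ∧ Af Q k v ≠ 0 := by
  by_contra hc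
  push Not at hc
  have h1 : ∀ k, ∃ c : ℚ, Af Q k = c • Af Q 0 := fun k => prop_of_ker _ _ (hc k)
  choose μ hμ using h1
  have hanti := hQ.sm.anti
  have h00 : Q 0 0 = 0 := anti_diag hanti 0
  have hst : ∀ j k, (Q j k : ℚ) - Q 0 k = μ k * Q j 0 := by
    intro j k
    have h2 := Af_dv Q k j 0
    rw [hμ k, LinearMap.smul_apply, Af_dv, h00] at h2
    simp only [smul_eq_mul, Int.cast_zero, sub_zero] at h2
    exact h2.symm
  have hone : ∀ k, Q k 0 ≠ 0 → μ k = 1 := by
    intro k hk
    have h2 := hst k k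
    rw [anti_diag hanti k, hanti k 0] at h2
    push_cast at h2
    have h3 : (Q k 0 : ℚ) ≠ 0 := by exact_mod_cast hk
    have h4 : (μ k - 1) * (Q k 0 : ℚ) = 0 := by linarith
    rcases mul_eq_zero.1 h4 with h5 | h5
    · linarith
    · exact absurd h5 h3
  obtain ⟨j, hj⟩ := hQ.inv
  have hall : ∀ k, μ k = 1 := by
    intro k
    by_cases hk : Q k 0 = 0
    · have h2 := hst j k
      have h3 := hst k j
      have h4 : Q 0 k = 0 := by rw [hanti k 0, hk, neg_zero]
      rw [h4] at h2
      rw [hk] at h3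
      have h5 : (Q k j : ℚ) = - Q j k := by exact_mod_cast hanti j k
      have h6 : (Q 0 j : ℚ) = - Q j 0 := by exact_mod_cast hanti j 0
      rw [h5, h6] at h3
      push_cast at h2 h3
      have h7 : (Q j 0 : ℚ) ≠ 0 := by exact_mod_cast hj
      have h8 : (μ k - 1) * (Q j 0 : ℚ) = 0 := by linarith
      rcases mul_eq_zero.1 h8 with h9 | h9
      · linarith
      · exact absurd h9 h7
    · exact hone k hk
  apply hQ.ntp
  intro k a ha
  have h2 : Af Q k ⟨a, ha⟩ = (μ k • Af Q 0) ⟨a, ha⟩ := by rw [hμ k]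
  rw [hall k, one_smul] at h2
  exact h2

theorem zero_pair {P Q : Fin (r + 1) → Fin (r + 1) → ℤ} (hP : Nt P) (hQ : Sm Q)
    (hQ0 : ∃ j k, Q j k ≠ 0) (h : Idz (r := r) fun a b => E3 P Q a b) :
    (∀ j k, Q j k = P j k) ∨ (∀ j k, Q j k = - P j k) := by
  -- the basic identity
  have h1 : ∀ (k : Fin (r + 1)) (v : Hp r), Af P 0 v * Af Q k v = Af P k v * Af Q 0 v := by
    intro k v
    by_cases hk : k = 0
    · subst hk
      ring
    · have h2 := h v.1 (Pi.single k 1) v.2
      have h3 : ∀ Q' : Fin (r + 1) → Fin (r + 1) → ℤ,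
          cf Q' v.1 (Pi.single k (1 : ℚ)) = A Q' v.1 k := by
        intro Q'
        unfold cf
        rw [sum_eq_single k]
        · simp
        · intro b _ hb
          simp [hb]
        · intro hb
          exact absurd (mem_erase.2 ⟨hk, mem_univ _⟩) hb
      simp only [E3, h3] at h2
      exact sub_eq_zero.1 h2
  obtain ⟨k, v, hv, hkv⟩ := irr hP
  have h2 : ∀ w, Af P 0 w = 0 → Af Q 0 w = 0 := by
    refine prod_zero (Af P 0) (Af P k) (Af Q 0) ?_ v hv hkv
    intro w hw
    rw [← h1 k w, hw, zero_mul]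
  obtain ⟨c, hc⟩ := prop_of_ker _ _ h2
  obtain ⟨j0, hj0⟩ := hP.inv
  obtain ⟨u, hu⟩ : ∃ u, Af P 0 u ≠ 0 := by
    by_contra hcon
    push Not at hcon
    exact hj0 (form_zero hP.sm.anti 0 (LinearMap.ext hcon) j0)
  have h3 : ∀ k, Af Q k = c • Af P k := by
    intro k
    have h4 := prod_zero (0 : Hp r →ₗ[ℚ] ℚ) (Af P 0) (Af Q k - c • Af P k) (by
      intro w _
      have h5 := h1 k w
      rw [hc] at h5
      simp only [LinearMap.sub_apply, LinearMap.smul_apply, smul_eq_mul] at *
      linear_combination h5) u rfl hu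
    ext w
    have h6 := h4 w rfl
    simp only [LinearMap.sub_apply, LinearMap.smul_apply] at *
    linarith
  have h4 : ∀ j k, (Q j k : ℚ) = c * P j k := by
    intro j k
    have h5 := form_eq (P := P) (P' := P) (Q := Q) hP.sm.anti hP.sm.anti hQ.anti c 0 (by
      intro k
      rw [h3 k, zero_smul, sub_zero]) j k
    rw [h5]
    ring
  obtain ⟨j1, k1, hne⟩ := hQ0
  have h5 := h4 j1 k1
  have hcc : c = 1 ∨ c = -1 := by
    rcases hQ.small j1 k1 with h6 | h6 | h6
    · rcases hP.sm.small j1 k1 with h7 | h7 | h7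
      · rw [h6, h7] at h5
        left
        push_cast at h5
        linarith
      · rw [h6, h7] at h5
        norm_num at h5
      · rw [h6, h7] at h5
        right
        push_cast at h5
        linarith
    · exact absurd h6 hne
    · rcases hP.sm.small j1 k1 with h7 | h7 | h7
      · rw [h6, h7] at h5
        right
        push_cast at h5
        linarith
      · rw [h6, h7] at h5
        norm_num at h5
      · rw [h6, h7] at h5
        left
        push_cast at h5
        linarith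
  rcases hcc with hcc | hcc
  · left
    intro j k
    have h6 := h4 j k
    rw [hcc, one_mul] at h6
    exact_mod_cast h6
  · right
    intro j k
    have h6 := h4 j k
    rw [hcc] at h6
    have h7 : (Q j k : ℚ) = ((- P j k : ℤ) : ℚ) := by
      rw [h6]
      push_cast
      ring
    exact_mod_cast h7

end Pool.Agent.P5m
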