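import Pool.Agent.Lib.P5m.CombA

/-!
# The first shifted difference determines the pair matrix

`lam P s j = P j 0 - P j s + P 0 s`; on the hyperplane `∑ a = 0` one has
`∑_j lam P s j * a j = A_0(P) - A_s(P)`, and `lam P s 0 = 0`.

PROOF of `n1_alg`. Write (functionals on the hyperplane `Hp r`, see `CombA`)
`p = A_0(P)`, `p_k = A_k(P)`, `z_k = A_k(Q)`, `x = A_0(Q)`, `y = A_s(Q) = z_s`. Comparing the
coefficients of `b_k` (`b = Pi.single k 1`, `k ≠ 0`) in `E4 = 0`:
(1) `p (z_k - x) = y (p_k - p)` on `Hp r` for all `k ≠ 0` (and trivially for `k = 0`).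
`p ≠ 0` because `P j 0 ≠ 0` for some `j` (`form_zero`).
If `y = 0` then `z_k = x` for all `k` (a product of two functionals that vanishes has a zero
factor: use `lin_ne` for two functionals), `k = s` gives `x = z_s = y = 0`, so all `z_k = 0` and
`Q = 0` (`form_zero`), a contradiction. So `y ≠ 0`. By `irr` there is `k` and a vector in `ker p`
with `p_k ≠ 0`; on `ker p` (1) reads `y p_k = 0`, so `y = 0` on `ker p` (two functionals on the
space `ker p`), so `y = c p` (`prop_of_ker`), `c ≠ 0`. Then (1) gives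
`z_k - x = c (p_k - p)` for all `k` (cancel `p ≠ 0`). For `k = s`: `c p - x = c (p_s - p)`, so
`x = c (2 p - p_s)` and `z_k = c (p_k + (p - p_s))` for all `k`. The antisymmetric matrix
`M j k = P j k + lam j - lam k` has `A_k(M) = p_k + (p - p_s)` on `Hp r`
(`∑_j (lam j - lam k) a j = ∑_j lam j a j = p - p_s`). By `form_eq` (with `P' = 0`, or directly)
`Q = c M`.
-/

open Finset

namespace Pool.Agent.P5m

variable {r : ℕ}

/-- The weights of the letters. -/
def lam (P : Fin (r + 1) → Fin (r + 1) → ℤ) (s j : Fin (r + 1)) : ℤ := P j 0 - P j s + P 0 s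

theorem E4_single (P Q : Fin (r + 1) → Fin (r + 1) → ℤ) (s k : Fin (r + 1)) (hk : k ≠ 0)
    (v : Hp r) : E4 P Q s v.1 (Pi.single k (1 : ℚ)) =
      Af P 0 v * (Af Q k v - Af Q 0 v) - Af Q s v * (Af P k v - Af P 0 v) := by
  unfold E4
  rw [sum_eq_single k]
  · rw [Pi.single_eq_same, one_mul]
    rfl
  · intro b _ hb
    rw [Pi.single_eq_of_ne hb, zero_mul]
  · intro hb
    exact absurd (mem_erase.2 ⟨hk, mem_univ _⟩) hb

theorem n1_alg {P Q : Fin (r + 1) → Fin (r + 1) → ℤ} (hP : Nt P) (hQ : Sm Q)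
    (hQ0 : ∃ j k, Q j k ≠ 0) (s : Fin (r + 1)) (hs : s ≠ 0)
    (h : Idz (r := r) fun a b => E4 P Q s a b) :
    ∃ c : ℚ, c ≠ 0 ∧ ∀ j k, (Q j k : ℚ) = c * (P j k + lam P s j - lam P s k) := by
  have h1 : ∀ (k : Fin (r + 1)) (v : Hp r),
      Af P 0 v * (Af Q k v - Af Q 0 v) = Af Q s v * (Af P k v - Af P 0 v) := by
    intro k v
    by_cases hk : k = 0
    · subst hk
      ring
    · have h2 := h v.1 (Pi.single k 1) v.2
      simp only [E4_single P Q s k hk v] at h2
      exact sub_eq_zero.1 h2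
  obtain ⟨k, v, hv, hkv⟩ := irr hP
  have h2 : ∀ w, Af P 0 w = 0 → Af Q s w = 0 := by
    refine prod_zero (Af P 0) (Af P k) (Af Q s) ?_ v hv hkv
    intro w hw
    have h3 := h1 k w
    rw [hw, zero_mul, sub_zero] at h3
    rw [mul_comm, ← h3]
  obtain ⟨c, hc⟩ := prop_of_ker _ _ h2
  obtain ⟨j0, hj0⟩ := hP.inv
  obtain ⟨u, hu⟩ : ∃ u, Af P 0 u ≠ 0 := by
    by_contra hcon
    push Not at hcon
    exact hj0 (form_zero hP.sm.anti 0 (LinearMap.ext hcon) j0)
  have h3 : ∀ k (w : Hp r), Af Q k w - Af Q 0 w - c * (Af P k w - Af P 0 w) = 0 := by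
    intro k
    have h4 := prod_zero (0 : Hp r →ₗ[ℚ] ℚ) (Af P 0)
      (Af Q k - Af Q 0 - c • (Af P k - Af P 0)) (by
      intro w _
      have h5 := h1 k w
      rw [hc] at h5
      simp only [LinearMap.sub_apply, LinearMap.smul_apply, smul_eq_mul] at *
      linear_combination h5) u rfl hu
    intro w
    have h6 := h4 w rfl
    simp only [LinearMap.sub_apply, LinearMap.smul_apply, smul_eq_mul] at *
    linarith
  have h4 : ∀ k (w : Hp r), Af Q k w = c * (Af P k w + Af P 0 w - Af P s w) := by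
    intro k w
    have h5 := h3 k w
    have h6 := h3 s w
    rw [hc] at h6
    simp only [LinearMap.smul_apply, smul_eq_mul] at h6
    linear_combination h5 - h6
  have h5 : ∀ j k, (Q j k : ℚ) = c * (P j k + lam P s j - lam P s k) := by
    intro j k
    have h6 := h4 k (dv j k)
    rw [Af_dv, Af_dv, Af_dv, Af_dv, anti_diag hQ.anti k, anti_diag hP.sm.anti k] at h6
    unfold lam
    push_cast at h6 ⊢
    linear_combination h6
  refine ⟨c, ?_, h5⟩
  intro hc0
  obtain ⟨j1, k1, hne⟩ := hQ0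
  have h6 := h5 j1 k1
  rw [hc0, zero_mul] at h6
  exact hne (by exact_mod_cast h6)

end Pool.Agent.P5m
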