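import Pool.Agent.Lib.P5m.CombA

/-!
# The second shifted difference determines the pair matrix

PROOF of `n2_alg`. Functionals on the hyperplane `Hp r` (see `CombA`): `p = A_0(P)`,
`p_k = A_k(P)`, `q = A_0(P')`, `q_k = A_k(P')`, `z_k = A_k(Q)`, `x = A_0(Q)`, `y = A_s(Q) = z_s`.
Comparing the coefficients of `b_k` (`b = Pi.single k 1`, `k ≠ 0`) in `E5 = 0`:
(1) `p q z_k - y q p_k - p (x - y) q_k = 0` on `Hp r` for all `k ≠ 0`.
`p, q ≠ 0`, and they are not proportional: `q = μ p` on `Hp r` would give that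
`P' j 0 - μ P j 0` is constant in `j`, so zero (`j = 0`), and the supports are disjoint, so
`P' j 0 = 0` for all `j`, a contradiction; same with the roles exchanged. So `q` does not vanish
identically on `ker p` and `p` does not vanish identically on `ker q` (`prop_of_ker`).
By `irr` for `P` there is `k` such that `p_k` does not vanish identically on `ker p` (`k ≠ 0`). On
`ker p` (1) reads `y q p_k = 0`, so `y = 0` on `ker p` (`lin_ne` on the space `ker p`), `y = c p`.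
By `irr` for `P'` there is `k` such that `q_k` does not vanish identically on `ker q`; on `ker q`
(1) reads `p (x - y) q_k = 0`, so `x - y = - c' q`. Then (1) is
`p q (z_k - c p_k + c' q_k) = 0`, so `z_k = c p_k - c' q_k` for `k ≠ 0`, and for `k = 0` as well:
`x = y - c' q = c p - c' q`. By `form_eq`: `Q = c P - c' P'`. For `k = s`:
`c p = y = z_s = c p_s - c' q_s`, so `c (p_s - p) = c' q_s`.
-/

open Finset

namespace Pool.Agent.P5m

variable {r : ℕ}

theorem prod3_zero {V : Type*} [AddCommGroup V] [Module ℚ V] (p f g h : V →ₗ[ℚ] ℚ)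
    (H : ∀ v, p v = 0 → f v * g v * h v = 0) (hf : ∃ v, p v = 0 ∧ f v ≠ 0)
    (hg : ∃ v, p v = 0 ∧ g v ≠ 0) : ∀ w, p w = 0 → h w = 0 := by
  intro w hw
  by_contra hh
  obtain ⟨v1, hv1, hf1⟩ := hf
  obtain ⟨v2, hv2, hg2⟩ := hg
  obtain ⟨v, hv⟩ := lin_ne (V := LinearMap.ker p) (univ : Finset (Fin 3))
    ![f.domRestrict (LinearMap.ker p), g.domRestrict (LinearMap.ker p),
      h.domRestrict (LinearMap.ker p)] (by
    intro i _
    fin_cases i
    · intro h0
      have := LinearMap.congr_fun h0 ⟨v1, hv1⟩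
      exact hf1 this
    · intro h0
      have := LinearMap.congr_fun h0 ⟨v2, hv2⟩
      exact hg2 this
    · intro h0
      have := LinearMap.congr_fun h0 ⟨w, hw⟩
      exact hh this)
  have e0 : f v.1 ≠ 0 := hv 0 (mem_univ _)
  have e1 : g v.1 ≠ 0 := hv 1 (mem_univ _)
  have e2 : h v.1 ≠ 0 := hv 2 (mem_univ _)
  exact mul_ne_zero (mul_ne_zero e0 e1) e2 (H v.1 v.2)

theorem E5_single (P P' Q : Fin (r + 1) → Fin (r + 1) → ℤ) (s k : Fin (r + 1)) (hk : k ≠ 0)
    (v : Hp r) : E5 P P' Q s v.1 (Pi.single k (1 : ℚ)) =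
      Af P 0 v * Af P' 0 v * Af Q k v - Af Q s v * Af P' 0 v * Af P k v -
        Af P 0 v * (Af Q 0 v - Af Q s v) * Af P' k v := by
  unfold E5
  rw [sum_eq_single k]
  · rw [Pi.single_eq_same, one_mul]
    rfl
  · intro b _ hb
    rw [Pi.single_eq_of_ne hb, zero_mul]
  · intro hb
    exact absurd (mem_erase.2 ⟨hk, mem_univ _⟩) hb

theorem nonprop {P P' : Fin (r + 1) → Fin (r + 1) → ℤ} (hP : Nt P) (hP' : Nt P')
    (hd : ∀ j k, P j k = 0 ∨ P' j k = 0) : ∃ v : Hp r, Af P 0 v = 0 ∧ Af P' 0 v ≠ 0 := by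
  by_contra hc
  push Not at hc
  obtain ⟨μ, hμ⟩ := prop_of_ker _ _ hc
  obtain ⟨j, hj⟩ := hP'.inv
  have h1 := Af_dv P' 0 j 0
  rw [hμ, LinearMap.smul_apply, Af_dv, anti_diag hP.sm.anti 0, anti_diag hP'.sm.anti 0] at h1
  rcases hd j 0 with h2 | h2
  · rw [h2] at h1
    push_cast at h1
    simp only [smul_eq_mul, sub_zero, mul_zero] at h1
    exact hj (by exact_mod_cast h1.symm)
  · exact hj h2

theorem n2_alg {P P' Q : Fin (r + 1) → Fin (r + 1) → ℤ} (hP : Nt P) (hP' : Nt P')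
    (hd : ∀ j k, P j k = 0 ∨ P' j k = 0) (hQ : Sm Q) (s : Fin (r + 1)) (hs : s ≠ 0)
    (h : Idz (r := r) fun a b => E5 P P' Q s a b) :
    ∃ c c' : ℚ, (∀ j k, (Q j k : ℚ) = c * P j k - c' * P' j k) ∧
      ∀ a : Fin (r + 1) → ℚ, ∑ j, a j = 0 → c * (A P a s - A P a 0) = c' * A P' a s := by
  have h1 : ∀ (k : Fin (r + 1)) (v : Hp r),
      Af P 0 v * Af P' 0 v * Af Q k v - Af Q s v * Af P' 0 v * Af P k v -
        Af P 0 v * (Af Q 0 v - Af Q s v) * Af P' k v = 0 := by
    intro k v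
    by_cases hk : k = 0
    · subst hk
      ring
    · have h2 := h v.1 (Pi.single k 1) v.2
      simp only [E5_single P P' Q s k hk v] at h2
      exact h2
  obtain ⟨v1, hv1, hv1'⟩ := nonprop hP hP' hd
  obtain ⟨v2, hv2, hv2'⟩ := nonprop hP' hP (fun j k => (hd j k).symm)
  obtain ⟨k, v, hv, hkv⟩ := irr hP
  obtain ⟨k', v', hv', hkv'⟩ := irr hP'
  have h2 : ∀ w, Af P 0 w = 0 → Af Q s w = 0 := by
    refine prod3_zero (Af P 0) (Af P k) (Af P' 0) (Af Q s) ?_ ⟨v, hv, hkv⟩ ⟨v1, hv1, hv1'⟩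
    intro w hw
    have h3 := h1 k w
    rw [hw] at h3
    linear_combination -h3
  obtain ⟨c, hc⟩ := prop_of_ker _ _ h2
  have h3 : ∀ w, Af P' 0 w = 0 → (Af Q s - Af Q 0) w = 0 := by
    refine prod3_zero (Af P' 0) (Af P' k') (Af P 0) (Af Q s - Af Q 0) ?_ ⟨v', hv', hkv'⟩
      ⟨v2, hv2, hv2'⟩
    intro w hw
    have h3 := h1 k' w
    rw [hw] at h3
    rw [LinearMap.sub_apply]
    linear_combination h3
  obtain ⟨c', hc'⟩ := prop_of_ker _ _ h3
  have hy : ∀ w, Af Q s w = c * Af P 0 w := by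
    intro w
    rw [hc, LinearMap.smul_apply, smul_eq_mul]
  have hxy : ∀ w, Af Q s w - Af Q 0 w = c' * Af P' 0 w := by
    intro w
    have := LinearMap.congr_fun hc' w
    rw [LinearMap.sub_apply, LinearMap.smul_apply, smul_eq_mul] at this
    exact this
  have h4 : ∀ k (w : Hp r), Af Q k w = c * Af P k w - c' * Af P' k w := by
    intro k w
    have h5 := prod3_zero (0 : Hp r →ₗ[ℚ] ℚ) (Af P 0) (Af P' 0)
      (Af Q k - (c • Af P k - c' • Af P' k)) (by
      intro w _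
      have h6 := h1 k w
      simp only [LinearMap.sub_apply, LinearMap.smul_apply, smul_eq_mul]
      linear_combination h6 + Af P' 0 w * Af P k w * hy w - Af P 0 w * Af P' k w * hxy w)
      ⟨v2, rfl, hv2'⟩ ⟨v1, rfl, hv1'⟩ w rfl
    simp only [LinearMap.sub_apply, LinearMap.smul_apply, smul_eq_mul] at h5
    linarith
  refine ⟨c, c', form_eq hP.sm.anti hP'.sm.anti hQ.anti c c' (fun k => ?_), ?_⟩
  · ext w
    exact h4 k w
  · intro a ha
    have h5 := h4 s ⟨a, ha⟩
    rw [hy] at h5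
    have h6 : c * A P a 0 = c * A P a s - c' * A P' a s := h5
    linear_combination -h6

end Pool.Agent.P5m
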