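import Pool.Agent.Lib.P5m.Points

/-!
# The coupling is effective

PROOF of `contr`. Let `V = ZMod l → K`. `T21 α a w v'` and `G2 α a w v' y`, `G1 α a w v' Y` are linear
in `ξ` (all of the form of `PsiG_lin`, or directly). Suppose the contrary. Let `v₁ = v`,
`v₂ = dbl v`, `T_s = T21 α a w v_s` (bijective: injective linear endomorphisms of a
finite-dimensional space), `T_1 = T0 + Tq`, `T_2 = T0 + 2 Tq` (`T21_split`, `T21_dbl`), and
`G1, G2` are the same for `v` and `dbl v` (`G1_dbl`, `G2_dbl`). The negation says: for both `s` and all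
`i₀, j`, with `ξ = T_s⁻¹ (Pi.single i₀ 1)`:
`G1 (ξ) j * y i₀ + G2 (ξ) j * Y i₀ = 0`, that is
`G1 (T_s⁻¹ e_i) = - (Y i / y i) • G2 (T_s⁻¹ e_i)`. With the diagonal map `P e_i = (Y i / y i) • e_i`:
`G1 ∘ T_s⁻¹ = - G2 ∘ T_s⁻¹ ∘ P`, so `G1 = - G2 ∘ T_s⁻¹ ∘ P ∘ T_s` for `s = 1, 2`; `G2` is injective,
so `T_1⁻¹ P T_1 = T_2⁻¹ P T_2`, and `U = T_2 T_1⁻¹` commutes with `P`. The diagonal entries of `P` are
pairwise different (`ne`), so `U` is diagonal: `U u i = c i * u i`. So `T_2 ξ i = c i * T_1 ξ i` for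
all `ξ`: `(1 - c i) * T0 ξ i = (c i - 2) * Tq ξ i`. By `supp_disj` `(1 - c i) * T0 ξ i = 0` for all
`ξ`; take `ξ = Pi.single i 1`: `T0_diag` and `gw` give `c i = 1`. Then also `Tq ξ i = 0` for all
`ξ`, `i`. By `hq` no word `σ` with `α σ ≠ 0` has `t` before `0`, so `G1 = 0` (every summand has
`t` before `0`). Then `G2 (T_1⁻¹ e_i) j * Y i = 0` for all `j`, so (`G2` injective, linear)
`T_1⁻¹ e_i = 0`, a contradiction.
-/

open Finset

namespace Pool.Agent.P5m

namespace ContrAux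

theorem key {K ι : Type*} [Field K] [Fintype ι] [DecidableEq ι]
    (T1 T2 g1 g2 : (ι → K) →ₗ[K] (ι → K)) (h1 : Function.Injective T1)
    (h2 : Function.Injective T2) (hg : Function.Injective g2) (Y y : ι → K) (hy : ∀ i, y i ≠ 0)
    (hne : ∀ i j, i ≠ j → Y j * y i ≠ Y i * y j)
    (hs : ∀ ξ i, (T1 ξ = Pi.single i 1 ∨ T2 ξ = Pi.single i 1) →
      ∀ j, g1 ξ j * y i + g2 ξ j * Y i = 0) :
    ∃ c : ι → K, ∀ ξ i, T2 ξ i = c i * T1 ξ i := by
  have main : ∀ T : (ι → K) →ₗ[K] (ι → K), ∀ hT : Function.Injective T,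
      (∀ ξ i, T ξ = Pi.single i 1 → ∀ j, g1 ξ j * y i + g2 ξ j * Y i = 0) → ∀ ξ,
      g1 ξ = - g2 ((LinearEquiv.ofInjectiveEndo T hT).symm ((fun i => Y i / y i) * T ξ)) := by
    intro T hT h ξ
    set E := LinearEquiv.ofInjectiveEndo T hT with hE
    have hTE : ∀ u, T (E.symm u) = u := fun u => LinearEquiv.apply_symm_apply E u
    have hET : ∀ u, E.symm (T u) = u := fun u => LinearEquiv.symm_apply_apply E u
    have e : g1 ∘ₗ (E.symm : (ι → K) →ₗ[K] (ι → K)) =
        - (g2 ∘ₗ (E.symm : (ι → K) →ₗ[K] (ι → K)) ∘ₗ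
          LinearMap.mulLeft K (fun i => Y i / y i)) := by
      refine LinearMap.pi_ext fun i x => ?_
      have hx : (Pi.single i x : ι → K) = x • Pi.single i 1 := by
        rw [← Pi.single_smul, smul_eq_mul, mul_one]
      rw [hx, map_smul, map_smul]
      congr 1
      have hp : (fun i => Y i / y i) * (Pi.single i 1 : ι → K) =
          (Y i / y i) • (Pi.single i 1 : ι → K) := by
        ext k
        by_cases hk : k = i
        · subst hk
          simp
        · simp [hk]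
      simp only [LinearMap.comp_apply, LinearMap.neg_apply, LinearMap.mulLeft_apply,
        LinearEquiv.coe_coe]
      rw [hp, map_smul, map_smul]
      ext j
      have h3 := h (E.symm (Pi.single i 1)) i (hTE _) j
      simp only [Pi.neg_apply, Pi.smul_apply, smul_eq_mul]
      have hyi := hy i
      field_simp
      linear_combination h3
    have h4 := congrArg (fun f => f (T ξ)) e
    simp only [LinearMap.comp_apply, LinearMap.neg_apply, LinearMap.mulLeft_apply,
        LinearEquiv.coe_coe] at h4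
    rw [hET] at h4
    exact h4
  set E1 := LinearEquiv.ofInjectiveEndo T1 h1 with hE1
  set E2 := LinearEquiv.ofInjectiveEndo T2 h2 with hE2
  have hT1 : ∀ u, T1 (E1.symm u) = u := fun u => LinearEquiv.apply_symm_apply E1 u
  have hE1' : ∀ u, E1.symm (T1 u) = u := fun u => LinearEquiv.symm_apply_apply E1 u
  have hT2 : ∀ u, T2 (E2.symm u) = u := fun u => LinearEquiv.apply_symm_apply E2 u
  have m1 := main T1 h1 (fun ξ i h => hs ξ i (Or.inl h))
  have m2 := main T2 h2 (fun ξ i h => hs ξ i (Or.inr h))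
  have comm : ∀ u : ι → K, T2 (E1.symm ((fun i => Y i / y i) * u)) =
      (fun i => Y i / y i) * T2 (E1.symm u) := by
    intro u
    have h3 := (m1 (E1.symm u)).symm.trans (m2 (E1.symm u))
    rw [neg_inj] at h3
    have h4 := hg h3
    rw [hT1] at h4
    have h5 := congrArg T2 h4
    rw [hT2] at h5
    exact h5
  have off : ∀ i j, i ≠ j → T2 (E1.symm (Pi.single j 1)) i = 0 := by
    intro i j hij
    have hp : (fun i => Y i / y i) * (Pi.single j 1 : ι → K) =
        (Y j / y j) • (Pi.single j 1 : ι → K) := by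
      ext k
      by_cases hk : k = j
      · subst hk
        simp
      · simp [hk]
    have h3 := comm (Pi.single j 1)
    rw [hp, map_smul, map_smul] at h3
    have h4 := congrFun h3 i
    simp only [Pi.smul_apply, Pi.mul_apply, smul_eq_mul] at h4
    have h5 : (Y j / y j - Y i / y i) * T2 (E1.symm (Pi.single j 1)) i = 0 := by
      rw [sub_mul, h4, sub_self]
    rcases mul_eq_zero.1 h5 with h6 | h6
    · exfalso
      rw [sub_eq_zero, div_eq_div_iff (hy j) (hy i)] at h6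
      exact hne i j hij h6
    · exact h6
  refine ⟨fun i => T2 (E1.symm (Pi.single i 1)) i, fun ξ i => ?_⟩
  have h3 : T2 (E1.symm (T1 ξ)) i = ∑ j, T1 ξ j * T2 (E1.symm (Pi.single j 1)) i := by
    have h4 : T1 ξ = ∑ j, T1 ξ j • (Pi.single j 1 : ι → K) := by
      ext k
      simp [Finset.sum_apply, Pi.single_apply]
    conv_lhs => rw [h4]
    rw [map_sum, map_sum, Finset.sum_apply]
    refine Finset.sum_congr rfl fun j _ => ?_
    rw [map_smul, map_smul, Pi.smul_apply, smul_eq_mul]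
  rw [hE1'] at h3
  rw [h3, Finset.sum_eq_single i]
  · ring
  · intro j _ hj
    rw [off i j (Ne.symm hj), mul_zero]
  · simp

variable {r : ℕ} {K : Type*} [Field K] {l : ℕ}

theorem T21_lin (α : Equiv.Perm (Fin (r + 1)) → K) (a : Fin (r + 1) → ZMod l)
    (w v : Fin (r + 1) → ZMod l → K) (c : K) (ξ ξ' : ZMod l → K) (i : ZMod l) :
    T21 α a w v (c • ξ + ξ') i = c * T21 α a w v ξ i + T21 α a w v ξ' i :=
  PsiG_lin α a (fun σ k => if σ.symm k < σ.symm 0 then v k else w k) c ξ ξ' i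

theorem prod_split (W : (ZMod l → K) → Fin (r + 1) → ZMod l → K)
    (h0 : ∀ ξ, W ξ 0 = ξ) (hk : ∀ ξ k, k ≠ 0 → W ξ k = W 0 k) (hr : Fin.last r ≠ 0)
    (ξ : ZMod l → K) (f : Fin (r + 1) → ZMod l) :
    ∏ k ∈ univ.erase (Fin.last r), W ξ k (f k) =
      ξ (f 0) * ∏ k ∈ (univ.erase (Fin.last r)).erase 0, W 0 k (f k) := by
  have hm : (0 : Fin (r + 1)) ∈ univ.erase (Fin.last r) :=
    Finset.mem_erase.2 ⟨Ne.symm hr, Finset.mem_univ _⟩
  rw [← Finset.mul_prod_erase _ _ hm, h0]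
  congr 1
  exact Finset.prod_congr rfl fun k hk' => by rw [hk ξ k (Finset.mem_erase.1 hk').1]

theorem G1_lin (α : Equiv.Perm (Fin (r + 1)) → K) (a : Fin (r + 1) → ZMod l)
    (w v : Fin (r + 1) → ZMod l → K) (hr : Fin.last r ≠ 0) (Y : ZMod l → K) (c : K)
    (ξ ξ' : ZMod l → K) (j : ZMod l) :
    G1 α a w v Y (c • ξ + ξ') j = c * G1 α a w v Y ξ j + G1 α a w v Y ξ' j := by
  unfold G1
  rw [Finset.mul_sum, ← Finset.sum_add_distrib]
  refine Finset.sum_congr rfl fun σ _ => ?_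
  split_ifs with h
  · have e := fun ξ : ZMod l → K => prod_split (fun ξ => W11 w v 0 ξ σ)
      (fun ξ => by simp [W11]) (fun ξ k hk => by simp [W11, hk]) hr ξ
      (fun k => j - pre σ a (Fin.last r) + pre σ a k)
    rw [e, e, e]
    simp only [Pi.add_apply, Pi.smul_apply, smul_eq_mul]
    ring
  · ring

theorem G2_lin (α : Equiv.Perm (Fin (r + 1)) → K) (a : Fin (r + 1) → ZMod l)
    (w v : Fin (r + 1) → ZMod l → K) (hr : Fin.last r ≠ 0) (Y : ZMod l → K) (c : K)
    (ξ ξ' : ZMod l → K) (j : ZMod l) :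
    G2 α a w v Y (c • ξ + ξ') j = c * G2 α a w v Y ξ j + G2 α a w v Y ξ' j := by
  unfold G2
  rw [Finset.mul_sum, ← Finset.sum_add_distrib]
  refine Finset.sum_congr rfl fun σ _ => ?_
  split_ifs with h
  · have e := fun ξ : ZMod l → K => prod_split (fun ξ => W22 w v 0 ξ σ)
      (fun ξ => by simp [W22]) (fun ξ k hk => by simp [W22, hk]) hr ξ
      (fun k => j - pre σ a (Fin.last r) + pre σ a k)
    rw [e, e, e]
    simp only [Pi.add_apply, Pi.smul_apply, smul_eq_mul]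
    ring
  · ring

/-- a linear map from the identity for `c • ξ + ξ'` -/
def mkLin (F : (ZMod l → K) → ZMod l → K)
    (h : ∀ (c : K) (ξ ξ' : ZMod l → K) (j : ZMod l), F (c • ξ + ξ') j = c * F ξ j + F ξ' j) :
    (ZMod l → K) →ₗ[K] (ZMod l → K) where
  toFun := F
  map_add' ξ ξ' := by
    ext j
    have := h 1 ξ ξ' j
    rw [one_smul, one_mul] at this
    exact this
  map_smul' c ξ := by
    ext j
    have h0 := h 1 0 0 j
    rw [smul_zero, add_zero, one_mul] at h0
    have h1 := h c ξ 0 j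
    have h2 : F 0 j = 0 := by
      have := h0
      linear_combination -this
    rw [add_zero, h2, add_zero] at h1
    exact h1

end ContrAux

variable {r : ℕ} {K : Type*} [Field K] {l : ℕ}

/-- A pair of weights with an effective coupling. -/
structure Pt2 [NeZero l] (α : Equiv.Perm (Fin (r + 1)) → K) (a : Fin (r + 1) → ZMod l)
    (w v : Fin (r + 1) → ZMod l → K) (Y y ξ : ZMod l → K) (i₀ : ZMod l) : Prop where
  yw : LK α a w Y
  yv : LK α a v y
  nw : ∀ i, Y i ≠ 0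
  nv : ∀ i, y i ≠ 0
  sw : ∀ y', LK α a w y' → ∀ i j, Y i * y' j = Y j * y' i
  sv : ∀ y', LK α a v y' → ∀ i j, y i * y' j = y j * y' i
  i3 : Function.Injective (T21 α a v w)
  gw : ∀ i, gvec α a w i ≠ 0
  gv : ∀ i, gvec α a v i ≠ 0
  hξ : T21 α a w v ξ = Pi.single i₀ 1
  hS : ∃ j, G1 α a w v Y ξ j * y i₀ + G2 α a w v y ξ j * Y i₀ ≠ 0

open ContrAux in
theorem contr [CharZero K] [NeZero l] (α : Equiv.Perm (Fin (r + 1)) → K)
    (a b : Fin (r + 1) → ZMod l) (hab : Gpt l a b) (hr : Fin.last r ≠ 0)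
    (w v : Fin (r + 1) → ZMod l → K) (Y y : ZMod l → K) (h : Pt α a w v Y y) :
    ∃ v' ξ i₀, Pt2 α a w v' Y y ξ i₀ := by
  by_contra hcon
  push Not at hcon
  -- the negation for `v`
  have n1 : ∀ ξ i, T21 α a w v ξ = Pi.single i 1 → ∀ j,
      G1 α a w v Y ξ j * y i + G2 α a w v y ξ j * Y i = 0 := by
    intro ξ i hξ j
    by_contra hj
    exact hcon v ξ i ⟨h.yw, h.yv, h.nw, h.nv, h.sw, h.sv, h.i3, h.gw, h.gv, hξ, j, hj⟩
  have n2 : ∀ ξ i, T21 α a w (dbl v) ξ = Pi.single i 1 → ∀ j,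
      G1 α a w v Y ξ j * y i + G2 α a w v y ξ j * Y i = 0 := by
    intro ξ i hξ j
    by_contra hj
    refine hcon (dbl v) ξ i ⟨h.yw, (LK_dbl α a v hr y).2 h.yv, h.nw, h.nv, h.sw,
      fun y' hy' => h.sv y' ((LK_dbl α a v hr y').1 hy'), h.i4, h.gw, fun i => ?_, hξ, j, ?_⟩
    · rw [gvec_dbl α a v hr i]
      exact mul_ne_zero two_ne_zero (h.gv i)
    · rw [G1_dbl, G2_dbl]
      exact hj
  obtain ⟨c, hc⟩ := key (mkLin (T21 α a w v) (T21_lin α a w v))
    (mkLin (T21 α a w (dbl v)) (T21_lin α a w (dbl v)))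
    (mkLin (G1 α a w v Y) (G1_lin α a w v hr Y)) (mkLin (G2 α a w v y) (G2_lin α a w v hr y))
    h.i1 h.i2 h.i5 Y y h.nv h.ne (fun ξ i hh => hh.elim (n1 ξ i) (n2 ξ i))
  have hc' : ∀ ξ i, T21 α a w (dbl v) ξ i = c i * T21 α a w v ξ i := hc
  have hsup : ∀ ξ i, (1 - c i) * T0 α a w v ξ i = 0 ∧ (c i - 2) * Tq α a w v ξ i = 0 := by
    intro ξ i
    refine supp_disj α a b hab w v hr i (1 - c i) (c i - 2) (fun ξ => ?_) ξ
    have h1 := hc' ξ i
    rw [T21_dbl α a w v hr, T21_split] at h1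
    linear_combination h1
  have hci : ∀ i, c i = 1 := by
    intro i
    have h1 := (hsup (Pi.single i 1) i).1
    rw [T0_diag α a b hab w v hr] at h1
    rcases mul_eq_zero.1 h1 with h2 | h2
    · exact (sub_eq_zero.1 h2).symm
    · exact absurd h2 (h.gw _)
  have hTq : ∀ ξ i, Tq α a w v ξ i = 0 := by
    intro ξ i
    have h1 := (hsup ξ i).2
    rw [hci i] at h1
    rcases mul_eq_zero.1 h1 with h2 | h2
    · exfalso
      norm_num at h2
    · exact h2
  have hno : ∀ σ, σ.symm (Fin.last r) < σ.symm 0 → α σ = 0 := by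
    intro σ hσ
    by_contra hα
    obtain ⟨ξ, i, hne⟩ := h.hq ⟨σ, hα, hσ⟩
    exact hne (hTq ξ i)
  have hG1 : ∀ ξ j, G1 α a w v Y ξ j = 0 := by
    intro ξ j
    unfold G1
    refine Finset.sum_eq_zero fun σ _ => ?_
    split_ifs with hσ
    · rw [hno σ hσ]
      ring
    · rfl
  obtain ⟨ξ, hξ⟩ := (LinearMap.injective_iff_surjective
    (f := mkLin (T21 α a w v) (T21_lin α a w v))).1 h.i1 (Pi.single 0 1)
  have hξ' : T21 α a w v ξ = Pi.single 0 1 := hξ
  have hG2 : G2 α a w v y ξ = G2 α a w v y 0 := by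
    ext j
    have h1 := n1 ξ 0 hξ' j
    rw [hG1, zero_mul, zero_add] at h1
    have h2 : mkLin (G2 α a w v y) (G2_lin α a w v hr y) 0 = 0 := map_zero _
    have h3 : G2 α a w v y 0 = 0 := h2
    rw [h3]
    rcases mul_eq_zero.1 h1 with h4 | h4
    · exact h4
    · exact absurd h4 (h.nw 0)
  have hξ0 : ξ = 0 := h.i5 hG2
  have h1 := congrFun hξ' 0
  have h2 : mkLin (T21 α a w v) (T21_lin α a w v) 0 = 0 := map_zero _
  have h3 : T21 α a w v 0 = 0 := h2
  rw [hξ0, h3] at h1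
  simp at h1

end Pool.Agent.P5m
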