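import Mathlib

/-!
# A Hamiltonian path for a total relation (Redei)

PROOF. Induction on the finite set `Z`. Insert a new element `x` into a path `f 0, ..., f (n-1)` of
`Z`: if `R x (f 0)` put it first; otherwise `R (f 0) x`; let `i` be maximal with `R (f i) x`; then
either `i = n - 1` (put `x` last) or not `R (f (i+1)) x`, so `R x (f (i+1))` and `x` is inserted
after `f i`. (With lists: induction on the list, inserting into a chain.)
-/

namespace Pool.Agent.P5m

/-- inserting into a chain with a given first element -/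
lemma path_insert {ι : Type*} (R : ι → ι → Prop) (x : ι) : ∀ (l : List ι) (a : ι),
    (∀ y ∈ a :: l, R x y ∨ R y x) → R a x → (a :: l).IsChain R →
      ∃ l' : List ι, (a :: l').IsChain R ∧ (a :: l').Perm (x :: a :: l) := by
  intro l
  induction l with
  | nil =>
    intro a _ hax _
    exact ⟨[x], by simpa using hax, List.Perm.swap _ _ _⟩
  | cons b l ih =>
    intro a hR hax hch
    rw [List.isChain_cons_cons] at hch
    by_cases hbx : R b x
    · obtain ⟨l', h1, h2⟩ := ih b (fun y hy => hR y (List.mem_cons_of_mem _ hy)) hbx hch.2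
      refine ⟨b :: l', ?_, ?_⟩
      · rw [List.isChain_cons_cons]
        exact ⟨hch.1, h1⟩
      · exact (h2.cons a).trans (List.Perm.swap _ _ _)
    · have hxb : R x b := (hR b (by simp)).resolve_right hbx
      refine ⟨x :: b :: l, ?_, List.Perm.swap _ _ _⟩
      rw [List.isChain_cons_cons, List.isChain_cons_cons]
      exact ⟨hax, hxb, hch.2⟩

lemma path_list {ι : Type*} (R : ι → ι → Prop) : ∀ l : List ι, l.Nodup →
    (∀ x ∈ l, ∀ y ∈ l, x ≠ y → R x y ∨ R y x) → ∃ l' : List ι, l'.IsChain R ∧ l'.Perm l := by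
  intro l
  induction l with
  | nil => intro _ _; exact ⟨[], List.isChain_nil, List.Perm.refl _⟩
  | cons x l ih =>
    intro hnd hR
    rw [List.nodup_cons] at hnd
    obtain ⟨l', h1, h2⟩ := ih hnd.2 fun a ha b hb => hR a (List.mem_cons_of_mem _ ha) b
      (List.mem_cons_of_mem _ hb)
    have hRx : ∀ y ∈ l', R x y ∨ R y x := by
      intro y hy
      have hyl : y ∈ l := h2.subset hy
      refine hR x (by simp) y (List.mem_cons_of_mem _ hyl) ?_
      rintro rfl
      exact hnd.1 hyl
    cases l' with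
    | nil => exact ⟨[x], List.isChain_singleton x, h2.cons x⟩
    | cons a l' =>
      by_cases hax : R a x
      · obtain ⟨l'', h3, h4⟩ := path_insert R x l' a hRx hax h1
        exact ⟨a :: l'', h3, h4.trans (h2.cons x)⟩
      · have hxa : R x a := (hRx a (by simp)).resolve_right hax
        refine ⟨x :: a :: l', ?_, h2.cons x⟩
        rw [List.isChain_cons_cons]
        exact ⟨hxa, h1⟩

theorem path {ι : Type*} [Nonempty ι] (Z : Finset ι) (R : ι → ι → Prop)
    (hR : ∀ x ∈ Z, ∀ y ∈ Z, x ≠ y → R x y ∨ R y x) :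
    ∃ (n : ℕ) (f : ℕ → ι), (∀ i < n, f i ∈ Z) ∧ (∀ x ∈ Z, ∃ i < n, f i = x) ∧
      (∀ i < n, ∀ j < n, f i = f j → i = j) ∧ ∀ i, i + 1 < n → R (f i) (f (i + 1)) := by
  obtain ⟨l, hch, hperm⟩ := path_list R Z.toList Z.nodup_toList fun x hx y hy =>
    hR x (Finset.mem_toList.1 hx) y (Finset.mem_toList.1 hy)
  have hnd : l.Nodup := hperm.nodup_iff.2 Z.nodup_toList
  have hmem : ∀ x, x ∈ l ↔ x ∈ Z := fun x => hperm.mem_iff.trans Finset.mem_toList
  refine ⟨l.length, fun i => l.getD i (Classical.arbitrary ι), ?_, ?_, ?_, ?_⟩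
  · intro i hi
    simp only [List.getD_eq_getElem _ _ hi]
    exact (hmem _).1 (List.getElem_mem hi)
  · intro x hx
    obtain ⟨i, hi, h⟩ := List.getElem_of_mem ((hmem x).2 hx)
    exact ⟨i, hi, by simp only [List.getD_eq_getElem _ _ hi]; exact h⟩
  · intro i hi j hj h
    simp only [List.getD_eq_getElem _ _ hi, List.getD_eq_getElem _ _ hj] at h
    exact (hnd.getElem_inj_iff).1 h
  · intro i hi
    simp only [List.getD_eq_getElem _ _ hi, List.getD_eq_getElem _ _ (Nat.lt_of_succ_lt hi)]
    exact hch.getElem i hi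

end Pool.Agent.P5m
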