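import Mathlib

/-!
# A first order perturbation lemma

`M` is a square matrix over `L[X]` whose constant term is diagonal; `f 0, ..., f (n-1)` are the
different indices where the diagonal constant term vanishes; the first order coefficients at
`(f (k+1), f k)` do not vanish and those at `(f (k+1), f l)`, `l ≠ k`, vanish. Then for all but
finitely many `ε` the left kernel of `M(ε)` is at most one-dimensional: a left kernel vector `y`
with `y (f 0) = 0` is zero.

PROOF. Define a matrix `N` over `L[X]` with the same index set: for `i` not of the form `f k`,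
`k < n`: row `i` of `N` is row `i` of `M`; for `i = f (k+1)`, `k + 1 < n`: all entries of row `i` of
`M` are divisible by `X` (constant term zero: off-diagonal by assumption, diagonal because
`f (k+1)` is one of the special indices); row `i` of `N` is the row of quotients
(`Polynomial.divX`); for `i = f 0` (if `n ≥ 1`): row `i` of `N` is the unit vector at the column
`f (n-1)`. `N(0)` is injective: let `N(0) v = 0`. Rows `i` not special: `(M i i).coeff 0 * v i = 0`,
so `v i = 0`. Row `f 0`: `v (f (n-1)) = 0`. Row `f (k+1)`: `∑_j (M (f (k+1)) j).coeff 1 * v j = 0`;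
the non-special `j` contribute `0`, and only `j = f k` remains, so `v (f k) = 0`. So `v = 0` and
`(det N).eval 0 = det (N(0)) ≠ 0`, `det N ≠ 0`, and `det N (ε) ≠ 0` for all but finitely many `ε`.
Let `ε ≠ 0` be such a value, `y` a left kernel vector of `M(ε)` with `y (f 0) = 0` if `n ≥ 1`. Let
`y' i = y i` for non-special `i`, `y' (f (k+1)) = ε * y (f (k+1))`, `y' (f 0) = 0`. Then
`∑_i y' i * N(ε) i j = ∑_i y i * M(ε) i j = 0`, so `y' = 0` and `y = 0`.
-/

open Polynomial

namespace Pool.Agent.P5m

theorem pert {ι : Type*} [Fintype ι] [DecidableEq ι] {L : Type*} [Field L]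
    (M : Matrix ι ι L[X]) (h0 : ∀ i j, i ≠ j → (M i j).coeff 0 = 0) (n : ℕ) (f : ℕ → ι)
    (hf : ∀ i, (M i i).coeff 0 = 0 ↔ ∃ k < n, f k = i)
    (hinj : ∀ i < n, ∀ j < n, f i = f j → i = j)
    (h1 : ∀ k, k + 1 < n → (M (f (k + 1)) (f k)).coeff 1 ≠ 0)
    (h2 : ∀ k l, k + 1 < n → l < n → l ≠ k → (M (f (k + 1)) (f l)).coeff 1 = 0) :
    {ε : L | ∃ y : ι → L, (∀ j, ∑ i, y i * (M i j).eval ε = 0) ∧ (0 < n → y (f 0) = 0) ∧
      y ≠ 0}.Finite := by
  classical
  let N : Matrix ι ι L[X] := fun i j =>
    if (M i i).coeff 0 = 0 then
      (if i = f 0 then (if j = f (n - 1) then 1 else 0) else (M i j).divX)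
    else M i j
  have hN1 : ∀ i j, (M i i).coeff 0 ≠ 0 → N i j = M i j := fun i j h => if_neg h
  have hN2 : ∀ i j, (M i i).coeff 0 = 0 → i ≠ f 0 → N i j = (M i j).divX := fun i j h h' => by
    simp only [N]
    rw [if_pos h, if_neg h']
  have hN3 : ∀ j, (M (f 0) (f 0)).coeff 0 = 0 → N (f 0) j = if j = f (n - 1) then 1 else 0 :=
    fun j h => by
      simp only [N]
      rw [if_pos h, if_pos trivial]
  -- the determinant at zero
  have hdet0 : (N.map (Polynomial.evalRingHom (0 : L))).det ≠ 0 := by
    intro hdet
    obtain ⟨v, hv, hv0⟩ := Matrix.exists_mulVec_eq_zero_iff.2 hdet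
    apply hv
    have hrow : ∀ i, ∑ j, (N i j).coeff 0 * v j = 0 := by
      intro i
      have := congrFun hv0 i
      simp only [Matrix.mulVec, dotProduct, Matrix.map_apply, Polynomial.coe_evalRingHom,
        Pi.zero_apply] at this
      simp only [Polynomial.coeff_zero_eq_eval_zero]
      exact this
    have hns : ∀ i, (M i i).coeff 0 ≠ 0 → v i = 0 := by
      intro i hi
      have h3 := hrow i
      rw [Finset.sum_eq_single i] at h3
      · rw [hN1 i i hi] at h3
        exact (mul_eq_zero.1 h3).resolve_left hi
      · intro j _ hj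
        rw [hN1 i j hi, h0 i j (Ne.symm hj), zero_mul]
      · intro h
        exact absurd (Finset.mem_univ i) h
    have hsp : ∀ k, k < n → (M (f k) (f k)).coeff 0 = 0 := fun k hk => (hf _).2 ⟨k, hk, rfl⟩
    funext i
    by_cases hi : (M i i).coeff 0 = 0
    · obtain ⟨k, hk, rfl⟩ := (hf i).1 hi
      rcases Nat.lt_or_ge (k + 1) n with hk1 | hk1
      · have hne : f (k + 1) ≠ f 0 := fun h => by
          have := hinj (k + 1) hk1 0 (by omega) h
          omega
        have h3 := hrow (f (k + 1))
        rw [Finset.sum_eq_single (f k)] at h3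
        · rw [hN2 _ _ (hsp _ hk1) hne, Polynomial.coeff_divX] at h3
          exact (mul_eq_zero.1 h3).resolve_left (h1 k hk1)
        · intro j _ hj
          by_cases hjs : (M j j).coeff 0 = 0
          · obtain ⟨l, hl, rfl⟩ := (hf j).1 hjs
            have hlk : l ≠ k := fun h => hj (by rw [h])
            rw [hN2 _ _ (hsp _ hk1) hne, Polynomial.coeff_divX, zero_add, h2 k l hk1 hl hlk,
              zero_mul]
          · rw [hns j hjs, mul_zero]
        · intro h
          exact absurd (Finset.mem_univ _) h
      · have hkn : k = n - 1 := by omega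
        have h3 := hrow (f 0)
        rw [Finset.sum_eq_single (f k)] at h3
        · rw [hN3 _ (hsp 0 (by omega)), if_pos (by rw [hkn]), Polynomial.coeff_one_zero,
            one_mul] at h3
          exact h3
        · intro j _ hj
          rw [hN3 _ (hsp 0 (by omega)), if_neg (by rw [← hkn]; exact hj), Polynomial.coeff_zero,
            zero_mul]
        · intro h
          exact absurd (Finset.mem_univ _) h
    · exact hns i hi
  have hev : ∀ ε : L, (N.map (Polynomial.evalRingHom ε)).det = N.det.eval ε := by
    intro ε
    have := RingHom.map_det (Polynomial.evalRingHom ε) N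
    rw [Polynomial.coe_evalRingHom] at this
    exact this.symm
  have hdet : N.det ≠ 0 := by
    intro h
    rw [hev, h, Polynomial.eval_zero] at hdet0
    exact hdet0 rfl
  refine ((N.det.rootSet_finite L).union (Set.finite_singleton (0 : L))).subset ?_
  rintro ε ⟨y, hy, hy0, hyne⟩
  by_contra hcon
  rw [Set.mem_union, not_or] at hcon
  obtain ⟨hc1, hc2⟩ := hcon
  have hε : ε ≠ 0 := fun h => hc2 (by rw [h]; exact Set.mem_singleton _)
  have hdε : (N.map (Polynomial.evalRingHom ε)).det ≠ 0 := by
    rw [hev]
    intro h
    apply hc1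
    rw [Polynomial.mem_rootSet]
    refine ⟨hdet, ?_⟩
    rw [Polynomial.coe_aeval_eq_eval]
    exact h
  let y' : ι → L := fun i =>
    if (M i i).coeff 0 = 0 then (if i = f 0 then 0 else ε * y i) else y i
  have hsp0 : (M (f 0) (f 0)).coeff 0 = 0 → y (f 0) = 0 := by
    intro h
    obtain ⟨k, hk, _⟩ := (hf _).1 h
    exact hy0 (by omega)
  have hterm : ∀ i j, y' i * (N i j).eval ε = y i * (M i j).eval ε := by
    intro i j
    by_cases hi : (M i i).coeff 0 = 0
    · by_cases hi0 : i = f 0
      · have e1 : y' i = 0 := by
          simp only [y']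
          rw [if_pos hi, if_pos hi0]
        have e2 : y i = 0 := by
          rw [hi0]
          exact hsp0 (by rw [← hi0]; exact hi)
        rw [e1, e2, zero_mul, zero_mul]
      · have e1 : y' i = ε * y i := by
          simp only [y']
          rw [if_pos hi, if_neg hi0]
        have hc : (M i j).coeff 0 = 0 := by
          by_cases hij : i = j
          · rw [← hij]; exact hi
          · exact h0 i j hij
        have e2 : (M i j).eval ε = ε * (M i j).divX.eval ε := by
          conv_lhs => rw [← Polynomial.divX_mul_X_add (M i j)]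
          rw [hc]
          simp
          ring
        rw [e1, hN2 i j hi hi0, e2]
        ring
    · have e1 : y' i = y i := by
        simp only [y']
        rw [if_neg hi]
      rw [e1, hN1 i j hi]
  have hy' : y' = 0 := by
    refine Matrix.eq_zero_of_vecMul_eq_zero hdε ?_
    funext j
    simp only [Matrix.vecMul, dotProduct, Matrix.map_apply, Polynomial.coe_evalRingHom,
      Pi.zero_apply]
    simp only [hterm]
    exact hy j
  apply hyne
  funext i
  have h3 := congrFun hy' i
  by_cases hi : (M i i).coeff 0 = 0
  · by_cases hi0 : i = f 0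
    · rw [hi0]
      exact hsp0 (by rw [← hi0]; exact hi)
    · have e1 : y' i = ε * y i := by
        simp only [y']
        rw [if_pos hi, if_neg hi0]
      rw [e1] at h3
      exact (mul_eq_zero.1 h3).resolve_left hε
  · have e1 : y' i = y i := by
      simp only [y']
      rw [if_neg hi]
    rw [e1] at h3
    exact h3

end Pool.Agent.P5m
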