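import Pool.Agent.Lib.P5m.Zeros
import Pool.Agent.Lib.P5m.Path
import Pool.Agent.Lib.P5m.Pert

/-!
# Weights over the algebraic closure for which the corank is at most one

`LK α a w y` says that `y` is in the left kernel of the linear map `x ↦ Psi α a (w, x)` where `x` is
the weight function of the letter `0`.

PROOF of `corank_one`. `L = AlgebraicClosure K` has characteristic zero, so it contains a primitive
`l`-th root of unity; let `ψ ≠ 1` be an additive character of `ZMod l` with values in `L`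
(`AddChar.zmodChar` of a primitive root). Let `Z = {β | IsZ α ψ a b β}` (a finset of `ZMod l`,
classical decidability), `e s = Pi.single`-like updates. Let
`R z z' = (z ≠ z') and ∃ s ≠ 0, E (ac α) ψ a (update (update b 0 z) s (b s + (z' - z))) ≠ 0`.
By `total` `R` is total on `Z`; `path` gives `n`, `f`. For `k + 1 < n` choose `s_k ≠ 0` for
`R (f k) (f (k+1))` and put `d_k = f (k+1) - f k`. For a letter `s ≠ 0` let
`D s = {d_k | k + 1 < n, s_k = s}` (a finset). Weights with values in `L[X]`: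
`w s i = C (ψ (b s * i)) + X * C (∑_{d ∈ D s} ψ ((b s + d) * i))` for `s ≠ 0`. For `β β' : ZMod l`
let `M β' β = ∑_i C (ψ (- (β' + bt b) * i)) * P_β(i)`, where
`P_β(i) = ∑_σ C (ac α σ) * C (ψ (β * (i + pre σ a 0))) * ∏_{k ≠ 0} w k (i + pre σ a k)`.
Coefficient `0`: replace every `w k` by `ψ (b k * ·)`: with `c = update b 0 β`,
`∑_σ α σ ∏_k ψ (c k * (i + pre σ a k)) = ψ (i * ∑ c) * E (ac α) ψ a c`, and
`∑_i ψ (- (β' + bt b) * i) ψ (i * (bt b + β)) = l` if `β' = β` and `0` otherwise
(`AddChar.sum_mulShift` or `AddChar.sum_eq_zero_of_ne_one`; `l` is prime and `ψ ≠ 1`). So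
`(M β' β).coeff 0 = l * E(update b 0 β)` if `β' = β`, else `0`. Coefficient `1`: exactly one letter
`s ≠ 0` contributes its second part (the coefficient at `X` of a product of
`C u_k + X * C v_k` is `∑_s v_s ∏_{k ≠ s} u_k`), so
`(M β' β).coeff 1 = l * ∑_{s ≠ 0} ∑_{d ∈ D s, β + d = β'} E(update (update b 0 β) s (b s + d))`.
For `β' = f (k+1)`, `β = f m` (`m < n`): `d = f (k+1) - f m = d_{k'} = f (k'+1) - f k'` means
`f (k+1) + f k' = f (k'+1) + f m`, by `sidon` either `f (k+1) = f (k'+1)` and `f k' = f m`, so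
`k' = k`, `m = k`; or `f (k+1) = f m` and `f k' = f (k'+1)`, impossible. So for `m ≠ k` the
coefficient is zero, and for `m = k` only `s = s_k`, `d = d_k` contributes, giving
`l * E(update (update b 0 (f k)) s_k (b s_k + (f (k+1) - f k))) ≠ 0`. `pert` gives all but finitely
many `ε ∈ L` (`L` is infinite): choose one. Weights `w_ε`: evaluate at `ε`. Let `y` be in the left
kernel: `∑_i y i * Psi (ac α) a (update w_ε 0 x) i = 0` for all `x`. Expand
`y i = ∑_{β'} Y β' * ψ (- (β' + bt b) * i)` (the characters form a basis: `Y` is a Fourier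
transform, divide by `l ≠ 0`). Taking `x = ψ (β * ·)`: `∑_{β'} Y β' * (M β' β).eval ε = 0` for all
`β`. So if `n = 0`: `Y = 0`, `y = 0`. If `n ≥ 1`: the map `y ↦ Y (f 0)` is injective on the
(linear) left kernel. For two kernel vectors `y, y'` apply this to `Y'(f 0) y - Y(f 0) y'`: it
is zero. So `y, y'` are proportional: `y i * y' j = y j * y' i`.
-/

open Finset

namespace Pool.Agent.P5m

variable {r : ℕ}

/-- `y` is in the left kernel. -/
def LK {G : Type*} [CommRing G] [Fintype G] {L : Type*} [Field L]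
    (α : Equiv.Perm (Fin (r + 1)) → L) (a : Fin (r + 1) → G) (w : Fin (r + 1) → G → L)
    (y : G → L) : Prop :=
  ∀ x : G → L, ∑ i, y i * Psi α a (Function.update w 0 x) i = 0

namespace CorOneAux

open Polynomial

section gen

variable {G : Type*} [CommRing G] {L : Type*} [Field L]

omit [CommRing G] in
lemma prod_upd (W : Fin (r + 1) → G → L) (s : Fin (r + 1)) (h : G → L) (q : Fin (r + 1) → G) :
    ∏ k, Function.update W s h k (q k) = h (q s) * ∏ k ∈ univ.erase s, W k (q k) := by
  rw [← Finset.mul_prod_erase univ (fun k => Function.update W s h k (q k)) (mem_univ s)]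
  simp only [Function.update_self]
  congr 1
  refine prod_congr rfl fun k hk => ?_
  rw [Function.update_of_ne (ne_of_mem_erase hk)]

lemma Psi_update_sum {ι : Type*} (α : Equiv.Perm (Fin (r + 1)) → L) (a : Fin (r + 1) → G)
    (W : Fin (r + 1) → G → L) (s : Fin (r + 1)) (D : Finset ι) (g : ι → G → L) (i : G) :
    Psi α a (Function.update W s (fun j => ∑ d ∈ D, g d j)) i =
      ∑ d ∈ D, Psi α a (Function.update W s (g d)) i := by
  unfold Psi
  rw [sum_comm]
  refine sum_congr rfl fun σ _ => ?_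
  rw [prod_upd, sum_mul, mul_sum]
  refine sum_congr rfl fun d _ => ?_
  rw [prod_upd]

/-- The weights as polynomials. -/
noncomputable def PP (α : Equiv.Perm (Fin (r + 1)) → L) (a : Fin (r + 1) → G)
    (u v : Fin (r + 1) → G → L) (x : G → L) (i : G) : L[X] :=
  ∑ σ, C (α σ) * (C (x (i + pre σ a 0)) *
    ∏ k ∈ univ.erase (0 : Fin (r + 1)), (C (u k (i + pre σ a k)) + X * C (v k (i + pre σ a k))))

lemma PP_eval (α : Equiv.Perm (Fin (r + 1)) → L) (a : Fin (r + 1) → G)
    (u v : Fin (r + 1) → G → L) (x : G → L) (i : G) (ε : L) :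
    (PP α a u v x i).eval ε = Psi α a (Function.update (fun k j => u k j + ε * v k j) 0 x) i := by
  unfold PP Psi
  rw [eval_finsetSum]
  refine sum_congr rfl fun σ _ => ?_
  rw [prod_upd]
  simp only [eval_mul, eval_C, eval_prod, eval_add, eval_X]

lemma coeff_prod {ι : Type*} [DecidableEq ι] (S : Finset ι) (u v : ι → L) :
    (∏ k ∈ S, (C (u k) + X * C (v k))).coeff 0 = ∏ k ∈ S, u k ∧
    (∏ k ∈ S, (C (u k) + X * C (v k))).coeff 1 = ∑ s ∈ S, v s * ∏ k ∈ S.erase s, u k := by
  induction S using Finset.induction_on with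
  | empty => simp [coeff_one]
  | insert t S ht ih =>
    have h0 : ∀ q : L[X], ((C (u t) + X * C (v t)) * q).coeff 0 = u t * q.coeff 0 := by
      intro q
      simp [mul_coeff_zero]
    have h1 : ∀ q : L[X], ((C (u t) + X * C (v t)) * q).coeff 1 =
        u t * q.coeff 1 + v t * q.coeff 0 := by
      intro q
      rw [add_mul, coeff_add, coeff_C_mul, mul_assoc, coeff_X_mul, coeff_C_mul]
    rw [prod_insert ht, prod_insert ht, sum_insert ht, h0, h1, ih.1, ih.2, erase_insert ht]
    refine ⟨rfl, ?_⟩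
    rw [add_comm, mul_sum]
    congr 1
    refine sum_congr rfl fun s hs => ?_
    have hst : t ≠ s := fun h => ht (h ▸ hs)
    rw [erase_insert_of_ne hst, prod_insert (fun h => ht (mem_of_mem_erase h))]
    ring

lemma PP_coeff0 (α : Equiv.Perm (Fin (r + 1)) → L) (a : Fin (r + 1) → G)
    (u v : Fin (r + 1) → G → L) (x : G → L) (i : G) :
    (PP α a u v x i).coeff 0 = Psi α a (Function.update u 0 x) i := by
  unfold PP Psi
  rw [finsetSum_coeff]
  refine sum_congr rfl fun σ _ => ?_
  rw [prod_upd, coeff_C_mul, coeff_C_mul,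
    (coeff_prod (univ.erase (0 : Fin (r + 1))) (fun k => u k (i + pre σ a k))
      (fun k => v k (i + pre σ a k))).1]

lemma PP_coeff1 (α : Equiv.Perm (Fin (r + 1)) → L) (a : Fin (r + 1) → G)
    (u v : Fin (r + 1) → G → L) (x : G → L) (i : G) :
    (PP α a u v x i).coeff 1 = ∑ s ∈ univ.erase (0 : Fin (r + 1)),
      Psi α a (Function.update (Function.update u 0 x) s (v s)) i := by
  unfold PP Psi
  rw [finsetSum_coeff, sum_comm]
  refine sum_congr rfl fun σ _ => ?_
  rw [coeff_C_mul, coeff_C_mul,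
    (coeff_prod (univ.erase (0 : Fin (r + 1))) (fun k => u k (i + pre σ a k))
      (fun k => v k (i + pre σ a k))).2, mul_sum, mul_sum]
  refine sum_congr rfl fun s hs => ?_
  have hs0 : s ≠ 0 := ne_of_mem_erase hs
  rw [prod_upd]
  have h1 : ∏ k ∈ univ.erase s, Function.update u 0 x k (i + pre σ a k) =
      x (i + pre σ a 0) * ∏ k ∈ (univ.erase (0 : Fin (r + 1))).erase s, u k (i + pre σ a k) := by
    rw [← Finset.mul_prod_erase (univ.erase s)
      (fun k => Function.update u 0 x k (i + pre σ a k)) (mem_erase.2 ⟨hs0.symm, mem_univ _⟩)]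
    rw [erase_right_comm]
    simp only [Function.update_self]
    congr 1
    refine prod_congr rfl fun k hk => ?_
    rw [Function.update_of_ne (ne_of_mem_erase (mem_of_mem_erase hk))]
  rw [h1]
  ring

end gen

section char

variable {l : ℕ} [NeZero l] {L : Type*} [Field L] (ψ : AddChar (ZMod l) L)

omit [NeZero l] in
lemma map_sum' {ι : Type*} (S : Finset ι) (f : ι → ZMod l) :
    ψ (∑ k ∈ S, f k) = ∏ k ∈ S, ψ (f k) := by
  classical
  induction S using Finset.induction_on with
  | empty => simp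
  | insert t S ht ih => rw [sum_insert ht, prod_insert ht, AddChar.map_add_eq_mul, ih]

omit [NeZero l] in
lemma Psi_char (α : Equiv.Perm (Fin (r + 1)) → L) (a c : Fin (r + 1) → ZMod l) (i : ZMod l) :
    Psi α a (fun k j => ψ (c k * j)) i = ψ (i * ∑ k, c k) * E α ψ a c := by
  unfold Psi E
  rw [mul_sum]
  refine sum_congr rfl fun σ _ => ?_
  have h : ∏ k, ψ (c k * (i + pre σ a k)) = ψ (i * ∑ k, c k) * ψ (ex σ a c) := by
    rw [← AddChar.map_add_eq_mul, ← map_sum']
    congr 1
    unfold ex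
    rw [mul_sum, ← sum_add_distrib]
    refine sum_congr rfl fun k _ => ?_
    ring
  rw [h]
  ring

lemma orth {ψ : AddChar (ZMod l) L} (hψ : ψ.IsPrimitive) (c : ZMod l) :
    ∑ i : ZMod l, ψ (i * c) = if c = 0 then (l : L) else 0 := by
  have h := AddChar.sum_mulShift c hψ
  rw [ZMod.card] at h
  rw [h]
  split_ifs <;> simp

/-- the matrix of polynomials -/
noncomputable def MM (α : Equiv.Perm (Fin (r + 1)) → L) (a b : Fin (r + 1) → ZMod l)
    (v : Fin (r + 1) → ZMod l → L) (t : ZMod l) : Matrix (ZMod l) (ZMod l) L[X] := fun β' β =>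
  ∑ i, C (ψ (-((β' + t) * i))) * PP α a (fun k j => ψ (b k * j)) v (fun j => ψ (β * j)) i

omit [NeZero l] in
lemma upd_char (b : Fin (r + 1) → ZMod l) (s : Fin (r + 1)) (β : ZMod l) :
    Function.update (fun (k : Fin (r + 1)) (j : ZMod l) => ψ (b k * j)) s (fun j => ψ (β * j)) =
      fun k j => ψ (Function.update b s β k * j) := by
  funext k j
  by_cases h : k = s
  · subst h
    simp
  · simp [Function.update_of_ne h]

omit [NeZero l] in
lemma sum_upd (b : Fin (r + 1) → ZMod l) (s : Fin (r + 1)) (β : ZMod l) :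
    ∑ k, Function.update b s β k = β + ∑ k ∈ univ.erase s, b k := by
  rw [← Finset.add_sum_erase univ (fun k => Function.update b s β k) (mem_univ s)]
  simp only [Function.update_self]
  congr 1
  refine sum_congr rfl fun k hk => ?_
  rw [Function.update_of_ne (ne_of_mem_erase hk)]

omit [NeZero l] in
lemma sum_upd' (b : Fin (r + 1) → ZMod l) (s : Fin (r + 1)) (d : ZMod l) :
    ∑ k, Function.update b s (b s + d) k = (∑ k, b k) + d := by
  rw [sum_upd, ← Finset.add_sum_erase univ b (mem_univ s)]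
  ring

lemma MM_coeff0 {ψ : AddChar (ZMod l) L} (hψ : ψ.IsPrimitive)
    (α : Equiv.Perm (Fin (r + 1)) → L) (a b : Fin (r + 1) → ZMod l)
    (v : Fin (r + 1) → ZMod l → L) (β' β : ZMod l) :
    (MM ψ α a b v (bt b) β' β).coeff 0 =
      if β' = β then (l : L) * E α ψ a (Function.update b 0 β) else 0 := by
  unfold MM
  rw [finsetSum_coeff]
  have h1 : ∀ i : ZMod l, (C (ψ (-((β' + bt b) * i))) *
      PP α a (fun k j => ψ (b k * j)) v (fun j => ψ (β * j)) i).coeff 0 =
      ψ (i * (β - β')) * E α ψ a (Function.update b 0 β) := by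
    intro i
    rw [coeff_C_mul, PP_coeff0, upd_char, Psi_char, sum_upd, ← mul_assoc,
      ← AddChar.map_add_eq_mul]
    congr 2
    unfold bt
    ring
  rw [sum_congr rfl fun i _ => h1 i, ← sum_mul, orth hψ]
  by_cases h : β' = β
  · rw [if_pos h, if_pos (by rw [h, sub_self])]
  · rw [if_neg h, if_neg (fun h' => h (sub_eq_zero.1 h').symm), zero_mul]

lemma MM_coeff1 {ψ : AddChar (ZMod l) L} (hψ : ψ.IsPrimitive)
    (α : Equiv.Perm (Fin (r + 1)) → L) (a b : Fin (r + 1) → ZMod l)
    (D : Fin (r + 1) → Finset (ZMod l)) (β' β : ZMod l) :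
    (MM ψ α a b (fun s j => ∑ d ∈ D s, ψ ((b s + d) * j)) (bt b) β' β).coeff 1 =
      ∑ s ∈ univ.erase (0 : Fin (r + 1)), ∑ d ∈ D s, if β + d = β' then
        (l : L) * E α ψ a (Function.update (Function.update b 0 β) s (b s + d)) else 0 := by
  unfold MM
  rw [finsetSum_coeff]
  have h1 : ∀ i : ZMod l, (C (ψ (-((β' + bt b) * i))) *
      PP α a (fun k j => ψ (b k * j)) (fun s j => ∑ d ∈ D s, ψ ((b s + d) * j))
        (fun j => ψ (β * j)) i).coeff 1 =
      ∑ s ∈ univ.erase (0 : Fin (r + 1)), ∑ d ∈ D s, ψ (i * (β + d - β')) *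
        E α ψ a (Function.update (Function.update b 0 β) s (b s + d)) := by
    intro i
    rw [coeff_C_mul, PP_coeff1, mul_sum]
    refine sum_congr rfl fun s hs => ?_
    have hs0 : s ≠ 0 := ne_of_mem_erase hs
    rw [Psi_update_sum, mul_sum]
    refine sum_congr rfl fun d _ => ?_
    rw [upd_char, upd_char, Psi_char]
    have hb : Function.update b 0 β s = b s := Function.update_of_ne hs0 _ _
    have h2 := sum_upd' (Function.update b 0 β) s d
    rw [hb] at h2
    rw [h2, sum_upd, ← mul_assoc, ← AddChar.map_add_eq_mul]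
    congr 2
    unfold bt
    ring
  rw [sum_congr rfl fun i _ => h1 i, sum_comm]
  refine sum_congr rfl fun s _ => ?_
  rw [sum_comm]
  refine sum_congr rfl fun d _ => ?_
  rw [← sum_mul, orth hψ]
  by_cases h : β + d = β'
  · rw [if_pos h, if_pos (by rw [h, sub_self])]
  · rw [if_neg h, if_neg (fun h' => h (sub_eq_zero.1 h')), zero_mul]

/-- the Fourier transform -/
noncomputable def FT (t : ZMod l) (y : ZMod l → L) (β : ZMod l) : L :=
  (l : L)⁻¹ * ∑ j, y j * ψ (j * (β + t))

lemma FT_inv {ψ : AddChar (ZMod l) L} (hψ : ψ.IsPrimitive) (hl : (l : L) ≠ 0) (t : ZMod l)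
    (y : ZMod l → L) (i : ZMod l) : ∑ β, FT ψ t y β * ψ (-((β + t) * i)) = y i := by
  unfold FT
  have h1 : ∀ β : ZMod l, (l : L)⁻¹ * (∑ j, y j * ψ (j * (β + t))) * ψ (-((β + t) * i)) =
      ∑ j, (l : L)⁻¹ * y j * ψ ((j - i) * t) * ψ (β * (j - i)) := by
    intro β
    rw [mul_sum, sum_mul]
    refine sum_congr rfl fun j _ => ?_
    have h2 : ψ (j * (β + t)) * ψ (-((β + t) * i)) = ψ ((j - i) * t) * ψ (β * (j - i)) := by
      rw [← AddChar.map_add_eq_mul, ← AddChar.map_add_eq_mul]
      congr 1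
      ring
    linear_combination ((l : L)⁻¹ * y j) * h2
  rw [sum_congr rfl fun β _ => h1 β, sum_comm, sum_eq_single i]
  · rw [← mul_sum, orth hψ, if_pos (sub_self i), sub_self, zero_mul, AddChar.map_zero_eq_one]
    field_simp
  · intro j _ hj
    rw [← mul_sum, orth hψ, if_neg (sub_ne_zero.2 hj), mul_zero]
  · intro h
    exact absurd (mem_univ i) h

lemma FT_lin (t : ZMod l) (y y' : ZMod l → L) (A B : L) (β : ZMod l) :
    FT ψ t (fun i => A * y i - B * y' i) β = A * FT ψ t y β - B * FT ψ t y' β := by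
  unfold FT
  rw [mul_left_comm A, mul_left_comm B, ← mul_sub]
  congr 1
  rw [mul_sum, mul_sum, ← sum_sub_distrib]
  refine sum_congr rfl fun j _ => ?_
  ring

lemma MM_ker {ψ : AddChar (ZMod l) L} (hψ : ψ.IsPrimitive) (hl : (l : L) ≠ 0)
    (α : Equiv.Perm (Fin (r + 1)) → L) (a b : Fin (r + 1) → ZMod l)
    (v : Fin (r + 1) → ZMod l → L) (t : ZMod l) (ε : L) (y : ZMod l → L)
    (hy : LK α a (fun k j => ψ (b k * j) + ε * v k j) y) (β : ZMod l) :
    ∑ β', FT ψ t y β' * (MM ψ α a b v t β' β).eval ε = 0 := by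
  rw [← hy (fun j => ψ (β * j))]
  unfold MM
  have h1 : ∀ β' : ZMod l, FT ψ t y β' * (∑ i, C (ψ (-((β' + t) * i))) *
      PP α a (fun k j => ψ (b k * j)) v (fun j => ψ (β * j)) i).eval ε =
      ∑ i, (FT ψ t y β' * ψ (-((β' + t) * i))) *
        Psi α a (Function.update (fun k j => ψ (b k * j) + ε * v k j) 0 (fun j => ψ (β * j))) i := by
    intro β'
    rw [eval_finsetSum, mul_sum]
    refine sum_congr rfl fun i _ => ?_
    rw [eval_mul, eval_C, PP_eval]
    ring
  rw [sum_congr rfl fun β' _ => h1 β', sum_comm]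
  refine sum_congr rfl fun i _ => ?_
  rw [← sum_mul, FT_inv hψ hl]

end char

end CorOneAux

open CorOneAux in
theorem corank_one {K : Type*} [Field K] [CharZero K] {l : ℕ} (hl : l.Prime) [NeZero l]
    (α : Equiv.Perm (Fin (r + 1)) → K) (hα : ∃ σ, α σ ≠ 0) (hg : Good l α)
    (a b : Fin (r + 1) → ZMod l) (hab : Gpt l a b) :
    ∃ w : Fin (r + 1) → ZMod l → AlgebraicClosure K,
      ∀ y y' : ZMod l → AlgebraicClosure K, LK (ac α) a w y → LK (ac α) a w y' →
        ∀ i j, y i * y' j = y j * y' i := by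
  classical
  have : Fact l.Prime := ⟨hl⟩
  set L := AlgebraicClosure K with hL
  have : CharZero L := charZero_of_injective_algebraMap (algebraMap K L).injective
  have hl0 : (l : L) ≠ 0 := by
    exact_mod_cast hl.ne_zero
  obtain ⟨ψ, hψ⟩ : ∃ ψ : AddChar (ZMod l) L, ψ.IsPrimitive := by
    obtain ⟨ζ, hζ⟩ := HasEnoughRootsOfUnity.exists_primitiveRoot L l
    exact ⟨_, AddChar.zmodChar_primitive_of_primitive_root l hζ⟩
  have hψ1 : ψ ≠ 1 := by
    intro h
    have h1 := hψ (one_ne_zero : (1 : ZMod l) ≠ 0)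
    rw [AddChar.mulShift_one] at h1
    exact h1 h
  -- the path
  obtain ⟨n, f, hf1, hf2, hf3, hf4⟩ := path (univ.filter fun β => IsZ α ψ a b β)
    (fun z z' => z ≠ z' ∧ ∃ s : Fin (r + 1), s ≠ 0 ∧
      E (ac α) ψ a (Function.update (Function.update b 0 z) s (b s + (z' - z))) ≠ 0) (by
    intro z hz z' hz' hne
    rw [mem_filter] at hz hz'
    obtain ⟨s, hs, h⟩ := total hl α hα hg ψ hψ1 a b hab z z' hz.2 hz'.2 hne
    rcases h with h | h
    · exact Or.inl ⟨hne, s, hs, h⟩
    · exact Or.inr ⟨hne.symm, s, hs, h⟩)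
  have hfZ : ∀ i < n, IsZ α ψ a b (f i) := fun i hi => (mem_filter.1 (hf1 i hi)).2
  -- the shifted letters
  have hex : ∀ k : ℕ, ∃ s : Fin (r + 1), k + 1 < n → s ≠ 0 ∧
      E (ac α) ψ a (Function.update (Function.update b 0 (f k)) s
        (b s + (f (k + 1) - f k))) ≠ 0 := by
    intro k
    by_cases h : k + 1 < n
    · obtain ⟨_, s, hs⟩ := hf4 k h
      exact ⟨s, fun _ => hs⟩
    · exact ⟨0, fun h' => absurd h' h⟩
  choose sk hsk using hex
  set D : Fin (r + 1) → Finset (ZMod l) := fun s =>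
    ((range (n - 1)).filter fun k => sk k = s).image fun k => f (k + 1) - f k with hD
  have hDmem : ∀ s d, d ∈ D s ↔ ∃ k, k + 1 < n ∧ sk k = s ∧ f (k + 1) - f k = d := by
    intro s d
    rw [hD]
    simp only [mem_image, mem_filter, mem_range]
    constructor
    · rintro ⟨k, ⟨h1, h2⟩, h3⟩
      exact ⟨k, by omega, h2, h3⟩
    · rintro ⟨k, h1, h2, h3⟩
      exact ⟨k, ⟨by omega, h2⟩, h3⟩
  -- the Sidon property
  have hsid : ∀ k m k', k + 1 < n → m < n → k' + 1 < n →
      f m + (f (k' + 1) - f k') = f (k + 1) → k' = k ∧ m = k := by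
    intro k m k' hk hm hk' h
    have h1 : f (k + 1) + f k' = f (k' + 1) + f m := by
      linear_combination -h
    rcases sidon hl α hα hg ψ hψ1 a b hab _ _ _ _ (hfZ (k + 1) hk) (hfZ k' (by omega))
      (hfZ (k' + 1) hk') (hfZ m hm) h1 with h2 | h2
    · have h3 := hf3 _ hk _ hk' h2.1
      have h4 := hf3 _ (by omega) _ hm h2.2
      omega
    · have h4 := hf3 k' (by omega) (k' + 1) hk' h2.2
      omega
  set M := MM ψ (ac α) a b (fun s j => ∑ d ∈ D s, ψ ((b s + d) * j)) (bt b) with hM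
  have hpert := pert M (fun i j hij => by rw [hM, MM_coeff0 hψ, if_neg hij]) n f (by
      intro i
      rw [hM, MM_coeff0 hψ, if_pos rfl]
      constructor
      · intro h
        have h1 : IsZ α ψ a b i := (mul_eq_zero.1 h).resolve_left hl0
        obtain ⟨k, hk, hk2⟩ := hf2 i (mem_filter.2 ⟨mem_univ _, h1⟩)
        exact ⟨k, hk, hk2⟩
      · rintro ⟨k, hk, rfl⟩
        have h1 : E (ac α) ψ a (Function.update b 0 (f k)) = 0 := hfZ k hk
        rw [h1, mul_zero])
    hf3
    (by
      intro k hk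
      rw [hM, MM_coeff1 hψ]
      have hsk1 := hsk k hk
      rw [sum_eq_single (sk k), sum_eq_single (f (k + 1) - f k), if_pos (by ring)]
      · exact mul_ne_zero hl0 hsk1.2
      · intro d _ hd
        rw [if_neg]
        intro h
        apply hd
        linear_combination h
      · intro h
        exact absurd ((hDmem _ _).2 ⟨k, hk, rfl, rfl⟩) h
      · intro s _ hs
        refine sum_eq_zero fun d hd => ?_
        rw [if_neg]
        intro h
        obtain ⟨k', hk', h1, h2⟩ := (hDmem _ _).1 hd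
        rw [← h2] at h
        obtain ⟨h3, _⟩ := hsid k k k' hk (by omega) hk' h
        rw [h3] at h1
        exact hs h1.symm
      · intro h
        exact absurd (mem_erase.2 ⟨hsk1.1, mem_univ _⟩) h)
    (by
      intro k m hk hm hmk
      rw [hM, MM_coeff1 hψ]
      refine sum_eq_zero fun s _ => sum_eq_zero fun d hd => ?_
      rw [if_neg]
      intro h
      obtain ⟨k', hk', h1, h2⟩ := (hDmem _ _).1 hd
      rw [← h2] at h
      exact hmk (hsid k m k' hk hm hk' h).2)
  obtain ⟨ε, hε⟩ := hpert.exists_notMem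
  have hker : ∀ Y : ZMod l → L, (∀ j, ∑ i, Y i * (M i j).eval ε = 0) →
      (0 < n → Y (f 0) = 0) → Y = 0 := by
    intro Y h1 h2
    by_contra h3
    exact hε ⟨Y, h1, h2, h3⟩
  refine ⟨fun k j => ψ (b k * j) + ε * ∑ d ∈ D k, ψ ((b k + d) * j), ?_⟩
  intro y y' hy hy' i j
  have hY := MM_ker hψ hl0 (ac α) a b (fun s j => ∑ d ∈ D s, ψ ((b s + d) * j)) (bt b) ε y hy
  have hY' := MM_ker hψ hl0 (ac α) a b (fun s j => ∑ d ∈ D s, ψ ((b s + d) * j)) (bt b) ε y' hy'
  rw [← hM] at hY hY'
  have hinv : ∀ z : ZMod l → L, FT ψ (bt b) z = 0 → ∀ i, z i = 0 := by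
    intro z hz i
    rw [← FT_inv hψ hl0 (bt b) z i, hz]
    simp
  by_cases hB : 0 < n → FT ψ (bt b) y (f 0) = 0
  · have h1 := hinv y (hker _ hY hB)
    rw [h1 i, h1 j, zero_mul, zero_mul]
  · push Not at hB
    obtain ⟨hn, hB⟩ := hB
    set B := FT ψ (bt b) y (f 0) with hBdef
    set A := FT ψ (bt b) y' (f 0) with hAdef
    have h2 : FT ψ (bt b) (fun i => A * y i - B * y' i) = 0 := by
      refine hker _ (fun j => ?_) (fun _ => ?_)
      · have h3 : ∀ i : ZMod l, FT ψ (bt b) (fun i => A * y i - B * y' i) i * (M i j).eval ε =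
            A * (FT ψ (bt b) y i * (M i j).eval ε) -
              B * (FT ψ (bt b) y' i * (M i j).eval ε) := by
          intro i
          rw [FT_lin]
          ring
        rw [sum_congr rfl fun i _ => h3 i, sum_sub_distrib, ← mul_sum, ← mul_sum, hY j, hY' j]
        ring
      · rw [FT_lin, ← hBdef, ← hAdef]
        ring
    have h3 := hinv _ h2
    have h4 : A * y i = B * y' i := sub_eq_zero.1 (h3 i)
    have h5 : A * y j = B * y' j := sub_eq_zero.1 (h3 j)
    apply mul_left_cancel₀ hB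
    linear_combination y j * h4 - y i * h5

end Pool.Agent.P5m
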