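import Pool.Agent.Lib.P5m.CorOne

/-!
# The corank is at most one on a nonempty open set of weights over `K`

PROOF. Over a field `F` let `M_w` be the square matrix (rows, columns `ZMod l`) of the linear map
`x ↦ Psi α a (update w 0 x)`; its entries are polynomials in the weights:
`M_w i j = ∑_{σ, i + pre σ a 0 = j} α σ ∏_{k ≠ 0} w k (i + pre σ a k)`. The left kernel has
dimension at most one iff there are vectors `u, v` with `det (M_w + u v^T) ≠ 0`. (If the left
kernel is zero take `u = 0`. If it is spanned by `y`, the right kernel is spanned by one `x` and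
`det (M_w + u v^T) ≠ 0` as soon as `∑ y i * u i ≠ 0` and `∑ v i * x i ≠ 0`. Conversely if
`det (M_w + u v^T) ≠ 0` and `y, y'` are in the left kernel then `z = (y'·u) y - (y·u) y'` satisfies
`z M_w = 0`, `z · u = 0`, so `z (M_w + u v^T) = 0`, `z = 0`; if `y·u = 0` then `y = 0` in the same
way. So `y, y'` are proportional.)
Let `T = Fin (r+1) × ZMod l`. Consider `D = det (M + U V^T)` as a polynomial over `K` in the
variables `T ⊕ (ZMod l ⊕ ZMod l)`. By `corank_one` it has a nonzero value at some point over the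
algebraic closure (map of polynomials `K → AlgebraicClosure K` is injective, `MvPolynomial.map`,
`eval₂`), so `D ≠ 0`, so (as `K` is infinite) there is a `K`-point with nonzero value; fix the
values `u, v` of the last variables and let `Δ` be the resulting polynomial in the variables
`T`; it is nonzero because it has a nonzero value. By the converse direction above the corank is
at most one wherever `Δ` does not vanish.
-/

open Finset

namespace Pool.Agent.P5m

variable {r : ℕ}

/-- the matrix of `x ↦ Psi α a (update w 0 x)` -/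
private def cm {G R : Type*} [CommRing G] [DecidableEq G] [CommRing R]
    (α : Equiv.Perm (Fin (r + 1)) → R) (a : Fin (r + 1) → G) (w : Fin (r + 1) → G → R) :
    Matrix G G R :=
  fun i j => ∑ σ, if i + pre σ a 0 = j then
    α σ * ∏ k ∈ univ.erase 0, w k (i + pre σ a k) else 0

private theorem cm_map {G R S : Type*} [CommRing G] [DecidableEq G] [CommRing R] [CommRing S]
    (φ : R →+* S) (α : Equiv.Perm (Fin (r + 1)) → R) (a : Fin (r + 1) → G)
    (w : Fin (r + 1) → G → R) (i j : G) :
    φ (cm α a w i j) = cm (fun σ => φ (α σ)) a (fun k g => φ (w k g)) i j := by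
  unfold cm
  rw [map_sum]
  refine Finset.sum_congr rfl fun σ _ => ?_
  split_ifs
  · rw [map_mul, map_prod]
  · rw [map_zero]

private theorem cm_det {G R S : Type*} [CommRing G] [DecidableEq G] [Fintype G] [CommRing R]
    [CommRing S] (φ : R →+* S) (α : Equiv.Perm (Fin (r + 1)) → R) (a : Fin (r + 1) → G)
    (w : Fin (r + 1) → G → R) (u v : G → R) :
    φ (cm α a w + Matrix.vecMulVec u v).det =
      (cm (fun σ => φ (α σ)) a (fun k g => φ (w k g)) +
        Matrix.vecMulVec (fun i => φ (u i)) (fun i => φ (v i))).det := by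
  rw [RingHom.map_det]
  congr 1
  ext i j
  rw [RingHom.mapMatrix_apply, Matrix.map_apply, Matrix.add_apply, Matrix.add_apply, map_add,
    cm_map, Matrix.vecMulVec_apply, Matrix.vecMulVec_apply, map_mul]

private theorem cm_psi {G F : Type*} [CommRing G] [DecidableEq G] [Fintype G] [Field F]
    (α : Equiv.Perm (Fin (r + 1)) → F) (a : Fin (r + 1) → G) (w : Fin (r + 1) → G → F)
    (x : G → F) (i : G) : Psi α a (Function.update w 0 x) i = ∑ j, cm α a w i j * x j := by
  unfold Psi cm
  simp only [Finset.sum_mul]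
  rw [Finset.sum_comm]
  refine Finset.sum_congr rfl fun σ _ => ?_
  rw [Finset.sum_eq_single (i + pre σ a 0)]
  · rw [if_pos rfl, ← Finset.mul_prod_erase _ _ (Finset.mem_univ 0), Function.update_self]
    have h : ∏ k ∈ univ.erase 0, Function.update w 0 x k (i + pre σ a k) =
        ∏ k ∈ univ.erase 0, w k (i + pre σ a k) := by
      refine Finset.prod_congr rfl fun k hk => ?_
      rw [Function.update_of_ne (Finset.mem_erase.1 hk).1]
    rw [h]
    ring
  · intro j _ hj
    rw [if_neg (fun h => hj h.symm), zero_mul]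
  · intro h
    exact absurd (Finset.mem_univ _) h

private theorem lk_iff {G F : Type*} [CommRing G] [DecidableEq G] [Fintype G] [Field F]
    (α : Equiv.Perm (Fin (r + 1)) → F) (a : Fin (r + 1) → G) (w : Fin (r + 1) → G → F)
    (y : G → F) : LK α a w y ↔ Matrix.vecMul y (cm α a w) = 0 := by
  unfold LK
  have h : ∀ x : G → F, ∑ i, y i * Psi α a (Function.update w 0 x) i =
      ∑ j, Matrix.vecMul y (cm α a w) j * x j := by
    intro x
    simp only [cm_psi, Matrix.vecMul, dotProduct, Finset.mul_sum, Finset.sum_mul]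
    rw [Finset.sum_comm]
    refine Finset.sum_congr rfl fun j _ => Finset.sum_congr rfl fun i _ => ?_
    ring
  constructor
  · intro h1
    funext j
    have h2 := h1 (Pi.single j 1)
    rw [h, Finset.sum_eq_single j] at h2
    · simpa using h2
    · intro i _ hi
      simp [hi]
    · intro h3
      exact absurd (Finset.mem_univ _) h3
  · intro h1 x
    rw [h, h1]
    simp

private theorem rank_dir1 {G F : Type*} [DecidableEq G] [Fintype G] [Field F]
    (M : Matrix G G F)
    (hM : ∀ y y' : G → F, Matrix.vecMul y M = 0 → Matrix.vecMul y' M = 0 →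
      ∀ i j, y i * y' j = y j * y' i) :
    ∃ u v : G → F, (M + Matrix.vecMulVec u v).det ≠ 0 := by
  by_cases hd : M.det = 0
  · obtain ⟨y, hy0, hy⟩ := Matrix.exists_vecMul_eq_zero_iff.2 hd
    obtain ⟨x, hx0, hx⟩ := Matrix.exists_mulVec_eq_zero_iff.2 hd
    obtain ⟨i, hi⟩ := Function.ne_iff.1 hy0
    obtain ⟨j, hj⟩ := Function.ne_iff.1 hx0
    rw [Pi.zero_apply] at hi hj
    refine ⟨Pi.single i 1, Pi.single j 1, ?_⟩
    intro hdet
    obtain ⟨z, hz0, hz⟩ := Matrix.exists_vecMul_eq_zero_iff.2 hdet
    rw [Matrix.vecMul_add, Matrix.vecMul_vecMulVec] at hz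
    have h1 : dotProduct z (Pi.single i 1) = z i := by simp
    rw [h1] at hz
    have h2 := congrArg (fun t => dotProduct t x) hz
    simp only [add_dotProduct, zero_dotProduct, smul_dotProduct] at h2
    rw [← Matrix.dotProduct_mulVec, hx, dotProduct_zero, zero_add] at h2
    have h3 : dotProduct (Pi.single j (1 : F)) x = x j := by simp
    rw [h3, smul_eq_mul] at h2
    have hzi : z i = 0 := (mul_eq_zero.1 h2).resolve_right hj
    rw [hzi, zero_smul, add_zero] at hz
    apply hz0
    funext k
    have h4 := hM z y hz hy k i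
    rw [hzi, zero_mul] at h4
    exact (mul_eq_zero.1 h4).resolve_right hi
  · exact ⟨0, 0, by simpa using hd⟩

private theorem rank_dir2 {G F : Type*} [DecidableEq G] [Fintype G] [Field F]
    (M : Matrix G G F) (u v : G → F) (h : (M + Matrix.vecMulVec u v).det ≠ 0)
    (y y' : G → F) (hy : Matrix.vecMul y M = 0) (hy' : Matrix.vecMul y' M = 0) (i j : G) :
    y i * y' j = y j * y' i := by
  have key : ∀ z : G → F, Matrix.vecMul z M = 0 → dotProduct z u = 0 → z = 0 := by
    intro z hz hzu
    apply Matrix.eq_zero_of_vecMul_eq_zero h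
    rw [Matrix.vecMul_add, Matrix.vecMul_vecMulVec, hz, hzu, zero_smul, add_zero]
  by_cases hu : dotProduct y u = 0
  · rw [key y hy hu]
    simp
  · have h1 := key (dotProduct y' u • y - dotProduct y u • y') (by
      rw [Matrix.sub_vecMul, Matrix.smul_vecMul, Matrix.smul_vecMul, hy, hy']
      simp) (by
      rw [sub_dotProduct, smul_dotProduct, smul_dotProduct, smul_eq_mul, smul_eq_mul]
      ring)
    have hi := congrFun h1 i
    have hj := congrFun h1 j
    simp only [Pi.sub_apply, Pi.smul_apply, smul_eq_mul, Pi.zero_apply] at hi hj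
    apply mul_left_cancel₀ hu
    linear_combination y i * (-hj) - y j * (-hi)

/-- the determinant as a polynomial in all variables -/
private noncomputable def cD {K G : Type*} [Field K] [CommRing G] [DecidableEq G] [Fintype G]
    (α : Equiv.Perm (Fin (r + 1)) → K) (a : Fin (r + 1) → G) :
    MvPolynomial ((Fin (r + 1) × G) ⊕ (G ⊕ G)) K :=
  (cm (fun σ => MvPolynomial.C (α σ)) a
      (fun k g => MvPolynomial.X (Sum.inl (k, g))) +
      Matrix.vecMulVec (fun i => MvPolynomial.X (Sum.inr (Sum.inl i)))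
        (fun i => MvPolynomial.X (Sum.inr (Sum.inr i)))).det

private theorem cD_map {K G S : Type*} [Field K] [CommRing G] [DecidableEq G] [Fintype G]
    [CommRing S] (α : Equiv.Perm (Fin (r + 1)) → K) (a : Fin (r + 1) → G)
    (φ : MvPolynomial ((Fin (r + 1) × G) ⊕ (G ⊕ G)) K →+* S)
    (β : Equiv.Perm (Fin (r + 1)) → S) (w : Fin (r + 1) → G → S) (u v : G → S)
    (h1 : ∀ σ, φ (MvPolynomial.C (α σ)) = β σ)
    (h2 : ∀ k g, φ (MvPolynomial.X (Sum.inl (k, g))) = w k g)
    (h3 : ∀ i, φ (MvPolynomial.X (Sum.inr (Sum.inl i))) = u i)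
    (h4 : ∀ i, φ (MvPolynomial.X (Sum.inr (Sum.inr i))) = v i) :
    φ (cD α a) = (cm β a w + Matrix.vecMulVec u v).det := by
  unfold cD
  rw [cm_det]
  simp only [h1, h2, h3, h4]

/-- the determinant as a polynomial in the weights -/
private noncomputable def cE {K G : Type*} [Field K] [CommRing G] [DecidableEq G] [Fintype G]
    (α : Equiv.Perm (Fin (r + 1)) → K) (a : Fin (r + 1) → G) (u v : G → K) :
    MvPolynomial (Fin (r + 1) × G) K :=
  (cm (fun σ => MvPolynomial.C (α σ)) a (fun k g => MvPolynomial.X (k, g)) +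
      Matrix.vecMulVec (fun i => MvPolynomial.C (u i)) (fun i => MvPolynomial.C (v i))).det

private theorem cE_eval {K G : Type*} [Field K] [CommRing G] [DecidableEq G] [Fintype G]
    (α : Equiv.Perm (Fin (r + 1)) → K) (a : Fin (r + 1) → G) (u v : G → K)
    (w : Fin (r + 1) → G → K) :
    MvPolynomial.eval (fun p => w p.1 p.2) (cE α a u v) =
      (cm α a w + Matrix.vecMulVec u v).det := by
  unfold cE
  rw [cm_det]
  simp only [MvPolynomial.eval_C, MvPolynomial.eval_X]

private theorem cD_ne {K L G : Type*} [Field K] [Field L] [CommRing G] [DecidableEq G]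
    [Fintype G] (ι : K →+* L) (α : Equiv.Perm (Fin (r + 1)) → K) (a : Fin (r + 1) → G)
    (w : Fin (r + 1) → G → L) (u v : G → L)
    (h : (cm (fun σ => ι (α σ)) a w + Matrix.vecMulVec u v).det ≠ 0) : cD α a ≠ 0 := by
  intro h0
  have h1 := cD_map α a (MvPolynomial.eval₂Hom ι
    (Sum.elim (fun p : Fin (r + 1) × G => w p.1 p.2) (Sum.elim u v)))
    (fun σ => ι (α σ)) w u v (by simp) (by simp) (by simp) (by simp)
  rw [h0, map_zero] at h1
  exact h h1.symm

theorem corank_poly {K : Type*} [Field K] [CharZero K] {l : ℕ} (hl : l.Prime) [NeZero l]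
    (α : Equiv.Perm (Fin (r + 1)) → K) (hα : ∃ σ, α σ ≠ 0) (hg : Good l α)
    (a b : Fin (r + 1) → ZMod l) (hab : Gpt l a b) :
    ∃ Δ : MvPolynomial (Fin (r + 1) × ZMod l) K, Δ ≠ 0 ∧
      ∀ w : Fin (r + 1) → ZMod l → K, MvPolynomial.eval (fun p => w p.1 p.2) Δ ≠ 0 →
        ∀ y y' : ZMod l → K, LK α a w y → LK α a w y' → ∀ i j, y i * y' j = y j * y' i := by
  classical
  obtain ⟨w₀, hw₀⟩ := corank_one hl α hα hg a b hab
  obtain ⟨u₀, v₀, h₀⟩ := rank_dir1 (cm (ac α) a w₀) (fun y y' hy hy' =>
    hw₀ y y' ((lk_iff _ _ _ _).2 hy) ((lk_iff _ _ _ _).2 hy'))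
  have hD : cD α a ≠ 0 := cD_ne (algebraMap K (AlgebraicClosure K)) α a w₀ u₀ v₀ h₀
  obtain ⟨p, hp⟩ : ∃ p, MvPolynomial.eval p (cD α a) ≠ 0 := by
    by_contra hcon
    push Not at hcon
    exact hD (MvPolynomial.funext fun z => by rw [hcon z, map_zero])
  rw [cD_map α a (MvPolynomial.eval p) α (fun k g => p (Sum.inl (k, g)))
    (fun i => p (Sum.inr (Sum.inl i))) (fun i => p (Sum.inr (Sum.inr i)))
    (by simp) (by simp) (by simp) (by simp)] at hp
  refine ⟨cE α a (fun i => p (Sum.inr (Sum.inl i))) (fun i => p (Sum.inr (Sum.inr i))), ?_, ?_⟩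
  · intro h0
    have h1 := cE_eval α a (fun i => p (Sum.inr (Sum.inl i))) (fun i => p (Sum.inr (Sum.inr i)))
      (fun k g => p (Sum.inl (k, g)))
    rw [h0, map_zero] at h1
    exact hp h1.symm
  · intro w hw y y' hy hy' i j
    rw [cE_eval] at hw
    exact rank_dir2 _ _ _ hw y y' ((lk_iff _ _ _ _).1 hy) ((lk_iff _ _ _ _).1 hy') i j

end Pool.Agent.P5m
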