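import Pool.Agent.Lib.P5m.CorPoly

/-!
# Generic left kernel vectors have no zero entry

PROOF of `cor_strong`. `K` is infinite; by `corank_poly` there are weights `w₀` with corank at most
one. Let `M_w` be the matrix of `x ↦ Psi α a (update w 0 x)`:
`M_w i j = ∑_{σ, i + pre σ a 0 = j} α σ ∏_{k ≠ 0} w k (i + pre σ a k)`; `LK α a w y` iff
`y M_w = 0`. If `LK α a w₀` has only the zero vector, then `det M_{w₀} ≠ 0`; take
`Θ = det M` as a polynomial in the weights: if its value is nonzero the left kernel is zero.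
Otherwise let `y₀ ≠ 0` be a left kernel vector for `w₀`, `y₀ i₀ ≠ 0`. Fix `i` and put
`w k j = w₀ k (j + (i₀ - i))` (rotation). Then `y j = y₀ (j + (i₀ - i))` is a left kernel vector
for `w` (`Psi` is covariant under rotations: `Psi α a (W rotated) j = Psi α a W (j + c)`),
`y i ≠ 0`, and the corank for `w` is one as well. The right kernel of `M_w` is spanned by some
`x ≠ 0`; choose `φ` with `∑ φ j * x j ≠ 0`. Then `det (M_w + E_i φ^T) ≠ 0` (row `i` plus `φ`): if
`(M_w + E_i φ^T) z = 0` then multiplying by `y` from the left: `y i * ∑ φ j z j = 0`, so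
`∑ φ j z j = 0`, `M_w z = 0`, `z = c x`, `c = 0`. So the polynomial
`Θ_i = det (M + E_i φ^T)` in the weights is nonzero; and if its value at some `w'` is nonzero, then
`LK α a w' y'` and `y' i = 0` imply `y' (M_{w'} + E_i φ^T) = 0`, `y' = 0`. Take `Θ = ∏ i, Θ_i`.

PROOF of `rot_LK`: rotation covariance of `Psi` and a change of the summation index.
-/

open Finset

namespace Pool.Agent.P5m

variable {r : ℕ}

namespace CorStrongAux

/-- the matrix of `x ↦ Psi α a (update w 0 x)` -/
def cm {G R : Type*} [CommRing G] [DecidableEq G] [CommRing R]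
    (α : Equiv.Perm (Fin (r + 1)) → R) (a : Fin (r + 1) → G) (w : Fin (r + 1) → G → R) :
    Matrix G G R :=
  fun i j => ∑ σ, if i + pre σ a 0 = j then
    α σ * ∏ k ∈ univ.erase 0, w k (i + pre σ a k) else 0

theorem cm_map {G R S : Type*} [CommRing G] [DecidableEq G] [CommRing R] [CommRing S]
    (φ : R →+* S) (α : Equiv.Perm (Fin (r + 1)) → R) (a : Fin (r + 1) → G)
    (w : Fin (r + 1) → G → R) (i j : G) :
    φ (cm α a w i j) = cm (fun σ => φ (α σ)) a (fun k g => φ (w k g)) i j := by
  unfold cm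
  rw [map_sum]
  refine Finset.sum_congr rfl fun σ _ => ?_
  split_ifs
  · rw [map_mul, map_prod]
  · rw [map_zero]

theorem cm_det {G R S : Type*} [CommRing G] [DecidableEq G] [Fintype G] [CommRing R]
    [CommRing S] (φ : R →+* S) (α : Equiv.Perm (Fin (r + 1)) → R) (a : Fin (r + 1) → G)
    (w : Fin (r + 1) → G → R) (u v : G → R) :
    φ (cm α a w + Matrix.vecMulVec u v).det =
      (cm (fun σ => φ (α σ)) a (fun k g => φ (w k g)) +
        Matrix.vecMulVec (fun i => φ (u i)) (fun i => φ (v i))).det := by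
  rw [RingHom.map_det]
  congr 1
  ext i j
  rw [RingHom.mapMatrix_apply, Matrix.map_apply, Matrix.add_apply, Matrix.add_apply, map_add,
    cm_map, Matrix.vecMulVec_apply, Matrix.vecMulVec_apply, map_mul]

theorem cm_psi {G F : Type*} [CommRing G] [DecidableEq G] [Fintype G] [Field F]
    (α : Equiv.Perm (Fin (r + 1)) → F) (a : Fin (r + 1) → G) (w : Fin (r + 1) → G → F)
    (x : G → F) (i : G) : Psi α a (Function.update w 0 x) i = ∑ j, cm α a w i j * x j := by
  unfold Psi cm
  simp only [Finset.sum_mul]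
  rw [Finset.sum_comm]
  refine Finset.sum_congr rfl fun σ _ => ?_
  rw [Finset.sum_eq_single (i + pre σ a 0)]
  · rw [if_pos rfl, ← Finset.mul_prod_erase _ _ (Finset.mem_univ 0), Function.update_self]
    have h : ∏ k ∈ univ.erase 0, Function.update w 0 x k (i + pre σ a k) =
        ∏ k ∈ univ.erase 0, w k (i + pre σ a k) := by
      refine Finset.prod_congr rfl fun k hk => ?_
      rw [Function.update_of_ne (Finset.mem_erase.1 hk).1]
    rw [h]
    ring
  · intro j _ hj
    rw [if_neg (fun h => hj h.symm), zero_mul]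
  · intro h
    exact absurd (Finset.mem_univ _) h

theorem lk_iff {G F : Type*} [CommRing G] [DecidableEq G] [Fintype G] [Field F]
    (α : Equiv.Perm (Fin (r + 1)) → F) (a : Fin (r + 1) → G) (w : Fin (r + 1) → G → F)
    (y : G → F) : LK α a w y ↔ Matrix.vecMul y (cm α a w) = 0 := by
  unfold LK
  have h : ∀ x : G → F, ∑ i, y i * Psi α a (Function.update w 0 x) i =
      ∑ j, Matrix.vecMul y (cm α a w) j * x j := by
    intro x
    simp only [cm_psi, Matrix.vecMul, dotProduct, Finset.mul_sum, Finset.sum_mul]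
    rw [Finset.sum_comm]
    refine Finset.sum_congr rfl fun j _ => Finset.sum_congr rfl fun i _ => ?_
    ring
  constructor
  · intro h1
    funext j
    have h2 := h1 (Pi.single j 1)
    rw [h, Finset.sum_eq_single j] at h2
    · simpa using h2
    · intro i _ hi
      simp [hi]
    · intro h3
      exact absurd (Finset.mem_univ _) h3
  · intro h1 x
    rw [h, h1]
    simp

/-- the determinant as a polynomial in the weights -/
noncomputable def cE {K G : Type*} [Field K] [CommRing G] [DecidableEq G] [Fintype G]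
    (α : Equiv.Perm (Fin (r + 1)) → K) (a : Fin (r + 1) → G) (u v : G → K) :
    MvPolynomial (Fin (r + 1) × G) K :=
  (cm (fun σ => MvPolynomial.C (α σ)) a (fun k g => MvPolynomial.X (k, g)) +
      Matrix.vecMulVec (fun i => MvPolynomial.C (u i)) (fun i => MvPolynomial.C (v i))).det

theorem cE_eval {K G : Type*} [Field K] [CommRing G] [DecidableEq G] [Fintype G]
    (α : Equiv.Perm (Fin (r + 1)) → K) (a : Fin (r + 1) → G) (u v : G → K)
    (w : Fin (r + 1) → G → K) :
    MvPolynomial.eval (fun p => w p.1 p.2) (cE α a u v) =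
      (cm α a w + Matrix.vecMulVec u v).det := by
  unfold cE
  rw [cm_det]
  simp only [MvPolynomial.eval_C, MvPolynomial.eval_X]

theorem rank_dir {G F : Type*} [DecidableEq G] [Fintype G] [Field F]
    (M : Matrix G G F)
    (hM : ∀ y y' : G → F, Matrix.vecMul y M = 0 → Matrix.vecMul y' M = 0 →
      ∀ i j, y i * y' j = y j * y' i) (y : G → F) (hy : Matrix.vecMul y M = 0) (i : G)
    (hi : y i ≠ 0) :
    ∃ v : G → F, (M + Matrix.vecMulVec (Pi.single i 1) v).det ≠ 0 := by
  have hy0 : y ≠ 0 := fun h => hi (by rw [h, Pi.zero_apply])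
  have hd : M.det = 0 := Matrix.exists_vecMul_eq_zero_iff.1 ⟨y, hy0, hy⟩
  obtain ⟨x, hx0, hx⟩ := Matrix.exists_mulVec_eq_zero_iff.2 hd
  obtain ⟨j, hj⟩ := Function.ne_iff.1 hx0
  rw [Pi.zero_apply] at hj
  refine ⟨Pi.single j 1, ?_⟩
  intro hdet
  obtain ⟨z, hz0, hz⟩ := Matrix.exists_vecMul_eq_zero_iff.2 hdet
  rw [Matrix.vecMul_add, Matrix.vecMul_vecMulVec] at hz
  have h1 : dotProduct z (Pi.single i 1) = z i := by simp
  rw [h1] at hz
  have h2 := congrArg (fun t => dotProduct t x) hz
  simp only [add_dotProduct, zero_dotProduct, smul_dotProduct] at h2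
  rw [← Matrix.dotProduct_mulVec, hx, dotProduct_zero, zero_add] at h2
  have h3 : dotProduct (Pi.single j (1 : F)) x = x j := by simp
  rw [h3, smul_eq_mul] at h2
  have hzi : z i = 0 := (mul_eq_zero.1 h2).resolve_right hj
  rw [hzi, zero_smul, add_zero] at hz
  apply hz0
  funext k
  have h4 := hM z y hz hy k i
  rw [hzi, zero_mul] at h4
  exact (mul_eq_zero.1 h4).resolve_right hi

theorem ker_zero {G F : Type*} [DecidableEq G] [Fintype G] [Field F]
    (M : Matrix G G F) (i : G) (v : G → F)
    (h : (M + Matrix.vecMulVec (Pi.single i 1) v).det ≠ 0) (y : G → F)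
    (hy : Matrix.vecMul y M = 0) (hi : y i = 0) : y = 0 := by
  apply Matrix.eq_zero_of_vecMul_eq_zero h
  rw [Matrix.vecMul_add, Matrix.vecMul_vecMulVec, hy, zero_add]
  have h1 : dotProduct y (Pi.single i 1) = y i := by simp
  rw [h1, hi, zero_smul]

end CorStrongAux

open CorStrongAux in
theorem rot_LK {K : Type*} [Field K] {l : ℕ} [NeZero l]
    (α : Equiv.Perm (Fin (r + 1)) → K) (a : Fin (r + 1) → ZMod l)
    (w : Fin (r + 1) → ZMod l → K) (y : ZMod l → K) (h : LK α a w y) (c : ZMod l) :
    LK α a (fun k j => w k (j + c)) (fun j => y (j + c)) := by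
  intro x
  have hcov : ∀ i, Psi α a (Function.update (fun k j => w k (j + c)) 0 x) i =
      Psi α a (Function.update w 0 (fun j => x (j - c))) (i + c) := by
    intro i
    unfold Psi
    refine Finset.sum_congr rfl fun σ _ => ?_
    congr 1
    refine Finset.prod_congr rfl fun k _ => ?_
    by_cases hk : k = 0
    · subst hk
      rw [Function.update_self, Function.update_self]
      congr 1
      ring
    · rw [Function.update_of_ne hk, Function.update_of_ne hk]
      congr 1
      ring
  have h1 := h (fun j => x (j - c))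
  rw [← Equiv.sum_comp (Equiv.addRight c)] at h1
  rw [← h1]
  refine Finset.sum_congr rfl fun i _ => ?_
  rw [hcov]
  rfl

open CorStrongAux in
theorem cor_strong {K : Type*} [Field K] [CharZero K] {l : ℕ} (hl : l.Prime) [NeZero l]
    (α : Equiv.Perm (Fin (r + 1)) → K) (hα : ∃ σ, α σ ≠ 0) (hg : Good l α)
    (a b : Fin (r + 1) → ZMod l) (hab : Gpt l a b) :
    ∃ Θ : MvPolynomial (Fin (r + 1) × ZMod l) K, Θ ≠ 0 ∧
      ∀ w : Fin (r + 1) → ZMod l → K, MvPolynomial.eval (fun p => w p.1 p.2) Θ ≠ 0 →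
        ∀ y : ZMod l → K, LK α a w y → ∀ i, y i = 0 → y = 0 := by
  classical
  obtain ⟨Δ, hΔ, hcor⟩ := corank_poly hl α hα hg a b hab
  obtain ⟨p, hp⟩ : ∃ p, MvPolynomial.eval p Δ ≠ 0 := by
    by_contra hcon
    push Not at hcon
    exact hΔ (MvPolynomial.funext fun z => by rw [hcon z, map_zero])
  obtain ⟨w₀, hw₀⟩ : ∃ w₀ : Fin (r + 1) → ZMod l → K, (fun q => w₀ q.1 q.2) = p :=
    ⟨fun k g => p (k, g), rfl⟩
  rw [← hw₀] at hp
  have hcor0 := hcor w₀ hp
  by_cases hd : (cm α a w₀).det = 0
  · obtain ⟨y₀, hy0, hy⟩ := Matrix.exists_vecMul_eq_zero_iff.2 hd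
    obtain ⟨i₀, hi₀⟩ := Function.ne_iff.1 hy0
    rw [Pi.zero_apply] at hi₀
    have hLK0 : LK α a w₀ y₀ := (lk_iff _ _ _ _).2 hy
    have hex : ∀ i : ZMod l, ∃ v : ZMod l → K,
        (cm α a (fun k j => w₀ k (j + (i₀ - i))) +
          Matrix.vecMulVec (Pi.single i 1) v).det ≠ 0 := by
      intro i
      have hL := rot_LK α a w₀ y₀ hLK0 (i₀ - i)
      refine rank_dir _ ?_ (fun j => y₀ (j + (i₀ - i))) ((lk_iff _ _ _ _).1 hL) i ?_
      · intro y y' hy hy' s t
        have e1 := rot_LK α a _ y ((lk_iff _ _ _ _).2 hy) (-(i₀ - i))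
        have e2 := rot_LK α a _ y' ((lk_iff _ _ _ _).2 hy') (-(i₀ - i))
        have hw : (fun (k : Fin (r + 1)) (j : ZMod l) =>
            w₀ k (j + -(i₀ - i) + (i₀ - i))) = w₀ := by
          funext k j
          congr 1
          ring
        beta_reduce at e1 e2
        rw [hw] at e1 e2
        have h3 := hcor0 _ _ e1 e2 (s + (i₀ - i)) (t + (i₀ - i))
        have h4 : ∀ s : ZMod l, s + (i₀ - i) + -(i₀ - i) = s := fun s => by ring
        beta_reduce at h3
        rw [h4, h4] at h3
        exact h3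
      · have : i + (i₀ - i) = i₀ := by ring
        beta_reduce
        rw [this]
        exact hi₀
    choose v hv using hex
    refine ⟨∏ i, cE α a (Pi.single i 1) (v i), ?_, ?_⟩
    · rw [Finset.prod_ne_zero_iff]
      intro i _ h0
      have h1 := cE_eval α a (Pi.single i 1) (v i) (fun k j => w₀ k (j + (i₀ - i)))
      rw [h0, map_zero] at h1
      exact hv i h1.symm
    · intro w hw y hy' i hyi
      rw [map_prod, Finset.prod_ne_zero_iff] at hw
      have h1 := hw i (Finset.mem_univ i)
      rw [cE_eval] at h1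
      exact ker_zero _ i (v i) h1 y ((lk_iff _ _ _ _).1 hy') hyi
  · refine ⟨cE α a 0 0, ?_, ?_⟩
    · intro h0
      have h1 := cE_eval α a 0 0 w₀
      rw [h0, map_zero] at h1
      apply hd
      rw [h1]
      simp
    · intro w hw y hy i _
      rw [cE_eval] at hw
      have h2 : (cm α a w).det ≠ 0 := by simpa using hw
      exact Matrix.eq_zero_of_vecMul_eq_zero h2 ((lk_iff _ _ _ _).1 hy)

end Pool.Agent.P5m
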