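import Pool.Agent.Lib.P5m.Cyc1

/-!
# At most `card W` primes `p > card W` are bad for a coefficient vector `α : W → K`

PROOF. `L = AlgebraicClosure K`. For a finite set `B` of bad primes let
`d(B)` be the dimension over `KS L B` of the `KS L B`-span of the elements `α w` (`w : W`) in `L`.
Claim: `d(B) + B.card ≤ Fintype.card W`, by `Finset.induction_on B`.
We show: there is a set `J` of indices with `J.card + B.card ≤ card W` such that every `α w` is a
combination of the `α j`, `j ∈ J`, with coefficients in `KS L B`. If `l` is a new bad prime, the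
`α j`, `j ∈ J`, are dependent over `KS L (insert l B)`: otherwise every vanishing combination with
`l`-th roots of unity would vanish class by class by `cyc_indep`. So one index can be removed.
-/

open Finset

namespace Pool.Agent.P5m

/-- One step: if the `a j`, `j ∈ J`, are independent over `F'` and span over `F`, then vanishing
combinations with values of `ψ` vanish class by class. -/
theorem count_step {L : Type*} [Field L] [CharZero L] {W : Type*} [Fintype W]
    (F F' : IntermediateField ℚ L) (hle : F ≤ F') (l : ℕ) [NeZero l]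
    (hl : Fintype.card W < l) (ψ : AddChar (ZMod l) L)
    (key : ∀ c : ZMod l → L, (∀ e, c e ∈ F) → ∑ e : ZMod l, c e * ψ e = 0 → ∀ e e', c e = c e')
    (hψ : ∀ x, ψ x ∈ F') (a : W → L) (J : Finset W)
    (m : W → W → L) (hm : ∀ w j, m w j ∈ F) (hma : ∀ w, a w = ∑ j ∈ J, m w j * a j)
    (hind : ∀ g : W → L, (∀ j, g j ∈ F') → ∑ j ∈ J, g j * a j = 0 → ∀ j ∈ J, g j = 0)
    (S : Finset W) (c : W → ZMod l) (h0 : ∑ w ∈ S, a w * ψ (c w) = 0) (e : ZMod l) :
    ∑ w ∈ S with c w = e, a w = 0 := by
  classical
  -- coefficients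
  have h1 : ∀ j ∈ J, ∑ w ∈ S, m w j * ψ (c w) = 0 := by
    apply hind (fun j => ∑ w ∈ S, m w j * ψ (c w))
    · intro j
      exact sum_mem fun w _ => mul_mem (hle (hm w j)) (hψ _)
    · have : ∑ w ∈ S, a w * ψ (c w) = ∑ j ∈ J, (∑ w ∈ S, m w j * ψ (c w)) * a j := by
        calc ∑ w ∈ S, a w * ψ (c w) = ∑ w ∈ S, ∑ j ∈ J, m w j * ψ (c w) * a j := by
              refine sum_congr rfl fun w _ => ?_
              conv_lhs => rw [hma w]
              rw [sum_mul]
              exact sum_congr rfl fun j _ => by ring
          _ = ∑ j ∈ J, ∑ w ∈ S, m w j * ψ (c w) * a j := sum_comm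
          _ = _ := by
              refine sum_congr rfl fun j _ => ?_
              rw [sum_mul]
      rw [← this]
      exact h0
  -- an empty class
  obtain ⟨x₀, hx₀⟩ : ∃ x₀ : ZMod l, ∀ w, c w ≠ x₀ := by
    by_contra hcon
    push Not at hcon
    have : Fintype.card (ZMod l) ≤ Fintype.card W := Fintype.card_le_of_surjective c hcon
    rw [ZMod.card] at this
    omega
  have h2 : ∀ j ∈ J, ∀ x : ZMod l, ∑ w ∈ S with c w = x, m w j = 0 := by
    intro j hj x
    have h3 := key (fun x => ∑ w ∈ S with c w = x, m w j)
      (fun x => sum_mem fun w _ => hm w j) (by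
        have h4 : ∑ e : ZMod l, (∑ w ∈ S with c w = e, m w j) * ψ e =
            ∑ w ∈ S, m w j * ψ (c w) := by
          simp_rw [sum_mul]
          rw [← Finset.sum_fiberwise S c (fun w => m w j * ψ (c w))]
          refine sum_congr rfl fun x _ => ?_
          refine sum_congr rfl fun w hw => ?_
          rw [(Finset.mem_filter.1 hw).2]
        rw [h4]
        exact h1 j hj) x x₀
    have h5 : (∑ w ∈ S with c w = x₀, m w j) = 0 := by
      rw [Finset.filter_false_of_mem (fun w _ => hx₀ w), sum_empty]
    simpa [h5] using h3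
  calc ∑ w ∈ S with c w = e, a w = ∑ w ∈ S with c w = e, ∑ j ∈ J, m w j * a j :=
        sum_congr rfl fun w _ => hma w
    _ = ∑ j ∈ J, ∑ w ∈ S with c w = e, m w j * a j := sum_comm
    _ = ∑ j ∈ J, (∑ w ∈ S with c w = e, m w j) * a j := by
        refine sum_congr rfl fun j _ => ?_
        rw [sum_mul]
    _ = 0 := by
        refine sum_eq_zero fun j hj => ?_
        rw [h2 j hj e, zero_mul]

theorem count_bad {K : Type*} [Field K] [CharZero K] {W : Type*} [Fintype W] (α : W → K)
    (B : Finset ℕ) (hB : ∀ p ∈ B, p.Prime ∧ Fintype.card W < p ∧ ¬ Good p α) :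
    B.card ≤ Fintype.card W := by
  classical
  set L := AlgebraicClosure K with hL
  have : CharZero L := charZero_of_injective_algebraMap (algebraMap K L).injective
  set a : W → L := fun w => algebraMap K L (α w) with ha
  suffices h : ∃ (J : Finset W) (m : W → W → L), J.card + B.card ≤ Fintype.card W ∧
      (∀ w j, m w j ∈ KS L B) ∧ ∀ w, a w = ∑ j ∈ J, m w j * a j by
    obtain ⟨J, m, h1, -, -⟩ := h
    omega
  induction B using Finset.induction_on with
  | empty =>
    refine ⟨univ, fun w j => if w = j then 1 else 0, by simp, ?_, ?_⟩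
    · intro w j
      show (if w = j then (1 : L) else 0) ∈ _
      split_ifs
      · exact one_mem _
      · exact zero_mem _
    · intro w
      simp
  | insert l B hlB ih =>
    obtain ⟨J, m, hcard, hm, hma⟩ := ih fun p hp => hB p (mem_insert_of_mem hp)
    obtain ⟨hlp, hlW, hbad⟩ := hB l (mem_insert_self l B)
    have : NeZero l := ⟨hlp.ne_zero⟩
    have hle : KS L B ≤ KS L (insert l B) := by
      unfold KS
      apply IntermediateField.adjoin.mono
      rintro x ⟨p, hp, hx⟩
      exact ⟨p, mem_insert_of_mem hp, hx⟩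
    unfold Good at hbad
    push Not at hbad
    obtain ⟨ψ, hψ1, S, c, h0, e, he⟩ := hbad
    have hψF : ∀ x, ψ x ∈ KS L (insert l B) := by
      intro x
      apply IntermediateField.subset_adjoin
      refine ⟨l, mem_insert_self l B, ?_⟩
      rw [← AddChar.map_nsmul_eq_pow]
      simp
    -- dependence over the bigger field
    have hdep : ∃ g : W → L, (∀ j, g j ∈ KS L (insert l B)) ∧ ∑ j ∈ J, g j * a j = 0 ∧
        ∃ j ∈ J, g j ≠ 0 := by
      by_contra hcon
      push Not at hcon
      have h6 := count_step (KS L B) (KS L (insert l B)) hle l hlW ψ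
        (fun c hc h7 => cyc_indep B (fun p hp => (hB p (mem_insert_of_mem hp)).1) l hlp hlB ψ hψ1 c
          hc h7) hψF a J m hm hma hcon S c h0 e
      apply he
      have h8 : algebraMap K L (∑ w ∈ S with c w = e, α w) = 0 := by
        rw [map_sum]
        exact h6
      exact (map_eq_zero_iff _ (algebraMap K L).injective).1 h8
    obtain ⟨g, hg, hg0, j₀, hj₀, hgj⟩ := hdep
    refine ⟨J.erase j₀, fun w j => m w j - m w j₀ * (g j / g j₀), ?_, ?_, ?_⟩
    · rw [card_insert_of_notMem hlB, card_erase_of_mem hj₀]
      have : 0 < J.card := card_pos.2 ⟨j₀, hj₀⟩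
      omega
    · intro w j
      exact sub_mem (hle (hm w j)) (mul_mem (hle (hm w j₀)) (div_mem (hg j) (hg j₀)))
    · intro w
      have h9 : a j₀ = - ∑ j ∈ J.erase j₀, (g j / g j₀) * a j := by
        have h10 : g j₀ * a j₀ + ∑ j ∈ J.erase j₀, g j * a j = 0 := by
          rw [← hg0, ← Finset.add_sum_erase _ _ hj₀]
        have h11 : ∑ j ∈ J.erase j₀, (g j / g j₀) * a j =
            (∑ j ∈ J.erase j₀, g j * a j) / g j₀ := by
          rw [Finset.sum_div]
          exact sum_congr rfl fun j _ => by ring
        rw [h11, ← neg_div, eq_div_iff hgj]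
        linear_combination h10
      calc a w = ∑ j ∈ J, m w j * a j := hma w
        _ = m w j₀ * a j₀ + ∑ j ∈ J.erase j₀, m w j * a j := by
            rw [← Finset.add_sum_erase _ _ hj₀]
        _ = ∑ j ∈ J.erase j₀, (m w j - m w j₀ * (g j / g j₀)) * a j := by
            rw [h9]
            simp_rw [sub_mul]
            rw [sum_sub_distrib]
            have : ∑ j ∈ J.erase j₀, m w j₀ * (g j / g j₀) * a j =
                m w j₀ * ∑ j ∈ J.erase j₀, (g j / g j₀) * a j := by
              rw [mul_sum]
              exact sum_congr rfl fun j _ => by ring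
            rw [this]
            ring

end Pool.Agent.P5m
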