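import Pool.Agent.Lib.P5m.Defs

/-!
# Linear independence of l-th roots of unity over a field of roots of unity of other prime orders

`KS L S` is the field generated over `ℚ` inside `L` by all `p`-th roots of unity, `p` in `S`.

PROOF of `cyc_indep`. Let `n` be the product of the primes in `S` (they are distinct) and
`F = KS L S`. `F = ℚ(ζ_n)` is a cyclotomic extension of `ℚ` of order `n` (each `ζ_p` is a power of
`ζ_n`, and `ζ_n` is a product of powers of the `ζ_p`), so its degree is `φ(n)`. Put
`ζ = ψ 1`, a primitive `l`-th root of unity (`ψ` is nontrivial and `l` is prime). `F(ζ)` is the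
cyclotomic extension of order `n l`, of degree `φ(n l) = φ(n) (l - 1)` as `l` does not divide `n`.
By multiplicativity of degrees `[F(ζ) : F] = l - 1`, so the minimal polynomial of `ζ` over `F` has
degree `l - 1`; it divides `Φ_l = 1 + X + ... + X^(l-1)`, so it is `Φ_l`.
Alternative to the product `n`: induction over `S`, adjoining one prime after the other, with
`IsCyclotomicExtension` transitivity; or use that `cyclotomic (n l) ℚ` is irreducible.
Now the polynomial `f = ∑_{j < l} c (j : ZMod l) X^j` over `F` has degree at most `l - 1` and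
`f(ζ) = ∑_e c e * ψ e = 0` (`ψ e = ζ ^ e.val`), so `f` is a constant multiple of `Φ_l`: all `c e`
are equal.
-/

open Finset Polynomial

namespace Pool.Agent.P5m

/-- The field generated over `ℚ` by all `p`-th roots of unity of `L`, `p ∈ S`. -/
noncomputable def KS (L : Type*) [Field L] [CharZero L] (S : Finset ℕ) : IntermediateField ℚ L :=
  IntermediateField.adjoin ℚ {x : L | ∃ p ∈ S, x ^ p = 1}

lemma KS_le {L : Type*} [Field L] [CharZero L] (S : Finset ℕ) {μ : L} {n : ℕ} (hn : 0 < n)
    (hμ : IsPrimitiveRoot μ n) (hS : ∀ p ∈ S, p ∣ n) :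
    KS L S ≤ IntermediateField.adjoin ℚ {μ} := by
  unfold KS
  rw [IntermediateField.adjoin_le_iff]
  rintro x ⟨p, hp, hx⟩
  have hxn : x ^ n = 1 := by
    obtain ⟨k, hk⟩ := hS p hp
    rw [hk, pow_mul, hx, one_pow]
  have : NeZero n := ⟨hn.ne'⟩
  obtain ⟨i, -, hi⟩ := hμ.eq_pow_of_pow_eq_one hxn
  rw [← hi]
  exact pow_mem (IntermediateField.mem_adjoin_simple_self ℚ μ) i

/-- the degree of an `l`-th root of unity over the field of `n`-th roots of unity -/
lemma degree_le {L : Type*} [Field L] [CharZero L] {μ ζ : L} {n l : ℕ} (hn : 0 < n)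
    (hl : l.Prime) (hnl : n.Coprime l) (hμ : IsPrimitiveRoot μ n) (hζ : IsPrimitiveRoot ζ l) :
    l - 1 ≤ (minpoly (IntermediateField.adjoin ℚ {μ}) ζ).natDegree := by
  set F := IntermediateField.adjoin ℚ {μ} with hF
  have hl0 : 0 < l := hl.pos
  have hμint : IsIntegral ℚ μ := (hμ.isIntegral hn).tower_top
  have hζint : IsIntegral F ζ := (hζ.isIntegral hl0).tower_top
  have h1 : Module.finrank ℚ F = n.totient := by
    rw [hF, IntermediateField.adjoin.finrank hμint, ← cyclotomic_eq_minpoly_rat hμ hn,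
      natDegree_cyclotomic]
  have h2 : Module.finrank F (IntermediateField.adjoin F {ζ}) = (minpoly F ζ).natDegree :=
    IntermediateField.adjoin.finrank hζint
  have : FiniteDimensional ℚ F := IntermediateField.adjoin.finiteDimensional hμint
  have : FiniteDimensional F (IntermediateField.adjoin F {ζ}) :=
    IntermediateField.adjoin.finiteDimensional hζint
  set B := IntermediateField.adjoin F {ζ} with hB
  have h3 : Module.finrank ℚ F * Module.finrank F B = Module.finrank ℚ B :=
    Module.finrank_mul_finrank ℚ F B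
  have : FiniteDimensional ℚ B := FiniteDimensional.trans ℚ F B
  have hμB : μ ∈ B := B.algebraMap_mem ⟨μ, IntermediateField.mem_adjoin_simple_self ℚ μ⟩
  have hζB : ζ ∈ B := IntermediateField.mem_adjoin_simple_self F ζ
  have hνB : μ * ζ ∈ B := B.mul_mem hμB hζB
  have hν : IsPrimitiveRoot (μ * ζ) (n * l) := by
    have ho : orderOf (μ * ζ) = n * l := by
      rw [(Commute.all μ ζ).orderOf_mul_eq_mul_orderOf_of_coprime
        (by rw [← hμ.eq_orderOf, ← hζ.eq_orderOf]; exact hnl), ← hμ.eq_orderOf, ← hζ.eq_orderOf]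
    rw [← ho]
    exact IsPrimitiveRoot.orderOf _
  have hνB' : IsPrimitiveRoot (⟨μ * ζ, hνB⟩ : B) (n * l) := by
    refine IsPrimitiveRoot.of_map_of_injective (f := algebraMap B L) ?_ (algebraMap B L).injective
    exact hν
  have h4 : (n * l).totient ≤ Module.finrank ℚ B := by
    have h5 : (minpoly ℚ (⟨μ * ζ, hνB⟩ : B)).natDegree ≤ Module.finrank ℚ B :=
      minpoly.natDegree_le _
    rw [← cyclotomic_eq_minpoly_rat hνB' (Nat.mul_pos hn hl0), natDegree_cyclotomic] at h5
    exact h5
  rw [← h3, h1, h2, Nat.totient_mul hnl, Nat.totient_prime hl] at h4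
  exact Nat.le_of_mul_le_mul_left h4 (Nat.totient_pos.mpr hn)

theorem cyc_indep {L : Type*} [Field L] [CharZero L] [IsAlgClosed L] (S : Finset ℕ)
    (hS : ∀ p ∈ S, p.Prime) (l : ℕ) (hl : l.Prime) (hlS : l ∉ S)
    (ψ : AddChar (ZMod l) L) (hψ : ψ ≠ 1) (c : ZMod l → L) (hc : ∀ e, c e ∈ KS L S)
    (h : haveI : NeZero l := ⟨hl.ne_zero⟩
      ∑ e : ZMod l, c e * ψ e = 0) : ∀ e e', c e = c e' := by
  have : NeZero l := ⟨hl.ne_zero⟩
  have : Fact l.Prime := ⟨hl⟩
  have hψj : ∀ j : ℕ, ψ (j : ZMod l) = ψ 1 ^ j := by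
    intro j
    rw [← nsmul_one j, AddChar.map_nsmul_eq_pow]
  set ζ := ψ 1 with hζdef
  have hζ : IsPrimitiveRoot ζ l := by
    have h1 : ζ ^ l = 1 := by
      rw [← hψj l, ZMod.natCast_self, AddChar.map_zero_eq_one]
    have h2 : ζ ≠ 1 := by
      intro h3
      refine hψ ?_
      ext e
      rw [← ZMod.natCast_zmod_val e, hψj, h3, one_pow]
      rfl
    rw [← orderOf_eq_prime h1 h2]
    exact IsPrimitiveRoot.orderOf ζ
  set n := ∏ p ∈ S, p with hn
  have hn0 : 0 < n := Finset.prod_pos fun p hp => (hS p hp).pos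
  have hnl : n.Coprime l := Nat.Coprime.prod_left fun p hp =>
    (Nat.coprime_primes (hS p hp) hl).mpr (by rintro rfl; exact hlS hp)
  have : NeZero (n : L) := ⟨Nat.cast_ne_zero.mpr hn0.ne'⟩
  obtain ⟨μ, hμ⟩ : ∃ μ : L, IsPrimitiveRoot μ n := by
    obtain ⟨μ, hμ⟩ := IsAlgClosed.exists_root (cyclotomic n L)
      (by rw [degree_cyclotomic]; exact_mod_cast (Nat.totient_pos.mpr hn0).ne')
    exact ⟨μ, isRoot_cyclotomic_iff.mp hμ⟩
  have hle := KS_le S hn0 hμ (fun p hp => Finset.dvd_prod_of_mem _ hp)
  have hdeg := degree_le hn0 hl hnl hμ hζ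
  set F := IntermediateField.adjoin ℚ {μ} with hF
  have hl1 : l - 1 + 1 = l := Nat.succ_pred_eq_of_pos hl.pos
  -- the coefficients in `F`
  let cF : ZMod l → F := fun e => ⟨c e, hle (hc e)⟩
  have hcF : ∀ e, algebraMap F L (cF e) = c e := fun e => rfl
  let a : ZMod l := ((l - 1 : ℕ) : ZMod l)
  let g : F[X] := ∑ j ∈ range (l - 1), C (cF (j : ZMod l) - cF a) * X ^ j
  have hsum : ∑ j ∈ range l, c (j : ZMod l) * ζ ^ j = 0 := by
    rw [← h]
    refine Finset.sum_nbij' (fun j : ℕ => (j : ZMod l)) (fun e : ZMod l => e.val)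
      (fun j _ => Finset.mem_univ _) (fun e _ => Finset.mem_range.mpr (ZMod.val_lt e)) ?_ ?_ ?_
    · intro j hj
      exact ZMod.val_cast_of_lt (Finset.mem_range.mp hj)
    · intro e _
      exact ZMod.natCast_zmod_val e
    · intro j _
      rw [hψj]
  have hgeom : ∑ j ∈ range l, ζ ^ j = 0 := hζ.geom_sum_eq_zero hl.one_lt
  have hg : aeval ζ g = 0 := by
    have h1 : aeval ζ g = ∑ j ∈ range (l - 1), (c (j : ZMod l) - c a) * ζ ^ j := by
      simp only [g, map_sum, map_mul, map_pow, aeval_X, aeval_C, map_sub, hcF]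
    have h2 : ∑ j ∈ range l, (c (j : ZMod l) - c a) * ζ ^ j =
        ∑ j ∈ range (l - 1), (c (j : ZMod l) - c a) * ζ ^ j := by
      have hr : Finset.range l = Finset.range (l - 1 + 1) := by rw [hl1]
      rw [hr, Finset.sum_range_succ]
      have : c ((l - 1 : ℕ) : ZMod l) - c a = 0 := sub_self _
      rw [this, zero_mul, add_zero]
    rw [h1, ← h2]
    simp only [sub_mul, Finset.sum_sub_distrib, ← Finset.mul_sum]
    rw [hsum, hgeom, mul_zero, sub_zero]
  have hg0 : g = 0 := by
    by_contra hne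
    have h1 := minpoly.degree_le_of_ne_zero F ζ hne hg
    have h2 : g.degree < ((l - 1 : ℕ) : WithBot ℕ) := by
      refine (Polynomial.degree_sum_le _ _).trans_lt ?_
      rw [Finset.sup_lt_iff (WithBot.bot_lt_coe _)]
      intro j hj
      refine (degree_C_mul_X_pow_le _ _).trans_lt ?_
      exact_mod_cast Finset.mem_range.mp hj
    have h3 : (minpoly F ζ).natDegree < l - 1 :=
      (natDegree_lt_iff_degree_lt (minpoly.ne_zero ((hζ.isIntegral hl.pos).tower_top))).mpr
        (h1.trans_lt h2)
    omega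
  have hall : ∀ e, c e = c a := by
    intro e
    by_cases he : e.val < l - 1
    · have h1 : g.coeff e.val = cF e - cF a := by
        simp only [g, finsetSum_coeff, coeff_C_mul_X_pow]
        rw [Finset.sum_eq_single e.val]
        · rw [if_pos rfl, ZMod.natCast_zmod_val]
        · intro j _ hj
          rw [if_neg (fun h => hj h.symm)]
        · intro h1
          exact absurd (Finset.mem_range.mpr he) h1
      rw [hg0, coeff_zero] at h1
      have h2 := congrArg (algebraMap F L) h1
      rw [map_zero, map_sub, hcF, hcF] at h2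
      exact (sub_eq_zero.mp h2.symm)
    · have h1 : e.val = l - 1 := by
        have := ZMod.val_lt e
        omega
      have h2 : e = a := by
        rw [← ZMod.natCast_zmod_val e, h1]
      rw [h2]
  intro e e'
  rw [hall e, hall e']

end Pool.Agent.P5m
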