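import Pool.Agent.Lib.P5m.NonConst

/-!
# Vanishing cyclic sums: the polynomial is a sum of commutators

PROOF of `trace_of_cs`. Let `τ σ` be the trace of the product over the word `σ`. It is invariant under
rotation of the word: the word `σ * (finRotate (r+1)) ^ s` is a rotation of the list of `σ`
(`Matrix.trace_mul_comm`, `List.rotate`; by induction on `s` it is enough to treat `s = 1`: the
list of `σ * finRotate` is the tail followed by the head, `List.ofFn_succ`, `finRotate_succ_apply`,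
`List.ofFn_succ'`). The trace of the value is `N = ∑_σ α σ * τ σ`, and
`(r + 1) * N = ∑_s ∑_σ α (σ * rot ^ s) * τ (σ * rot ^ s) = ∑_σ τ σ * ∑_s α (σ * rot ^ s) = 0`.

PROOF of `cs_shift`: `Cs` is invariant under `α ↦ (τ ↦ α (σ₀ * τ))`: immediate.
-/

open Finset Matrix

namespace Pool.Agent.P5m

variable {r : ℕ} {K : Type*} [Field K]

theorem trace_rot_one {ι : Type*} [Fintype ι] [DecidableEq ι]
    (A : Fin (r + 1) → Matrix ι ι K) (σ : Equiv.Perm (Fin (r + 1))) :
    (List.ofFn fun i => A ((σ * finRotate (r + 1)) i)).prod.trace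
      = (List.ofFn fun i => A (σ i)).prod.trace := by
  have h1 : (List.ofFn fun i => A ((σ * finRotate (r + 1)) i)).prod
      = (List.ofFn fun i : Fin r => A (σ i.succ)).prod * A (σ 0) := by
    rw [List.ofFn_succ', List.prod_concat]
    simp only [Equiv.Perm.mul_apply, finRotate_succ_apply, Fin.coeSucc_eq_succ, Fin.last_add_one]
  have h2 : (List.ofFn fun i => A (σ i)).prod
      = A (σ 0) * (List.ofFn fun i : Fin r => A (σ i.succ)).prod := by
    rw [List.ofFn_succ, List.prod_cons]
  rw [h1, h2, Matrix.trace_mul_comm]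

theorem trace_rot_pow {ι : Type*} [Fintype ι] [DecidableEq ι]
    (A : Fin (r + 1) → Matrix ι ι K) (σ : Equiv.Perm (Fin (r + 1))) (s : ℕ) :
    (List.ofFn fun i => A ((σ * finRotate (r + 1) ^ s) i)).prod.trace
      = (List.ofFn fun i => A (σ i)).prod.trace := by
  induction s with
  | zero => simp
  | succ s ih =>
    rw [pow_succ, ← mul_assoc, trace_rot_one, ih]

theorem trace_of_cs [CharZero K] {ι : Type*} [Fintype ι] [DecidableEq ι]
    (α : Equiv.Perm (Fin (r + 1)) → K) (h : Cs α) (A : Fin (r + 1) → Matrix ι ι K) :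
    (P5e96.mval α A).trace = 0 := by
  set τ : Equiv.Perm (Fin (r + 1)) → K := fun σ => (List.ofFn fun i => A (σ i)).prod.trace
    with hτ
  have h0 : (P5e96.mval α A).trace = ∑ σ, α σ * τ σ := by
    rw [P5e96.mval, Matrix.trace_sum]
    refine Finset.sum_congr rfl fun σ _ => ?_
    rw [Matrix.trace_smul, smul_eq_mul]
  have h1 : ∀ s : Fin (r + 1), ∑ σ, α σ * τ σ
      = ∑ σ, α (σ * finRotate (r + 1) ^ (s : ℕ)) * τ σ := by
    intro s
    rw [← Equiv.sum_comp (Equiv.mulRight (finRotate (r + 1) ^ (s : ℕ)))]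
    refine Finset.sum_congr rfl fun σ _ => ?_
    rw [Equiv.coe_mulRight]
    congr 1
    exact trace_rot_pow A σ s
  have h2 : ((r + 1 : ℕ) : K) * ∑ σ, α σ * τ σ = 0 := by
    calc ((r + 1 : ℕ) : K) * ∑ σ, α σ * τ σ
        = ∑ _s : Fin (r + 1), ∑ σ, α σ * τ σ := by
          rw [Finset.sum_const, Finset.card_univ, Fintype.card_fin, nsmul_eq_mul]
      _ = ∑ s : Fin (r + 1), ∑ σ, α (σ * finRotate (r + 1) ^ (s : ℕ)) * τ σ :=
          Finset.sum_congr rfl fun s _ => h1 s
      _ = ∑ σ, (∑ s : Fin (r + 1), α (σ * finRotate (r + 1) ^ (s : ℕ))) * τ σ := by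
          rw [Finset.sum_comm]
          exact Finset.sum_congr rfl fun σ _ => (Finset.sum_mul _ _ _).symm
      _ = 0 := Finset.sum_eq_zero fun σ _ => by rw [h σ, zero_mul]
  rw [h0]
  rcases mul_eq_zero.1 h2 with h3 | h3
  · exact absurd h3 (Nat.cast_ne_zero.2 (Nat.succ_ne_zero r))
  · exact h3

end Pool.Agent.P5m
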