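import Mathlib

/-!
# Peeling off a diagonal block

`pd s d μ` is the vector `(d, μ, ..., μ)` of length `s`.

PROOF of `peel`. `n = dim V ≥ 3 s + 2`.
Case H: `rank (T - μ) ≥ 2 s + 1` for all `μ ∈ K`. Claim: for `k ≤ s` there are
`v_1, ..., v_k` with `v_1, T v_1, ..., v_k, T v_k` linearly independent. Induction: let
`U = span {v_i, T v_i | i ≤ k}`, `dim U = 2 k ≤ 2 s - 2`, and suppose that for all `v` the images
of `v, T v` in `V ⧸ U` are linearly dependent. Let `π : V → V ⧸ U`, `φ = π ∘ T`;
`dim (V ⧸ U) ≥ 2`. For `v ∉ U` there is a unique scalar `c v` with `φ v = c v • π v`. For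
`v, w` with `π v, π w` independent, comparing `φ (v + w)` gives `c v = c (v + w) = c w`; for
`v, w ∉ U` with `π v, π w` dependent choose a third vector. So `c` is a constant `μ` off `U`, and
for `u ∈ U` take `v ∉ U`: `φ u = φ (u + v) - φ v = μ π (u + v) - μ π v = 0 = μ π u`. So
`(T - μ) V ⊆ U`, `rank (T - μ) ≤ 2 s - 2`, a contradiction. So there is `v_(k+1)`.
With `k = s`: put `μ = 0` in the claim of the theorem. For given `d` let `d_1 = d`, `d_i = 0` for
`i ≥ 2`, `w_i = T v_i - d_i v_i`; `v_1, ..., v_s, w_1, ..., w_s` are linearly independent. Let `W` be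
a complement of `span v` containing all `w_i`, and `T'` the compression of `T` to `W` (compose with
the projection onto `W` along `span v`). If `T' = μ id` then `(T - μ) W ⊆ span v`, so
`rank (T - μ) ≤ s + dim (T - μ) (span v) ≤ 2 s`, a contradiction.
Case L: `rank (T - μ) ≤ 2 s` for some `μ`. `N = T - μ ≠ 0`, `dim ker N ≥ n - 2 s ≥ s + 2`. `N` is
not scalar (else `N` would be bijective of rank `n > 2 s` or zero), so there is `v_1` with
`v_1, N v_1` independent. Choose `v_2, ..., v_s ∈ ker N` such that `v_1, N v_1, v_2, ..., v_s` are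
independent (the image of `ker N` in `V ⧸ span (v_1, N v_1)` has dimension `≥ s`), and
`z ∈ ker N` not in `span (v_1, N v_1, v_2, ..., v_s)` (possible: `dim ker N ≥ s + 2`, and the
span has dimension `s + 1`). For given `d`: `w_1 = T v_1 - d v_1 = N v_1 + (μ - d) v_1`,
`w_i = T v_i - μ v_i = 0` for `i ≥ 2`. The vectors `v_1, ..., v_s, w_1, z + v_1` are independent; let
`W` be a complement of `span v` containing `w_1` and `z + v_1`; `T'` the compression. Since
`T (z + v_1) = μ (z + v_1) + N v_1 = μ (z + v_1) + w_1 - (μ - d) v_1`, `T' (z + v_1) =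
μ (z + v_1) + w_1`, so `T'` is not scalar (`z + v_1, w_1` are independent).
-/

open Finset

namespace Pool.Agent.P5m

variable {K V : Type*} [Field K] [AddCommGroup V] [Module K V]

/-- The vector `(d, μ, ..., μ)`. -/
def pd (s : ℕ) (d μ : K) : Fin s → K := fun i => if (i : ℕ) = 0 then d else μ

namespace PeelAux

theorem asm (T : V →ₗ[K] V) (s : ℕ) (v : Fin s → V) (dv : Fin s → K)
    (hv : LinearIndependent K v) (U : Submodule K V)
    (hU : Disjoint U (Submodule.span K (Set.range v)))
    (hmem : ∀ i, T (v i) - dv i • v i ∈ U)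
    (hns : ∀ (μ' : K) (W : Submodule K V), U ≤ W → IsCompl W (Submodule.span K (Set.range v)) →
      ∃ w ∈ W, T w - μ' • w ∉ Submodule.span K (Set.range v)) :
    ∃ (v : Fin s → V) (W : Submodule K V) (T' : W →ₗ[K] W),
      LinearIndependent K v ∧ IsCompl (Submodule.span K (Set.range v)) W ∧
      (∀ i, T (v i) - dv i • v i ∈ W) ∧
      (∀ w : W, T w - T' w ∈ Submodule.span K (Set.range v)) ∧
      ∀ μ' : K, T' ≠ μ' • LinearMap.id := by
  obtain ⟨W, hUW, hW⟩ := hU.exists_isCompl
  refine ⟨v, W, (W.projectionOnto _ hW) ∘ₗ T ∘ₗ W.subtype, hv, hW.symm,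
    fun i => hUW (hmem i), ?_, ?_⟩
  · intro w
    have h1 := Submodule.sub_projection_mem hW (T w)
    simpa using h1
  · intro μ' h
    obtain ⟨w, hw, hn⟩ := hns μ' W hUW hW
    apply hn
    have h1 := Submodule.sub_projection_mem hW (T w)
    have h2 := LinearMap.congr_fun h ⟨w, hw⟩
    have h3 := congrArg (fun x : W => (x : V)) h2
    simp only [LinearMap.comp_apply, Submodule.subtype_apply, LinearMap.smul_apply,
      LinearMap.id_apply, Submodule.coe_smul] at h3
    have h4 : W.projection _ hW (T w) = μ' • w := by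
      rw [← h3]
      simp
    rw [h4] at h1
    exact h1

theorem lemB [FiniteDimensional K V] (T : V →ₗ[K] V) (U : Submodule K V)
    (hd : Module.finrank K U + 2 ≤ Module.finrank K V)
    (h : ∀ v, ∃ a b : K, (a ≠ 0 ∨ b ≠ 0) ∧ a • v + b • T v ∈ U) :
    ∃ μ : K, ∀ v, T v - μ • v ∈ U := by
  have h1 : ∀ v, v ∉ U → ∃ c : K, T v - c • v ∈ U := by
    intro v hv
    obtain ⟨a, b, hab, hm⟩ := h v
    have hb : b ≠ 0 := by
      intro hb
      have ha : a ≠ 0 := by
        rcases hab with h | h
        · exact h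
        · exact absurd hb h
      apply hv
      rw [hb, zero_smul, add_zero] at hm
      exact (Submodule.smul_mem_iff _ ha).1 hm
    refine ⟨-(b⁻¹ * a), ?_⟩
    have h2 := U.smul_mem b⁻¹ hm
    have h3 : b⁻¹ • (a • v + b • T v) = T v - (-(b⁻¹ * a)) • v := by
      rw [smul_add, smul_smul, smul_smul, inv_mul_cancel₀ hb, one_smul, neg_smul, sub_neg_eq_add,
        add_comm]
    rwa [h3] at h2
  have hUt : U ≠ ⊤ := by
    intro hh
    rw [hh, finrank_top] at hd
    omega
  obtain ⟨x, -, hx⟩ := SetLike.exists_of_lt (lt_top_iff_ne_top.2 hUt)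
  have hUx : U ⊔ Submodule.span K {x} ≠ ⊤ := by
    intro hh
    have h2 := Submodule.finrank_add_le_finrank_add_finrank U (Submodule.span K {x})
    rw [hh, finrank_top] at h2
    have h3 : Module.finrank K (Submodule.span K {x}) ≤ 1 := by
      have h4 := finrank_span_le_card (R := K) ({x} : Set V)
      simpa using h4
    omega
  obtain ⟨y, -, hy⟩ := SetLike.exists_of_lt (lt_top_iff_ne_top.2 hUx)
  have hyU : y ∉ U := fun hh => hy (Submodule.mem_sup_left hh)
  have h2 : ∀ u ∈ U, ∀ z, z ∉ U → ∃ α : K, T u - α • z ∈ U := by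
    intro u hu z hz
    obtain ⟨c1, hc1⟩ := h1 (u + z) (fun hh => hz ((Submodule.add_mem_iff_right U hu).1 hh))
    obtain ⟨c2, hc2⟩ := h1 z hz
    refine ⟨c1 - c2, ?_⟩
    have h3 := U.add_mem (U.sub_mem hc1 hc2) (U.smul_mem c1 hu)
    have h4 : T (u + z) - c1 • (u + z) - (T z - c2 • z) + c1 • u = T u - (c1 - c2) • z := by
      rw [map_add]
      module
    rwa [h4] at h3
  have h3 : U ≤ U.comap T := by
    intro u hu
    rw [Submodule.mem_comap]
    obtain ⟨α, hα⟩ := h2 u hu x hx
    obtain ⟨β, hβ⟩ := h2 u hu y hyU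
    have h4 : β = 0 := by
      by_contra hb
      apply hy
      have h5 : β • y ∈ U ⊔ Submodule.span K {x} := by
        have h6 : β • y = (T u - α • x) - (T u - β • y) + α • x := by module
        rw [h6]
        exact Submodule.add_mem _ (Submodule.mem_sup_left (U.sub_mem hα hβ))
          (Submodule.mem_sup_right (Submodule.smul_mem _ _ (Submodule.mem_span_singleton_self x)))
      exact (Submodule.smul_mem_iff _ hb).1 h5
    rw [h4, zero_smul, sub_zero] at hβ
    exact hβ
  obtain ⟨a, ha⟩ := LinearMap.exists_eq_smul_id_of_forall_notLinearIndependent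
    (f := Submodule.mapQ U U T h3) (by
      intro q hq
      obtain ⟨v, rfl⟩ := Submodule.mkQ_surjective U q
      by_cases hv : v ∈ U
      · have h4 := hq.ne_zero 0
        apply h4
        simp [hv]
      · obtain ⟨c, hc⟩ := h1 v hv
        rw [LinearIndependent.pair_iff] at hq
        have h5 := hq c (-1) (by
          rw [Submodule.mkQ_apply, Submodule.mapQ_apply, ← Submodule.Quotient.mk_smul,
            ← Submodule.Quotient.mk_smul, ← Submodule.Quotient.mk_add,
            Submodule.Quotient.mk_eq_zero]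
          have h6 : c • v + (-1 : K) • T v = -(T v - c • v) := by module
          rw [h6]
          exact U.neg_mem hc)
        have h6 := h5.2
        norm_num at h6)
  refine ⟨a, fun v => ?_⟩
  have h4 := LinearMap.congr_fun ha (Submodule.Quotient.mk v)
  rw [Submodule.mapQ_apply, LinearMap.smul_apply, Module.End.one_apply,
    ← Submodule.Quotient.mk_smul, Submodule.Quotient.eq] at h4
  exact h4

theorem claimH [FiniteDimensional K V] (T : V →ₗ[K] V) (s : ℕ)
    (hn : 3 * s + 2 ≤ Module.finrank K V)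
    (hr : ∀ μ : K, 2 * s + 1 ≤ Module.finrank K (LinearMap.range (T - μ • LinearMap.id))) :
    ∀ k, k ≤ s → ∃ v : Fin k → V, ∀ a b : Fin k → K,
      ∑ i, a i • v i + ∑ i, b i • T (v i) = 0 → (∀ i, a i = 0) ∧ ∀ i, b i = 0 := by
  intro k
  induction k with
  | zero =>
    intro _
    exact ⟨Fin.elim0, fun a b _ => ⟨fun i => i.elim0, fun i => i.elim0⟩⟩
  | succ k ih =>
    intro hk
    obtain ⟨v, hv⟩ := ih (by omega)
    obtain ⟨U, hU⟩ : ∃ U, U = Submodule.span K (Set.range v) ⊔
      Submodule.span K (Set.range (fun i => T (v i))) := ⟨_, rfl⟩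
    have hUd : Module.finrank K U ≤ 2 * k := by
      rw [hU]
      have h1 := Submodule.finrank_add_le_finrank_add_finrank (Submodule.span K (Set.range v))
        (Submodule.span K (Set.range (fun i => T (v i))))
      have h2 := finrank_range_le_card (R := K) v
      have h3 := finrank_range_le_card (R := K) (fun i => T (v i))
      rw [Fintype.card_fin] at h2 h3
      unfold Set.finrank at h2 h3
      omega
    have hex : ∃ x : V, ∀ a b : K, a • x + b • T x ∈ U → a = 0 ∧ b = 0 := by
      by_contra hcon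
      push Not at hcon
      obtain ⟨μ, hμ⟩ := lemB T U (by omega) (by
        intro x
        obtain ⟨a, b, hm, hab⟩ := hcon x
        refine ⟨a, b, ?_, hm⟩
        by_cases ha : a = 0
        · exact Or.inr (hab ha)
        · exact Or.inl ha)
      have h1 : LinearMap.range (T - μ • LinearMap.id) ≤ U := by
        rintro _ ⟨x, rfl⟩
        simpa using hμ x
      have h2 := Submodule.finrank_mono h1
      have h3 := hr μ
      omega
    obtain ⟨x, hx⟩ := hex
    refine ⟨Fin.cons x v, fun a b hab => ?_⟩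
    rw [Fin.sum_univ_succ, Fin.sum_univ_succ] at hab
    simp only [Fin.cons_zero, Fin.cons_succ] at hab
    have h1 : a 0 • x + b 0 • T x ∈ U := by
      have h2 : a 0 • x + b 0 • T x = -(∑ i : Fin k, a i.succ • v i + ∑ i : Fin k, b i.succ • T (v i)) := by
        rw [eq_neg_iff_add_eq_zero, ← hab]
        abel
      rw [h2, hU]
      refine Submodule.neg_mem _ (Submodule.add_mem _ (Submodule.mem_sup_left ?_)
        (Submodule.mem_sup_right ?_))
      · exact Submodule.sum_mem _ fun i _ => Submodule.smul_mem _ _ (Submodule.subset_span ⟨i, rfl⟩)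
      · exact Submodule.sum_mem _ fun i _ => Submodule.smul_mem _ _ (Submodule.subset_span ⟨i, rfl⟩)
    obtain ⟨ha, hb⟩ := hx _ _ h1
    rw [ha, hb, zero_smul, zero_smul, zero_add, zero_add] at hab
    obtain ⟨h3, h4⟩ := hv _ _ hab
    exact ⟨fun i => Fin.cases ha h3 i, fun i => Fin.cases hb h4 i⟩

theorem caseH [FiniteDimensional K V] (T : V →ₗ[K] V) (s : ℕ)
    (hn : 3 * s + 2 ≤ Module.finrank K V)
    (hr : ∀ μ : K, 2 * s + 1 ≤ Module.finrank K (LinearMap.range (T - μ • LinearMap.id))) :
    ∃ μ : K, ∀ d : K, ∃ (v : Fin s → V) (W : Submodule K V) (T' : W →ₗ[K] W),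
      LinearIndependent K v ∧ IsCompl (Submodule.span K (Set.range v)) W ∧
      (∀ i, T (v i) - pd s d μ i • v i ∈ W) ∧
      (∀ w : W, T w - T' w ∈ Submodule.span K (Set.range v)) ∧
      ∀ μ' : K, T' ≠ μ' • LinearMap.id := by
  obtain ⟨v, hv⟩ := claimH T s hn hr s le_rfl
  refine ⟨0, fun d => ?_⟩
  refine asm T s v (pd s d 0) ?_ (Submodule.span K (Set.range fun i => T (v i) - pd s d 0 i • v i))
    ?_ (fun i => Submodule.subset_span ⟨i, rfl⟩) ?_
  · rw [Fintype.linearIndependent_iff]
    intro g hg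
    exact (hv g 0 (by simpa using hg)).1
  · rw [Submodule.disjoint_def]
    intro x hx hx'
    rw [Submodule.mem_span_range_iff_exists_fun] at hx hx'
    obtain ⟨b, hb⟩ := hx
    obtain ⟨a, ha⟩ := hx'
    have h1 := hv (fun i => -(b i * pd s d 0 i) - a i) b (by
      have h2 : ∑ i, (-(b i * pd s d 0 i) - a i) • v i + ∑ i, b i • T (v i) =
          ∑ i, b i • (T (v i) - pd s d 0 i • v i) - ∑ i, a i • v i := by
        rw [← Finset.sum_add_distrib, ← Finset.sum_sub_distrib]
        refine Finset.sum_congr rfl fun i _ => ?_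
        module
      rw [h2, hb, ha, sub_self])
    rw [← hb]
    exact Finset.sum_eq_zero fun i _ => by rw [h1.2 i, zero_smul]
  · intro μ' W _ hW
    by_contra hcon
    push Not at hcon
    obtain ⟨P, hP⟩ : ∃ P, P = Submodule.span K (Set.range v) := ⟨_, rfl⟩
    rw [← hP] at hcon hW
    have h1 : LinearMap.range (T - μ' • LinearMap.id) ≤ P ⊔ P.map (T - μ' • LinearMap.id) := by
      rintro _ ⟨x, rfl⟩
      have hx : x ∈ W ⊔ P := by
        rw [hW.sup_eq_top]
        trivial
      obtain ⟨w, hw, y, hy, rfl⟩ := Submodule.mem_sup.1 hx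
      rw [map_add]
      refine Submodule.add_mem _ (Submodule.mem_sup_left ?_)
        (Submodule.mem_sup_right (Submodule.mem_map_of_mem hy))
      simpa using hcon w hw
    have h2 := Submodule.finrank_mono h1
    have h3 := Submodule.finrank_add_le_finrank_add_finrank P (P.map (T - μ' • LinearMap.id))
    have h4 := Submodule.finrank_map_le (T - μ' • LinearMap.id) P
    have h5 : Module.finrank K P ≤ s := by
      rw [hP]
      have h6 := finrank_range_le_card (R := K) v
      rw [Fintype.card_fin] at h6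
      exact h6
    have h7 := hr μ'
    omega

theorem caseL [FiniteDimensional K V] (T : V →ₗ[K] V) (hT : ∀ μ : K, T ≠ μ • LinearMap.id)
    (s : ℕ) (hn : 3 * (s + 1) + 2 ≤ Module.finrank K V) (μ : K)
    (hr : Module.finrank K (LinearMap.range (T - μ • LinearMap.id)) ≤ 2 * (s + 1)) :
    ∃ μ : K, ∀ d : K, ∃ (v : Fin (s + 1) → V) (W : Submodule K V) (T' : W →ₗ[K] W),
      LinearIndependent K v ∧ IsCompl (Submodule.span K (Set.range v)) W ∧
      (∀ i, T (v i) - pd (s + 1) d μ i • v i ∈ W) ∧
      (∀ w : W, T w - T' w ∈ Submodule.span K (Set.range v)) ∧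
      ∀ μ' : K, T' ≠ μ' • LinearMap.id := by
  obtain ⟨N, hN⟩ : ∃ N : V →ₗ[K] V, N = T - μ • LinearMap.id := ⟨_, rfl⟩
  rw [← hN] at hr
  have hTN : ∀ x, T x = μ • x + N x := by
    intro x
    rw [hN]
    simp
  -- the vector `v₁`
  have hv1 : ∃ v₁ : V, LinearIndependent K ![v₁, N v₁] := by
    by_contra hcon
    push Not at hcon
    obtain ⟨a, ha⟩ := LinearMap.exists_eq_smul_id_of_forall_notLinearIndependent (f := N) hcon
    apply hT (μ + a)
    ext x
    rw [hTN, ha]
    simp [add_smul]
  obtain ⟨v₁, hv₁⟩ := hv1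
  obtain ⟨P, hP⟩ : ∃ P, P = Submodule.span K (Set.range ![v₁, N v₁]) := ⟨_, rfl⟩
  have hPd : Module.finrank K P ≤ 2 := by
    rw [hP]
    have h6 := finrank_range_le_card (R := K) ![v₁, N v₁]
    rw [Fintype.card_fin] at h6
    exact h6
  have hker : s + 1 + 2 ≤ Module.finrank K (LinearMap.ker N) := by
    have h1 := LinearMap.finrank_range_add_finrank_ker N
    omega
  -- the vectors `u i`
  have hu : ∃ u : Fin (s + 1) → V, (∀ i, N (u i) = 0) ∧
      LinearIndependent K (fun i => P.mkQ (u i)) := by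
    obtain ⟨R, hR⟩ : ∃ R, R = (LinearMap.ker N).map P.mkQ := ⟨_, rfl⟩
    have h1 : s + 1 ≤ Module.finrank K R := by
      have h2 := LinearMap.finrank_range_add_finrank_ker (P.mkQ.domRestrict (LinearMap.ker N))
      have h3 : LinearMap.range (P.mkQ.domRestrict (LinearMap.ker N)) = R := by
        rw [hR]
        exact LinearMap.range_domRestrict _ _
      have h4 : Module.finrank K (LinearMap.ker (P.mkQ.domRestrict (LinearMap.ker N))) ≤ 2 := by
        rw [LinearMap.ker_domRestrict, Submodule.ker_mkQ]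
        refine le_trans ?_ hPd
        have h5 := Submodule.finrank_mono
          (Submodule.map_comap_le (LinearMap.ker N).subtype P)
        refine le_trans (le_of_eq ?_) h5
        exact (Submodule.finrank_map_subtype_eq (LinearMap.ker N) _).symm
      rw [h3] at h2
      omega
    obtain ⟨bs, hbs⟩ : ∃ bs, bs = Module.finBasis K R := ⟨_, rfl⟩
    have h2 : ∀ i : Fin (s + 1), ∃ x, N x = 0 ∧ P.mkQ x = (bs (Fin.castLE h1 i) : V ⧸ P) := by
      intro i
      have h3 : ∀ y ∈ R, ∃ x ∈ LinearMap.ker N, P.mkQ x = y := by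
        intro y hy
        rw [hR, Submodule.mem_map] at hy
        exact hy
      obtain ⟨x, hx, hx2⟩ := h3 _ (bs (Fin.castLE h1 i)).2
      exact ⟨x, hx, by rw [hx2]⟩
    choose u hu1 hu2 using h2
    refine ⟨u, hu1, ?_⟩
    have h3 : (fun i => P.mkQ (u i)) = R.subtype ∘ (bs ∘ Fin.castLE h1) := by
      ext i
      simp [hu2]
    rw [h3]
    exact (bs.linearIndependent.comp _ (Fin.castLE_injective h1)).map' _ (Submodule.ker_subtype R)
  obtain ⟨u, hu0, huL⟩ := hu
  have hLI : ∀ (a b : K) (c : Fin (s + 1) → K), a • v₁ + b • N v₁ + ∑ i, c i • u i = 0 →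
      a = 0 ∧ b = 0 ∧ ∀ i, c i = 0 := by
    intro a b c habc
    have h1 : a • v₁ + b • N v₁ ∈ P := by
      rw [hP]
      exact Submodule.add_mem _ (Submodule.smul_mem _ _ (Submodule.subset_span ⟨0, rfl⟩))
        (Submodule.smul_mem _ _ (Submodule.subset_span ⟨1, rfl⟩))
    have h2 : ∑ i, c i • P.mkQ (u i) = 0 := by
      have h3 := congrArg P.mkQ habc
      rw [map_add, map_zero, Submodule.mkQ_apply, (Submodule.Quotient.mk_eq_zero P).2 h1, zero_add,
        map_sum] at h3
      simpa using h3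
    have h3 := Fintype.linearIndependent_iff.1 huL c h2
    have h4 : a • v₁ + b • N v₁ = 0 := by
      rw [← habc]
      rw [Finset.sum_eq_zero fun i _ => by rw [h3 i, zero_smul]]
      rw [add_zero]
    have h5 := LinearIndependent.pair_iff.1 hv₁ a b h4
    exact ⟨h5.1, h5.2, h3⟩
  -- assembly
  obtain ⟨v, hv⟩ : ∃ v : Fin (s + 1) → V, v = Fin.cons v₁ (fun i : Fin s => u i.castSucc) :=
    ⟨_, rfl⟩
  have hvs : ∀ c : Fin (s + 1) → K, ∑ i, c i • v i =
      c 0 • v₁ + ∑ i : Fin s, c i.succ • u i.castSucc := by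
    intro c
    rw [hv, Fin.sum_univ_succ]
    simp
  obtain ⟨z, hz⟩ : ∃ z, z = u (Fin.last s) := ⟨_, rfl⟩
  have hmain : ∀ (a b e : K) (c : Fin s → K),
      a • v₁ + b • N v₁ + e • z + ∑ i : Fin s, c i • u i.castSucc = 0 →
      a = 0 ∧ b = 0 ∧ e = 0 ∧ ∀ i, c i = 0 := by
    intro a b e c h
    have h1 := hLI a b (Fin.snoc c e) (by
      rw [Fin.sum_univ_castSucc]
      simp only [Fin.snoc_castSucc, Fin.snoc_last]
      rw [← h, hz]
      abel)
    refine ⟨h1.1, h1.2.1, ?_, ?_⟩
    · simpa using h1.2.2 (Fin.last s)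
    · intro i
      simpa using h1.2.2 i.castSucc
  refine ⟨μ, fun d => ?_⟩
  obtain ⟨w, hw⟩ : ∃ w, w = N v₁ + (μ - d) • v₁ := ⟨_, rfl⟩
  have hNz : N z = 0 := by rw [hz]; exact hu0 _
  refine asm T (s + 1) v (pd (s + 1) d μ) ?_ (Submodule.span K {w, z + v₁}) ?_ ?_ ?_
  · rw [Fintype.linearIndependent_iff]
    intro g hg
    rw [hvs] at hg
    have h1 := hmain (g 0) 0 0 (fun i => g i.succ) (by
      rw [← hg]
      simp)
    intro i
    refine Fin.cases h1.1 (fun j => h1.2.2.2 j) i
  · rw [Submodule.disjoint_def]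
    intro x hx hx'
    rw [Submodule.mem_span_range_iff_exists_fun] at hx'
    rw [Submodule.mem_span_pair] at hx
    obtain ⟨α, β, hαβ⟩ := hx
    obtain ⟨c, hc⟩ := hx'
    rw [hvs] at hc
    have h1 := hmain (α * (μ - d) + β - c 0) α β (fun i => -c i.succ) (by
      have h2 : (α * (μ - d) + β - c 0) • v₁ + α • N v₁ + β • z +
          ∑ i : Fin s, (-c i.succ) • u i.castSucc = (α • w + β • (z + v₁)) -
          (c 0 • v₁ + ∑ i : Fin s, c i.succ • u i.castSucc) := by
        rw [hw]
        simp only [neg_smul, Finset.sum_neg_distrib]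
        module
      rw [h2, hαβ, hc, sub_self])
    rw [← hαβ, h1.2.1, h1.2.2.1, zero_smul, zero_smul, add_zero]
  · intro i
    refine Fin.cases ?_ (fun j => ?_) i
    · have h1 : T (v 0) - pd (s + 1) d μ 0 • v 0 = w := by
        rw [hv, hw]
        simp only [Fin.cons_zero, pd, Fin.val_zero, if_true]
        rw [hTN]
        module
      rw [h1]
      exact Submodule.subset_span (by simp)
    · have h1 : T (v j.succ) - pd (s + 1) d μ j.succ • v j.succ = 0 := by
        rw [hv]
        simp only [Fin.cons_succ, pd, Fin.val_succ, Nat.add_eq_zero_iff, one_ne_zero, and_false,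
          if_false]
        rw [hTN, hu0]
        module
      rw [h1]
      exact Submodule.zero_mem _
  · intro μ' W hUW hW
    refine ⟨z + v₁, hUW (Submodule.subset_span (by simp)), fun hcon => ?_⟩
    rw [Submodule.mem_span_range_iff_exists_fun] at hcon
    obtain ⟨c, hc⟩ := hcon
    rw [hvs, map_add, hTN z, hTN v₁, hNz] at hc
    have h1 := hmain (μ - μ' - c 0) 1 (μ - μ') (fun i => -c i.succ) (by
      have h2 : (μ - μ' - c 0) • v₁ + (1 : K) • N v₁ + (μ - μ') • z +
          ∑ i : Fin s, (-c i.succ) • u i.castSucc =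
          (μ • z + 0 + (μ • v₁ + N v₁) - μ' • (z + v₁)) -
          (c 0 • v₁ + ∑ i : Fin s, c i.succ • u i.castSucc) := by
        simp only [neg_smul, Finset.sum_neg_distrib]
        module
      rw [h2, hc, sub_self])
    exact one_ne_zero h1.2.1

end PeelAux

open PeelAux

theorem peel [FiniteDimensional K V] (T : V →ₗ[K] V) (hT : ∀ μ : K, T ≠ μ • LinearMap.id)
    (s : ℕ) (hs : 1 ≤ s) (hn : 3 * s + 2 ≤ Module.finrank K V) :
    ∃ μ : K, ∀ d : K, ∃ (v : Fin s → V) (W : Submodule K V) (T' : W →ₗ[K] W),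
      LinearIndependent K v ∧ IsCompl (Submodule.span K (Set.range v)) W ∧
      (∀ i, T (v i) - pd s d μ i • v i ∈ W) ∧
      (∀ w : W, T w - T' w ∈ Submodule.span K (Set.range v)) ∧
      ∀ μ' : K, T' ≠ μ' • LinearMap.id := by
  by_cases h : ∀ μ : K, 2 * s + 1 ≤ Module.finrank K (LinearMap.range (T - μ • LinearMap.id))
  · exact caseH T s hn h
  · push Not at h
    obtain ⟨μ, hμ⟩ := h
    obtain ⟨s', rfl⟩ : ∃ s', s = s' + 1 := ⟨s - 1, by omega⟩
    exact caseL T hT s' hn μ (by omega)

end Pool.Agent.P5m
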