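import Pool.Agent.Lib.P5m.Chains

/-!
# Two diagonal blocks of equal size

`Blk T s D`: in some basis the compression of `T` to the block `a` is the diagonal matrix `D a`.

PROOF. Let `dim V = 2 s`, take the chains of `chains_two`; put all positions `(i, j)` in one
sequence of length `2 s` (lexicographic order: chain `0` first, ...; `finSigmaFinEquiv`), and give
the position the colour `a ∈ Fin 2` = parity of its number. Each colour has `s` positions;
consecutive positions of a chain have different colours. For a choice of `δ` the compression of `T`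
to the span of the basis vectors of colour `a` is a direct sum over the chains; within a chain the
entry at `(j, j')` vanishes for `j > j'` (same colour means `j - j' ≥ 2`), so it is upper triangular
with the diagonal entries `δ i j`. If the `δ i j` of the same colour in the same chain are pairwise
different then this upper triangular matrix is diagonalizable with the same diagonal
entries (lemma `upper_diag`; distinct eigenvalues), so there is a basis of the span of colour `a`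
such that the compression is the diagonal matrix of the numbers `δ i j`, `(i, j)` of colour `a`.
Together these vectors are a basis of `V` (the compression along the other colour does not change
when the basis inside the colours is changed).
Choice of `δ` for `two_trace`: call a chain long if `d i ≥ 2`, let `i₀` be a long chain. For the long
chains `i ≠ i₀` choose `δ i ·` pairwise different with sum `t i` (possible: `K` has characteristic
zero; e.g. `δ j = x + j` with suitable `x` and correct the last one, or use `x = (t - ∑ j)/d`: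
`δ j = x + j` has the sum `d x + d (d-1)/2 = t`). For chains of length one `δ = t i`. For `i₀`: the
positions of colour `0` in chain `i₀` are `h₀ ≥ 1` many and those of colour `1` are `h₁ ≥ 1` many;
choose pairwise different values with prescribed sums `σ₀` and `t i₀ - σ₀` (`arith`: `x + j`,
`j < h`, with `h x + h (h-1)/2 = σ`), where `σ₀ = τ - (sum of the other δ of colour 0)`.
Choice of `δ` for `two_ne`: as before for `i ≠ i₀`; for `i₀` the values `x + j` and `y + j` in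
the two colours with `h₀ x + h₀ (h₀-1)/2 + h₁ y + h₁ (h₁-1)/2 = t i₀`; `x` is a free parameter;
all but finitely many `x` are such that no value in the chain `i₀` is equal to a value outside of
this chain. If colour `a` has two positions in the chain `i₀` its values are different; otherwise
it has another position (because `s ≥ 2`) with a different value. So both `D 0` and `D 1` are not
constant.
-/

open Finset

namespace Pool.Agent.P5m

variable {K V : Type*} [Field K] [AddCommGroup V] [Module K V]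

/-- In some basis the compression of `T` to block `a` is diagonal with entries `D a`. -/
def Blk (T : V →ₗ[K] V) {k : ℕ} (s : Fin k → ℕ) (D : ∀ a, Fin (s a) → K) : Prop :=
  ∃ b : Module.Basis (Σ a, Fin (s a)) K V,
    ∀ a i j, b.repr (T (b ⟨a, j⟩)) ⟨a, i⟩ = if i = j then D a i else 0

/-- The trace is the sum of the diagonal entries of the blocks (`LinearMap.trace_eq_matrix_trace`
in the basis of `Blk`, `Matrix.trace`, `Fintype.sum_sigma`). -/
theorem trace_blk (T : V →ₗ[K] V) {k : ℕ} (s : Fin k → ℕ) (D : ∀ a, Fin (s a) → K)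
    (h : Blk T s D) : LinearMap.trace K V T = ∑ a, ∑ i, D a i := by
  obtain ⟨b, hb⟩ := h
  rw [LinearMap.trace_eq_matrix_trace K b, Matrix.trace, Fintype.sum_sigma]
  refine Finset.sum_congr rfl fun a _ => Finset.sum_congr rfl fun i _ => ?_
  rw [Matrix.diag_apply, LinearMap.toMatrix_apply, hb, if_pos rfl]

namespace TwoAux

/-- An eigenvector of an upper triangular matrix. -/
theorem eigvec {n : ℕ} {κ : Type*} (c : Fin n → κ) (M : Matrix (Fin n) (Fin n) K)
    (h : ∀ i j, j < i → M i j = 0) (hc : ∀ i j, c i ≠ c j → M i j = 0)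
    (hd : ∀ i j, i ≠ j → c i = c j → M i i ≠ M j j) (j : Fin n) :
    ∃ v : Fin n → K, v j = 1 ∧ (∀ i, j < i → v i = 0) ∧
      ∀ i, ∑ l, M i l * v l = M j j * v i := by
  classical
  let I := {i : Fin n // i < j ∧ c i = c j}
  let A : Matrix I I K := fun a b => (if a = b then M j j else 0) - M a b
  have hA : A.det ≠ 0 := by
    have hbt : Matrix.BlockTriangular A id := by
      intro a b hab
      have hab' : (b : Fin n) < a := hab
      have hne : a ≠ b := fun e => by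
        subst e
        exact lt_irrefl _ hab'
      change (if a = b then M j j else 0) - M a b = 0
      rw [if_neg hne, h _ _ hab', sub_zero]
    rw [Matrix.det_of_isUpperTriangular hbt]
    refine Finset.prod_ne_zero_iff.2 fun a _ => ?_
    change (if a = a then M j j else 0) - M a a ≠ 0
    rw [if_pos rfl]
    exact sub_ne_zero.2 (hd j a (ne_of_gt a.2.1) a.2.2.symm)
  obtain ⟨u, hu⟩ : ∃ u : I → K, A.mulVec u = fun a : I => M (a : Fin n) j := by
    refine ⟨A⁻¹.mulVec fun a : I => M (a : Fin n) j, ?_⟩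
    rw [Matrix.mulVec_mulVec, Matrix.mul_nonsing_inv _ (isUnit_iff_ne_zero.2 hA), Matrix.one_mulVec]
  let v : Fin n → K := fun i => if i = j then 1 else if hi : i < j ∧ c i = c j then u ⟨i, hi⟩ else 0
  have vj : v j = 1 := if_pos rfl
  have vI : ∀ a : I, v a = u a := by
    intro a
    have h1 : (a : Fin n) ≠ j := ne_of_lt a.2.1
    change (if (a : Fin n) = j then 1 else if hi : (a : Fin n) < j ∧ c a = c j then u ⟨a, hi⟩ else 0) = _
    rw [if_neg h1, dif_pos a.2]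
  have vO : ∀ i, i ≠ j → ¬ (i < j ∧ c i = c j) → v i = 0 := by
    intro i h1 h2
    change (if i = j then 1 else if hi : i < j ∧ c i = c j then u ⟨i, hi⟩ else 0) = _
    rw [if_neg h1, dif_neg h2]
  have hsum : ∀ i, ∑ l, M i l * v l = M i j + ∑ l : I, M i l * u l := by
    intro i
    rw [← Fintype.sum_subtype_add_sum_subtype (fun l => l < j ∧ c l = c j) (fun l => M i l * v l),
      add_comm]
    congr 1
    · have hj : ¬ (j < j ∧ c j = c j) := fun h => lt_irrefl _ h.1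
      rw [Finset.sum_eq_single (⟨j, hj⟩ : {x // ¬ (x < j ∧ c x = c j)})]
      · rw [vj, mul_one]
      · intro b _ hb
        rw [vO b (fun e => hb (Subtype.ext e)) b.2, mul_zero]
      · intro h
        exact absurd (Finset.mem_univ _) h
    · exact Finset.sum_congr rfl fun a _ => by rw [vI]
  refine ⟨v, vj, ?_, ?_⟩
  · intro i hi
    exact vO i (ne_of_gt hi) fun h => absurd h.1 (not_lt.2 hi.le)
  · intro i
    rw [hsum]
    by_cases hi : i < j ∧ c i = c j
    · have h1 := congrFun hu ⟨i, hi⟩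
      have h2 : A.mulVec u ⟨i, hi⟩ = M j j * u ⟨i, hi⟩ - ∑ l : I, M i l * u l := by
        have h3 : ∀ l : I, A ⟨i, hi⟩ l * u l =
            (if (⟨i, hi⟩ : I) = l then M j j * u l else 0) - M i l * u l := by
          intro l
          change ((if (⟨i, hi⟩ : I) = l then M j j else 0) - M i l) * u l = _
          split_ifs <;> ring
        rw [Matrix.mulVec, dotProduct, Finset.sum_congr rfl fun l _ => h3 l,
          Finset.sum_sub_distrib, Finset.sum_ite_eq, if_pos (Finset.mem_univ _)]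
      rw [h2] at h1
      have h4 : v i = u ⟨i, hi⟩ := vI ⟨i, hi⟩
      rw [h4]
      have h5 : M i j = M j j * u ⟨i, hi⟩ - ∑ l : I, M i l * u l := h1.symm
      rw [h5]
      ring
    · have hz : ∑ l : I, M i l * u l = 0 ∨ i = j := by
        by_cases hij : i = j
        · exact Or.inr hij
        left
        refine Finset.sum_eq_zero fun l _ => ?_
        by_cases hlt : i < j
        · have : c i ≠ c j := fun e => hi ⟨hlt, e⟩
          rw [hc i l (by rw [l.2.2]; exact this), zero_mul]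
        · have : (l : Fin n) < i := lt_of_lt_of_le l.2.1 (not_lt.1 hlt)
          rw [h _ _ this, zero_mul]
      by_cases hij : i = j
      · subst hij
        rw [vj, mul_one]
        have : ∑ l : I, M i l * u l = 0 := by
          refine Finset.sum_eq_zero fun l _ => ?_
          rw [h _ _ l.2.1, zero_mul]
        rw [this, add_zero]
      · rw [vO i hij hi, mul_zero]
        have h1 : ∑ l : I, M i l * u l = 0 := hz.resolve_right hij
        rw [h1, add_zero]
        by_cases hlt : i < j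
        · exact hc _ _ fun e => hi ⟨hlt, e⟩
        · exact h _ _ (lt_of_le_of_ne (not_lt.1 hlt) (Ne.symm hij))

theorem upper_diag' {n : ℕ} {κ : Type*} (c : Fin n → κ) (M : Matrix (Fin n) (Fin n) K)
    (h : ∀ i j, j < i → M i j = 0) (hc : ∀ i j, c i ≠ c j → M i j = 0)
    (hd : ∀ i j, i ≠ j → c i = c j → M i i ≠ M j j) :
    ∃ P : Matrix (Fin n) (Fin n) K, IsUnit P.det ∧ M * P = P * Matrix.diagonal fun i => M i i := by
  choose v v1 v2 v3 using eigvec c M h hc hd
  refine ⟨fun i j => v j i, ?_, ?_⟩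
  · have hbt : Matrix.BlockTriangular (fun i j => v j i : Matrix (Fin n) (Fin n) K) id := by
      intro i j hij
      exact v2 j i hij
    rw [Matrix.det_of_isUpperTriangular hbt]
    simp [v1]
  · ext i j
    rw [Matrix.mul_diagonal, Matrix.mul_apply, mul_comm]
    exact v3 j i

theorem blk_of {T : V →ₗ[K] V} {k : ℕ} {s : Fin k → ℕ}
    (b : Module.Basis (Σ a, Fin (s a)) K V) (P : ∀ a, Matrix (Fin (s a)) (Fin (s a)) K)
    (hP : ∀ a, IsUnit (P a).det) (D : ∀ a, Fin (s a) → K)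
    (h : ∀ a, (Matrix.of fun i j => b.repr (T (b ⟨a, j⟩)) ⟨a, i⟩) * P a =
      P a * Matrix.diagonal (D a)) : Blk T s D := by
  classical
  let Q := Matrix.blockDiagonal' P
  let R := Matrix.blockDiagonal' fun a => (P a)⁻¹
  have hQR : Q * R = 1 := by
    change Matrix.blockDiagonal' P * Matrix.blockDiagonal' (fun a => (P a)⁻¹) = 1
    rw [← Matrix.blockDiagonal'_mul]
    rw [← Matrix.blockDiagonal'_one]
    congr 1
    funext a
    exact Matrix.mul_nonsing_inv _ (hP a)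
  have hRQ : R * Q = 1 := by
    change Matrix.blockDiagonal' (fun a => (P a)⁻¹) * Matrix.blockDiagonal' P = 1
    rw [← Matrix.blockDiagonal'_mul]
    rw [← Matrix.blockDiagonal'_one]
    congr 1
    funext a
    exact Matrix.nonsing_inv_mul _ (hP a)
  let φ : V ≃ₗ[K] V := LinearEquiv.ofLinearMap (Matrix.toLin b b Q) (Matrix.toLin b b R)
    (by rw [← Matrix.toLin_mul, hQR, Matrix.toLin_one])
    (by rw [← Matrix.toLin_mul, hRQ, Matrix.toLin_one])
  refine ⟨b.map φ, ?_⟩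
  intro a i j
  have h1 : (b.map φ).repr (T ((b.map φ) ⟨a, j⟩)) ⟨a, i⟩ =
      (R * (LinearMap.toMatrix b b T) * Q) ⟨a, i⟩ ⟨a, j⟩ := by
    have e1 : (b.map φ).repr (T ((b.map φ) ⟨a, j⟩)) ⟨a, i⟩ =
        b.repr ((Matrix.toLin b b R ∘ₗ T ∘ₗ Matrix.toLin b b Q) (b ⟨a, j⟩)) ⟨a, i⟩ := rfl
    rw [e1, ← LinearMap.toMatrix_apply, LinearMap.toMatrix_comp b b b, LinearMap.toMatrix_comp b b b,
      LinearMap.toMatrix_toLin, LinearMap.toMatrix_toLin, Matrix.mul_assoc]
  rw [h1]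
  have h2 : (R * (LinearMap.toMatrix b b T) * Q) ⟨a, i⟩ ⟨a, j⟩ =
      ((P a)⁻¹ * (Matrix.of fun i j => b.repr (T (b ⟨a, j⟩)) ⟨a, i⟩) * P a) i j := by
    rw [Matrix.mul_apply, Fintype.sum_sigma, Finset.sum_eq_single a]
    · rw [Matrix.mul_apply]
      refine Finset.sum_congr rfl fun l _ => ?_
      have e1 : Q ⟨a, l⟩ ⟨a, j⟩ = P a l j := Matrix.blockDiagonal'_apply_eq _ _ _ _
      rw [e1]
      congr 1
      rw [Matrix.mul_apply, Fintype.sum_sigma, Finset.sum_eq_single a]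
      · rw [Matrix.mul_apply]
        refine Finset.sum_congr rfl fun m _ => ?_
        have e2 : R ⟨a, i⟩ ⟨a, m⟩ = (P a)⁻¹ i m := Matrix.blockDiagonal'_apply_eq _ _ _ _
        rw [e2, LinearMap.toMatrix_apply]
        rfl
      · intro a' _ ha'
        refine Finset.sum_eq_zero fun m _ => ?_
        have e2 : R ⟨a, i⟩ ⟨a', m⟩ = 0 := Matrix.blockDiagonal'_apply_ne _ _ _ (Ne.symm ha')
        rw [e2, zero_mul]
      · intro h
        exact absurd (Finset.mem_univ _) h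
    · intro a' _ ha'
      refine Finset.sum_eq_zero fun m _ => ?_
      have e2 : Q ⟨a', m⟩ ⟨a, j⟩ = 0 := Matrix.blockDiagonal'_apply_ne _ _ _ ha'
      rw [e2, mul_zero]
    · intro h
      exact absurd (Finset.mem_univ _) h
  rw [h2, Matrix.mul_assoc, h a, ← Matrix.mul_assoc, Matrix.nonsing_inv_mul _ (hP a), Matrix.one_mul,
    Matrix.diagonal_apply]

theorem num_exists {k : ℕ} (d : Fin k → ℕ) (s : ℕ) (h : ∑ i, d i = 2 * s) :
    ∃ (E : (Σ i, Fin (d i)) ≃ Σ _ : Fin 2, Fin s) (β : Fin k → ℕ),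
      ∀ i j, ((E ⟨i, j⟩).1 : ℕ) + 2 * ((E ⟨i, j⟩).2 : ℕ) = β i + j := by
  let e1 : (Σ i, Fin (d i)) ≃ Fin (s * 2) := finSigmaFinEquiv.trans (finCongr (by rw [h, mul_comm]))
  let e2 : Fin (s * 2) ≃ Fin s × Fin 2 := finProdFinEquiv.symm
  let e3 : Fin s × Fin 2 ≃ Σ _ : Fin 2, Fin s :=
    (Equiv.prodComm _ _).trans (Equiv.sigmaEquivProd _ _).symm
  refine ⟨(e1.trans e2).trans e3, fun i => ∑ l : Fin i.1, d (Fin.castLE i.2.le l), ?_⟩
  intro i j
  have h1 : ((e1 ⟨i, j⟩ : Fin (s * 2)) : ℕ) = ∑ l : Fin i.1, d (Fin.castLE i.2.le l) + j := by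
    change ((finSigmaFinEquiv ⟨i, j⟩ : Fin (∑ i, d i)) : ℕ) = _
    exact finSigmaFinEquiv_apply ⟨i, j⟩
  rw [← h1]
  have h2 : finProdFinEquiv (e2 (e1 ⟨i, j⟩)) = e1 ⟨i, j⟩ := Equiv.apply_symm_apply _ _
  have h3 : ((finProdFinEquiv (e2 (e1 ⟨i, j⟩)) : Fin (s * 2)) : ℕ) =
      ((e2 (e1 ⟨i, j⟩)).2 : ℕ) + 2 * ((e2 (e1 ⟨i, j⟩)).1 : ℕ) := rfl
  rw [h2] at h3
  rw [h3]
  rfl

theorem blk_ch {T : V →ₗ[K] V} {k : ℕ} {d : Fin k → ℕ} {t : Fin k → K} (hc : IsCh T k d t) {s : ℕ}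
    {E : (Σ i, Fin (d i)) ≃ Σ _ : Fin 2, Fin s} {β : Fin k → ℕ}
    (hE : ∀ i j, ((E ⟨i, j⟩).1 : ℕ) + 2 * ((E ⟨i, j⟩).2 : ℕ) = β i + j)
    (δ : (i : Fin k) → Fin (d i) → K) (hδ : ∀ i, ∑ j, δ i j = t i)
    (hne : ∀ i j j', j ≠ j' → (E ⟨i, j⟩).1 = (E ⟨i, j'⟩).1 → δ i j ≠ δ i j') :
    Blk T (fun _ : Fin 2 => s) (fun a p => δ (E.symm ⟨a, p⟩).1 (E.symm ⟨a, p⟩).2) := by
  obtain ⟨b, hb1, hb2, hb3⟩ := hc.2 δ hδ
  let b' := b.reindex E
  let M : ∀ a : Fin 2, Matrix (Fin s) (Fin s) K := fun a => Matrix.of fun i j =>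
    b'.repr (T (b' ⟨a, j⟩)) ⟨a, i⟩
  have hM : ∀ a p q, M a p q = b.repr (T (b (E.symm ⟨a, q⟩))) (E.symm ⟨a, p⟩) := by
    intro a p q
    change (b.reindex E).repr (T ((b.reindex E) ⟨a, q⟩)) ⟨a, p⟩ = _
    rw [Module.Basis.repr_reindex_apply, Module.Basis.reindex_apply]
  have hex : ∀ a p, ∃ i j, E.symm ⟨a, p⟩ = ⟨i, j⟩ ∧ E ⟨i, j⟩ = ⟨a, p⟩ := by
    intro a p
    exact ⟨(E.symm ⟨a, p⟩).1, (E.symm ⟨a, p⟩).2, rfl, Equiv.apply_symm_apply _ _⟩
  have hD : ∀ a p, M a p p = δ (E.symm ⟨a, p⟩).1 (E.symm ⟨a, p⟩).2 := by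
    intro a p
    rw [hM]
    exact hb2 _ _
  have hU : ∀ a p q, q < p → M a p q = 0 := by
    intro a p q hqp
    rw [hM]
    obtain ⟨i, j, h1, h2⟩ := hex a p
    obtain ⟨i', j', h3, h4⟩ := hex a q
    rw [h1, h3]
    by_cases hi : i = i'
    · subst hi
      have h5 := hE i j
      have h6 := hE i j'
      rw [h2] at h5
      rw [h4] at h6
      simp only at h5 h6
      have h7 : (q : ℕ) < p := hqp
      exact hb3 i j j' (by omega)
    · exact hb1 _ _ _ _ hi
  have hC : ∀ a p q, (E.symm ⟨a, p⟩).1 ≠ (E.symm ⟨a, q⟩).1 → M a p q = 0 := by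
    intro a p q hpq
    rw [hM]
    exact hb1 _ _ _ _ hpq
  have hN : ∀ a p q, p ≠ q → (E.symm ⟨a, p⟩).1 = (E.symm ⟨a, q⟩).1 → M a p p ≠ M a q q := by
    intro a p q hpq h0
    rw [hD, hD]
    obtain ⟨i, j, h1, h2⟩ := hex a p
    obtain ⟨i', j', h3, h4⟩ := hex a q
    rw [h1, h3] at h0 ⊢
    simp only at h0
    subst h0
    refine hne i j j' ?_ ?_
    · rintro rfl
      rw [h2] at h4
      exact hpq (eq_of_heq (Sigma.mk.inj h4).2)
    · rw [h2, h4]
  choose P hP1 hP2 using fun a => upper_diag' (fun p => (E.symm ⟨a, p⟩).1) (M a) (hU a) (hC a) (hN a)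
  refine blk_of b' P hP1 _ fun a => ?_
  have := hP2 a
  rw [show (fun i => M a i i) = fun p => δ (E.symm ⟨a, p⟩).1 (E.symm ⟨a, p⟩).2 from
    funext fun p => hD a p] at this
  exact this

theorem dim_ch {T : V →ₗ[K] V} {k : ℕ} {d : Fin k → ℕ} {t : Fin k → K} (hc : IsCh T k d t) :
    ∑ i, d i = Module.finrank K V := by
  obtain ⟨b, -⟩ := hc.2 (fun i j => if (j : ℕ) = 0 then t i else 0) (fun i => by
    have h1 := hc.1 i
    rw [Finset.sum_eq_single (⟨0, h1⟩ : Fin (d i))]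
    · simp
    · intro b _ hb
      exact if_neg fun e => hb (Fin.ext e)
    · intro h
      exact absurd (Finset.mem_univ _) h)
  rw [Module.finrank_eq_card_basis b]
  simp

/-- The values: `z i a + j` where `a` is the colour of the position. -/
def val {k s : ℕ} {d : Fin k → ℕ} (E : (Σ i, Fin (d i)) ≃ Σ _ : Fin 2, Fin s)
    (z : Fin k → Fin 2 → K) (i : Fin k) (j : Fin (d i)) : K := z i (E ⟨i, j⟩).1 + (j : ℕ)

/-- The number of positions with colour `a` in the chain `i`. -/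
def cnt {k s : ℕ} {d : Fin k → ℕ} (E : (Σ i, Fin (d i)) ≃ Σ _ : Fin 2, Fin s)
    (i : Fin k) (a : Fin 2) : ℕ := #{j : Fin (d i) | (E ⟨i, j⟩).1 = a}

theorem sum_val {k s : ℕ} {d : Fin k → ℕ} (E : (Σ i, Fin (d i)) ≃ Σ _ : Fin 2, Fin s)
    (z : Fin k → Fin 2 → K) (i : Fin k) :
    ∑ j, val E z i j = (cnt E i 0 : K) * z i 0 + (cnt E i 1 : K) * z i 1 +
      ∑ j : Fin (d i), ((j : ℕ) : K) := by
  unfold val
  rw [Finset.sum_add_distrib]
  congr 1
  rw [← Finset.sum_fiberwise (s := Finset.univ) (g := fun j : Fin (d i) => (E ⟨i, j⟩).1),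
    Fin.sum_univ_two]
  congr 1
  · rw [Finset.sum_congr rfl (g := fun _ => z i 0)
      (fun j hj => by rw [(Finset.mem_filter.1 hj).2]), Finset.sum_const, nsmul_eq_mul]
    rfl
  · rw [Finset.sum_congr rfl (g := fun _ => z i 1)
      (fun j hj => by rw [(Finset.mem_filter.1 hj).2]), Finset.sum_const, nsmul_eq_mul]
    rfl

theorem cnt_add {k s : ℕ} {d : Fin k → ℕ} (E : (Σ i, Fin (d i)) ≃ Σ _ : Fin 2, Fin s)
    (i : Fin k) : cnt E i 0 + cnt E i 1 = d i := by
  have h : #(Finset.univ : Finset (Fin (d i))) = ∑ a : Fin 2, cnt E i a :=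
    Finset.card_eq_sum_card_fiberwise (f := fun j : Fin (d i) => (E ⟨i, j⟩).1)
      (fun _ _ => Finset.mem_coe.2 (Finset.mem_univ _))
  rw [Finset.card_univ, Fintype.card_fin, Fin.sum_univ_two] at h
  exact h.symm

theorem cnt_pos {k s : ℕ} {d : Fin k → ℕ} {E : (Σ i, Fin (d i)) ≃ Σ _ : Fin 2, Fin s}
    {β : Fin k → ℕ} (hE : ∀ i j, ((E ⟨i, j⟩).1 : ℕ) + 2 * ((E ⟨i, j⟩).2 : ℕ) = β i + j)
    {i : Fin k} (hi : 2 ≤ d i) (a : Fin 2) : ∃ j : Fin (d i), (E ⟨i, j⟩).1 = a := by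
  have h0 := hE i ⟨0, by omega⟩
  have h1 := hE i ⟨1, by omega⟩
  simp only at h0 h1
  have ha := a.2
  have b0 := (E ⟨i, ⟨0, by omega⟩⟩).1.2
  have b1 := (E ⟨i, ⟨1, by omega⟩⟩).1.2
  by_cases h : ((E ⟨i, ⟨0, by omega⟩⟩).1 : ℕ) = a
  · exact ⟨⟨0, by omega⟩, Fin.ext h⟩
  · refine ⟨⟨1, by omega⟩, Fin.ext ?_⟩
    omega

theorem cnt_ne [CharZero K] {k s : ℕ} {d : Fin k → ℕ} {E : (Σ i, Fin (d i)) ≃ Σ _ : Fin 2, Fin s}
    {β : Fin k → ℕ} (hE : ∀ i j, ((E ⟨i, j⟩).1 : ℕ) + 2 * ((E ⟨i, j⟩).2 : ℕ) = β i + j)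
    {i : Fin k} (hi : 2 ≤ d i) (a : Fin 2) : (cnt E i a : K) ≠ 0 := by
  obtain ⟨j, hj⟩ := cnt_pos hE hi a
  rw [Nat.cast_ne_zero]
  exact (Finset.card_pos.2 ⟨j, Finset.mem_filter.2 ⟨Finset.mem_univ _, hj⟩⟩).ne'

/-- The parameters; `x` is free. -/
noncomputable def zz {k s : ℕ} {d : Fin k → ℕ} (E : (Σ i, Fin (d i)) ≃ Σ _ : Fin 2, Fin s)
    (t : Fin k → K) (i₀ : Fin k) (x : K) (i : Fin k) (a : Fin 2) : K :=
  if i = i₀ then
    if a = 0 then x else
      (t i₀ - ∑ j : Fin (d i₀), ((j : ℕ) : K) - cnt E i₀ 0 * x) / cnt E i₀ 1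
  else (t i - ∑ j : Fin (d i), ((j : ℕ) : K)) / d i

theorem zz_sum [CharZero K] {k s : ℕ} {d : Fin k → ℕ} (hd : ∀ i, 1 ≤ d i)
    {E : (Σ i, Fin (d i)) ≃ Σ _ : Fin 2, Fin s}
    {β : Fin k → ℕ} (hE : ∀ i j, ((E ⟨i, j⟩).1 : ℕ) + 2 * ((E ⟨i, j⟩).2 : ℕ) = β i + j)
    (t : Fin k → K) {i₀ : Fin k} (h₀ : 2 ≤ d i₀) (x : K) (i : Fin k) :
    ∑ j, val E (zz E t i₀ x) i j = t i := by
  rw [sum_val]
  by_cases hi : i = i₀
  · subst hi
    have h1 := cnt_ne (K := K) hE h₀ 1
    have e0 : zz E t i x i 0 = x := by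
      unfold zz
      rw [if_pos rfl, if_pos rfl]
    have e1 : zz E t i x i 1 =
        (t i - ∑ j : Fin (d i), ((j : ℕ) : K) - cnt E i 0 * x) / cnt E i 1 := by
      unfold zz
      rw [if_pos rfl, if_neg (by decide)]
    rw [e0, e1, mul_div_cancel₀ _ h1]
    ring
  · have e : ∀ a, zz E t i₀ x i a = (t i - ∑ j : Fin (d i), ((j : ℕ) : K)) / d i := by
      intro a
      unfold zz
      rw [if_neg hi]
    have h1 : (d i : K) ≠ 0 := by
      rw [Nat.cast_ne_zero]
      have := hd i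
      omega
    rw [e, e, ← add_mul, ← Nat.cast_add, cnt_add, mul_div_cancel₀ _ h1]
    ring

theorem val_ne [CharZero K] {k s : ℕ} {d : Fin k → ℕ} {E : (Σ i, Fin (d i)) ≃ Σ _ : Fin 2, Fin s}
    (z : Fin k → Fin 2 → K) (i : Fin k) (j j' : Fin (d i)) (hj : j ≠ j')
    (h : (E ⟨i, j⟩).1 = (E ⟨i, j'⟩).1) : val E z i j ≠ val E z i j' := by
  unfold val
  rw [h]
  intro e
  have h1 := add_left_cancel e
  exact hj (Fin.ext (Nat.cast_injective h1))

/-- The block form for the parameter `x`. -/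
theorem blk_x [CharZero K] {T : V →ₗ[K] V} {k : ℕ} {d : Fin k → ℕ} {t : Fin k → K}
    (hc : IsCh T k d t) {s : ℕ} {E : (Σ i, Fin (d i)) ≃ Σ _ : Fin 2, Fin s} {β : Fin k → ℕ}
    (hE : ∀ i j, ((E ⟨i, j⟩).1 : ℕ) + 2 * ((E ⟨i, j⟩).2 : ℕ) = β i + j)
    {i₀ : Fin k} (h₀ : 2 ≤ d i₀) (x : K) :
    Blk T (fun _ : Fin 2 => s) fun a p =>
      val E (zz E t i₀ x) (E.symm ⟨a, p⟩).1 (E.symm ⟨a, p⟩).2 :=
  blk_ch hc hE _ (zz_sum hc.1 hE t h₀ x) (val_ne _)

/-- The sum of the values of colour `0`. -/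
theorem sum_zero {k s : ℕ} {d : Fin k → ℕ} {E : (Σ i, Fin (d i)) ≃ Σ _ : Fin 2, Fin s}
    (t : Fin k → K) {i₀ : Fin k} (x : K) :
    ∑ p, val E (zz E t i₀ x) (E.symm ⟨0, p⟩).1 (E.symm ⟨0, p⟩).2 =
      ∑ p, val E (zz E t i₀ 0) (E.symm ⟨0, p⟩).1 (E.symm ⟨0, p⟩).2 + cnt E i₀ 0 * x := by
  rw [← sub_eq_iff_eq_add', ← Finset.sum_sub_distrib]
  have h1 : ∀ p, val E (zz E t i₀ x) (E.symm ⟨0, p⟩).1 (E.symm ⟨0, p⟩).2 -
      val E (zz E t i₀ 0) (E.symm ⟨0, p⟩).1 (E.symm ⟨0, p⟩).2 =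
      (fun w : Σ i, Fin (d i) => if w.1 = i₀ then x else 0) (E.symm ⟨0, p⟩) := by
    intro p
    have h2 : E ⟨(E.symm ⟨0, p⟩).1, (E.symm ⟨0, p⟩).2⟩ = ⟨0, p⟩ := Equiv.apply_symm_apply E _
    unfold val zz
    rw [h2]
    by_cases hi : (E.symm ⟨0, p⟩).1 = i₀
    · simp only [if_pos hi, if_true]
      ring
    · simp only [if_neg hi]
      ring
  rw [Finset.sum_congr rfl fun p _ => h1 p]
  have h3 : ∑ p : Fin s, (fun w : Σ i, Fin (d i) => if w.1 = i₀ then x else 0) (E.symm ⟨0, p⟩) =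
      ∑ y : (Σ _ : Fin 2, Fin s),
        if y.1 = 0 then (if (E.symm y).1 = i₀ then x else 0) else 0 := by
    rw [Fintype.sum_sigma, Fin.sum_univ_two]
    simp
  rw [h3, ← Equiv.sum_comp E, Fintype.sum_sigma]
  rw [Finset.sum_eq_single i₀]
  · simp only [Equiv.symm_apply_apply, if_true]
    rw [← Finset.sum_filter, Finset.sum_const, nsmul_eq_mul]
    rfl
  · intro i _ hi
    refine Finset.sum_eq_zero fun j _ => ?_
    simp only [Equiv.symm_apply_apply, if_neg hi, ite_self]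
  · intro h
    exact absurd (Finset.mem_univ _) h

end TwoAux

open TwoAux

/-- An upper triangular matrix with different diagonal entries is diagonalizable. -/
theorem upper_diag {n : ℕ} (M : Matrix (Fin n) (Fin n) K) (h : ∀ i j, j < i → M i j = 0)
    (hd : ∀ i j, i ≠ j → M i i ≠ M j j) :
    ∃ P : Matrix (Fin n) (Fin n) K, IsUnit P.det ∧ M * P = P * Matrix.diagonal fun i => M i i :=
  upper_diag' (fun _ => ()) M h (fun _ _ h => absurd rfl h) fun i j hij _ => hd i j hij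

theorem two_trace [CharZero K] [FiniteDimensional K V] (T : V →ₗ[K] V)
    (hT : ∀ μ : K, T ≠ μ • LinearMap.id) (s : ℕ) (hs : Module.finrank K V = 2 * s) (τ : K) :
    ∃ D : Fin 2 → Fin s → K, Blk T (fun _ => s) D ∧ ∑ i, D 0 i = τ := by
  obtain ⟨k, d, t, hc, i₀, h₀⟩ := chains_two T hT
  obtain ⟨E, β, hE⟩ := num_exists d s (by rw [dim_ch hc, hs])
  set F := ∑ p, val E (zz E t i₀ 0) (E.symm ⟨0, p⟩).1 (E.symm ⟨0, p⟩).2 with hF
  refine ⟨_, blk_x hc hE h₀ ((τ - F) / cnt E i₀ 0), ?_⟩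
  rw [sum_zero, ← hF, mul_div_cancel₀ _ (cnt_ne hE h₀ 0)]
  ring

theorem two_ne [CharZero K] [FiniteDimensional K V] (T : V →ₗ[K] V)
    (hT : ∀ μ : K, T ≠ μ • LinearMap.id) (s : ℕ) (hs : Module.finrank K V = 2 * s) (hs2 : 2 ≤ s) :
    ∃ D : Fin 2 → Fin s → K, Blk T (fun _ => s) D ∧ ∀ a, ∃ i j, D a i ≠ D a j := by
  obtain ⟨k, d, t, hc, i₀, h₀⟩ := chains_two T hT
  obtain ⟨E, β, hE⟩ := num_exists d s (by rw [dim_ch hc, hs])
  have hbad : ∀ a : Fin 2, ∃ p q : Fin s, {x : K |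
      val E (zz E t i₀ x) (E.symm ⟨a, p⟩).1 (E.symm ⟨a, p⟩).2 =
        val E (zz E t i₀ x) (E.symm ⟨a, q⟩).1 (E.symm ⟨a, q⟩).2}.Subsingleton := by
    intro a
    obtain ⟨j, hj⟩ := cnt_pos hE h₀ a
    obtain ⟨p, hp⟩ : ∃ p : Fin s, E ⟨i₀, j⟩ = ⟨a, p⟩ := by
      refine ⟨(E ⟨i₀, j⟩).2, ?_⟩
      rw [← hj]
    obtain ⟨q, hq⟩ : ∃ q : Fin s, q ≠ p := by
      by_cases h : (p : ℕ) = 0
      · exact ⟨⟨1, by omega⟩, fun e => by rw [← e] at h; simp at h⟩
      · exact ⟨⟨0, by omega⟩, fun e => by rw [← e] at h; simp at h⟩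
    refine ⟨p, q, ?_⟩
    have hp' : E.symm ⟨a, p⟩ = ⟨i₀, j⟩ := by rw [← hp, Equiv.symm_apply_apply]
    obtain ⟨i', j', hq'⟩ : ∃ i' j', E.symm ⟨a, q⟩ = ⟨i', j'⟩ := ⟨_, _, rfl⟩
    have hq2 : E ⟨i', j'⟩ = ⟨a, q⟩ := by rw [← hq', Equiv.apply_symm_apply]
    rw [hp', hq']
    intro x hx y hy
    simp only [Set.mem_ofPred_eq] at hx hy
    by_cases hi : i' = i₀
    · subst hi
      have hjj : j ≠ j' := by
        rintro rfl
        rw [hp] at hq2
        exact hq (eq_of_heq (Sigma.mk.inj hq2).2).symm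
      exact absurd hx (val_ne _ _ _ _ hjj (by rw [hp, hq2]))
    · unfold TwoAux.val at hx hy
      rw [hp, hq2] at hx hy
      simp only at hx hy
      have e : ∀ x, zz E t i₀ x i' a = (t i' - ∑ j : Fin (d i'), ((j : ℕ) : K)) / d i' := by
        intro x
        unfold zz
        rw [if_neg hi]
      rw [e] at hx hy
      rw [← hy] at hx
      have h1 : zz E t i₀ x i₀ a = zz E t i₀ y i₀ a := add_right_cancel hx
      unfold zz at h1
      rw [if_pos rfl, if_pos rfl] at h1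
      by_cases ha : a = 0
      · rw [if_pos ha, if_pos ha] at h1
        exact h1
      · rw [if_neg ha, if_neg ha, div_left_inj' (cnt_ne hE h₀ 1), sub_right_inj] at h1
        exact mul_left_cancel₀ (cnt_ne hE h₀ 0) h1
  choose p q hpq using hbad
  obtain ⟨x, hx⟩ := ((hpq 0).finite.union (hpq 1).finite).infinite_compl.nonempty
  refine ⟨_, blk_x hc hE h₀ x, fun a => ⟨p a, q a, ?_⟩⟩
  intro e
  apply hx
  fin_cases a
  · exact Or.inl e
  · exact Or.inr e

end Pool.Agent.P5m
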