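import Pool.Agent.Lib.P5m.Att
import Pool.Agent.Lib.P5m.Two
import Pool.Agent.Lib.P5m.Peel

/-!
# Decompositions by peeling

PROOF of `dec_peel`. Let `T'` have the decomposition `k, s', D, b'`. The family `v` together with
`b'` is a basis of `V` (`IsCompl`), indexed by the sum of `Fin s` and `Σ a, Fin (s' a)`; reindex it
by `Σ a : Fin (k+1), Fin (Fin.cons s s' a)` (block `0` is `v`). The coefficient of `v i` in
`T (v j)` is `(pd s d μ) j` if `i = j` and `0` otherwise because `T (v j) - pd j • v j ∈ W`. The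
coefficients of the basis vectors of `W` in `T w`, `w = b' ⟨a, j⟩`, are those of `T' w` because
`T w - T' w ∈ span v`.

PROOF of `trace_peel`. In the basis of the previous proof the trace of `T` is the sum of the
diagonal entries: those of block `0` give `∑ i, pd s d μ i`, the others give the trace of `T'`.

PROOF of `dec_zero`: any basis of `V` indexed by `Σ a, Fin (s a)` (`Module.finBasis` and a
bijection, the cardinality is `∑ s a`), all blocks are zero.

PROOF of `dec_of_blk`: by definition.
-/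

open Finset

namespace Pool.Agent.P5m

variable {r : ℕ} {K V : Type*} [Field K] [AddCommGroup V] [Module K V]

namespace DecPeelAux

/-- The basis `v` together with `b'`. -/
noncomputable def sb {s : ℕ} {ι : Type*} (v : Fin s → V) (W : Submodule K V)
    (hv : LinearIndependent K v) (hW : IsCompl (Submodule.span K (Set.range v)) W)
    (b' : Module.Basis ι K W) : Module.Basis (Fin s ⊕ ι) K V :=
  ((Module.Basis.span hv).prod b').map (Submodule.prodEquivOfIsCompl _ _ hW)

theorem sb_inl {s : ℕ} {ι : Type*} (v : Fin s → V) (W : Submodule K V)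
    (hv : LinearIndependent K v) (hW : IsCompl (Submodule.span K (Set.range v)) W)
    (b' : Module.Basis ι K W) (i : Fin s) : sb v W hv hW b' (Sum.inl i) = v i := by
  simp [sb, Module.Basis.span_apply]

theorem sb_inr {s : ℕ} {ι : Type*} (v : Fin s → V) (W : Submodule K V)
    (hv : LinearIndependent K v) (hW : IsCompl (Submodule.span K (Set.range v)) W)
    (b' : Module.Basis ι K W) (i : ι) : sb v W hv hW b' (Sum.inr i) = b' i := by
  simp [sb]

theorem repr_mem {s : ℕ} {ι : Type*} (v : Fin s → V) (W : Submodule K V)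
    (hv : LinearIndependent K v) (hW : IsCompl (Submodule.span K (Set.range v)) W)
    (b' : Module.Basis ι K W) (w : W) :
    (∀ i, (sb v W hv hW b').repr w (Sum.inl i) = 0) ∧
      ∀ i, (sb v W hv hW b').repr w (Sum.inr i) = b'.repr w i := by
  constructor
  · intro i
    simp [sb]
  · intro i
    simp [sb]

theorem repr_span {s : ℕ} {ι : Type*} (v : Fin s → V) (W : Submodule K V)
    (hv : LinearIndependent K v) (hW : IsCompl (Submodule.span K (Set.range v)) W)
    (b' : Module.Basis ι K W) (x : V) (hx : x ∈ Submodule.span K (Set.range v)) (i : ι) :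
    (sb v W hv hW b').repr x (Sum.inr i) = 0 := by
  have h := Submodule.prodEquivOfIsCompl_symm_apply_left _ _ hW ⟨x, hx⟩
  simp only at h
  simp [sb, h]

theorem ent_inl {s : ℕ} {ι : Type*} (T : V →ₗ[K] V) (δ : Fin s → K) (v : Fin s → V)
    (W : Submodule K V) (hv : LinearIndependent K v)
    (hW : IsCompl (Submodule.span K (Set.range v)) W) (b' : Module.Basis ι K W)
    (h1 : ∀ i, T (v i) - δ i • v i ∈ W) (i j : Fin s) :
    (sb v W hv hW b').repr (T (sb v W hv hW b' (Sum.inl j))) (Sum.inl i) =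
      if i = j then δ i else 0 := by
  classical
  have h2 : T (v j) = (T (v j) - δ j • v j) + δ j • (sb v W hv hW b' (Sum.inl j)) := by
    rw [sb_inl]; abel
  have h3 := (repr_mem v W hv hW b' ⟨_, h1 j⟩).1 i
  rw [sb_inl, h2, map_add, map_smul, Finsupp.add_apply, Finsupp.smul_apply,
    Module.Basis.repr_self]
  simp only at h3
  rw [h3, Finsupp.single_apply]
  by_cases hij : i = j
  · subst hij; simp
  · have : ¬ (Sum.inl j : Fin s ⊕ ι) = Sum.inl i := fun h => hij (Sum.inl_injective h).symm
    simp [hij, this]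

theorem ent_inr {s : ℕ} {ι : Type*} (T : V →ₗ[K] V) (v : Fin s → V)
    (W : Submodule K V) (T' : W →ₗ[K] W) (hv : LinearIndependent K v)
    (hW : IsCompl (Submodule.span K (Set.range v)) W) (b' : Module.Basis ι K W)
    (h2 : ∀ w : W, T w - T' w ∈ Submodule.span K (Set.range v)) (i j : ι) :
    (sb v W hv hW b').repr (T (sb v W hv hW b' (Sum.inr j))) (Sum.inr i) =
      b'.repr (T' (b' j)) i := by
  have h3 : T (b' j) = (T (b' j) - T' (b' j)) + T' (b' j) := by abel
  rw [sb_inr, h3, map_add, Finsupp.add_apply, repr_span v W hv hW b' _ (h2 _),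
    (repr_mem v W hv hW b' _).2, zero_add]

theorem bij {k s : ℕ} (s' : Fin k → ℕ) : Function.Bijective
    (Sum.elim (fun i => ⟨0, i⟩) (fun x => ⟨x.1.succ, x.2⟩) :
      (Fin s ⊕ Σ a, Fin (s' a)) → Σ a : Fin (k + 1), Fin (Fin.cons (α := fun _ => ℕ) s s' a)) := by
  constructor
  · rintro (i | ⟨a, i⟩) (j | ⟨b, j⟩) h
    · simp only [Sum.elim_inl, Sigma.mk.injEq, heq_eq_eq, true_and] at h
      rw [h]
    · simp only [Sum.elim_inl, Sum.elim_inr, Sigma.mk.injEq] at h
      exact absurd h.1.symm (Fin.succ_ne_zero _)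
    · simp only [Sum.elim_inl, Sum.elim_inr, Sigma.mk.injEq] at h
      exact absurd h.1 (Fin.succ_ne_zero _)
    · simp only [Sum.elim_inr, Sigma.mk.injEq, Fin.succ_inj] at h
      obtain ⟨h1, h2⟩ := h
      subst h1
      simp only [heq_eq_eq] at h2
      rw [h2]
  · rintro ⟨a, i⟩
    refine Fin.cases ?_ ?_ a i
    · intro i
      exact ⟨Sum.inl i, rfl⟩
    · intro a i
      exact ⟨Sum.inr ⟨a, i⟩, rfl⟩

end DecPeelAux

open DecPeelAux

theorem dec_peel [FiniteDimensional K V] (α : Equiv.Perm (Fin (r + 1)) → K) (T : V →ₗ[K] V)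
    {s : ℕ} (d μ : K) (v : Fin s → V) (W : Submodule K V) (T' : W →ₗ[K] W)
    (hv : LinearIndependent K v) (hW : IsCompl (Submodule.span K (Set.range v)) W)
    (h1 : ∀ i, T (v i) - pd s d μ i • v i ∈ W)
    (h2 : ∀ w : W, T w - T' w ∈ Submodule.span K (Set.range v))
    (ha : Att α s (pd s d μ)) (h : Dec α T') : Dec α T := by
  obtain ⟨k, s', D, b', hD, hb⟩ := h
  let e := Equiv.ofBijective _ (bij (s := s) s')
  have e0 : ∀ i, e.symm ⟨0, i⟩ = Sum.inl i := fun i => e.symm_apply_apply (Sum.inl i)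
  have es : ∀ a i, e.symm ⟨Fin.succ a, i⟩ = Sum.inr ⟨a, i⟩ :=
    fun a i => e.symm_apply_apply (Sum.inr ⟨a, i⟩)
  refine ⟨k + 1, Fin.cons (α := fun _ => ℕ) s s',
    fun a => Fin.cases (motive := fun a => Fin (Fin.cons (α := fun _ => ℕ) s s' a) → K)
      (pd s d μ) D a, (sb v W hv hW b').reindex e, ?_, ?_⟩
  · intro a
    refine Fin.cases ?_ ?_ a
    · exact ha
    · intro a
      exact hD a
  · intro a
    refine Fin.cases ?_ ?_ a
    · intro i j
      rw [Module.Basis.reindex_apply, Module.Basis.repr_reindex_apply, e0, e0]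
      exact ent_inl T (pd s d μ) v W hv hW b' h1 i j
    · intro a i j
      rw [Module.Basis.reindex_apply, Module.Basis.repr_reindex_apply, es, es]
      rw [ent_inr T v W T' hv hW b' h2]
      exact hb a i j

theorem trace_peel [FiniteDimensional K V] (T : V →ₗ[K] V)
    {s : ℕ} (d μ : K) (v : Fin s → V) (W : Submodule K V) (T' : W →ₗ[K] W)
    (hv : LinearIndependent K v) (hW : IsCompl (Submodule.span K (Set.range v)) W)
    (h1 : ∀ i, T (v i) - pd s d μ i • v i ∈ W)
    (h2 : ∀ w : W, T w - T' w ∈ Submodule.span K (Set.range v)) :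
    LinearMap.trace K V T = (∑ i, pd s d μ i) + LinearMap.trace K W T' := by
  classical
  let b' := Module.finBasis K W
  rw [LinearMap.trace_eq_matrix_trace K (sb v W hv hW b'), LinearMap.trace_eq_matrix_trace K b',
    Matrix.trace, Matrix.trace, Fintype.sum_sum_type]
  congr 1
  · refine Finset.sum_congr rfl fun i _ => ?_
    rw [Matrix.diag_apply, LinearMap.toMatrix_apply, ent_inl T (pd s d μ) v W hv hW b' h1]
    simp
  · refine Finset.sum_congr rfl fun i _ => ?_
    rw [Matrix.diag_apply, LinearMap.toMatrix_apply, ent_inr T v W T' hv hW b' h2,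
      Matrix.diag_apply, LinearMap.toMatrix_apply]

theorem dec_zero [FiniteDimensional K V] (α : Equiv.Perm (Fin (r + 1)) → K) {k : ℕ}
    (s : Fin k → ℕ) (hs : ∑ a, s a = Module.finrank K V) (ha : ∀ a, Att α (s a) fun _ => 0) :
    Dec α (0 : V →ₗ[K] V) := by
  have hc : Module.finrank K V = Fintype.card (Σ a, Fin (s a)) := by
    rw [Fintype.card_sigma, ← hs]
    simp
  let b : Module.Basis (Σ a, Fin (s a)) K V :=
    (Module.finBasis K V).reindex ((finCongr hc).trans (Fintype.equivFin _).symm)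
  refine ⟨k, s, fun _ _ => 0, b, ha, ?_⟩
  intro a i j
  simp

theorem dec_of_blk (α : Equiv.Perm (Fin (r + 1)) → K) (T : V →ₗ[K] V) {k : ℕ} (s : Fin k → ℕ)
    (D : ∀ a, Fin (s a) → K) (h : Blk T s D) (ha : ∀ a, Att α (s a) (D a)) : Dec α T := by
  obtain ⟨b, hb⟩ := h
  exact ⟨k, s, D, b, ha, hb⟩

end Pool.Agent.P5m
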