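import Mathlib
import Pool.Agent.Lib.P5e96.Block

/-!
# Words, linear forms, exponents

Letters are the elements of `Fin m`; the word of a permutation `σ` is
`x (σ 0) * x (σ 1) * ... * x (σ (m - 1))`, so the letter `k` stands at the position `σ.symm k`.
The letter `0` is the distinguished letter `X`.
-/

open Finset Matrix

namespace Pool.Agent.P5m

/-- `O σ j k = 1` if the letter `j` stands before the letter `k` in the word `σ`, else `0`. -/
def O {m : ℕ} (σ : Equiv.Perm (Fin m)) (j k : Fin m) : ℤ := if σ.symm j < σ.symm k then 1 else 0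

/-- The difference of two words: an antisymmetric matrix with entries `-1, 0, 1`. -/
def Dl {m : ℕ} (σ τ : Equiv.Perm (Fin m)) (j k : Fin m) : ℤ := O σ j k - O τ j k

/-- The linear form `A_k(Q; a) = ∑ j, Q j k * a j`. -/
def A {m : ℕ} {R : Type*} [CommRing R] (Q : Fin m → Fin m → ℤ) (a : Fin m → R) (k : Fin m) : R :=
  ∑ j, (Q j k : R) * a j

/-- The shift in front of the letter `k` in the word `σ`. -/
def pre {m : ℕ} {R : Type*} [CommRing R] (σ : Equiv.Perm (Fin m)) (a : Fin m → R) (k : Fin m) : R :=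
  ∑ j, (O σ j k : R) * a j

/-- The exponent of the word `σ`: `∑ k, c k * pre σ a k`. -/
def ex {m : ℕ} {R : Type*} [CommRing R] (σ : Equiv.Perm (Fin m)) (a c : Fin m → R) : R :=
  ∑ k, c k * pre σ a k

/-- The value of the multilinear expression on weight functions. -/
def Psi {m : ℕ} {G : Type*} [CommRing G] {L : Type*} [Field L] (α : Equiv.Perm (Fin m) → L)
    (a : Fin m → G) (W : Fin m → G → L) (i : G) : L :=
  ∑ σ, α σ * ∏ k, W k (i + pre σ a k)

/-- The character sum `E(c) = ∑ σ, α σ * ψ (ex σ a c)`. -/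
def E {m : ℕ} {G : Type*} [CommRing G] {L : Type*} [Field L] (α : Equiv.Perm (Fin m) → L)
    (ψ : AddChar G L) (a c : Fin m → G) : L :=
  ∑ σ, α σ * ψ (ex σ a c)

section zero

variable {r : ℕ} {R : Type*} [CommRing R]

/-- `cf Q a b = ∑ k ≠ 0, b k * A_k(Q; a)`. -/
def cf (Q : Fin (r + 1) → Fin (r + 1) → ℤ) (a b : Fin (r + 1) → R) : R :=
  ∑ k ∈ univ.erase 0, b k * A Q a k

/-- The sum of the `b k`, `k ≠ 0`. -/
def bt (b : Fin (r + 1) → R) : R := ∑ k ∈ univ.erase 0, b k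

/-- Two zeros: the cross difference. -/
def E3 (Q₀ Q : Fin (r + 1) → Fin (r + 1) → ℤ) (a b : Fin (r + 1) → R) : R :=
  A Q₀ a 0 * cf Q a b - cf Q₀ a b * A Q a 0

/-- The first shifted difference. -/
def E4 (P Q : Fin (r + 1) → Fin (r + 1) → ℤ) (s : Fin (r + 1)) (a b : Fin (r + 1) → R) : R :=
  ∑ k ∈ univ.erase 0, b k * (A P a 0 * (A Q a k - A Q a 0) - A Q a s * (A P a k - A P a 0))

/-- The second shifted difference. -/
def E5 (P P' Q : Fin (r + 1) → Fin (r + 1) → ℤ) (s : Fin (r + 1)) (a b : Fin (r + 1) → R) : R :=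
  ∑ k ∈ univ.erase 0, b k * (A P a 0 * A P' a 0 * A Q a k - A Q a s * A P' a 0 * A P a k -
    A P a 0 * (A Q a 0 - A Q a s) * A P' a k)

/-- Numerator of a zero: the zero is `- nu / de`; the special zero is `none`. -/
def nu (F : Option (Equiv.Perm (Fin (r + 1)) × Equiv.Perm (Fin (r + 1)))) (a b : Fin (r + 1) → R) :
    R :=
  match F with
  | none => bt b
  | some (σ, τ) => cf (Dl σ τ) a b

/-- Denominator of a zero. -/
def de (F : Option (Equiv.Perm (Fin (r + 1)) × Equiv.Perm (Fin (r + 1)))) (a : Fin (r + 1) → R) :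
    R :=
  match F with
  | none => 1
  | some (σ, τ) => A (Dl σ τ) a 0

/-- `z₁ + z₂ = z₃ + z₄` cleared of denominators. -/
def E6 (F₁ F₂ F₃ F₄ : Option (Equiv.Perm (Fin (r + 1)) × Equiv.Perm (Fin (r + 1))))
    (a b : Fin (r + 1) → R) : R :=
  nu F₁ a b * de F₂ a * de F₃ a * de F₄ a + nu F₂ a b * de F₁ a * de F₃ a * de F₄ a -
    nu F₃ a b * de F₁ a * de F₂ a * de F₄ a - nu F₄ a b * de F₁ a * de F₂ a * de F₃ a

/-- `2 z₁ = z₃ + z₄` cleared of denominators. -/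
def E7 (F₁ F₃ F₄ : Option (Equiv.Perm (Fin (r + 1)) × Equiv.Perm (Fin (r + 1))))
    (a b : Fin (r + 1) → R) : R :=
  2 * nu F₁ a b * de F₃ a * de F₄ a -
    nu F₃ a b * de F₁ a * de F₄ a - nu F₄ a b * de F₁ a * de F₃ a

end zero

/-- A function of the parameters `a, b` that vanishes for all rational `a, b` with `∑ a = 0`. -/
def Idz {r : ℕ} (F : (Fin (r + 1) → ℚ) → (Fin (r + 1) → ℚ) → ℚ) : Prop :=
  ∀ a b : Fin (r + 1) → ℚ, ∑ j, a j = 0 → F a b = 0

/-- A generic pair of parameters modulo `l`: every expression from a finite list that vanishes at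
the pair vanishes identically (for all rational parameters with `∑ a = 0`). -/
structure Gpt {r : ℕ} (l : ℕ) (a b : Fin (r + 1) → ZMod l) : Prop where
  sum : ∑ j, a j = 0
  sub : ∀ S T : Finset (Fin (r + 1)), 0 ∉ S → 0 ∉ T → ∑ j ∈ S, a j = ∑ j ∈ T, a j → S = T
  e1 : ∀ (σ τ : Equiv.Perm (Fin (r + 1))) (k : Fin (r + 1)), A (Dl σ τ) a k = 0 →
    Idz (r := r) fun a' _ => A (Dl σ τ) a' k
  e2 : ∀ σ τ : Equiv.Perm (Fin (r + 1)), cf (Dl σ τ) a b = 0 →
    Idz (r := r) fun a' b' => cf (Dl σ τ) a' b'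
  e3 : ∀ σ₀ τ₀ σ τ : Equiv.Perm (Fin (r + 1)), E3 (Dl σ₀ τ₀) (Dl σ τ) a b = 0 →
    Idz (r := r) fun a' b' => E3 (Dl σ₀ τ₀) (Dl σ τ) a' b'
  e4 : ∀ (σ₀ τ₀ σ τ : Equiv.Perm (Fin (r + 1))) (s : Fin (r + 1)),
    E4 (Dl σ₀ τ₀) (Dl σ τ) s a b = 0 →
    Idz (r := r) fun a' b' => E4 (Dl σ₀ τ₀) (Dl σ τ) s a' b'
  e5 : ∀ (σ₀ τ₀ σ₁ τ₁ σ τ : Equiv.Perm (Fin (r + 1))) (s : Fin (r + 1)),
    E5 (Dl σ₀ τ₀) (Dl σ₁ τ₁) (Dl σ τ) s a b = 0 →
    Idz (r := r) fun a' b' => E5 (Dl σ₀ τ₀) (Dl σ₁ τ₁) (Dl σ τ) s a' b'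
  e6 : ∀ F₁ F₂ F₃ F₄ : Option (Equiv.Perm (Fin (r + 1)) × Equiv.Perm (Fin (r + 1))),
    E6 F₁ F₂ F₃ F₄ a b = 0 → Idz (r := r) fun a' b' => E6 F₁ F₂ F₃ F₄ a' b'
  e7 : ∀ F₁ F₃ F₄ : Option (Equiv.Perm (Fin (r + 1)) × Equiv.Perm (Fin (r + 1))),
    E7 F₁ F₃ F₄ a b = 0 → Idz (r := r) fun a' b' => E7 F₁ F₃ F₄ a' b'

/-- `l` is good for the coefficient vector `α`: a vanishing combination of the `α w` with
coefficients from the group of `l`-th roots of unity vanishes class by class. -/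
def Good {K : Type*} [Field K] {W : Type*} (l : ℕ) (α : W → K) : Prop :=
  ∀ ψ : AddChar (ZMod l) (AlgebraicClosure K), ψ ≠ 1 → ∀ (S : Finset W) (c : W → ZMod l),
    ∑ w ∈ S, algebraMap K (AlgebraicClosure K) (α w) * ψ (c w) = 0 →
    ∀ e, ∑ w ∈ S with c w = e, α w = 0

/-! ### Pair matrices -/

/-- Antisymmetric with entries in `-1, 0, 1`. -/
structure Sm {m : ℕ} (Q : Fin m → Fin m → ℤ) : Prop where
  anti : ∀ j k, Q k j = - Q j k
  small : ∀ j k, Q j k = -1 ∨ Q j k = 0 ∨ Q j k = 1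

/-- Top level type: all forms `A_k(Q; a)` agree on the hyperplane `∑ a = 0`. -/
def Tp {r : ℕ} (Q : Fin (r + 1) → Fin (r + 1) → ℤ) : Prop :=
  ∀ (k : Fin (r + 1)) (a : Fin (r + 1) → ℚ), ∑ j, a j = 0 → A Q a k = A Q a 0

/-- The distinguished letter is involved and `Q` is not of top level type. -/
structure Nt {r : ℕ} (Q : Fin (r + 1) → Fin (r + 1) → ℤ) : Prop where
  sm : Sm Q
  inv : ∃ j, Q j 0 ≠ 0
  ntp : ¬ Tp Q

/-- `Q` is a flip of the support of `α`. -/
structure Flip {m : ℕ} {K : Type*} [Field K] (α : Equiv.Perm (Fin m) → K)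
    (Q : Fin m → Fin m → ℤ) : Prop where
  sm : Sm Q
  ne : ∃ j k, Q j k ≠ 0
  flip : ∀ σ, α σ ≠ 0 → ∃ τ, α τ ≠ 0 ∧ ((∀ j k, Dl σ τ j k = Q j k) ∨ ∀ j k, Dl σ τ j k = - Q j k)

theorem Dl_sm {m : ℕ} (σ τ : Equiv.Perm (Fin m)) : Sm (Dl σ τ) := by
  constructor
  · intro j k
    unfold Dl O
    rcases lt_trichotomy (σ.symm j) (σ.symm k) with h | h | h <;>
      rcases lt_trichotomy (τ.symm j) (τ.symm k) with h' | h' | h'
    all_goals
      first
      | (simp [h, h', not_lt.2 h.le, not_lt.2 h'.le]; done)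
      | (have := σ.symm.injective h; subst this; simp)
      | (have := τ.symm.injective h'; subst this; simp)
  · intro j k
    unfold Dl O
    split_ifs <;> simp

theorem eq_of_Dl {m : ℕ} (σ τ : Equiv.Perm (Fin m)) (h : ∀ j k, Dl σ τ j k = 0) : σ = τ := by
  have h1 : ∀ j k, σ.symm j < σ.symm k ↔ τ.symm j < τ.symm k := by
    intro j k
    have h2 := h j k
    unfold Dl O at h2
    by_cases h3 : σ.symm j < σ.symm k <;> by_cases h4 : τ.symm j < τ.symm k
    · exact iff_of_true h3 h4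
    · rw [if_pos h3, if_neg h4] at h2; simp at h2
    · rw [if_neg h3, if_pos h4] at h2; simp at h2
    · exact iff_of_false h3 h4
  have h5 : StrictMono (fun i : Fin m => τ.symm (σ i)) := by
    intro i i' hi
    have := (h1 (σ i) (σ i')).1 (by simpa using hi)
    exact this
  have h6 : (σ.trans τ.symm) = 1 := by
    have : (fun i : Fin m => τ.symm (σ i)) = id := by
      exact (StrictMono.range_inj h5 strictMono_id).1 (by
        rw [Set.range_id]
        exact (τ.symm.surjective.comp σ.surjective).range_eq)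
    ext i
    exact congrArg Fin.val (congrFun this i)
  ext i
  have h7 : τ.symm (σ i) = i := by
    have := congrArg (fun e : Equiv.Perm (Fin m) => e i) h6
    simpa using this
  rw [Equiv.symm_apply_eq] at h7
  rw [h7]

end Pool.Agent.P5m
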