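import Pool.Agent.Lib.P5m.CombB

/-!
# Flips of the support

`supp = {σ | α σ ≠ 0}`. If `Flip α Q` and `σ ∈ supp` then there is `τ ∈ supp` with
`Dl σ τ = ε Q`, `ε = 1` or `ε = -1`. The sign `ε` is `+` iff (for every pair with `Q j k = 1`, and
equivalently for one such pair) `j` stands before `k` in `σ` (`O σ j k = 1`), and then
`O τ j k = 0`: indeed `Q j k = 1` and `O σ j k - O τ j k = 1` force `O σ j k = 1, O τ j k = 0`;
and `O σ j k - O τ j k = -1` forces `O σ j k = 0, O τ j k = 1`. Pairs with `Q j k = 0` are in the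
same order in `σ` and `τ`.

PROOF of `flip_disj`. Let `(j, k)` be a common pair. Replace `Q'` by `-Q'` if necessary (it is a
flip as well) so that `Q j k = Q' j k = q`, and exchanging `j, k` we may take `q = 1`. Take
`σ ∈ supp`, `τ ∈ supp` with `Dl σ τ = ε Q`. The sign of `σ` for `Q'` is read off from the pair
`(j, k)`, so it equals `ε`, and the sign of `τ` for `Q'` is `-ε`. Hence for every pair with
`Q' u v = 1`: `O σ u v - O τ u v = ε`, so `Q u v = 1`. By symmetry (start with the partner of `σ`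
for `Q'`) `Q u v = 1` implies `Q' u v = 1`. So `Q = Q'`.

PROOF of `n1_flip`. Let `M j k = P j k + lam j - lam k` (integers, `lam = lam P s`,
`lam 0 = 0`). For every `σ ∈ supp` there is `τ ∈ supp`, `τ ≠ σ`, with `Dl σ τ = c M`, `c ≠ 0`. As
`Dl σ τ` is nonzero with entries in `-1, 0, 1`, all nonzero entries of `M` have the absolute value
`1 / |c|`; fix one pair `σ₀, τ₀` with constant `c₀` and put `Q' = Dl σ₀ τ₀ = c₀ M`; then `c = c₀` or
`c = - c₀` for all pairs, so `Flip α Q'`.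
Case 1: `P` and `Q'` share a pair. Then `Q' = ε P` by `flip_disj`, so
`lam j - lam k = (ε / c₀ - 1) P j k = ν P j k`. If `ν = 0` then `lam j = lam 0 = 0` for all `j`,
contradiction. If `ν ≠ 0` then `P j k = (lam j - lam k) / ν` and for `∑ a = 0`:
`A P a k = (∑ lam j a j) / ν` for all `k`, so `Tp P`, a contradiction.
Case 2: disjoint. Then `P j k ≠ 0` implies `M j k = 0`, `lam k - lam j = P j k`; and `P j k = 0`
implies `Q' j k = c₀ (lam j - lam k)`. Replacing `Q'` by `-Q'` and `c₀` by `-c₀` assume `c₀ < 0`;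
`u = 1 / |c₀| > 0`. So `P j k = 1` implies `lam k - lam j = 1`, `Q' j k = 1` implies
`lam k - lam j = u`, and `lam j ≠ lam k` implies `P j k ≠ 0` or `Q' j k ≠ 0`. In words: if
`lam j < lam k` then exactly one of `P j k = 1` (and the difference is `1`), `Q' j k = 1` (and the
difference is `u`). There is `σ ∈ supp` which is positive for `P` and for `Q'`: start with any
element of `supp`; if it is negative for `P` pass to its `P`-partner (this does not change the sign
for `Q'`, because only the order of the `P`-pairs changes), then the same for `Q'`. In `σ`, `j`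
stands before `k` whenever `lam j < lam k`, so `lam` is nondecreasing along `σ`. Let
`x_t = σ t` be the letters in their order.
Claim: there is `t` with `P x_t x_(t+1) = 1`. Let `τ` be the `P`-partner of `σ`. If no consecutive
pair is a `P`-pair, then `x_t` stands before `x_(t+1)` in `τ` for all `t` (pairs with `P = 0` keep
their order), so `τ = σ`, contradicting `P ≠ 0`. Similarly there is `t'` with
`Q' x_t' x_(t'+1) = 1`. Choose such `t, t'` with `|t - t'|` minimal, say `t < t'` (the other case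
is symmetric). The consecutive pairs strictly between are neither `P`- nor `Q'`-pairs, so `lam` is
constant from `x_(t+1)` to `x_t'`. Hence `lam x_(t'+1) - lam x_t = 1 + u`. But this difference is
positive, so it must be `1` or `u`: contradiction.

PROOF of `n2_flip`. For `σ ∈ supp` with partner `τ`: `Dl σ τ = c P - c' P'` and
`c U = c' V` on `∑ a = 0` with `U = A_s(P) - A_0(P) ≠ 0`, `V = A_s(P') ≠ 0`. If `c = 0` then
`c' V = 0` gives `c' = 0` and `Dl σ τ = 0`, `σ = τ`, a contradiction; similarly `c' ≠ 0`. The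
supports are disjoint and entries are in `-1, 0, 1`, so `c, c' ∈ {1, -1}` (`P, P' ≠ 0`). The quotient
`ρ = c'/c` is the same for all `σ` (`U = ρ V`, `V ≠ 0`), `ρ = 1` or `-1`. So
`Dl σ τ = c (P - ρ P')`, `c = 1` or `-1`, for all `σ ∈ supp`, that is `Flip α (P - ρ P')`, and it
shares a pair with `P`; by `flip_disj` `P - ρ P' = ε P`. On a pair with `P' j k ≠ 0` we have
`P j k = 0`, so `- ρ P' j k = 0`, a contradiction.
-/

open Finset

namespace Pool.Agent.P5m

variable {r : ℕ} {K : Type*} [Field K]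

namespace FlipAAux

theorem O_eq {m : ℕ} (σ : Equiv.Perm (Fin m)) (j k : Fin m) : O σ j k = 0 ∨ O σ j k = 1 := by
  unfold O
  split_ifs <;> simp

theorem O_lt {m : ℕ} {σ : Equiv.Perm (Fin m)} {j k : Fin m} (h : O σ j k = 1) :
    σ.symm j < σ.symm k := by
  unfold O at h
  by_contra h1
  rw [if_neg h1] at h
  exact absurd h (by norm_num)

theorem lt_O {m : ℕ} {σ : Equiv.Perm (Fin m)} {j k : Fin m} (h : σ.symm j < σ.symm k) :
    O σ j k = 1 := by
  unfold O
  rw [if_pos h]

theorem flip_eps {m : ℕ} {α : Equiv.Perm (Fin m) → K} {Q : Fin m → Fin m → ℤ} (hQ : Flip α Q)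
    {σ : Equiv.Perm (Fin m)} (hσ : α σ ≠ 0) : ∃ τ, α τ ≠ 0 ∧ ∃ ε : ℤ, (ε = 1 ∨ ε = -1) ∧
      ∀ j k, Dl σ τ j k = ε * Q j k := by
  obtain ⟨τ, hτ, h | h⟩ := hQ.flip σ hσ
  · exact ⟨τ, hτ, 1, Or.inl rfl, fun j k => by rw [h j k, one_mul]⟩
  · exact ⟨τ, hτ, -1, Or.inr rfl, fun j k => by rw [h j k]; ring⟩

theorem flip_neg {m : ℕ} {α : Equiv.Perm (Fin m) → K} {Q : Fin m → Fin m → ℤ} (hQ : Flip α Q) :
    Flip α (fun j k => - Q j k) := by
  refine ⟨⟨fun j k => ?_, fun j k => ?_⟩, ?_, fun σ hσ => ?_⟩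
  · change - Q k j = - - Q j k
    rw [hQ.sm.anti j k]
  · change - Q j k = -1 ∨ - Q j k = 0 ∨ - Q j k = 1
    rcases hQ.sm.small j k with h | h | h <;> rw [h] <;> simp
  · obtain ⟨j, k, h⟩ := hQ.ne
    exact ⟨j, k, neg_ne_zero.2 h⟩
  · obtain ⟨τ, hτ, h | h⟩ := hQ.flip σ hσ
    · exact ⟨τ, hτ, Or.inr fun j k => by rw [h j k]; ring⟩
    · exact ⟨τ, hτ, Or.inl fun j k => by rw [h j k]⟩

/-- The sign of a word for a flip can be read off from any pair. -/
theorem sign_read {m : ℕ} {σ τ : Equiv.Perm (Fin m)} {Q : Fin m → Fin m → ℤ} {ε : ℤ}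
    (hε : ε = 1 ∨ ε = -1) (h : ∀ j k, Dl σ τ j k = ε * Q j k) {j k : Fin m} (hq : Q j k = 1) :
    2 * O σ j k = 1 + ε ∧ 2 * O τ j k = 1 - ε := by
  have h1 := h j k
  rw [hq, mul_one] at h1
  unfold Dl at h1
  have h2 := O_eq σ j k
  have h3 := O_eq τ j k
  omega

theorem one_sided {m : ℕ} {α : Equiv.Perm (Fin m) → K} (hα : ∃ σ, α σ ≠ 0)
    {Q Q' : Fin m → Fin m → ℤ} (hQ : Flip α Q) (hQ' : Flip α Q') {j k : Fin m} (h : Q j k = 1)
    (h' : Q' j k = 1) {u v : Fin m} (huv : Q' u v = 1) : Q u v = 1 := by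
  obtain ⟨σ, hσ⟩ := hα
  obtain ⟨τ, hτ, ε, hε, h1⟩ := flip_eps hQ hσ
  obtain ⟨τ', hτ', ε', hε', h2⟩ := flip_eps hQ' hσ
  obtain ⟨τ'', hτ'', ε'', hε'', h3⟩ := flip_eps hQ' hτ
  have a1 := sign_read hε h1 h
  have a2 := sign_read hε' h2 h'
  have a3 := sign_read hε'' h3 h'
  have b2 := sign_read hε' h2 huv
  have b3 := sign_read hε'' h3 huv
  have h4 := h1 u v
  unfold Dl at h4
  rcases hε with rfl | rfl
  · omega
  · omega

theorem flip_core {m : ℕ} {α : Equiv.Perm (Fin m) → K} (hα : ∃ σ, α σ ≠ 0)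
    {Q Q' : Fin m → Fin m → ℤ} (hQ : Flip α Q) (hQ' : Flip α Q') {j k : Fin m} (h : Q j k = 1)
    (h' : Q' j k = 1) (u v : Fin m) : Q' u v = Q u v := by
  have h1 : ∀ u v, Q' u v = 1 ↔ Q u v = 1 := fun u v =>
    ⟨fun h2 => one_sided hα hQ hQ' h h' h2, fun h2 => one_sided hα hQ' hQ h' h h2⟩
  have h2 := h1 u v
  have h3 := h1 v u
  have h4 := hQ.sm.anti u v
  have h5 := hQ'.sm.anti u v
  have h6 := hQ.sm.small u v
  have h7 := hQ'.sm.small u v
  rcases h6 with h6 | h6 | h6 <;> rcases h7 with h7 | h7 | h7 <;> omega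

/-- If `Dl σ τ` vanishes on all consecutive pairs of `σ` then `σ = τ`. -/
theorem eq_of_consec {m : ℕ} (σ τ : Equiv.Perm (Fin m))
    (h : ∀ t t' : Fin m, (t' : ℕ) = t + 1 → Dl σ τ (σ t) (σ t') = 0) : σ = τ := by
  rcases Nat.eq_zero_or_pos m with hm | hm
  · subst hm
    ext i
    exact i.elim0
  obtain ⟨m', rfl⟩ : ∃ m', m = m' + 1 := ⟨m - 1, by omega⟩
  have h5 : StrictMono (fun i : Fin (m' + 1) => τ.symm (σ i)) := by
    rw [Fin.strictMono_iff_lt_succ]
    intro i
    have h1 := h i.castSucc i.succ (by simp)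
    have h2 : O σ (σ i.castSucc) (σ i.succ) = 1 := by
      apply lt_O
      simp
    have h3 : O τ (σ i.castSucc) (σ i.succ) = 1 := by
      unfold Dl at h1
      omega
    exact O_lt h3
  have h6 : (fun i : Fin (m' + 1) => τ.symm (σ i)) = id := by
    exact (StrictMono.range_inj h5 strictMono_id).1 (by
      rw [Set.range_id]
      exact (τ.symm.surjective.comp σ.surjective).range_eq)
  ext i
  have h7 : τ.symm (σ i) = i := congrFun h6 i
  rw [Equiv.symm_apply_eq] at h7
  rw [h7]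

/-- A word that is positive for two disjoint flips. -/
theorem positive {m : ℕ} {α : Equiv.Perm (Fin m) → K} (hα : ∃ σ, α σ ≠ 0)
    {P Q : Fin m → Fin m → ℤ} (hP : Flip α P) (hQ : Flip α Q)
    (hd : ∀ j k, P j k = 0 ∨ Q j k = 0) :
    ∃ σ, α σ ≠ 0 ∧ (∀ j k, P j k = 1 → O σ j k = 1) ∧ ∀ j k, Q j k = 1 → O σ j k = 1 := by
  obtain ⟨σ₂, h2, h3⟩ : ∃ σ, α σ ≠ 0 ∧ ∀ j k, P j k = 1 → O σ j k = 1 := by
    obtain ⟨σ, hσ⟩ := hα
    obtain ⟨τ, hτ, ε, hε, h1⟩ := flip_eps hP hσ
    rcases hε with rfl | rfl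
    · refine ⟨σ, hσ, fun j k h => ?_⟩
      have := sign_read (Or.inl rfl) h1 h
      omega
    · refine ⟨τ, hτ, fun j k h => ?_⟩
      have := sign_read (Or.inr rfl) h1 h
      omega
  obtain ⟨τ, hτ, ε, hε, h1⟩ := flip_eps hQ h2
  rcases hε with rfl | rfl
  · refine ⟨σ₂, h2, h3, fun j k h => ?_⟩
    have := sign_read (Or.inl rfl) h1 h
    omega
  · refine ⟨τ, hτ, fun j k h => ?_, fun j k h => ?_⟩
    · have h4 := h3 j k h
      have h5 := h1 j k
      have h6 : Q j k = 0 := by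
        rcases hd j k with h6 | h6
        · omega
        · exact h6
      rw [h6] at h5
      unfold Dl at h5
      omega
    · have := sign_read (Or.inr rfl) h1 h
      omega

/-- A flip has a consecutive pair in every positive word. -/
theorem consec {m : ℕ} {α : Equiv.Perm (Fin m) → K} {P : Fin m → Fin m → ℤ} (hP : Flip α P)
    {σ : Equiv.Perm (Fin m)} (hσ : α σ ≠ 0) (hpos : ∀ j k, P j k = 1 → O σ j k = 1) :
    ∃ t t' : Fin m, (t' : ℕ) = t + 1 ∧ P (σ t) (σ t') = 1 := by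
  by_contra hcon
  push Not at hcon
  obtain ⟨τ, hτ, ε, hε, h1⟩ := flip_eps hP hσ
  have h2 : σ = τ := by
    apply eq_of_consec
    intro t t' ht
    rw [h1]
    have h3 := hcon t t' ht
    have h4 : P (σ t) (σ t') = 0 := by
      rcases hP.sm.small (σ t) (σ t') with h5 | h5 | h5
      · have h6 : P (σ t') (σ t) = 1 := by rw [hP.sm.anti (σ t) (σ t'), h5]; norm_num
        have h7 := O_lt (hpos _ _ h6)
        simp only [Equiv.symm_apply_apply] at h7
        have h8 : (t' : ℕ) < t := h7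
        omega
      · exact h5
      · exact absurd h5 h3
    rw [h4, mul_zero]
  obtain ⟨j, k, hjk⟩ := hP.ne
  have h3 := h1 j k
  rw [← h2] at h3
  unfold Dl at h3
  rcases hε with rfl | rfl
  · omega
  · omega

end FlipAAux

open FlipAAux

theorem flip_disj {m : ℕ} (α : Equiv.Perm (Fin m) → K) (hα : ∃ σ, α σ ≠ 0)
    {Q Q' : Fin m → Fin m → ℤ} (hQ : Flip α Q) (hQ' : Flip α Q')
    (h : ∃ j k, Q j k ≠ 0 ∧ Q' j k ≠ 0) :
    (∀ j k, Q' j k = Q j k) ∨ (∀ j k, Q' j k = - Q j k) := by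
  obtain ⟨j, k, h1, h2, h3⟩ : ∃ j k, Q j k = 1 ∧ (Q' j k = 1 ∨ Q' j k = -1) ∧ True := by
    obtain ⟨j, k, h1, h2⟩ := h
    have h3 := hQ.sm.small j k
    have h4 := hQ'.sm.small j k
    have h5 := hQ.sm.anti j k
    have h6 := hQ'.sm.anti j k
    rcases h3 with h3 | h3 | h3
    · exact ⟨k, j, by omega, by omega, trivial⟩
    · exact absurd h3 h1
    · exact ⟨j, k, by omega, by omega, trivial⟩
  rcases h2 with h2 | h2
  · left
    exact fun u v => flip_core hα hQ hQ' h1 h2 u v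
  · right
    intro u v
    have h4 := flip_core hα hQ (flip_neg hQ') h1 (by
      change - Q' j k = 1
      rw [h2]
      norm_num) u v
    have h5 : - Q' u v = Q u v := h4
    omega

theorem FlipAAux.n1_core (α : Equiv.Perm (Fin (r + 1)) → K) (hα : ∃ σ, α σ ≠ 0)
    {P Q : Fin (r + 1) → Fin (r + 1) → ℤ} (hP : Flip α P) (hQ : Flip α Q)
    (hd : ∀ j k, P j k = 0 ∨ Q j k = 0) (l : Fin (r + 1) → ℤ) (c : ℚ) (hc : c < 0)
    (h : ∀ j k, (Q j k : ℚ) = c * (P j k + l j - l k)) : False := by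
  obtain ⟨σ, hσ, hp, hq⟩ := positive hα hP hQ hd
  have e1 : ∀ j k, P j k = 1 → (l k : ℚ) - l j = 1 := by
    intro j k hjk
    have h1 : Q j k = 0 := by
      rcases hd j k with h2 | h2
      · omega
      · exact h2
    have h2 := h j k
    rw [h1, hjk] at h2
    push_cast at h2
    have h3 : (1 : ℚ) + l j - l k = 0 := by
      rcases mul_eq_zero.1 h2.symm with h4 | h4
      · exact absurd h4 hc.ne
      · exact h4
    linarith
  have e2 : ∀ j k, Q j k = 1 → (l k : ℚ) - l j = - 1 / c := by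
    intro j k hjk
    have h1 : P j k = 0 := by
      rcases hd j k with h2 | h2
      · exact h2
      · omega
    have h2 := h j k
    rw [h1, hjk] at h2
    push_cast at h2
    rw [eq_div_iff hc.ne]
    linarith
  have hu : 0 < - 1 / c := div_pos_of_neg_of_neg (by norm_num) hc
  have e3 : ∀ j k, (l j : ℚ) < l k → P j k = 1 ∨ Q j k = 1 := by
    intro j k hjk
    rcases hP.sm.small j k with h1 | h1 | h1
    · have h2 := e1 k j (by rw [hP.sm.anti j k, h1]; norm_num)
      linarith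
    · rcases hQ.sm.small j k with h2 | h2 | h2
      · have h3 := e2 k j (by rw [hQ.sm.anti j k, h2]; norm_num)
        linarith
      · have h3 := h j k
        rw [h1, h2] at h3
        push_cast at h3
        rcases mul_eq_zero.1 h3.symm with h4 | h4
        · exact absurd h4 hc.ne
        · linarith
      · exact Or.inr h2
    · exact Or.inl h1
  have e4 : ∀ t t' : Fin (r + 1), t ≤ t' → (l (σ t) : ℚ) ≤ l (σ t') := by
    intro t t' htt
    by_contra hcon
    push Not at hcon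
    have h1 : O σ (σ t') (σ t) = 1 := by
      rcases e3 _ _ hcon with h2 | h2
      · exact hp _ _ h2
      · exact hq _ _ h2
    have h2 := O_lt h1
    simp only [Equiv.symm_apply_apply] at h2
    exact absurd h2 (not_lt.2 htt)
  obtain ⟨t, t', ht, h1⟩ := consec hP hσ hp
  obtain ⟨s, s', hs, h2⟩ := consec hQ hσ hq
  have f1 := e1 _ _ h1
  have f2 := e2 _ _ h2
  have e5 : ∀ j k, (l j : ℚ) < l k → (l k : ℚ) - l j = 1 ∨ (l k : ℚ) - l j = - 1 / c := by
    intro j k hjk
    rcases e3 j k hjk with h3 | h3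
    · exact Or.inl (e1 _ _ h3)
    · exact Or.inr (e2 _ _ h3)
  have hts : t ≠ s := by
    intro h3
    subst h3
    have h4 : t' = s' := Fin.ext (by omega)
    subst h4
    rcases hd (σ t) (σ t') with h5 | h5 <;> omega
  rcases lt_or_gt_of_ne hts with h3 | h3
  · have h4 : t' ≤ s := by
      have : (t : ℕ) < s := h3
      exact Fin.le_def.2 (by omega)
    have f3 := e4 _ _ h4
    rcases e5 (σ t) (σ s') (by linarith) with h5 | h5 <;> linarith
  · have h4 : s' ≤ t := by
      have : (s : ℕ) < t := h3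
      exact Fin.le_def.2 (by omega)
    have f3 := e4 _ _ h4
    rcases e5 (σ s) (σ t') (by linarith) with h5 | h5 <;> linarith

theorem n1_flip (α : Equiv.Perm (Fin (r + 1)) → K) (hα : ∃ σ, α σ ≠ 0)
    {P : Fin (r + 1) → Fin (r + 1) → ℤ} (hP : Flip α P) (hP' : Nt P) (s : Fin (r + 1))
    (hl : ∃ j, lam P s j ≠ 0)
    (H : ∀ σ, α σ ≠ 0 → ∃ τ, α τ ≠ 0 ∧ σ ≠ τ ∧ ∃ c : ℚ, c ≠ 0 ∧
      ∀ j k, (Dl σ τ j k : ℚ) = c * (P j k + lam P s j - lam P s k)) : False := by
  obtain ⟨σ₀, hσ₀⟩ := hα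
  obtain ⟨τ₀, hτ₀, hne₀, c₀, hc₀, h₀⟩ := H σ₀ hσ₀
  have hex : ∀ σ τ : Equiv.Perm (Fin (r + 1)), σ ≠ τ → ∃ j k, Dl σ τ j k ≠ 0 := by
    intro σ τ hst
    by_contra hcon
    push Not at hcon
    exact hst (eq_of_Dl σ τ hcon)
  have hQ : Flip α (Dl σ₀ τ₀) := by
    refine ⟨Dl_sm _ _, hex _ _ hne₀, fun σ hσ => ?_⟩
    obtain ⟨τ, hτ, hne, c, hc, h⟩ := H σ hσ
    have h1 : ∀ j k, c₀ * (Dl σ τ j k : ℚ) = c * Dl σ₀ τ₀ j k := by
      intro j k
      rw [h, h₀]
      ring
    obtain ⟨u, v, huv⟩ := hex _ _ hne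
    have h2 := h1 u v
    have h3 : c = c₀ ∨ c = - c₀ := by
      have h4 := (Dl_sm σ τ).small u v
      have h5 := (Dl_sm σ₀ τ₀).small u v
      rcases h4 with h4 | h4 | h4
      · rcases h5 with h5 | h5 | h5
        · rw [h4, h5] at h2
          push_cast at h2
          left
          linarith
        · rw [h4, h5] at h2
          push_cast at h2
          exact absurd (by linarith) hc₀
        · rw [h4, h5] at h2
          push_cast at h2
          right
          linarith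
      · exact absurd h4 huv
      · rcases h5 with h5 | h5 | h5
        · rw [h4, h5] at h2
          push_cast at h2
          right
          linarith
        · rw [h4, h5] at h2
          push_cast at h2
          exact absurd (by linarith) hc₀
        · rw [h4, h5] at h2
          push_cast at h2
          left
          linarith
    refine ⟨τ, hτ, ?_⟩
    rcases h3 with h3 | h3
    · left
      intro j k
      have h4 := h1 j k
      rw [h3] at h4
      exact_mod_cast mul_left_cancel₀ hc₀ h4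
    · right
      intro j k
      have h4 := h1 j k
      have h5 : c₀ * (Dl σ τ j k : ℚ) = c₀ * ((- Dl σ₀ τ₀ j k : ℤ) : ℚ) := by
        rw [h4, h3]
        push_cast
        ring
      exact_mod_cast mul_left_cancel₀ hc₀ h5
  have hl0 : lam P s 0 = 0 := by
    unfold lam
    have h1 := hP.sm.anti 0 0
    omega
  by_cases hsh : ∃ j k, P j k ≠ 0 ∧ Dl σ₀ τ₀ j k ≠ 0
  · -- shared pair
    have h1 : ∃ ε : ℚ, ∀ j k, (Dl σ₀ τ₀ j k : ℚ) = ε * P j k := by
      rcases flip_disj α ⟨σ₀, hσ₀⟩ hP hQ hsh with h1 | h1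
      · exact ⟨1, fun j k => by rw [h1 j k, one_mul]⟩
      · exact ⟨-1, fun j k => by rw [h1 j k]; push_cast; ring⟩
    obtain ⟨ε, hε⟩ := h1
    have h2 : ∀ j k, (lam P s j : ℚ) - lam P s k = (ε / c₀ - 1) * P j k := by
      intro j k
      have h3 := h₀ j k
      rw [hε j k] at h3
      have h4 : ε / c₀ * (P j k : ℚ) = P j k + lam P s j - lam P s k := by
        rw [div_mul_eq_mul_div, div_eq_iff hc₀, h3]
        ring
      linarith
    by_cases hν : ε / c₀ - 1 = 0
    · obtain ⟨j, hj⟩ := hl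
      have h3 := h2 j 0
      rw [hν, zero_mul, hl0] at h3
      apply hj
      have h4 : (lam P s j : ℚ) = 0 := by
        push_cast at h3
        linarith
      exact_mod_cast h4
    · apply hP'.ntp
      have h3 : ∀ (k : Fin (r + 1)) (a : Fin (r + 1) → ℚ), ∑ j, a j = 0 →
          (ε / c₀ - 1) * A P a k = ∑ j, (lam P s j : ℚ) * a j := by
        intro k a ha
        unfold A
        rw [mul_sum]
        have h4 : ∀ j, (ε / c₀ - 1) * ((P j k : ℚ) * a j) =
            (lam P s j : ℚ) * a j - (lam P s k : ℚ) * a j := by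
          intro j
          rw [← mul_assoc, ← h2 j k]
          ring
        rw [sum_congr rfl fun j _ => h4 j, sum_sub_distrib, ← mul_sum, ha, mul_zero, sub_zero]
      intro k a ha
      apply mul_left_cancel₀ hν
      rw [h3 k a ha, h3 0 a ha]
  · push Not at hsh
    have hd : ∀ j k, P j k = 0 ∨ Dl σ₀ τ₀ j k = 0 := by
      intro j k
      by_cases h1 : P j k = 0
      · exact Or.inl h1
      · exact Or.inr (hsh j k h1)
    rcases lt_or_gt_of_ne hc₀ with h1 | h1
    · exact n1_core α ⟨σ₀, hσ₀⟩ hP hQ hd (lam P s) c₀ h1 h₀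
    · refine n1_core α ⟨σ₀, hσ₀⟩ hP (flip_neg hQ) (fun j k => ?_) (lam P s) (- c₀)
        (by linarith) fun j k => ?_
      · rcases hd j k with h2 | h2
        · exact Or.inl h2
        · right
          rw [h2, neg_zero]
      · push_cast
        rw [h₀ j k]
        ring

theorem n2_flip (α : Equiv.Perm (Fin (r + 1)) → K) (hα : ∃ σ, α σ ≠ 0)
    {P P' : Fin (r + 1) → Fin (r + 1) → ℤ} (hP : Flip α P) (hP' : Flip α P')
    (hd : ∀ j k, P j k = 0 ∨ P' j k = 0) (s : Fin (r + 1))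
    (hU : ∃ a : Fin (r + 1) → ℚ, ∑ j, a j = 0 ∧ A P a s ≠ A P a 0)
    (hV : ∃ a : Fin (r + 1) → ℚ, ∑ j, a j = 0 ∧ A P' a s ≠ 0)
    (H : ∀ σ, α σ ≠ 0 → ∃ τ, α τ ≠ 0 ∧ σ ≠ τ ∧ ∃ c c' : ℚ,
      (∀ j k, (Dl σ τ j k : ℚ) = c * P j k - c' * P' j k) ∧
      ∀ a : Fin (r + 1) → ℚ, ∑ j, a j = 0 → c * (A P a s - A P a 0) = c' * A P' a s) :
    False := by
  obtain ⟨aU, haU, hU⟩ := hU
  obtain ⟨aV, haV, hV⟩ := hV
  obtain ⟨p, q, hpq⟩ := hP.ne
  obtain ⟨p', q', hpq'⟩ := hP'.ne
  have z1 : P' p q = 0 := by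
    rcases hd p q with h1 | h1
    · exact absurd h1 hpq
    · exact h1
  have z2 : P p' q' = 0 := by
    rcases hd p' q' with h1 | h1
    · exact h1
    · exact absurd h1 hpq'
  have key : ∀ (σ τ : Equiv.Perm (Fin (r + 1))) (c c' : ℚ), σ ≠ τ →
      (∀ j k, (Dl σ τ j k : ℚ) = c * P j k - c' * P' j k) →
      (∀ a : Fin (r + 1) → ℚ, ∑ j, a j = 0 → c * (A P a s - A P a 0) = c' * A P' a s) →
      (c = 1 ∨ c = -1) ∧ (c' = 1 ∨ c' = -1) := by
    intro σ τ c c' hne h1 h2
    have hnz : ¬ (c = 0 ∧ c' = 0) := by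
      rintro ⟨h3, h4⟩
      apply hne
      apply eq_of_Dl
      intro j k
      have h5 := h1 j k
      rw [h3, h4, zero_mul, zero_mul, sub_zero] at h5
      exact_mod_cast h5
    have hc : c ≠ 0 := by
      intro h3
      have h4 := h2 aV haV
      rw [h3, zero_mul] at h4
      rcases mul_eq_zero.1 h4.symm with h5 | h5
      · exact hnz ⟨h3, h5⟩
      · exact hV h5
    have hc' : c' ≠ 0 := by
      intro h3
      have h4 := h2 aU haU
      rw [h3, zero_mul] at h4
      rcases mul_eq_zero.1 h4 with h5 | h5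
      · exact hnz ⟨h5, h3⟩
      · exact hU (sub_eq_zero.1 h5)
    constructor
    · have h3 := h1 p q
      rw [z1] at h3
      rcases (Dl_sm σ τ).small p q with h4 | h4 | h4 <;>
        rcases hP.sm.small p q with h5 | h5 | h5 <;> rw [h4, h5] at h3 <;> push_cast at h3
      · left; linarith
      · exact absurd h5 hpq
      · right; linarith
      · exact absurd (by linarith) hc
      · exact absurd h5 hpq
      · exact absurd (by linarith) hc
      · right; linarith
      · exact absurd h5 hpq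
      · left; linarith
    · have h3 := h1 p' q'
      rw [z2] at h3
      rcases (Dl_sm σ τ).small p' q' with h4 | h4 | h4 <;>
        rcases hP'.sm.small p' q' with h5 | h5 | h5 <;> rw [h4, h5] at h3 <;> push_cast at h3
      · right; linarith
      · exact absurd h5 hpq'
      · left; linarith
      · exact absurd (by linarith) hc'
      · exact absurd h5 hpq'
      · exact absurd (by linarith) hc'
      · left; linarith
      · exact absurd h5 hpq'
      · right; linarith
  obtain ⟨σ₀, hσ₀⟩ := hα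
  obtain ⟨τ₀, hτ₀, hne₀, c₀, c₀', h₀, h₀'⟩ := H σ₀ hσ₀
  obtain ⟨k₀, k₀'⟩ := key σ₀ τ₀ c₀ c₀' hne₀ h₀ h₀'
  have hex : ∃ j k, Dl σ₀ τ₀ j k ≠ 0 := by
    by_contra hcon
    push Not at hcon
    exact hne₀ (eq_of_Dl σ₀ τ₀ hcon)
  have hQ : Flip α (Dl σ₀ τ₀) := by
    refine ⟨Dl_sm _ _, hex, fun σ hσ => ?_⟩
    obtain ⟨τ, hτ, hne, c, c', h, h'⟩ := H σ hσ
    obtain ⟨k1, k1'⟩ := key σ τ c c' hne h h'
    have e1 := h' aV haV
    have e2 := h₀' aV haV
    refine ⟨τ, hτ, ?_⟩
    have h5 : c * c₀' = c' * c₀ := by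
      have h6 : (c * c₀') * A P' aV s = (c' * c₀) * A P' aV s := by
        calc (c * c₀') * A P' aV s = c * (c₀' * A P' aV s) := by ring
          _ = c * (c₀ * (A P aV s - A P aV 0)) := by rw [e2]
          _ = c₀ * (c * (A P aV s - A P aV 0)) := by ring
          _ = c₀ * (c' * A P' aV s) := by rw [e1]
          _ = (c' * c₀) * A P' aV s := by ring
      exact mul_right_cancel₀ hV h6
    have h6 : (c = c₀ ∧ c' = c₀') ∨ (c = - c₀ ∧ c' = - c₀') := by
      rcases k₀ with rfl | rfl <;> rcases k₀' with rfl | rfl <;> rcases k1 with rfl | rfl <;>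
        rcases k1' with rfl | rfl <;> first | (norm_num; done) | (norm_num at h5; done)
    rcases h6 with ⟨h7, h8⟩ | ⟨h7, h8⟩
    · left
      intro j k
      have h9 : (Dl σ τ j k : ℚ) = Dl σ₀ τ₀ j k := by rw [h, h₀, h7, h8]
      exact_mod_cast h9
    · right
      intro j k
      have h9 : (Dl σ τ j k : ℚ) = - Dl σ₀ τ₀ j k := by
        rw [h, h₀, h7, h8]
        ring
      exact_mod_cast h9
  have hc₀ : c₀ ≠ 0 := by rcases k₀ with rfl | rfl <;> norm_num
  have hc₀' : c₀' ≠ 0 := by rcases k₀' with rfl | rfl <;> norm_num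
  have hsh : ∃ j k, P j k ≠ 0 ∧ Dl σ₀ τ₀ j k ≠ 0 := by
    refine ⟨p, q, hpq, fun h1 => ?_⟩
    have h2 := h₀ p q
    rw [h1, z1] at h2
    push_cast at h2
    have h3 : c₀ * (P p q : ℚ) = 0 := by linarith
    rcases mul_eq_zero.1 h3 with h4 | h4
    · exact hc₀ h4
    · exact hpq (by exact_mod_cast h4)
  have h1 : Dl σ₀ τ₀ p' q' = 0 := by
    rcases flip_disj α ⟨σ₀, hσ₀⟩ hP hQ hsh with h1 | h1
    · rw [h1, z2]
    · rw [h1, z2, neg_zero]
  have h2 := h₀ p' q'
  rw [h1, z2] at h2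
  push_cast at h2
  have h3 : c₀' * (P' p' q' : ℚ) = 0 := by linarith
  rcases mul_eq_zero.1 h3 with h4 | h4
  · exact hc₀' h4
  · exact hpq' (by exact_mod_cast h4)

end Pool.Agent.P5m
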