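import Pool.Agent.Lib.P5m.CorStrong

/-!
# The quotient of two entries of the generic left kernel vector is not constant

`Cs α`: all cyclic sums of the coefficients vanish (the polynomial is a sum of commutators).

PROOF of `no_fixed`. Let `χ : ZMod l → K`, `χ ≠ 0`, be such that `LK α a v χ` for all weights `v`,
with `χ (i + j) * χ 0 = χ i * χ j` and `χ 0 = 1`. Then for all `W : Fin (r+1) → ZMod l → K`:
`∑_i χ i * ∑_σ α σ ∏_k W k (i + pre σ a k) = 0`, so the polynomial
`∑_i ∑_σ C (χ i * α σ) * ∏_k X (k, i + pre σ a k)` vanishes (`MvPolynomial.funext`, `K` infinite).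
For a word `σ` and `s ≤ r` let `σ_s = σ * (finRotate (r+1))^s` (letters `σ s, ..., σ r, σ 0, ...`),
and `A_s = ∑_{u < s} a (σ u) = pre σ a (σ s)`. Then `pre σ_s a k = pre σ a k - A_s` for all `k`
(because `∑ a = 0`). So the monomial of `(i, τ)` equals the monomial of `(0, σ)` if
`τ = σ_s`, `i = A_s`. Conversely if the monomials are equal then
`i + pre τ a k = pre σ a k` for all `k`; let `τ 0 = σ s`; then `i = pre σ a (σ s) = A_s`
(`pre τ a (τ 0) = 0`), so `pre τ a k = pre σ_s a k` for all `k`, that is
`A (Dl τ σ_s) a k = 0`, so by `e1` (and `form_zero`) `Dl τ σ_s = 0`, `τ = σ_s` (`eq_of_Dl`). The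
words `σ_s`, `s = 0, ..., r` are different. So the coefficient of this monomial gives
(1) `∑_{s ≤ r} χ (A_s) * α (σ_s) = 0` for every `σ`.
If `χ = 1` this is `Cs α`. Otherwise `χ` gives an additive character `ψ ≠ 1` of `ZMod l` with values
in the algebraic closure; apply `Good` with `S = {σ_s}` and `c (σ_s) = A_s`. The `A_s` are pairwise
different: if `A_s = A_s'` then `pre σ_s' a (σ s) = A_s - A_s' = 0 = pre σ_s a (σ s)`, so
`A (Dl σ_s' σ_s) a (σ s) = 0`, by `e1` `Dl σ_s' σ_s j (σ s) = 0` for all `j`; no letter is before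
`σ s` in `σ_s`, so none in `σ_s'`, so `s = s'`. So every class has one element and `α (σ_s) = 0`
for all `s` and all `σ`, in particular `α = 0`, a contradiction.

PROOF of `nonconst`. Let `i ≠ j`, `c, c' ≠ 0`. Let `M_v` be the matrix of the linear map as in
`CorStrong`. Suppose that for all `v` and `φ`: `det (M_v + (c E_i - c' E_j) φ^T) = 0`. Let `Θ` be from
`cor_strong`, `Θ^{(k)}` its rotations (substitute the rotated weights; nonzero polynomials), and
let `v` be weights where the product of all rotations does not vanish. If the left kernel of `M_v`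
is zero then `det M_v ≠ 0`, contradiction with `φ = 0`. Otherwise it is spanned by a vector `y`
without zero entries, and `c y i = c' y j`: otherwise choose `φ` nonvanishing on the right kernel;
then the determinant is not zero (as in `CorStrong`). Apply the same to the rotated weights
(`rot_LK`): `c y (i + k) = c' y (j + k)` for all `k`. So `y (k + (j - i)) = ρ y k` with
`ρ = c / c'`, for all `k`; as `l` is prime `d = j - i` generates `ZMod l`, `y (n d) = ρ^n y 0`,
`ρ^l = 1`; `χ = y / y 0` satisfies `χ (x + x') = χ x * χ x'` and is one of at most `l` functions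
(determined by `ρ`; here `ρ` is fixed). So the same `χ` is a left kernel vector for all `v` in a
nonempty open set, hence for all `v` (polynomial identity for each basis vector `x`), contradicting
`no_fixed`. So there are `v₀`, `φ` with nonzero determinant; fix `φ`; the determinant is a nonzero
polynomial `Ξ` in the weights; if its value at `v` is nonzero and `y` is a left kernel vector with
`c y i = c' y j` then `y (M_v + (c E_i - c' E_j) φ^T) = 0`, so `y = 0`.
-/

open Finset

namespace Pool.Agent.P5m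

variable {r : ℕ}

/-- All cyclic sums of the coefficients vanish. -/
def Cs {K : Type*} [Field K] (α : Equiv.Perm (Fin (r + 1)) → K) : Prop :=
  ∀ σ : Equiv.Perm (Fin (r + 1)), ∑ s : Fin (r + 1), α (σ * (finRotate (r + 1)) ^ (s : ℕ)) = 0

namespace NonConstAux

/-- the word read from the position `s` on -/
def rt (σ : Equiv.Perm (Fin (r + 1))) (s : Fin (r + 1)) : Equiv.Perm (Fin (r + 1)) :=
  σ * (finRotate (r + 1)) ^ (s : ℕ)

theorem rot_pow (n : ℕ) (u : Fin (r + 1)) :
    ((((finRotate (r + 1)) ^ n) u : Fin (r + 1)) : ℕ) = ((u : ℕ) + n) % (r + 1) := by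
  induction n generalizing u with
  | zero => simp [Nat.mod_eq_of_lt u.2]
  | succ n ih =>
    rw [pow_succ', Equiv.Perm.mul_apply, finRotate_apply, Fin.val_add, ih, Fin.val_one',
      ← Nat.add_mod]
    congr 1

theorem rt_apply (σ : Equiv.Perm (Fin (r + 1))) (s u : Fin (r + 1)) :
    rt σ s u = σ (u + s) := by
  unfold rt
  rw [Equiv.Perm.mul_apply]
  congr 1
  apply Fin.ext
  rw [rot_pow, Fin.val_add]

theorem rt_symm (σ : Equiv.Perm (Fin (r + 1))) (s k : Fin (r + 1)) :
    (rt σ s).symm k = σ.symm k - s := by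
  rw [Equiv.symm_apply_eq, rt_apply, sub_add_cancel, Equiv.apply_symm_apply]

theorem rt_zero (σ : Equiv.Perm (Fin (r + 1))) (s : Fin (r + 1)) : rt σ s 0 = σ s := by
  rw [rt_apply, zero_add]

theorem rt_self (σ : Equiv.Perm (Fin (r + 1))) : rt σ 0 = σ := by
  ext u
  rw [rt_apply, add_zero]

/-- the letter `j` stands before the position `s` -/
def io (σ : Equiv.Perm (Fin (r + 1))) (s j : Fin (r + 1)) : ℤ := if σ.symm j < s then 1 else 0

theorem O_rt (σ : Equiv.Perm (Fin (r + 1))) (s j k : Fin (r + 1)) :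
    O (rt σ s) j k = O σ j k - io σ s j + io σ s k := by
  unfold O io
  rw [rt_symm, rt_symm]
  generalize σ.symm j = u
  generalize σ.symm k = v
  have hu := u.2
  have hv := v.2
  have hs := s.2
  have e1 : ((u - s : Fin (r + 1)) : ℕ) = if u < s then (u : ℕ) + (r + 1) - s else (u : ℕ) - s := by
    split_ifs with h
    · rw [Fin.coe_sub_iff_lt.2 h]
      omega
    · rw [Fin.coe_sub_iff_le.2 (not_lt.1 h)]
  have e2 : ((v - s : Fin (r + 1)) : ℕ) = if v < s then (v : ℕ) + (r + 1) - s else (v : ℕ) - s := by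
    split_ifs with h
    · rw [Fin.coe_sub_iff_lt.2 h]
      omega
    · rw [Fin.coe_sub_iff_le.2 (not_lt.1 h)]
  simp only [Fin.lt_def, e1, e2]
  split_ifs <;> omega

theorem pre_start (σ : Equiv.Perm (Fin (r + 1))) {R : Type*} [CommRing R] (a : Fin (r + 1) → R)
    (s : Fin (r + 1)) : pre σ a (σ s) = ∑ j, (io σ s j : R) * a j := by
  unfold pre O io
  rw [Equiv.symm_apply_apply]

theorem pre_rt (σ : Equiv.Perm (Fin (r + 1))) {R : Type*} [CommRing R] (a : Fin (r + 1) → R)
    (ha : ∑ j, a j = 0) (s k : Fin (r + 1)) : pre (rt σ s) a k = pre σ a k - pre σ a (σ s) := by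
  rw [pre_start]
  unfold pre
  have h : ∀ j, ((O (rt σ s) j k : ℤ) : R) * a j =
      (O σ j k : R) * a j - (io σ s j : R) * a j + (io σ s k : R) * a j := by
    intro j
    rw [O_rt]
    push_cast
    ring
  rw [sum_congr rfl fun j _ => h j, sum_add_distrib, sum_sub_distrib, ← mul_sum, ha, mul_zero,
    add_zero]

theorem pre_first (τ : Equiv.Perm (Fin (r + 1))) {R : Type*} [CommRing R] (a : Fin (r + 1) → R) :
    pre τ a (τ 0) = 0 := by
  rw [pre_start]
  refine sum_eq_zero fun j _ => ?_
  unfold io
  rw [if_neg (Fin.not_lt_zero _)]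
  simp

theorem A_Dl (σ τ : Equiv.Perm (Fin (r + 1))) {R : Type*} [CommRing R] (a : Fin (r + 1) → R)
    (k : Fin (r + 1)) : A (Dl σ τ) a k = pre σ a k - pre τ a k := by
  unfold A pre Dl
  rw [← sum_sub_distrib]
  refine sum_congr rfl fun j _ => ?_
  push_cast
  ring

theorem Dl_zero {l : ℕ} {a b : Fin (r + 1) → ZMod l} (hab : Gpt l a b)
    (σ τ : Equiv.Perm (Fin (r + 1))) (k : Fin (r + 1)) (h : pre σ a k = pre τ a k) (j : Fin (r + 1)) :
    Dl σ τ j k = 0 := by
  have h1 := hab.e1 σ τ k (by rw [A_Dl, h, sub_self])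
  refine form_zero (Dl_sm σ τ).anti k ?_ j
  ext v
  exact h1 v.1 0 v.2

theorem eq_of_pre {l : ℕ} {a b : Fin (r + 1) → ZMod l} (hab : Gpt l a b)
    (σ τ : Equiv.Perm (Fin (r + 1))) (h : ∀ k, pre σ a k = pre τ a k) : σ = τ :=
  eq_of_Dl σ τ fun j k => Dl_zero hab σ τ k (h k) j

theorem start_inj {l : ℕ} {a b : Fin (r + 1) → ZMod l} (hab : Gpt l a b)
    (σ : Equiv.Perm (Fin (r + 1))) (s s' : Fin (r + 1)) (h : pre σ a (σ s) = pre σ a (σ s')) :
    s = s' := by
  have h1 : pre (rt σ s') a (σ s) = pre (rt σ s) a (σ s) := by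
    rw [pre_rt σ a hab.sum, pre_rt σ a hab.sum, h]
  have h2 := Dl_zero hab (rt σ s') (rt σ s) (σ s) h1
  have h3 := h2 (rt σ s' 0)
  have h4 : O (rt σ s) (rt σ s' 0) (σ s) = 0 := by
    unfold O
    rw [rt_symm, rt_symm, Equiv.symm_apply_apply, sub_self, if_neg (Fin.not_lt_zero _)]
  have h5 : O (rt σ s') (rt σ s' 0) (σ s) = 0 := by
    unfold Dl at h3
    rw [h4, sub_zero] at h3
    exact h3
  unfold O at h5
  rw [Equiv.symm_apply_apply] at h5
  have h6 : (rt σ s').symm (σ s) = 0 := by
    by_contra hne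
    rw [if_pos (Fin.pos_iff_ne_zero.2 hne)] at h5
    exact one_ne_zero h5
  rw [rt_symm, Equiv.symm_apply_apply, sub_eq_zero] at h6
  exact h6

/-- the exponent of the monomial of `(i, σ)` -/
noncomputable def ee {l : ℕ} (a : Fin (r + 1) → ZMod l) (i : ZMod l)
    (σ : Equiv.Perm (Fin (r + 1))) : (Fin (r + 1) × ZMod l) →₀ ℕ :=
  ∑ k, Finsupp.single (k, i + pre σ a k) 1

theorem ee_apply {l : ℕ} (a : Fin (r + 1) → ZMod l) (i : ZMod l)
    (σ : Equiv.Perm (Fin (r + 1))) (k : Fin (r + 1)) (x : ZMod l) :
    ee a i σ (k, x) = if x = i + pre σ a k then 1 else 0 := by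
  classical
  unfold ee
  rw [Finsupp.finsetSum_apply, Finset.sum_eq_single k]
  · rw [Finsupp.single_apply]
    by_cases h : x = i + pre σ a k
    · rw [if_pos h, if_pos (by rw [h])]
    · rw [if_neg h, if_neg (fun h' => h (Prod.mk.inj h').2.symm)]
  · intro k' _ hk'
    rw [Finsupp.single_apply, if_neg (fun h' => hk' (Prod.mk.inj h').1)]
  · intro h
    exact absurd (Finset.mem_univ _) h

theorem ee_eq {l : ℕ} {a b : Fin (r + 1) → ZMod l} (hab : Gpt l a b) (i : ZMod l)
    (σ τ : Equiv.Perm (Fin (r + 1))) :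
    ee a i τ = ee a 0 σ ↔ ∃ s, τ = rt σ s ∧ i = pre σ a (σ s) := by
  constructor
  · intro h
    have h1 : ∀ k, i + pre τ a k = pre σ a k := by
      intro k
      have h2 := DFunLike.congr_fun h (k, i + pre τ a k)
      rw [ee_apply, ee_apply, if_pos rfl, zero_add] at h2
      by_contra hne
      rw [if_neg hne] at h2
      exact one_ne_zero h2
    obtain ⟨s, hs⟩ : ∃ s, σ s = τ 0 := ⟨σ.symm (τ 0), Equiv.apply_symm_apply _ _⟩
    have h2 := h1 (τ 0)
    rw [pre_first, add_zero, ← hs] at h2
    refine ⟨s, ?_, h2⟩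
    refine eq_of_pre hab τ (rt σ s) fun k => ?_
    rw [pre_rt σ a hab.sum, ← h2, ← h1 k]
    ring
  · rintro ⟨s, rfl, rfl⟩
    unfold ee
    refine sum_congr rfl fun k _ => ?_
    rw [pre_rt σ a hab.sum]
    congr 2
    ring

/-- the polynomial -/
noncomputable def pp {K : Type*} [Field K] {l : ℕ} [NeZero l] (α : Equiv.Perm (Fin (r + 1)) → K)
    (a : Fin (r + 1) → ZMod l) (χ : ZMod l → K) : MvPolynomial (Fin (r + 1) × ZMod l) K :=
  ∑ p : ZMod l × Equiv.Perm (Fin (r + 1)), MvPolynomial.monomial (ee a p.1 p.2) (χ p.1 * α p.2)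

theorem pp_eval {K : Type*} [Field K] {l : ℕ} [NeZero l] (α : Equiv.Perm (Fin (r + 1)) → K)
    (a : Fin (r + 1) → ZMod l) (χ : ZMod l → K) (w : Fin (r + 1) → ZMod l → K) :
    MvPolynomial.eval (fun p => w p.1 p.2) (pp α a χ) = ∑ i, χ i * Psi α a w i := by
  unfold pp Psi
  rw [map_sum, Fintype.sum_prod_type]
  refine sum_congr rfl fun i _ => ?_
  rw [mul_sum]
  refine sum_congr rfl fun σ _ => ?_
  have h : (MvPolynomial.monomial (ee a i σ) (χ i * α σ) :
      MvPolynomial (Fin (r + 1) × ZMod l) K) =
      MvPolynomial.C (χ i * α σ) * ∏ k, MvPolynomial.X (k, i + pre σ a k) := by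
    have h2 : (∏ k, MvPolynomial.X (k, i + pre σ a k) :
        MvPolynomial (Fin (r + 1) × ZMod l) K) = MvPolynomial.monomial (ee a i σ) 1 := by
      unfold ee
      rw [MvPolynomial.monomial_sum_one]
      rfl
    rw [h2, MvPolynomial.C_mul_monomial, mul_one]
  simp only [h, map_mul, map_prod, MvPolynomial.eval_C, MvPolynomial.eval_X, mul_assoc]

theorem coeff_pp {K : Type*} [Field K] {l : ℕ} [NeZero l] (α : Equiv.Perm (Fin (r + 1)) → K)
    {a b : Fin (r + 1) → ZMod l} (hab : Gpt l a b) (χ : ZMod l → K)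
    (σ : Equiv.Perm (Fin (r + 1))) :
    MvPolynomial.coeff (ee a 0 σ) (pp α a χ) = ∑ s, χ (pre σ a (σ s)) * α (rt σ s) := by
  classical
  unfold pp
  rw [MvPolynomial.coeff_sum]
  simp only [MvPolynomial.coeff_monomial]
  rw [← Finset.sum_filter]
  have h : (univ.filter fun p : ZMod l × Equiv.Perm (Fin (r + 1)) => ee a p.1 p.2 = ee a 0 σ) =
      univ.image fun s => (pre σ a (σ s), rt σ s) := by
    ext p
    rw [mem_filter, mem_image, ee_eq hab]
    constructor
    · rintro ⟨_, s, h1, h2⟩
      exact ⟨s, mem_univ _, by rw [← h1, ← h2]⟩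
    · rintro ⟨s, _, rfl⟩
      exact ⟨mem_univ _, s, rfl, rfl⟩
  rw [h, Finset.sum_image]
  intro s _ s' _ hs
  have h1 := (Prod.mk.inj hs).2
  have h2 := congrArg (fun e : Equiv.Perm (Fin (r + 1)) => e 0) h1
  simp only [rt_zero] at h2
  exact σ.injective h2

end NonConstAux

open NonConstAux CorStrongAux

theorem no_fixed {K : Type*} [Field K] [CharZero K] {l : ℕ} (hl : l.Prime) [NeZero l]
    (α : Equiv.Perm (Fin (r + 1)) → K) (hα : ∃ σ, α σ ≠ 0) (hg : Good l α) (hc : ¬ Cs α)
    (a b : Fin (r + 1) → ZMod l) (hab : Gpt l a b) (χ : ZMod l → K) (h0 : χ 0 = 1)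
    (hχ : ∀ i j, χ (i + j) = χ i * χ j) : ¬ ∀ v : Fin (r + 1) → ZMod l → K, LK α a v χ := by
  classical
  intro hv
  have hinf : Infinite K := inferInstance
  have hP : pp α a χ = 0 := by
    refine MvPolynomial.funext fun z => ?_
    have h1 := pp_eval α a χ (fun k g => z (k, g))
    have h2 := hv (fun k g => z (k, g)) ((fun k g => z (k, g)) 0)
    rw [Function.update_eq_self] at h2
    rw [map_zero, ← h2, ← h1]
  have hsum : ∀ σ : Equiv.Perm (Fin (r + 1)), ∑ s, χ (pre σ a (σ s)) * α (rt σ s) = 0 := by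
    intro σ
    rw [← coeff_pp α hab χ σ, hP, MvPolynomial.coeff_zero]
  by_cases h1 : ∀ i, χ i = 1
  · apply hc
    intro σ
    have h2 := hsum σ
    simp only [h1, one_mul] at h2
    exact h2
  · let ψ : AddChar (ZMod l) (AlgebraicClosure K) :=
      { toFun := fun i => algebraMap K (AlgebraicClosure K) (χ i)
        map_zero_eq_one' := by rw [h0, map_one]
        map_add_eq_mul' := fun i j => by rw [hχ, map_mul] }
    have hψ : ψ ≠ 1 := by
      intro h
      apply h1
      intro i
      have h2 := DFunLike.congr_fun h i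
      have h3 : algebraMap K (AlgebraicClosure K) (χ i) = algebraMap K (AlgebraicClosure K) 1 := by
        rw [map_one]
        exact h2
      exact (algebraMap K (AlgebraicClosure K)).injective h3
    obtain ⟨σ, hσ⟩ := hα
    have hinj : Function.Injective fun s => rt σ s := by
      intro s s' hs
      have h2 := congrArg (fun e : Equiv.Perm (Fin (r + 1)) => e 0) hs
      simp only [rt_zero] at h2
      exact σ.injective h2
    have h2 := hg ψ hψ (univ.image fun s => rt σ s) (fun τ => pre σ a (τ 0)) (by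
      rw [sum_image fun s _ s' _ h => hinj h]
      have h3 := congrArg (algebraMap K (AlgebraicClosure K)) (hsum σ)
      rw [map_sum, map_zero] at h3
      rw [← h3]
      refine sum_congr rfl fun s _ => ?_
      rw [rt_zero, map_mul, mul_comm]
      rfl) (pre σ a (σ 0))
    have h4 : ((univ.image fun s => rt σ s).filter fun τ => pre σ a (τ 0) = pre σ a (σ 0)) =
        {σ} := by
      ext τ
      rw [mem_filter, mem_image, mem_singleton]
      constructor
      · rintro ⟨⟨s, _, rfl⟩, h5⟩
        rw [rt_zero] at h5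
        rw [start_inj hab σ s 0 h5, rt_self]
      · rintro rfl
        exact ⟨⟨0, mem_univ _, rt_self _⟩, rfl⟩
    rw [h4, sum_singleton] at h2
    exact hσ h2

theorem nonconst {K : Type*} [Field K] [CharZero K] {l : ℕ} (hl : l.Prime) [NeZero l]
    (α : Equiv.Perm (Fin (r + 1)) → K) (hα : ∃ σ, α σ ≠ 0) (hg : Good l α) (hc : ¬ Cs α)
    (a b : Fin (r + 1) → ZMod l) (hab : Gpt l a b) (i j : ZMod l) (hij : i ≠ j) (c c' : K)
    (hc0 : c ≠ 0) (hc0' : c' ≠ 0) :
    ∃ Ξ : MvPolynomial (Fin (r + 1) × ZMod l) K, Ξ ≠ 0 ∧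
      ∀ v : Fin (r + 1) → ZMod l → K, MvPolynomial.eval (fun p => v p.1 p.2) Ξ ≠ 0 →
        ∀ y : ZMod l → K, LK α a v y → c * y i = c' * y j → y = 0 := by
  classical
  have hinf : Infinite K := inferInstance
  have : Fact l.Prime := ⟨hl⟩
  set u : ZMod l → K := c • Pi.single i 1 - c' • Pi.single j 1 with hu
  have hyu : ∀ y : ZMod l → K, dotProduct y u = c * y i - c' * y j := by
    intro y
    rw [hu, dotProduct_sub, dotProduct_smul, dotProduct_smul]
    simp
  by_cases hex : ∃ φ : ZMod l → K, cE α a u φ ≠ 0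
  · obtain ⟨φ, hφ⟩ := hex
    refine ⟨cE α a u φ, hφ, fun v hv y hy hcy => ?_⟩
    rw [cE_eval] at hv
    apply Matrix.eq_zero_of_vecMul_eq_zero hv
    rw [Matrix.vecMul_add, Matrix.vecMul_vecMulVec, (lk_iff _ _ _ _).1 hy, zero_add, hyu, hcy,
      sub_self, zero_smul]
  · exfalso
    push Not at hex
    have hdet : ∀ (v : Fin (r + 1) → ZMod l → K) (φ : ZMod l → K),
        (cm α a v + Matrix.vecMulVec u φ).det = 0 := by
      intro v φ
      rw [← cE_eval, hex φ, map_zero]
    obtain ⟨Θ, hΘ, hcs⟩ := cor_strong hl α hα hg a b hab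
    let PR : MvPolynomial (Fin (r + 1) × ZMod l) K :=
      ∏ k : ZMod l, MvPolynomial.rename (fun p => (p.1, p.2 + k)) Θ
    have hPR : PR ≠ 0 := by
      refine Finset.prod_ne_zero_iff.2 fun k _ h => hΘ ?_
      have hinj : Function.Injective fun p : Fin (r + 1) × ZMod l => (p.1, p.2 + k) := by
        rintro ⟨p, q⟩ ⟨p', q'⟩ h
        have h1 := Prod.mk.inj h
        exact Prod.ext h1.1 (add_right_cancel h1.2)
      exact MvPolynomial.rename_injective _ hinj (by rw [h, map_zero])
    have hPRe : ∀ v : Fin (r + 1) → ZMod l → K,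
        MvPolynomial.eval (fun p => v p.1 p.2) PR ≠ 0 ↔
          ∀ k : ZMod l, MvPolynomial.eval (fun p => v p.1 (p.2 + k)) Θ ≠ 0 := by
      intro v
      change MvPolynomial.eval (fun p => v p.1 p.2)
        (∏ k : ZMod l, MvPolynomial.rename (fun p => (p.1, p.2 + k)) Θ) ≠ 0 ↔ _
      rw [map_prod, Finset.prod_ne_zero_iff]
      simp only [Finset.mem_univ, forall_true_left, MvPolynomial.eval_rename]
      rfl
    -- a kernel vector for good weights
    have hker : ∀ v : Fin (r + 1) → ZMod l → K,
        MvPolynomial.eval (fun p => v p.1 p.2) PR ≠ 0 → ∀ y : ZMod l → K, LK α a v y →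
          c * y i = c' * y j := by
      intro v hv y hy
      by_contra hne
      have hv0 : MvPolynomial.eval (fun p => v p.1 p.2) Θ ≠ 0 := by
        have := (hPRe v).1 hv 0
        simpa using this
      have hy' := (lk_iff _ _ _ _).1 hy
      have hd : (cm α a v).det = 0 := by
        have := hdet v 0
        simpa using this
      have hyi : y i ≠ 0 := by
        intro h
        have := hcs v hv0 y hy i h
        apply hne
        rw [this]
        simp
      obtain ⟨x, hx0, hx⟩ := Matrix.exists_mulVec_eq_zero_iff.2 hd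
      obtain ⟨q, hq⟩ := Function.ne_iff.1 hx0
      rw [Pi.zero_apply] at hq
      obtain ⟨z, hz0, hz⟩ := Matrix.exists_vecMul_eq_zero_iff.2 (hdet v (Pi.single q 1))
      rw [Matrix.vecMul_add, Matrix.vecMul_vecMulVec] at hz
      have h2 := congrArg (fun t => dotProduct t x) hz
      simp only [add_dotProduct, zero_dotProduct, smul_dotProduct] at h2
      rw [← Matrix.dotProduct_mulVec, hx, dotProduct_zero, zero_add] at h2
      have h3 : dotProduct (Pi.single q (1 : K)) x = x q := by simp
      rw [h3, smul_eq_mul] at h2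
      have hzu : dotProduct z u = 0 := (mul_eq_zero.1 h2).resolve_right hq
      rw [hzu, zero_smul, add_zero] at hz
      -- z is proportional to y
      have hzl : LK α a v z := (lk_iff _ _ _ _).2 hz
      have hcomb : LK α a v (fun k => y i * z k - z i * y k) := by
        refine (lk_iff _ _ _ _).2 ?_
        have e : (fun k => y i * z k - z i * y k) = y i • z - z i • y := by
          funext k
          simp
        rw [e, Matrix.sub_vecMul, Matrix.smul_vecMul, Matrix.smul_vecMul, hz, hy']
        simp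
      have h4 := hcs v hv0 _ hcomb i (by ring)
      have h5 : ∀ k, y i * z k = z i * y k := fun k => sub_eq_zero.1 (congrFun h4 k)
      have hzi : z i ≠ 0 := by
        intro h
        apply hz0
        funext k
        have := h5 k
        rw [h, zero_mul] at this
        exact (mul_eq_zero.1 this).resolve_left hyi
      rw [hyu] at hzu
      apply hne
      have h6 : z i * (c * y i - c' * y j) = y i * (c * z i - c' * z j) := by
        have := h5 j
        linear_combination c' * this
      rw [hzu, mul_zero] at h6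
      exact sub_eq_zero.1 ((mul_eq_zero.1 h6).resolve_left hzi)
    -- the recursion
    set d : ZMod l := j - i with hd
    have hd0 : d ≠ 0 := sub_ne_zero.2 (Ne.symm hij)
    set ρ : K := c / c' with hρ
    have hstep : ∀ v : Fin (r + 1) → ZMod l → K,
        MvPolynomial.eval (fun p => v p.1 p.2) PR ≠ 0 → ∀ y : ZMod l → K, LK α a v y →
          ∀ m, y (m + d) = ρ * y m := by
      intro v hv y hy m
      have h1 := hker (fun k g => v k (g + (m - i))) (by
        refine (hPRe fun k g => v k (g + (m - i))).2 ?_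
        intro k
        have := (hPRe v).1 hv (k + (m - i))
        have e : (fun p : Fin (r + 1) × ZMod l => v p.1 (p.2 + (k + (m - i)))) =
            fun p => v p.1 (p.2 + k + (m - i)) := by
          funext p
          rw [add_assoc]
        rw [e] at this
        exact this) _ (rot_LK α a v y hy (m - i))
      have e1 : i + (m - i) = m := by ring
      have e2 : j + (m - i) = m + d := by
        rw [hd]
        ring
      beta_reduce at h1
      rw [e1, e2] at h1
      rw [hρ]
      field_simp
      rw [mul_comm]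
      exact h1.symm
    have hpow : ∀ v : Fin (r + 1) → ZMod l → K,
        MvPolynomial.eval (fun p => v p.1 p.2) PR ≠ 0 → ∀ y : ZMod l → K, LK α a v y →
          ∀ n : ℕ, y (n * d) = ρ ^ n * y 0 := by
      intro v hv y hy n
      induction n with
      | zero => simp
      | succ n ih =>
        have : ((n + 1 : ℕ) : ZMod l) * d = n * d + d := by
          push_cast
          ring
        rw [this, hstep v hv y hy, ih, pow_succ]
        ring
    obtain ⟨p, hp⟩ : ∃ p, MvPolynomial.eval p PR ≠ 0 := by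
      by_contra hcon
      push Not at hcon
      exact hPR (MvPolynomial.funext fun z => by rw [hcon z, map_zero])
    have hexy : ∀ v : Fin (r + 1) → ZMod l → K,
        MvPolynomial.eval (fun p => v p.1 p.2) PR ≠ 0 → ∃ y : ZMod l → K, LK α a v y ∧
          y 0 ≠ 0 := by
      intro v hv
      have hd : (cm α a v).det = 0 := by
        have := hdet v 0
        simpa using this
      obtain ⟨y, hy0, hy⟩ := Matrix.exists_vecMul_eq_zero_iff.2 hd
      have hv0 : MvPolynomial.eval (fun p => v p.1 p.2) Θ ≠ 0 := by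
        have := (hPRe v).1 hv 0
        simpa using this
      have hy' := (lk_iff _ _ _ _).2 hy
      exact ⟨y, hy', fun h => hy0 (hcs v hv0 y hy' 0 h)⟩
    have hρl : ρ ^ l = 1 := by
      obtain ⟨y, hy, hy0⟩ := hexy (fun k g => p (k, g)) hp
      have := hpow (fun k g => p (k, g)) hp y hy l
      rw [ZMod.natCast_self, zero_mul] at this
      have h2 : (ρ ^ l - 1) * y 0 = 0 := by
        rw [sub_mul, ← this, one_mul, sub_self]
      exact sub_eq_zero.1 ((mul_eq_zero.1 h2).resolve_right hy0)
    set χ : ZMod l → K := fun m => ρ ^ (m * d⁻¹).val with hχdef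
    have hχ0 : χ 0 = 1 := by
      rw [hχdef]
      simp
    have hχm : ∀ m m', χ (m + m') = χ m * χ m' := by
      intro m m'
      rw [hχdef]
      simp only
      rw [add_mul, ZMod.val_add, ← pow_add, ← pow_eq_pow_mod _ hρl]
    have hLKχ : ∀ v : Fin (r + 1) → ZMod l → K,
        MvPolynomial.eval (fun p => v p.1 p.2) PR ≠ 0 → LK α a v χ := by
      intro v hv
      obtain ⟨y, hy, hy0⟩ := hexy v hv
      have h1 : ∀ m, y m = χ m * y 0 := by
        intro m
        have h2 := hpow v hv y hy (m * d⁻¹).val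
        rw [ZMod.natCast_zmod_val, mul_assoc, inv_mul_cancel₀ hd0, mul_one] at h2
        exact h2
      intro x
      have h3 := hy x
      have h4 : ∑ i, y i * Psi α a (Function.update v 0 x) i =
          y 0 * ∑ i, χ i * Psi α a (Function.update v 0 x) i := by
        rw [mul_sum]
        refine sum_congr rfl fun i _ => ?_
        rw [h1 i]
        ring
      rw [h4] at h3
      exact (mul_eq_zero.1 h3).resolve_left hy0
    refine no_fixed hl α hα hg hc a b hab χ hχ0 hχm fun v => ?_
    rw [lk_iff]
    funext q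
    let Q : MvPolynomial (Fin (r + 1) × ZMod l) K := ∑ i, MvPolynomial.C (χ i) *
      cm (fun σ => MvPolynomial.C (α σ)) a (fun k g => MvPolynomial.X (k, g)) i q
    have hQe : ∀ v : Fin (r + 1) → ZMod l → K,
        MvPolynomial.eval (fun p => v p.1 p.2) Q = Matrix.vecMul χ (cm α a v) q := by
      intro v
      change MvPolynomial.eval (fun p => v p.1 p.2) (∑ i, MvPolynomial.C (χ i) *
        cm (fun σ => MvPolynomial.C (α σ)) a (fun k g => MvPolynomial.X (k, g)) i q) = _
      rw [map_sum, Matrix.vecMul, dotProduct]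
      refine sum_congr rfl fun i _ => ?_
      rw [map_mul, MvPolynomial.eval_C, cm_map]
      simp only [MvPolynomial.eval_C, MvPolynomial.eval_X]
    have hQ : PR * Q = 0 := by
      refine MvPolynomial.funext fun z => ?_
      rw [map_mul, map_zero]
      by_cases hz : MvPolynomial.eval z PR = 0
      · rw [hz, zero_mul]
      · have h1 := hLKχ (fun k g => z (k, g)) hz
        have h2 := hQe (fun k g => z (k, g))
        rw [(lk_iff _ _ _ _).1 h1, Pi.zero_apply] at h2
        have h3 : MvPolynomial.eval z Q = 0 := h2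
        rw [h3, mul_zero]
    have hQ0 : Q = 0 := (mul_eq_zero.1 hQ).resolve_left hPR
    rw [← hQe, hQ0, map_zero, Pi.zero_apply]

end Pool.Agent.P5m
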