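import Pool.Agent.Lib.P5m.Gn
import Pool.Agent.Lib.P5m.NonConst
import Pool.Agent.Lib.P5m.Oper
import Pool.Agent.Lib.P5m.CombA

/-!
# Generic nonvanishing for the coupled pair of blocks

`gtv` collects the words whose first letter is `0` and whose last letter is `t = Fin.last r`.

PROOF of `pre_inj`. `pre σ a k = pre τ a k` for all `k` gives `A (Dl σ τ) a k = 0` for all `k`; by
`Gpt.e1` this holds for all rational `a` with sum zero, so `Dl σ τ = 0` (`form_zero` in `CombA`), so
`σ = τ` (`eq_of_Dl`).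

PROOF of `Tq_pt`. Let `w k j = v k j = if j = pre σ a k then 1 else 0`,
`ξ = Pi.single (pre σ a 0) 1`, `i = 0`. In the sum over the words `τ` the product over `k` is `1` if
`pre τ a k = pre σ a k` for all `k`, that is `τ = σ`, and `0` otherwise. So the value is `α σ`.

PROOF of `Tq_pl_w`, `Tq_pl_v`: `Pl.sum`, `Pl.prod`, `Pl.const`, `Pl.coord` (every factor is
`ξ (..)`, `v k (..)` or `w k (..)`, depending on `σ` and `k` only).

PROOF of `gtv_gn`. For every `j` the function `w ↦ gtv α a w j` is polynomial, and it has the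
nonzero value `α 1` at `w k i = if i = j + a t + pre 1 a k then 1 else 0`: a word `σ` with
`σ 0 = 0`, `σ t = t` contributes only if `pre σ a k = pre 1 a k` for all `k ≠ 0, t`; this is
also true for `k = 0` (both are `0`) and for `k = t` (both are `- a t`, as all other letters are
before `t` and `∑ a = 0`), so `σ = 1`. Then `Pl.gn` and `Gn.all`.
-/

open Finset

namespace Pool.Agent.P5m

variable {r : ℕ} {K : Type*} [Field K] {l : ℕ}

theorem pre_inj (a b : Fin (r + 1) → ZMod l) (hab : Gpt l a b)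
    (σ τ : Equiv.Perm (Fin (r + 1))) (h : ∀ k, pre σ a k = pre τ a k) : σ = τ := by
  have h1 : ∀ k, A (Dl σ τ) a k = 0 := by
    intro k
    have h2 := sub_eq_zero.2 (h k)
    unfold pre at h2
    rw [← Finset.sum_sub_distrib] at h2
    rw [← h2]
    unfold A Dl
    refine Finset.sum_congr rfl fun j _ => ?_
    push_cast
    ring
  apply eq_of_Dl
  intro j k
  have h3 := hab.e1 σ τ k (h1 k)
  refine form_zero (Dl_sm σ τ).anti k (LinearMap.ext fun v => ?_) j
  exact h3 v.1 0 v.2

/-- The words from `0` to `t`. -/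
def gtv (α : Equiv.Perm (Fin (r + 1)) → K) (a : Fin (r + 1) → ZMod l)
    (w : Fin (r + 1) → ZMod l → K) (j : ZMod l) : K :=
  ∑ σ, if σ 0 = 0 ∧ σ (Fin.last r) = Fin.last r then
    α σ * ∏ k ∈ (univ.erase 0).erase (Fin.last r), w k (j + a (Fin.last r) + pre σ a k) else 0

namespace GenTAux

theorem pre_zero (a : Fin (r + 1) → ZMod l) (σ : Equiv.Perm (Fin (r + 1))) (hσ : σ 0 = 0) :
    pre σ a 0 = 0 := by
  have h0 : σ.symm 0 = 0 := by rw [Equiv.symm_apply_eq, hσ]
  unfold pre
  refine Finset.sum_eq_zero fun j _ => ?_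
  unfold O
  rw [h0, if_neg (Fin.not_lt_zero _)]
  simp

theorem pre_last (a : Fin (r + 1) → ZMod l) (σ : Equiv.Perm (Fin (r + 1)))
    (hσ : σ (Fin.last r) = Fin.last r) :
    pre σ a (Fin.last r) = ∑ j, if j = Fin.last r then 0 else a j := by
  have h0 : σ.symm (Fin.last r) = Fin.last r := by rw [Equiv.symm_apply_eq, hσ]
  unfold pre
  refine Finset.sum_congr rfl fun j _ => ?_
  unfold O
  rw [h0]
  by_cases h : j = Fin.last r
  · rw [h, h0]
    simp
  · have h1 : σ.symm j ≠ Fin.last r := by
      intro h2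
      rw [Equiv.symm_apply_eq, hσ] at h2
      exact h h2
    rw [if_pos (lt_of_le_of_ne (Fin.le_last _) h1), if_neg h]
    simp

theorem gtv_pl (α : Equiv.Perm (Fin (r + 1)) → K) (a : Fin (r + 1) → ZMod l) (j : ZMod l) :
    Pl fun w => gtv α a w j := by
  unfold gtv
  refine Pl.sum _ fun σ _ => ?_
  by_cases h : σ 0 = 0 ∧ σ (Fin.last r) = Fin.last r
  · simp only [if_pos h]
    exact (Pl.const _).mul (Pl.prod _ fun k _ => Pl.coord _ _)
  · simp only [if_neg h]
    exact Pl.const 0

theorem gtv_pt (α : Equiv.Perm (Fin (r + 1)) → K) (a b : Fin (r + 1) → ZMod l)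
    (hab : Gpt l a b) (j : ZMod l) :
    gtv α a (fun k i => if i = j + a (Fin.last r) + pre 1 a k then 1 else 0) j = α 1 := by
  unfold gtv
  rw [Finset.sum_eq_single 1]
  · rw [if_pos ⟨rfl, rfl⟩]
    simp
  · intro σ _ hσ
    split_ifs with h
    · obtain ⟨h1, h2⟩ := h
      have h3 : ∃ k ∈ (univ.erase 0).erase (Fin.last r), pre σ a k ≠ pre 1 a k := by
        by_contra hcon
        push Not at hcon
        apply hσ
        refine pre_inj a b hab σ 1 fun k => ?_
        by_cases hk0 : k = 0
        · subst hk0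
          rw [pre_zero a σ h1, pre_zero a 1 rfl]
        · by_cases hkt : k = Fin.last r
          · subst hkt
            rw [pre_last a σ h2, pre_last a 1 rfl]
          · exact hcon k (Finset.mem_erase.2 ⟨hkt, Finset.mem_erase.2 ⟨hk0, mem_univ _⟩⟩)
      obtain ⟨k, hk, hne⟩ := h3
      rw [Finset.prod_eq_zero hk, mul_zero]
      exact if_neg fun h4 => hne (add_left_cancel h4)
    · rfl
  · intro h
    exact absurd (mem_univ _) h

end GenTAux

open GenTAux

theorem gtv_gn [NeZero l] (α : Equiv.Perm (Fin (r + 1)) → K) (hα : α 1 ≠ 0)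
    (a b : Fin (r + 1) → ZMod l) (hab : Gpt l a b) (hr : Fin.last r ≠ 0) :
    Gn fun w => ∀ j, gtv α a w j ≠ 0 := by
  have _ := hr
  refine Gn.all fun j => ?_
  refine (gtv_pl α a j).gn
    (w₀ := fun k i => if i = j + a (Fin.last r) + pre 1 a k then 1 else 0) ?_
  rw [gtv_pt α a b hab]
  exact hα

theorem Tq_pt [NeZero l] (α : Equiv.Perm (Fin (r + 1)) → K)
    (a b : Fin (r + 1) → ZMod l) (hab : Gpt l a b) (σ : Equiv.Perm (Fin (r + 1)))
    (hσ : α σ ≠ 0) (ht : σ.symm (Fin.last r) < σ.symm 0) :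
    ∃ (w v : Fin (r + 1) → ZMod l → K) (ξ : ZMod l → K) (i : ZMod l), Tq α a w v ξ i ≠ 0 := by
  classical
  refine ⟨fun k j => if j = pre σ a k then 1 else 0, fun k j => if j = pre σ a k then 1 else 0,
    fun j => if j = pre σ a 0 then 1 else 0, 0, ?_⟩
  have hW : ∀ (τ : Equiv.Perm (Fin (r + 1))) (k : Fin (r + 1)) (x : ZMod l),
      W21 (fun k j => if j = pre σ a k then (1 : K) else 0)
        (fun k j => if j = pre σ a k then 1 else 0)
        (fun j => if j = pre σ a 0 then 1 else 0) τ k x = if x = pre σ a k then 1 else 0 := by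
    intro τ k x
    unfold W21
    by_cases hk : k = 0
    · rw [if_pos hk, hk]
    · rw [if_neg hk]
      by_cases h : τ.symm k < τ.symm 0
      · rw [if_pos h]
      · rw [if_neg h]
  have hval : Tq α a (fun k j => if j = pre σ a k then (1 : K) else 0)
      (fun k j => if j = pre σ a k then 1 else 0)
      (fun j => if j = pre σ a 0 then 1 else 0) 0 = α σ := by
    unfold Tq PsiG
    simp only [hW, zero_add]
    rw [Finset.sum_eq_single σ]
    · rw [if_pos ht]
      simp
    · intro τ _ hτ
      have h3 : ∃ k, pre τ a k ≠ pre σ a k := by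
        by_contra hcon
        push Not at hcon
        exact hτ (pre_inj a b hab τ σ hcon)
      obtain ⟨k, hk⟩ := h3
      rw [Finset.prod_eq_zero (mem_univ k) (if_neg hk), mul_zero]
    · intro h
      exact absurd (mem_univ _) h
  rw [hval]
  exact hσ

theorem Tq_pl_w (α : Equiv.Perm (Fin (r + 1)) → K) (a : Fin (r + 1) → ZMod l)
    (v : Fin (r + 1) → ZMod l → K) (ξ : ZMod l → K) (i : ZMod l) :
    Pl fun w => Tq α a w v ξ i := by
  unfold Tq PsiG
  refine Pl.sum _ fun σ _ => (Pl.const _).mul (Pl.prod _ fun k _ => ?_)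
  unfold W21
  by_cases hk : k = 0
  · simp only [if_pos hk]
    exact Pl.const _
  · simp only [if_neg hk]
    by_cases h : σ.symm k < σ.symm 0
    · simp only [if_pos h]
      exact Pl.const _
    · simp only [if_neg h]
      exact Pl.coord _ _

theorem Tq_pl_v (α : Equiv.Perm (Fin (r + 1)) → K) (a : Fin (r + 1) → ZMod l)
    (w : Fin (r + 1) → ZMod l → K) (ξ : ZMod l → K) (i : ZMod l) :
    Pl fun v => Tq α a w v ξ i := by
  unfold Tq PsiG
  refine Pl.sum _ fun σ _ => (Pl.const _).mul (Pl.prod _ fun k _ => ?_)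
  unfold W21
  by_cases hk : k = 0
  · simp only [if_pos hk]
    exact Pl.const _
  · simp only [if_neg hk]
    by_cases h : σ.symm k < σ.symm 0
    · simp only [if_pos h]
      exact Pl.coord _ _
    · simp only [if_neg h]
      exact Pl.const _

end Pool.Agent.P5m
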