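import Pool.Agent.Lib.P5m.Ws
import Pool.Agent.Lib.P5m.NonConst
import Pool.Agent.Lib.P5m.CombA

/-!
# Scalar matrices of good prime size are values over algebraically closed fields

PROOF of `cyc_of_form`. Let `Q = Dl σ τ` and suppose that
`cf Q a b - bt b * A Q a 0 = 0` for all rational `a, b` with `∑ a = 0`. With `b = Pi.single k 1`,
`k ≠ 0`: `A Q a k = A Q a 0` on the hyperplane, so `Q j k - Q j 0` does not depend on `j` (it is a
vector constant on the hyperplane dual), for `j = k`: `Q j k - Q j 0 = - Q k 0`, so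
`Q j k = Q j 0 - Q k 0`, that is with `lam j = Q j 0`: `O σ j k - O τ j k = lam j - lam k` for
all `j, k`. Let `u = σ 0` be the first letter of `σ`. For `k ≠ u`: `O σ u k = 1`, so
`lam u - lam k = 1 - O τ u k` is `0` or `1`. Let `S` be the set of the letters `k` with
`lam k = lam u`, the others have `lam k = lam u - 1`. If `j` is before `k` in `σ` then
`lam j - lam k = 1 - O τ j k ≥ 0`, so `S` is an initial segment of `σ`: the first `s` letters,
`1 ≤ s ≤ r + 1`. Within `S` and within the complement of `S` the words `σ, τ` have the same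
order; for `j ∈ S`, `k ∉ S`: `O σ j k = 1` and `O τ j k = 0`. So `τ` is the complement of `S`
followed by `S`: `τ = σ * (finRotate (r+1)) ^ s` (or `s = r + 1`, `τ = σ`): to prove it, show that
both words have the same `O` and use `eq_of_Dl`; or: show `Dl (σ * rot ^ s) τ = 0`.

PROOF of `scal`. `L = AlgebraicClosure K`; as `K` is algebraically closed, `algebraMap K L` is
bijective. `K` has characteristic zero, so it contains a primitive `l`-th root of unity and there is
an additive character `ψ ≠ 1` of `ZMod l` with values in `K`. Let `c k = b k` for `k ≠ 0` and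
`c 0 = - bt b`, so `∑ c = 0`. The weights `W k i = ψ (c k * i)` give (`mval_ws`, `∑ a = 0`) the
diagonal matrix with the entries
`Psi α a W i = ∑ σ, α σ * ψ (∑ k, c k * (i + pre σ a k)) = ∑ σ, α σ * ψ (ex σ a c) = E α ψ a c`
(independent of `i` as `∑ c = 0`). Claim: `e := E α ψ a c ≠ 0`. Otherwise `Good l α` (for `ψ`
composed with `algebraMap K L`, all words, the classes `ex σ a c`) gives
`∑_{ex τ a c = ex σ a c} α τ = 0` for all `σ`. Now `ex τ a c = ex σ a c` iff `τ` is a rotation of `σ`:
`ex σ a c - ex τ a c = ∑_k c k * A (Dl σ τ) a k = cf (Dl σ τ) a b - bt b * A (Dl σ τ) a 0`; if this is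
zero then twice it is `E7 (some (σ, τ)) none none a b`, so by `e7` it vanishes identically, and
`cyc_of_form` gives `τ = σ * rot ^ s`; conversely for a rotation the exponents agree: it is enough
to treat one step: the first letter `u` of `σ` goes to the end; `pre` of the other letters decreases
by `a u`, `pre` of `u` changes from `0` to `∑_{j ≠ u} a j = - a u`; so every `pre` decreases by
`a u` and `∑ c = 0`. The words `σ * rot ^ s`, `s ≤ r`, are different, so the class sum is
`∑ s : Fin (r+1), α (σ * rot ^ s) = 0`: this is `Cs α`, a contradiction. So the value is `e • 1` with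
`e ≠ 0`; multiply the matrix of the letter `0` by `c' / e` and transport to `Fin l` by
`Matrix.reindexAlgEquiv` (`mval_algHom'` in `Att`, or `Pool.Agent.P5e96.mval_algHom`).
-/

open Finset Matrix

namespace Pool.Agent.P5m

variable {r : ℕ}

theorem rot_pow_val (s : ℕ) (i : Fin (r + 1)) :
    (((finRotate (r + 1)) ^ s) i : ℕ) = ((i : ℕ) + s) % (r + 1) := by
  induction s generalizing i with
  | zero =>
    rw [pow_zero, Equiv.Perm.one_apply, add_zero, Nat.mod_eq_of_lt i.2]
  | succ s ih =>
    rw [pow_succ, Equiv.Perm.mul_apply, ih, finRotate_apply, Fin.val_add]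
    have h1 : ((1 : Fin (r + 1)) : ℕ) = 1 % (r + 1) := Fin.val_one' _
    rw [h1]
    simp only [Nat.add_mod_mod, Nat.mod_add_mod]
    congr 1
    ring

theorem rot_pow_apply (s i : Fin (r + 1)) : ((finRotate (r + 1)) ^ (s : ℕ)) i = i + s := by
  apply Fin.ext
  rw [rot_pow_val, Fin.val_add]

theorem rot_symm (σ : Equiv.Perm (Fin (r + 1))) (s p : Fin (r + 1)) :
    (σ * (finRotate (r + 1)) ^ (s : ℕ)).symm (σ p) = p - s := by
  rw [Equiv.symm_apply_eq, Equiv.Perm.mul_apply, rot_pow_apply, sub_add_cancel]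

theorem O_rot (σ : Equiv.Perm (Fin (r + 1))) (s p q : Fin (r + 1)) :
    O (σ * (finRotate (r + 1)) ^ (s : ℕ)) (σ p) (σ q) =
      O σ (σ p) (σ q) - ((if p < s then 1 else 0) - (if q < s then 1 else 0)) := by
  unfold O
  rw [rot_symm, rot_symm, Equiv.symm_apply_apply, Equiv.symm_apply_apply]
  have hv : ∀ x : Fin (r + 1), ((x - s : Fin (r + 1)) : ℕ) =
      if x < s then r + 1 + x.val - s.val else x.val - s.val := by
    intro x
    split_ifs with h
    · exact Fin.coe_sub_iff_lt.2 h
    · exact Fin.coe_sub_iff_le.2 (not_lt.1 h)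
  have h1 : (p - s < q - s) ↔ (if p < s then r + 1 + p.val - s.val else p.val - s.val) <
      (if q < s then r + 1 + q.val - s.val else q.val - s.val) := by
    rw [Fin.lt_def, hv, hv]
  rw [if_congr h1 rfl rfl]
  have hp := p.2
  have hq := q.2
  have hs := s.2
  by_cases h2 : p < s <;> by_cases h3 : q < s <;> by_cases h4 : p < q
  all_goals
    have h2' := h2
    have h3' := h3
    have h4' := h4
    rw [Fin.lt_def] at h2' h3' h4'
    simp only [h2, h3, h4, if_true, if_false]
    split_ifs <;> omega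

theorem cyc_of_form (σ τ : Equiv.Perm (Fin (r + 1)))
    (h : Idz (r := r) fun a b => cf (Dl σ τ) a b - bt b * A (Dl σ τ) a 0) :
    ∃ s : Fin (r + 1), τ = σ * (finRotate (r + 1)) ^ (s : ℕ) := by
  have hsm := Dl_sm σ τ
  have hA : ∀ (k : Fin (r + 1)) (a : Fin (r + 1) → ℚ), ∑ j, a j = 0 →
      A (Dl σ τ) a k = A (Dl σ τ) a 0 := by
    intro k a ha
    by_cases hk : k = 0
    · rw [hk]
    · have h2 := h a (Pi.single k 1) ha
      have h3 : cf (Dl σ τ) a (Pi.single k (1 : ℚ)) = A (Dl σ τ) a k := by
        unfold cf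
        rw [sum_eq_single k]
        · simp
        · intro b _ hb
          simp [hb]
        · intro hb
          exact absurd (mem_erase.2 ⟨hk, mem_univ _⟩) hb
      have h4 : bt (Pi.single k (1 : ℚ)) = 1 := by
        unfold bt
        rw [sum_eq_single k]
        · simp
        · intro b _ hb
          simp [hb]
        · intro hb
          exact absurd (mem_erase.2 ⟨hk, mem_univ _⟩) hb
      simp only [h3, h4, one_mul] at h2
      exact sub_eq_zero.1 h2
  have hQ : ∀ j k, Dl σ τ j k = Dl σ τ j 0 - Dl σ τ k 0 := by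
    intro j k
    have h2 := hA k (dv j 0).1 (dv j 0).2
    have h3 : A (Dl σ τ) (dv j 0 : Hp r).1 k = Dl σ τ j k - Dl σ τ 0 k := A_dv _ k j 0
    have h4 : A (Dl σ τ) (dv j 0 : Hp r).1 0 = Dl σ τ j 0 - Dl σ τ 0 0 := A_dv _ 0 j 0
    rw [h3, h4] at h2
    have h5 : Dl σ τ j k - Dl σ τ 0 k = Dl σ τ j 0 - Dl σ τ 0 0 := by exact_mod_cast h2
    have h6 := hsm.anti 0 k
    have h7 := hsm.anti 0 0
    omega
  set lam : Fin (r + 1) → ℤ := fun p => Dl σ τ (σ p) 0 with hlam
  have hOO : ∀ p q, O σ (σ p) (σ q) - O τ (σ p) (σ q) = lam p - lam q := fun p q =>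
    hQ (σ p) (σ q)
  have hO1 : ∀ p q : Fin (r + 1), p < q → O σ (σ p) (σ q) = 1 := by
    intro p q hpq
    unfold O
    rw [Equiv.symm_apply_apply, Equiv.symm_apply_apply, if_pos hpq]
  have hO01 : ∀ j k, O τ j k = 0 ∨ O τ j k = 1 := by
    intro j k
    unfold O
    split_ifs
    · exact Or.inr rfl
    · exact Or.inl rfl
  have hmono : ∀ p q : Fin (r + 1), p < q → lam q ≤ lam p ∧ lam p ≤ lam q + 1 := by
    intro p q hpq
    have h2 := hOO p q
    rw [hO1 p q hpq] at h2
    rcases hO01 (σ p) (σ q) with h3 | h3 <;> rw [h3] at h2 <;> constructor <;> omega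
  have hs : ∃ s : Fin (r + 1), ∀ p q : Fin (r + 1), lam p - lam q =
      (if p < s then 1 else 0) - (if q < s then 1 else 0) := by
    by_cases hex : ∃ p, lam p ≠ lam 0
    · set s := (univ.filter fun p => lam p ≠ lam 0).min' (by
        obtain ⟨p, hp⟩ := hex
        exact ⟨p, mem_filter.2 ⟨mem_univ _, hp⟩⟩) with hsd
      have hs1 : lam s ≠ lam 0 := by
        have := (univ.filter fun p => lam p ≠ lam 0).min'_mem (by
          obtain ⟨p, hp⟩ := hex
          exact ⟨p, mem_filter.2 ⟨mem_univ _, hp⟩⟩)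
        exact (mem_filter.1 this).2
      have hs2 : ∀ p, p < s → lam p = lam 0 := by
        intro p hp
        by_contra hcon
        have := (univ.filter fun p => lam p ≠ lam 0).min'_le p
          (mem_filter.2 ⟨mem_univ _, hcon⟩)
        exact absurd hp (not_lt.2 this)
      have h0s : (0 : Fin (r + 1)) < s := by
        rw [Fin.pos_iff_ne_zero]
        intro h0
        exact hs1 (by rw [h0])
      have hs3 : lam s = lam 0 - 1 := by
        have := hmono 0 s h0s
        omega
      have hs4 : ∀ p, ¬ p < s → lam p = lam 0 - 1 := by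
        intro p hp
        rcases eq_or_lt_of_le (not_lt.1 hp) with h5 | h5
        · rw [← h5]; exact hs3
        · have h6 := hmono s p h5
          have h7 := hmono 0 p (h0s.trans h5)
          omega
      refine ⟨s, fun p q => ?_⟩
      by_cases hp : p < s <;> by_cases hq : q < s
      · rw [if_pos hp, if_pos hq, hs2 p hp, hs2 q hq]; ring
      · rw [if_pos hp, if_neg hq, hs2 p hp, hs4 q hq]; ring
      · rw [if_neg hp, if_pos hq, hs4 p hp, hs2 q hq]; ring
      · rw [if_neg hp, if_neg hq, hs4 p hp, hs4 q hq]; ring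
    · push Not at hex
      refine ⟨0, fun p q => ?_⟩
      rw [hex p, hex q, if_neg (Fin.not_lt_zero p), if_neg (Fin.not_lt_zero q)]
      ring
  obtain ⟨s, hs⟩ := hs
  refine ⟨s, (eq_of_Dl _ _ fun j k => ?_).symm⟩
  obtain ⟨p, rfl⟩ := σ.surjective j
  obtain ⟨q, rfl⟩ := σ.surjective k
  unfold Dl
  rw [O_rot, ← hs p q, ← hOO p q]
  ring

private theorem addChar_sum {B M ι : Type*} [AddCommMonoid B] [CommMonoid M] (ψ : AddChar B M)
    (s : Finset ι) (f : ι → B) : ψ (∑ i ∈ s, f i) = ∏ i ∈ s, ψ (f i) := by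
  classical
  induction s using Finset.induction_on with
  | empty => simp
  | insert i s hi ih => rw [sum_insert hi, prod_insert hi, AddChar.map_add_eq_mul, ih]

private theorem mval_algHom_scal {K : Type*} [Field K] {ι ι' : Type*} [Fintype ι] [DecidableEq ι]
    [Fintype ι'] [DecidableEq ι']
    {m : ℕ} (α : Equiv.Perm (Fin m) → K) (Ψ : Matrix ι ι K →ₐ[K] Matrix ι' ι' K)
    (A : Fin m → Matrix ι ι K) : P5e96.mval α (fun q => Ψ (A q)) = Ψ (P5e96.mval α A) := by
  rw [P5e96.mval, P5e96.mval, map_sum]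
  refine Finset.sum_congr rfl fun σ _ => ?_
  rw [map_smul, map_list_prod, List.map_ofFn]
  rfl

/-- exponents agree for rotations -/
theorem ex_rot {R : Type*} [CommRing R] (σ : Equiv.Perm (Fin (r + 1))) (s : Fin (r + 1))
    (a c : Fin (r + 1) → R) (ha : ∑ j, a j = 0) (hc : ∑ j, c j = 0) :
    ex (σ * (finRotate (r + 1)) ^ (s : ℕ)) a c = ex σ a c := by
  have hpre : ∀ q, pre (σ * (finRotate (r + 1)) ^ (s : ℕ)) a (σ q) =
      pre σ a (σ q) - ∑ p, (if p < s then a (σ p) else 0) := by
    intro q
    unfold pre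
    rw [← Equiv.sum_comp σ, ← Equiv.sum_comp σ (fun j => (O σ j (σ q) : R) * a j)]
    simp only [O_rot]
    have h1 : ∀ p, (((O σ (σ p) (σ q) - ((if p < s then 1 else 0) - (if q < s then 1 else 0)) : ℤ)
        : R)) * a (σ p) = (O σ (σ p) (σ q) : R) * a (σ p) - (if p < s then a (σ p) else 0) +
        (if q < s then 1 else 0) * a (σ p) := by
      intro p
      push_cast
      split_ifs <;> ring
    simp only [h1]
    rw [sum_add_distrib, sum_sub_distrib, ← mul_sum, Equiv.sum_comp σ a, ha, mul_zero, add_zero]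
  unfold ex
  rw [← Equiv.sum_comp σ, ← Equiv.sum_comp σ (fun k => c k * pre σ a k)]
  simp only [hpre, mul_sub, sum_sub_distrib]
  rw [← sum_mul, Equiv.sum_comp σ c, hc, zero_mul, sub_zero]

/-- the words of a cyclic class are different -/
theorem rot_injective (σ : Equiv.Perm (Fin (r + 1))) :
    Function.Injective fun s : Fin (r + 1) => σ * (finRotate (r + 1)) ^ (s : ℕ) := by
  intro s t hst
  have h1 := congrArg (fun e : Equiv.Perm (Fin (r + 1)) => e 0) hst
  simp only [Equiv.Perm.mul_apply] at h1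
  have h2 := σ.injective h1
  rw [rot_pow_apply, rot_pow_apply, zero_add, zero_add] at h2
  exact h2

theorem scal {K : Type*} [Field K] [CharZero K] [IsAlgClosed K] {l : ℕ} (hl : l.Prime)
    (α : Equiv.Perm (Fin (r + 1)) → K) (hg : Good l α) (hc : ¬ Cs α)
    (a b : Fin (r + 1) → ZMod l) (hab : Gpt l a b) (c' : K) :
    ∃ A : Fin (r + 1) → Matrix (Fin l) (Fin l) K, P5e96.mval α A = c' • 1 := by
  classical
  have : NeZero l := ⟨hl.ne_zero⟩
  have : NeZero ((l : ℕ) : K) := ⟨Nat.cast_ne_zero.2 hl.ne_zero⟩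
  obtain ⟨ζ, hζ⟩ := HasEnoughRootsOfUnity.exists_primitiveRoot K l
  set ψ : AddChar (ZMod l) K := AddChar.zmodChar l hζ.pow_eq_one with hψ
  have hψ1 : ψ 1 ≠ 1 := by
    have h1 : ψ 1 = ζ := by
      have := AddChar.zmodChar_apply' hζ.pow_eq_one 1
      rwa [Nat.cast_one, pow_one] at this
    rw [h1]
    exact hζ.ne_one hl.one_lt
  set c : Fin (r + 1) → ZMod l := fun k => if k = 0 then - bt b else b k with hcd
  have hcs : ∑ k, c k = 0 := by
    rw [← add_sum_erase _ c (mem_univ 0)]
    have h1 : ∑ k ∈ univ.erase 0, c k = bt b := by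
      unfold bt
      refine sum_congr rfl fun k hk => ?_
      rw [hcd]
      exact if_neg (mem_erase.1 hk).1
    rw [h1]
    have h2 : c 0 = - bt b := if_pos rfl
    rw [h2, neg_add_cancel]
  have ha := hab.sum
  -- the exponents of two words
  have hex : ∀ σ τ : Equiv.Perm (Fin (r + 1)), ex σ a c - ex τ a c =
      cf (Dl σ τ) a b - bt b * A (Dl σ τ) a 0 := by
    intro σ τ
    have h1 : ∀ k, pre σ a k - pre τ a k = A (Dl σ τ) a k := by
      intro k
      unfold pre A
      rw [← sum_sub_distrib]
      refine sum_congr rfl fun j _ => ?_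
      unfold Dl
      push_cast
      ring
    have h2 : ex σ a c - ex τ a c = ∑ k, c k * A (Dl σ τ) a k := by
      unfold ex
      rw [← sum_sub_distrib]
      refine sum_congr rfl fun k _ => ?_
      rw [← h1]
      ring
    rw [h2, ← add_sum_erase _ _ (mem_univ 0)]
    have h3 : ∑ k ∈ univ.erase 0, c k * A (Dl σ τ) a k = cf (Dl σ τ) a b := by
      unfold cf
      refine sum_congr rfl fun k hk => ?_
      congr 1
      exact if_neg (mem_erase.1 hk).1
    rw [h3]
    have h4 : c 0 = - bt b := if_pos rfl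
    rw [h4]
    ring
  have hclass : ∀ σ τ : Equiv.Perm (Fin (r + 1)), ex τ a c = ex σ a c →
      ∃ s : Fin (r + 1), τ = σ * (finRotate (r + 1)) ^ (s : ℕ) := by
    intro σ τ h
    apply cyc_of_form
    have h1 : cf (Dl σ τ) a b - bt b * A (Dl σ τ) a 0 = 0 := by
      rw [← hex, h, sub_self]
    have h2 := hab.e7 (some (σ, τ)) none none (by
      unfold E7 nu de
      linear_combination 2 * h1)
    intro a' b' ha'
    have h3 := h2 a' b' ha'
    simp only [E7, nu, de] at h3
    linarith
  -- the value is not zero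
  set e : K := ∑ σ, α σ * ψ (ex σ a c) with he
  have he0 : e ≠ 0 := by
    intro he0
    apply hc
    intro σ
    set ψ' : AddChar (ZMod l) (AlgebraicClosure K) :=
      (algebraMap K (AlgebraicClosure K)).toMonoidHom.compAddChar ψ with hψ'
    have hψ'1 : ψ' ≠ 1 := by
      intro h
      have h1 : ψ' 1 = 1 := by rw [h]; rfl
      have h2 : algebraMap K (AlgebraicClosure K) (ψ 1) = algebraMap K (AlgebraicClosure K) 1 := by
        rw [(algebraMap K (AlgebraicClosure K)).map_one]; exact h1
      exact hψ1 ((algebraMap K (AlgebraicClosure K)).injective h2)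
    have h1 := hg ψ' hψ'1 univ (fun σ => ex σ a c) (by
      have h2 : ∀ w, algebraMap K (AlgebraicClosure K) (α w) * ψ' (ex w a c) =
          algebraMap K (AlgebraicClosure K) (α w * ψ (ex w a c)) := by
        intro w
        rw [map_mul]
        rfl
      simp only [h2]
      rw [← map_sum, ← he, he0, map_zero]) (ex σ a c)
    rw [← h1]
    symm
    refine sum_bij' (i := fun τ hτ => Classical.choose (hclass σ τ (mem_filter.1 hτ).2))
      (j := fun s _ => σ * (finRotate (r + 1)) ^ (s : ℕ)) ?_ ?_ ?_ ?_ ?_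
    · intro τ hτ
      exact mem_univ _
    · intro s _
      exact mem_filter.2 ⟨mem_univ _, ex_rot σ s a c ha hcs⟩
    · intro τ hτ
      exact (Classical.choose_spec (hclass σ τ (mem_filter.1 hτ).2)).symm
    · intro s hs
      apply rot_injective σ
      exact (Classical.choose_spec (hclass σ _ (ex_rot σ s a c ha hcs))).symm
    · intro τ hτ
      rw [← Classical.choose_spec (hclass σ τ (mem_filter.1 hτ).2)]
  -- the value
  set W : Fin (r + 1) → ZMod l → K := fun k i => (if k = 0 then c' / e else 1) * ψ (c k * i) with hW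
  have hPsi : ∀ i, Psi α a W i = c' := by
    intro i
    unfold Psi
    have h1 : ∀ σ : Equiv.Perm (Fin (r + 1)), ∏ k, W k (i + pre σ a k) =
        c' / e * ψ (ex σ a c) := by
      intro σ
      rw [hW]
      simp only
      rw [prod_mul_distrib, Finset.prod_ite_eq' univ (0 : Fin (r + 1)) (fun _ => c' / e),
        if_pos (mem_univ _), ← addChar_sum]
      congr 2
      unfold ex
      simp only [mul_add, sum_add_distrib]
      rw [← sum_mul, hcs, zero_mul, zero_add]
    simp only [h1]
    have h2 : ∀ σ, α σ * (c' / e * ψ (ex σ a c)) = c' / e * (α σ * ψ (ex σ a c)) := by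
      intro σ; ring
    simp only [h2]
    rw [← mul_sum, ← he, div_mul_cancel₀ _ he0]
  set Φ : Matrix (ZMod l) (ZMod l) K →ₐ[K] Matrix (Fin l) (Fin l) K :=
    (Matrix.reindexAlgEquiv K K (ZMod.finEquiv l).symm.toEquiv).toAlgHom with hΦ
  refine ⟨fun k => Φ (ws (a k) (W k)), ?_⟩
  rw [mval_algHom_scal, mval_ws, ha]
  have h3 : ws 0 (Psi α a W) = c' • (1 : Matrix (ZMod l) (ZMod l) K) := by
    ext i j
    rw [Matrix.smul_apply, Matrix.one_apply, smul_eq_mul]
    unfold ws
    rw [add_zero, hPsi]
    by_cases h : i = j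
    · rw [if_pos h.symm, if_pos h, mul_one]
    · rw [if_neg (fun h' => h h'.symm), if_neg h, mul_zero]
  rw [h3, map_smul, map_one]

end Pool.Agent.P5m
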