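import Pool.Agent.Lib.P5m.TFinal
import Pool.Agent.Lib.P5m.AttDouble
import Pool.Agent.Lib.P5m.CycSum
import Pool.Agent.Lib.P5m.Scal

/-!
# Multilinear polynomials that are not sums of commutators
-/

open Finset Matrix

namespace Pool.Agent.P5m

universe u

variable {r : ℕ} {K : Type u} [Field K]

/-- All non-scalar endomorphisms of spaces of dimension `n` have a decomposition. -/
def NDec (α : Equiv.Perm (Fin (r + 1)) → K) (n : ℕ) : Prop :=
  ∀ (V : Type u) [AddCommGroup V] [Module K V] [FiniteDimensional K V],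
    Module.finrank K V = n → ∀ T : V →ₗ[K] V, (∀ μ : K, T ≠ μ • LinearMap.id) → Dec α T

theorem nDec_base [CharZero K] (α : Equiv.Perm (Fin (r + 1)) → K) (s : ℕ) (hs : 2 ≤ s)
    (ha : ∀ D : Fin s → K, (∃ p q, D p ≠ D q) → Att α s D) : NDec α (2 * s) := by
  intro V _ _ _ hV T hT
  obtain ⟨D, hD, hD0⟩ := two_ne T hT s hV hs
  exact dec_of_blk α T _ D hD fun a => ha _ (hD0 a)

theorem nDec_step [CharZero K] (α : Equiv.Perm (Fin (r + 1)) → K) (n s : ℕ) (hs : 1 ≤ s)
    (hn : 2 * s + 2 ≤ n) (ha : ∀ μ : K, ∃ d : K, Att α s (pd s d μ))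
    (ih : NDec α n) : NDec α (n + s) := by
  intro V _ _ _ hV T hT
  obtain ⟨μ, hμ⟩ := peel T hT s hs (by omega)
  obtain ⟨d, hd⟩ := ha μ
  obtain ⟨v, W, T', hv, hW, h1, h2, h3⟩ := hμ d
  exact dec_peel α T _ μ v W T' hv hW h1 h2 hd (ih W (finrank_compl v W hv hW hV) T' h3)

theorem pd_of_ne (α : Equiv.Perm (Fin (r + 1)) → K) (s : ℕ) (hs : 2 ≤ s)
    (ha : ∀ D : Fin s → K, (∃ p q, D p ≠ D q) → Att α s D) (μ : K) :
    ∃ d : K, Att α s (pd s d μ) := by
  refine ⟨μ + 1, ha _ ⟨⟨0, by omega⟩, ⟨1, by omega⟩, ?_⟩⟩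
  simp [pd]

theorem pd_of_one (α : Equiv.Perm (Fin (r + 1)) → K) (s : ℕ) (hs : 1 ≤ s)
    (ha : ∃ u : Fin s → K, (∃ i, u i ≠ 0) ∧ ∀ D : Fin s → K, ∑ i, u i * D i = 0 → Att α s D)
    (μ : K) : ∃ d : K, Att α s (pd s d μ) := by
  classical
  obtain ⟨u, ⟨i, hi⟩, hu⟩ := ha
  refine ⟨-(∑ j ∈ univ.erase i, u j * μ) / u i, ?_⟩
  set d := -(∑ j ∈ univ.erase i, u j * μ) / u i with hd
  set z : Fin s := ⟨0, by omega⟩ with hz
  have h1 := att_perm α (fun j : Fin s => if j = i then d else μ) (Equiv.swap z i) (by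
    refine hu _ ?_
    rw [← Finset.add_sum_erase univ _ (mem_univ i)]
    rw [if_pos rfl, hd, mul_div_cancel₀ _ hi]
    rw [neg_add_eq_zero]
    refine Finset.sum_congr rfl fun j hj => ?_
    rw [if_neg (Finset.ne_of_mem_erase hj)])
  convert h1 using 1
  funext j
  unfold pd
  by_cases h : j = z
  · subst h
    rw [Equiv.swap_apply_left, if_pos rfl, if_pos rfl]
  · rw [if_neg (fun h0 => h (Fin.ext h0)), if_neg]
    intro h2
    exact h (by rw [← (Equiv.swap z i).injective.eq_iff, h2, Equiv.swap_apply_left])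

theorem nDec_all [CharZero K] (α : Equiv.Perm (Fin (r + 1)) → K) (l l' : ℕ) (hl' : 1 ≤ l')
    (hll : l' < l) (ha : ∀ D : Fin (2 * l) → K, (∃ p q, D p ≠ D q) → Att α (2 * l) D)
    (ha' : ∀ D : Fin (2 * l') → K, (∃ p q, D p ≠ D q) → Att α (2 * l') D)
    (h1 : ∃ u : Fin l → K, (∃ i, u i ≠ 0) ∧ ∀ D : Fin l → K, ∑ i, u i * D i = 0 → Att α l D)
    (x y : ℕ) (hy : 1 ≤ y) :
    NDec α (2 * (2 * l) + (x * (2 * l) + y * (2 * l'))) ∧
      NDec α (2 * (2 * l) + (x * (2 * l) + y * (2 * l')) + l) := by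
  have e1 : ∀ y : ℕ, NDec α (2 * (2 * l) + y * (2 * l')) := by
    intro y
    induction y with
    | zero => simpa using nDec_base α (2 * l) (by omega) ha
    | succ y ih =>
      have := nDec_step α (2 * (2 * l) + y * (2 * l')) (2 * l') (by omega) (by
        have := Nat.zero_le (y * (2 * l')); omega) (pd_of_ne α _ (by omega) ha') ih
      rw [show 2 * (2 * l) + (y + 1) * (2 * l') = 2 * (2 * l) + y * (2 * l') + 2 * l' by ring]
      exact this
  have e2 : ∀ x : ℕ, NDec α (2 * (2 * l) + (x * (2 * l) + y * (2 * l'))) := by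
    intro x
    induction x with
    | zero => simpa using e1 y
    | succ x ih =>
      have h2 : 2 * l' ≤ y * (2 * l') := Nat.le_mul_of_pos_left _ (by omega)
      have := nDec_step α (2 * (2 * l) + (x * (2 * l) + y * (2 * l'))) (2 * l) (by omega) (by
        have := Nat.zero_le (x * (2 * l)); omega) (pd_of_ne α _ (by omega) ha) ih
      rw [show 2 * (2 * l) + ((x + 1) * (2 * l) + y * (2 * l')) =
        2 * (2 * l) + (x * (2 * l) + y * (2 * l')) + 2 * l by ring]
      exact this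
  exact ⟨e2 x, nDec_step α _ l (by omega) (by omega) (pd_of_one α l (by omega) h1) (e2 x)⟩

/-- Both cases for one good prime. -/
theorem att_two [CharZero K] {l : ℕ} (hl : l.Prime) (α : Equiv.Perm (Fin (r + 1)) → K)
    (hα : α 1 ≠ 0) (hg : Good l α) (hc : ¬ Cs α) (a b : Fin (r + 1) → ZMod l)
    (hab : Gpt l a b) (hr : Fin.last r ≠ 0) (D : Fin (2 * l) → K) (hD : ∃ p q, D p ≠ D q) :
    Att α (2 * l) D := by
  haveI : NeZero l := ⟨hl.ne_zero⟩
  by_cases hS : ∀ w : Fin (r + 1) → ZMod l → K, ∃ y, LK α a w y ∧ y ≠ 0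
  · exact att_double hl α hα hg hc a b hab hr hS D hD
  · push Not at hS
    have h1 := att_free α hα a b hab hS
    have h2 : ∀ D : Fin (l + l) → K, Att α (l + l) D := fun D => att_add α D (h1 _) (h1 _)
    have h3 : ∀ m : ℕ, m = l + l → ∀ D : Fin m → K, Att α m D := by
      rintro m rfl
      exact h2
    exact h3 (2 * l) (two_mul l) D

theorem cs_of_shift (α : Equiv.Perm (Fin (r + 1)) → K) (σ₀ : Equiv.Perm (Fin (r + 1)))
    (h : Cs fun τ => α (σ₀ * τ)) : Cs α := by
  intro σ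
  have := h (σ₀⁻¹ * σ)
  simpa [mul_assoc] using this

theorem scal_all [CharZero K] [IsAlgClosed K] (α : Equiv.Perm (Fin (r + 1)) → K) (c : K)
    (l l' : ℕ) (h : ∃ A : Fin (r + 1) → Matrix (Fin l) (Fin l) K, P5e96.mval α A = c • 1)
    (h' : ∃ A : Fin (r + 1) → Matrix (Fin l') (Fin l') K, P5e96.mval α A = c • 1) (x y : ℕ)
    (hy : 1 ≤ y) : ∃ A : Fin (r + 1) → Matrix (Fin (x * l + y * l')) (Fin (x * l + y * l')) K,
      P5e96.mval α A = c • 1 := by
  have hcast : ∀ {m m' : ℕ}, m = m' →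
      (∃ A : Fin (r + 1) → Matrix (Fin m) (Fin m) K, P5e96.mval α A = c • 1) →
      ∃ A : Fin (r + 1) → Matrix (Fin m') (Fin m') K, P5e96.mval α A = c • 1 := by
    rintro m m' rfl h
    exact h
  have h1 : ∀ y : ℕ, 1 ≤ y →
      ∃ A : Fin (r + 1) → Matrix (Fin (y * l')) (Fin (y * l')) K, P5e96.mval α A = c • 1 := by
    intro y hy
    induction y, hy using Nat.le_induction with
    | base => exact hcast (by ring) h'
    | succ y _ ih => exact hcast (by ring) (val_add α c ih h')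
  induction x with
  | zero => exact hcast (by ring) (h1 y hy)
  | succ x ih => exact hcast (by ring) (val_add α c ih h)

/-- A multilinear polynomial with a value of nonzero trace attains every non-scalar matrix, and
over algebraically closed fields every matrix. -/
theorem value_all (r : ℕ) (hr : 1 ≤ r) : ∃ N : ℕ, ∀ n ≥ N, ∀ (K : Type u) [Field K] [CharZero K]
    (α : Equiv.Perm (Fin (r + 1)) → K),
    (∃ A : Fin (r + 1) → Matrix (Fin n) (Fin n) K, (P5e96.mval α A).trace ≠ 0) →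
    (∀ T : Matrix (Fin n) (Fin n) K, (∀ μ : K, T ≠ μ • 1) →
      ∃ A : Fin (r + 1) → Matrix (Fin n) (Fin n) K, P5e96.mval α A = T) ∧
    (IsAlgClosed K → ∀ c : K,
      ∃ A : Fin (r + 1) → Matrix (Fin n) (Fin n) K, P5e96.mval α A = c • 1) := by
  obtain ⟨M, hM⟩ := exists_two_good.{u} r
  refine ⟨5 * M + 2 * (M * M + M) + 2, fun n hn K _ _ α htr => ?_⟩
  have hcs : ¬ Cs α := by
    obtain ⟨A, hA⟩ := htr
    exact fun h => hA (trace_of_cs α h A)
  have hα : α ≠ 0 := by
    rintro rfl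
    exact hcs fun σ => by simp
  have hlast : Fin.last r ≠ 0 := by
    intro h
    have := congrArg Fin.val h
    simp at this
    omega
  obtain ⟨σ₀, hσ₀⟩ := Function.ne_iff.1 hα
  set α' : Equiv.Perm (Fin (r + 1)) → K := fun τ => α (σ₀ * τ) with hα'
  have hα1 : α' 1 ≠ 0 := by simpa [hα'] using hσ₀
  have hcs' : ¬ Cs α' := fun h => hcs (cs_of_shift α σ₀ h)
  obtain ⟨l, l', hl, hl', hll, hlM, hg, hg', ⟨a, b, hab⟩, a', b', hab'⟩ := hM K α'
  have h1 : l * l' ≤ M * M := Nat.mul_le_mul hlM (by omega)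
  have key : NDec α' n := by
    have hodd : l % 2 = 1 := by
      rcases hl.eq_two_or_odd with h | h
      · have := hl'.two_le
        omega
      · exact h
    rcases Nat.even_or_odd' n with ⟨k, hk | hk⟩
    · obtain ⟨x, y, hy, hxy⟩ := frob l l' (k - 2 * l)
        ((Nat.coprime_primes hl hl').2 (by omega)) hl.pos hl'.pos (by omega)
      have h2 := (nDec_all α' l l' hl'.pos hll (att_two hl α' hα1 hg hcs' a b hab hlast)
        (att_two hl' α' hα1 hg' hcs' a' b' hab' hlast) (att_one hl α' hα1 hg a b hab) x y hy).1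
      have h3 : n = 2 * (2 * l) + (x * (2 * l) + y * (2 * l')) := by
        have : x * (2 * l) + y * (2 * l') = 2 * (x * l + y * l') := by ring
        omega
      rw [h3]
      exact h2
    · obtain ⟨x, y, hy, hxy⟩ := frob l l' ((n - l) / 2 - 2 * l)
        ((Nat.coprime_primes hl hl').2 (by omega)) hl.pos hl'.pos (by omega)
      have h2 := (nDec_all α' l l' hl'.pos hll (att_two hl α' hα1 hg hcs' a b hab hlast)
        (att_two hl' α' hα1 hg' hcs' a' b' hab' hlast) (att_one hl α' hα1 hg a b hab) x y hy).2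
      have h3 : n = 2 * (2 * l) + (x * (2 * l) + y * (2 * l')) + l := by
        have : x * (2 * l) + y * (2 * l') = 2 * (x * l + y * l') := by ring
        omega
      rw [h3]
      exact h2
  refine ⟨fun T hT => ?_, fun _ c => ?_⟩
  · obtain ⟨A, hA⟩ := value_of_dec α' T (key (Fin n → K) (by simp) (Matrix.toLin' T) (by
      intro μ h
      refine hT μ (Matrix.toLin'.injective ?_)
      rw [h, map_smul, Matrix.toLin'_one]))
    exact ⟨fun q => A (σ₀.symm q), by rw [mval_shift]; exact hA⟩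
  · obtain ⟨x, y, hy, hxy⟩ := frob l l' n
      ((Nat.coprime_primes hl hl').2 (by omega)) hl.pos hl'.pos (by omega)
    obtain ⟨A, hA⟩ := scal_all α' c l l' (scal hl α' hg hcs' a b hab c)
      (scal hl' α' hg' hcs' a' b' hab' c) x y hy
    subst hxy
    exact ⟨fun q => A (σ₀.symm q), by rw [mval_shift]; exact hA⟩

end Pool.Agent.P5m
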