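import Pool.Agent.Lib.P5m.Scale

/-!
# A generic pair of weights over `K` in the singular case

PROOF of `points`. Write `t = Fin.last r`. `Gn` properties of `w`: `hA` (from `cor_strong`): every left
kernel vector with a zero entry is zero; `gvec_poly`; `gtv_gn`. If some `σ` with `α σ ≠ 0` has `t`
before `0` take `w₁, v₁, ξ, i` from `Tq_pt` and add the generic property
`Tq α a w v₁ ξ i ≠ 0` (`Tq_pl_w`, `Pl.gn`). Choose `w` (`Gn.exists`). By `hS` there is a nonzero `Y`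
with `LK α a w Y`; all its entries are nonzero, and every other kernel vector `y'` is proportional
to it: `Y i * y' - y' i • Y` is a kernel vector (`LK` is linear) with zero entry at `i`, so it
is zero. Now the generic properties of `v`: `cor_strong`, `gvec_poly`, for all `i ≠ j` the property
of `nonconst` with `c = Y j`, `c' = Y i` (`Gn.all` over pairs), and `Tq α a w v ξ i ≠ 0`
(`Tq_pl_v`; it has the nonzero value at `v₁`). Choose `v₀`, and a nonzero left kernel vector `y` for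
`v₀` (`hS`). Choose `τ ≠ 0` outside of the finite sets of `bad_tau` and `bad_Tq`, `v = τ • v₀`.
`LK_smul`, `gvec_smul`.
-/

open Finset

namespace Pool.Agent.P5m

variable {r : ℕ} {K : Type*} [Field K] {l : ℕ}

/-- A generic pair of weights. -/
structure Pt [NeZero l] (α : Equiv.Perm (Fin (r + 1)) → K) (a : Fin (r + 1) → ZMod l)
    (w v : Fin (r + 1) → ZMod l → K) (Y y : ZMod l → K) : Prop where
  yw : LK α a w Y
  yv : LK α a v y
  nw : ∀ i, Y i ≠ 0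
  nv : ∀ i, y i ≠ 0
  sw : ∀ y', LK α a w y' → ∀ i j, Y i * y' j = Y j * y' i
  sv : ∀ y', LK α a v y' → ∀ i j, y i * y' j = y j * y' i
  ne : ∀ i j, i ≠ j → Y j * y i ≠ Y i * y j
  i1 : Function.Injective (T21 α a w v)
  i2 : Function.Injective (T21 α a w (dbl v))
  i3 : Function.Injective (T21 α a v w)
  i4 : Function.Injective (T21 α a (dbl v) w)
  i5 : Function.Injective (G2 α a w v y)
  gw : ∀ i, gvec α a w i ≠ 0
  gv : ∀ i, gvec α a v i ≠ 0
  hq : (∃ σ, α σ ≠ 0 ∧ σ.symm (Fin.last r) < σ.symm 0) → ∃ ξ i, Tq α a w v ξ i ≠ 0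

namespace PointsAux

/-- left kernel vectors form a linear space -/
theorem LK_comb [NeZero l] (α : Equiv.Perm (Fin (r + 1)) → K) (a : Fin (r + 1) → ZMod l)
    (w : Fin (r + 1) → ZMod l → K) (y y' : ZMod l → K) (h : LK α a w y) (h' : LK α a w y')
    (c c' : K) : LK α a w (fun i => c * y i - c' * y' i) := by
  intro x
  have h1 := h x
  have h2 := h' x
  have h3 : ∑ i, (c * y i - c' * y' i) * Psi α a (Function.update w 0 x) i =
      c * ∑ i, y i * Psi α a (Function.update w 0 x) i -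
        c' * ∑ i, y' i * Psi α a (Function.update w 0 x) i := by
    rw [Finset.mul_sum, Finset.mul_sum, ← Finset.sum_sub_distrib]
    exact Finset.sum_congr rfl fun i _ => by ring
  rw [h3, h1, h2, mul_zero, mul_zero, sub_zero]

theorem LK_prop [NeZero l] (α : Equiv.Perm (Fin (r + 1)) → K) (a : Fin (r + 1) → ZMod l)
    (w : Fin (r + 1) → ZMod l → K) (hA : ∀ y, LK α a w y → ∀ i, y i = 0 → y = 0)
    (Y : ZMod l → K) (hY : LK α a w Y) (y' : ZMod l → K) (hy' : LK α a w y') (i j : ZMod l) :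
    Y i * y' j = Y j * y' i := by
  have h1 := LK_comb α a w y' Y hy' hY (Y i) (y' i)
  have h2 := hA _ h1 i (by ring)
  have h3 := congrFun h2 j
  simp only [Pi.zero_apply] at h3
  linear_combination h3

theorem gn_of {p : (Fin (r + 1) → ZMod l → K) → Prop}
    (h : ∃ Θ : MvPolynomial (Fin (r + 1) × ZMod l) K, Θ ≠ 0 ∧
      ∀ w : Fin (r + 1) → ZMod l → K, MvPolynomial.eval (fun q => w q.1 q.2) Θ ≠ 0 → p w) :
    Gn p := h

end PointsAux

open PointsAux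

theorem points [CharZero K] (hl : l.Prime) [NeZero l] (α : Equiv.Perm (Fin (r + 1)) → K)
    (hα : α 1 ≠ 0) (hg : Good l α) (hc : ¬ Cs α) (a b : Fin (r + 1) → ZMod l) (hab : Gpt l a b)
    (hr : Fin.last r ≠ 0) (hS : ∀ w : Fin (r + 1) → ZMod l → K, ∃ y, LK α a w y ∧ y ≠ 0) :
    ∃ w v Y y, Pt α a w v Y y := by
  classical
  have hex : ∃ σ, α σ ≠ 0 := ⟨1, hα⟩
  have gA : Gn fun w : Fin (r + 1) → ZMod l → K =>
      ∀ y : ZMod l → K, LK α a w y → ∀ i, y i = 0 → y = 0 :=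
    gn_of (cor_strong hl α hex hg a b hab)
  have gG : Gn fun w : Fin (r + 1) → ZMod l → K => ∀ i, gvec α a w i ≠ 0 :=
    gn_of (gvec_poly α hα a b hab)
  have gT : Gn fun w : Fin (r + 1) → ZMod l → K => ∀ j, gtv α a w j ≠ 0 :=
    gtv_gn α hα a b hab hr
  -- the common part for `w`
  have hw : ∃ w : Fin (r + 1) → ZMod l → K,
      ((∀ y : ZMod l → K, LK α a w y → ∀ i, y i = 0 → y = 0) ∧ (∀ i, gvec α a w i ≠ 0) ∧
        ∀ j, gtv α a w j ≠ 0) ∧
      ((∃ σ, α σ ≠ 0 ∧ σ.symm (Fin.last r) < σ.symm 0) →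
        ∃ (v : Fin (r + 1) → ZMod l → K) (ξ : ZMod l → K) (i : ZMod l), Tq α a w v ξ i ≠ 0) := by
    by_cases h : ∃ σ, α σ ≠ 0 ∧ σ.symm (Fin.last r) < σ.symm 0
    · obtain ⟨σ, h1, h2⟩ := h
      obtain ⟨w₁, v₁, ξ, i, h3⟩ := Tq_pt α a b hab σ h1 h2
      obtain ⟨w, h4, h5⟩ := ((gA.and (gG.and gT)).and ((Tq_pl_w α a v₁ ξ i).gn h3)).exists
      exact ⟨w, h4, fun _ => ⟨v₁, ξ, i, h5⟩⟩
    · obtain ⟨w, h4⟩ := (gA.and (gG.and gT)).exists
      exact ⟨w, h4, fun h' => absurd h' h⟩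
  obtain ⟨w, ⟨wA, wG, wT⟩, wq⟩ := hw
  obtain ⟨Y, hY, hY0⟩ := hS w
  have nw : ∀ i, Y i ≠ 0 := fun i hi => hY0 (wA Y hY i hi)
  have gN : Gn fun v : Fin (r + 1) → ZMod l → K =>
      ∀ q : {q : ZMod l × ZMod l // q.1 ≠ q.2},
        ∀ y : ZMod l → K, LK α a v y → Y q.1.2 * y q.1.1 = Y q.1.1 * y q.1.2 → y = 0 :=
    Gn.all fun q => gn_of (nonconst hl α hex hg hc a b hab q.1.1 q.1.2 q.2 (Y q.1.2) (Y q.1.1)
      (nw _) (nw _))
  have hv : ∃ v : Fin (r + 1) → ZMod l → K,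
      ((∀ y : ZMod l → K, LK α a v y → ∀ i, y i = 0 → y = 0) ∧ (∀ i, gvec α a v i ≠ 0) ∧
        ∀ q : {q : ZMod l × ZMod l // q.1 ≠ q.2},
          ∀ y : ZMod l → K, LK α a v y → Y q.1.2 * y q.1.1 = Y q.1.1 * y q.1.2 → y = 0) ∧
      ((∃ σ, α σ ≠ 0 ∧ σ.symm (Fin.last r) < σ.symm 0) →
        ∃ (ξ : ZMod l → K) (i : ZMod l), Tq α a w v ξ i ≠ 0) := by
    by_cases h : ∃ σ, α σ ≠ 0 ∧ σ.symm (Fin.last r) < σ.symm 0
    · obtain ⟨v₁, ξ, i, h3⟩ := wq h
      obtain ⟨v, h4, h5⟩ := ((gA.and (gG.and gN)).and ((Tq_pl_v α a w ξ i).gn h3)).exists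
      exact ⟨v, h4, fun _ => ⟨ξ, i, h5⟩⟩
    · obtain ⟨v, h4⟩ := (gA.and (gG.and gN)).exists
      exact ⟨v, h4, fun h' => absurd h' h⟩
  obtain ⟨v, ⟨vA, vG, vN⟩, vq⟩ := hv
  obtain ⟨y, hy, hy0⟩ := hS v
  have nv : ∀ i, y i ≠ 0 := fun i hi => hy0 (vA y hy i hi)
  have hb1 := bad_tau α a hab.sum hr w v y wG vG wT nv
  have hb2 : ∃ S : Set K, S.Finite ∧ ∀ τ : K, τ ∉ S → τ ≠ 0 ∧
      ((∃ σ, α σ ≠ 0 ∧ σ.symm (Fin.last r) < σ.symm 0) →
        ∃ (ξ : ZMod l → K) (i : ZMod l), Tq α a w (τ • v) ξ i ≠ 0) := by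
    by_cases h : ∃ σ, α σ ≠ 0 ∧ σ.symm (Fin.last r) < σ.symm 0
    · obtain ⟨ξ, i, h3⟩ := vq h
      refine ⟨{0} ∪ {τ : K | Tq α a w (τ • v) ξ i = 0},
        (Set.finite_singleton 0).union (bad_Tq α a w v ξ i h3), fun τ hτ => ⟨?_, fun _ =>
          ⟨ξ, i, ?_⟩⟩⟩
      · intro h4
        exact hτ (Or.inl h4)
      · intro h4
        exact hτ (Or.inr h4)
    · exact ⟨{0}, Set.finite_singleton 0, fun τ hτ => ⟨fun h4 => hτ h4, fun h' => absurd h' h⟩⟩
  obtain ⟨S, hSf, hSτ⟩ := hb2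
  obtain ⟨τ, hτ⟩ := (hb1.union hSf).infinite_compl.nonempty
  have hτ1 : ¬ ¬ (Function.Injective (T21 α a w (τ • v)) ∧
      Function.Injective (T21 α a w (dbl (τ • v))) ∧
      Function.Injective (T21 α a (τ • v) w) ∧
      Function.Injective (T21 α a (dbl (τ • v)) w) ∧
      Function.Injective (G2 α a w (τ • v) y)) := fun h => hτ (Or.inl h)
  obtain ⟨i1, i2, i3, i4, i5⟩ := not_not.1 hτ1
  obtain ⟨hτ0, hτq⟩ := hSτ τ (fun h => hτ (Or.inr h))
  refine ⟨w, τ • v, Y, y, ?_⟩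
  refine
    { yw := hY
      yv := (LK_smul α a v τ hτ0 y).2 hy
      nw := nw
      nv := nv
      sw := fun y' hy' i j => LK_prop α a w wA Y hY y' hy' i j
      sv := fun y' hy' i j => LK_prop α a v vA y hy y' ((LK_smul α a v τ hτ0 y').1 hy') i j
      ne := fun i j hij h => hy0 (vN ⟨(i, j), hij⟩ y hy h)
      i1 := i1
      i2 := i2
      i3 := i3
      i4 := i4
      i5 := i5
      gw := wG
      gv := fun i => ?_
      hq := hτq }
  rw [gvec_smul]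
  exact mul_ne_zero (pow_ne_zero _ hτ0) (vG i)

end Pool.Agent.P5m
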