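import Pool.Agent.Lib.P5m.GenT

/-!
# Scaling the weights of the second block

PROOF of `bad_tau`. For a linear map of the form `∑ σ, τ ^ e σ • E σ` on `ZMod l → K` which is
injective for `τ = 0`, all but finitely many `τ` are good: `Pool.Agent.P5e96.finite_bad`
(`P5e96.Block`). We apply this four times.
* `T21 α a w (τ • v)`: a word `σ` contributes `τ ^ (number of letters before 0)` times its
  contribution for `τ = 1`; the number of letters before `0` is `(σ.symm 0 : ℕ)`. For `τ = 0` only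
  words with first letter `0` survive and the map is
  `ξ ↦ (i ↦ gvec α a w (i + a 0) * ξ i)` (`pre σ a 0 = 0`; `W21 = w` for all `k ≠ 0`), injective.
* `T21 α a w (dbl (τ • v))`: `dbl (τ • v) = τ • dbl v`, the same map for `τ = 0`.
* `T21 α a (τ • v) w`: for `τ ≠ 0` it is `τ ^ r` times `T21 α a v (τ⁻¹ • w)` (there are `r` letters
  `k ≠ 0`, each contributes one factor), and `κ ↦ T21 α a v (κ • w)` is injective for all but
  finitely many `κ` by the first item with `v, w` exchanged; then `τ = κ⁻¹`.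
* `T21 α a (dbl (τ • v)) w`: the same with `dbl v` (`gvec_dbl`, `2 ≠ 0`).
* `G2 α a w (τ • v) y`: a word `σ` with `0` before `t` contributes
  `τ ^ ((σ.symm 0 : ℕ) + (r - (σ.symm t : ℕ)))` times its contribution for `τ = 1` (the letters
  before `0` and the letters after `t` have the weight `v`). For `τ = 0` only the words with first
  letter `0` and last letter `t` survive, and the map is
  `ξ ↦ (j ↦ y (j + a t) * gtv α a w j * ξ (j + a t))`, because `pre σ a t = - a t` for these
  words (`∑ a = 0`), `pre σ a 0 = 0`. This map is injective.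
* `Tq α a w (τ • v) ξ i` is a polynomial in `τ` with a nonzero value at `τ = 1`, so it vanishes for
  finitely many `τ` only.
`K` is infinite.
-/

open Finset

namespace Pool.Agent.P5m

variable {r : ℕ} {K : Type*} [Field K] {l : ℕ}

namespace ScaleAux

theorem prod_if {κ : Type*} (s : Finset κ) (p : κ → Prop) [DecidablePred p]
    (f g : κ → K) (τ : K) : ∏ k ∈ s, (if p k then τ * f k else g k) =
      τ ^ (s.filter p).card * ∏ k ∈ s, (if p k then f k else g k) := by
  rw [Finset.prod_ite, Finset.prod_ite, Finset.prod_mul_distrib, Finset.prod_const, mul_assoc]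

/-- Shift and multiply. -/
def ms (c : ZMod l → K) (s : ZMod l) : (ZMod l → K) →ₗ[K] (ZMod l → K) where
  toFun ξ i := c i * ξ (i + s)
  map_add' := by
    intro ξ ξ'
    funext i
    simp only [Pi.add_apply, mul_add]
  map_smul' := by
    intro t ξ
    funext i
    simp only [Pi.smul_apply, smul_eq_mul, RingHom.id_apply]
    ring

theorem fin_bad [NeZero l] (c : Equiv.Perm (Fin (r + 1)) → ZMod l → K)
    (s : Equiv.Perm (Fin (r + 1)) → ZMod l) (e : Equiv.Perm (Fin (r + 1)) → ℕ)
    (F : K → (ZMod l → K) → ZMod l → K)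
    (hF : ∀ τ ξ i, F τ ξ i = ∑ σ, τ ^ e σ * (c σ i * ξ (i + s σ)))
    (h0 : Function.Injective (F 0)) : {τ | ¬ Function.Injective (F τ)}.Finite := by
  have hco : ∀ τ : K, ((∑ σ, τ ^ e σ • ms (c σ) (s σ) : (ZMod l → K) →ₗ[K] (ZMod l → K)) :
      (ZMod l → K) → ZMod l → K) = F τ := by
    intro τ
    funext ξ i
    rw [hF, LinearMap.sum_apply, Finset.sum_apply]
    exact Finset.sum_congr rfl fun σ _ => rfl
  have h := P5e96.finite_bad (fun σ => ms (c σ) (s σ)) e (by rw [hco 0]; exact h0)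
  refine h.subset ?_
  intro τ hτ
  rw [Set.mem_ofPred_eq] at hτ ⊢
  rw [hco τ]
  exact hτ

theorem T21_eq (α : Equiv.Perm (Fin (r + 1)) → K) (a : Fin (r + 1) → ZMod l)
    (w v : Fin (r + 1) → ZMod l → K) (ξ : ZMod l → K) (i : ZMod l) :
    T21 α a w v ξ i = ∑ σ : Equiv.Perm (Fin (r + 1)), (α σ * ∏ k ∈ univ.erase 0,
      (if σ.symm k < σ.symm 0 then v k (i + pre σ a k) else w k (i + pre σ a k))) *
        ξ (i + pre σ a 0) := by
  unfold T21 PsiG
  refine Finset.sum_congr rfl fun σ _ => ?_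
  rw [← Finset.mul_prod_erase univ _ (mem_univ (0 : Fin (r + 1)))]
  have h1 : W21 w v ξ σ 0 = ξ := by
    unfold W21
    rw [if_pos rfl]
  have h2 : ∏ k ∈ univ.erase (0 : Fin (r + 1)), W21 w v ξ σ k (i + pre σ a k) =
      ∏ k ∈ univ.erase 0,
      (if σ.symm k < σ.symm 0 then v k (i + pre σ a k) else w k (i + pre σ a k)) := by
    refine Finset.prod_congr rfl fun k hk => ?_
    unfold W21
    rw [if_neg (Finset.ne_of_mem_erase hk)]
    split_ifs <;> rfl
  rw [h1, h2]
  ring

theorem T21_tau (α : Equiv.Perm (Fin (r + 1)) → K) (a : Fin (r + 1) → ZMod l)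
    (w v : Fin (r + 1) → ZMod l → K) (τ : K) (ξ : ZMod l → K) (i : ZMod l) :
    T21 α a w (τ • v) ξ i = ∑ σ : Equiv.Perm (Fin (r + 1)),
      τ ^ ((univ.erase (0 : Fin (r + 1))).filter fun k => σ.symm k < σ.symm 0).card *
      ((α σ * ∏ k ∈ univ.erase 0,
      (if σ.symm k < σ.symm 0 then v k (i + pre σ a k) else w k (i + pre σ a k))) *
        ξ (i + pre σ a 0)) := by
  rw [T21_eq]
  refine Finset.sum_congr rfl fun σ _ => ?_
  have h := prod_if (univ.erase (0 : Fin (r + 1))) (fun k => σ.symm k < σ.symm 0)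
    (fun k => v k (i + pre σ a k)) (fun k => w k (i + pre σ a k)) τ
  have h2 : ∏ k ∈ univ.erase (0 : Fin (r + 1)),
      (if σ.symm k < σ.symm 0 then (τ • v) k (i + pre σ a k) else w k (i + pre σ a k)) =
      ∏ k ∈ univ.erase (0 : Fin (r + 1)),
      (if σ.symm k < σ.symm 0 then τ * v k (i + pre σ a k) else w k (i + pre σ a k)) := rfl
  rw [h2, h]
  ring

theorem pre_zero (σ : Equiv.Perm (Fin (r + 1))) (h : σ 0 = 0) (a : Fin (r + 1) → ZMod l) :
    pre σ a 0 = 0 := by
  unfold pre O
  refine Finset.sum_eq_zero fun j _ => ?_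
  have h1 : σ.symm 0 = 0 := by rw [Equiv.symm_apply_eq, h]
  rw [h1, if_neg (Fin.not_lt_zero _)]
  simp

theorem T21_zero (α : Equiv.Perm (Fin (r + 1)) → K) (a : Fin (r + 1) → ZMod l)
    (w v : Fin (r + 1) → ZMod l → K) (ξ : ZMod l → K) (i : ZMod l) :
    T21 α a w ((0 : K) • v) ξ i = gvec α a w (i + a 0) * ξ i := by
  rw [T21_tau]
  unfold gvec
  rw [Finset.sum_mul]
  refine Finset.sum_congr rfl fun σ _ => ?_
  by_cases h : σ 0 = 0
  · have h1 : σ.symm 0 = 0 := by rw [Equiv.symm_apply_eq, h]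
    have h2 : ((univ.erase (0 : Fin (r + 1))).filter fun k => σ.symm k < σ.symm 0) = ∅ := by
      refine Finset.filter_eq_empty_iff.2 fun k _ => ?_
      rw [h1]
      exact Fin.not_lt_zero _
    rw [h2, Finset.card_empty, pow_zero, one_mul, if_pos h, pre_zero σ h, add_zero]
    congr 2
    refine Finset.prod_congr rfl fun k _ => ?_
    rw [h1, if_neg (Fin.not_lt_zero _), add_sub_cancel_right]
  · have h1 : σ.symm 0 ≠ 0 := by
      intro h2
      rw [Equiv.symm_apply_eq] at h2
      exact h h2.symm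
    have h2 : ((univ.erase (0 : Fin (r + 1))).filter fun k => σ.symm k < σ.symm 0).card ≠ 0 := by
      refine Finset.card_ne_zero.2 ⟨σ 0, ?_⟩
      rw [Finset.mem_filter, Equiv.symm_apply_apply]
      exact ⟨Finset.mem_erase.2 ⟨h, mem_univ _⟩, Fin.pos_iff_ne_zero.2 h1⟩
    rw [zero_pow h2, zero_mul, if_neg h, zero_mul]

theorem fin21 [NeZero l] (α : Equiv.Perm (Fin (r + 1)) → K) (a : Fin (r + 1) → ZMod l)
    (w v : Fin (r + 1) → ZMod l → K) (hw : ∀ i, gvec α a w i ≠ 0) :
    {τ : K | ¬ Function.Injective (T21 α a w (τ • v))}.Finite := by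
  refine fin_bad _ _ _ (fun τ => T21 α a w (τ • v)) (fun τ ξ i => T21_tau α a w v τ ξ i) ?_
  intro ξ ξ' h
  funext i
  have h1 := congrFun h i
  simp only [T21_zero] at h1
  exact mul_left_cancel₀ (hw _) h1

theorem T21_left (α : Equiv.Perm (Fin (r + 1)) → K) (a : Fin (r + 1) → ZMod l)
    (w v : Fin (r + 1) → ZMod l → K) (τ : K) (hτ : τ ≠ 0) (ξ : ZMod l → K) (i : ZMod l) :
    T21 α a (τ • v) w ξ i = τ ^ r * T21 α a v (τ⁻¹ • w) ξ i := by
  rw [T21_eq, T21_eq, Finset.mul_sum]
  refine Finset.sum_congr rfl fun σ _ => ?_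
  have h : ∏ k ∈ univ.erase (0 : Fin (r + 1)),
      (if σ.symm k < σ.symm 0 then w k (i + pre σ a k) else (τ • v) k (i + pre σ a k)) =
      τ ^ r * ∏ k ∈ univ.erase (0 : Fin (r + 1)),
      (if σ.symm k < σ.symm 0 then (τ⁻¹ • w) k (i + pre σ a k) else v k (i + pre σ a k)) := by
    have h1 : τ ^ r = ∏ _k ∈ univ.erase (0 : Fin (r + 1)), τ := by
      rw [Finset.prod_const, Finset.card_erase_of_mem (mem_univ _), Finset.card_univ,
        Fintype.card_fin, Nat.add_sub_cancel]
    rw [h1, ← Finset.prod_mul_distrib]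
    refine Finset.prod_congr rfl fun k _ => ?_
    split_ifs
    · rw [Pi.smul_apply, Pi.smul_apply, smul_eq_mul, mul_inv_cancel_left₀ hτ]
    · rw [Pi.smul_apply, Pi.smul_apply, smul_eq_mul]
  rw [h]
  ring

theorem fin12 [NeZero l] (α : Equiv.Perm (Fin (r + 1)) → K) (a : Fin (r + 1) → ZMod l)
    (w v : Fin (r + 1) → ZMod l → K) (hv : ∀ i, gvec α a v i ≠ 0) :
    {τ : K | ¬ Function.Injective (T21 α a (τ • v) w)}.Finite := by
  have h := fin21 α a v w hv
  refine ((h.image fun x => x⁻¹).union (Set.finite_singleton (0 : K))).subset ?_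
  intro τ hτ
  rw [Set.mem_ofPred_eq] at hτ
  by_cases h0 : τ = 0
  · exact Or.inr h0
  · refine Or.inl ⟨τ⁻¹, ?_, inv_inv τ⟩
    rw [Set.mem_ofPred_eq]
    intro hinj
    apply hτ
    intro ξ ξ' he
    apply hinj
    funext i
    have h1 := congrFun he i
    rw [T21_left α a w v τ h0, T21_left α a w v τ h0] at h1
    exact mul_left_cancel₀ (pow_ne_zero r h0) h1

theorem dbl_smul (τ : K) (v : Fin (r + 1) → ZMod l → K) : dbl (τ • v) = τ • dbl v := by
  funext k i
  unfold dbl
  simp only [Pi.smul_apply, smul_eq_mul]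
  split_ifs
  · ring
  · rfl

theorem G2_tau (α : Equiv.Perm (Fin (r + 1)) → K) (a : Fin (r + 1) → ZMod l)
    (w v : Fin (r + 1) → ZMod l → K) (hr : Fin.last r ≠ 0) (y : ZMod l → K) (τ : K)
    (ξ : ZMod l → K) (j : ZMod l) :
    G2 α a w (τ • v) y ξ j = ∑ σ : Equiv.Perm (Fin (r + 1)),
      τ ^ (((univ.erase (Fin.last r)).erase (0 : Fin (r + 1))).filter fun k =>
        ¬ (σ.symm 0 < σ.symm k ∧ σ.symm k < σ.symm (Fin.last r))).card *
      ((if σ.symm 0 < σ.symm (Fin.last r) then
        α σ * y (j - pre σ a (Fin.last r)) * ∏ k ∈ (univ.erase (Fin.last r)).erase 0,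
        (if ¬ (σ.symm 0 < σ.symm k ∧ σ.symm k < σ.symm (Fin.last r)) then
          v k (j - pre σ a (Fin.last r) + pre σ a k) else
          w k (j - pre σ a (Fin.last r) + pre σ a k)) else 0) *
        ξ (j + (pre σ a 0 - pre σ a (Fin.last r)))) := by
  unfold G2
  refine Finset.sum_congr rfl fun σ _ => ?_
  by_cases hc : σ.symm 0 < σ.symm (Fin.last r)
  · rw [if_pos hc, if_pos hc]
    have h0m : (0 : Fin (r + 1)) ∈ univ.erase (Fin.last r) :=
      Finset.mem_erase.2 ⟨Ne.symm hr, mem_univ _⟩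
    rw [← Finset.mul_prod_erase _ _ h0m]
    have h1 : W22 w (τ • v) 0 ξ σ 0 = ξ := by
      unfold W22
      rw [if_pos rfl]
    have h2 : ∏ k ∈ (univ.erase (Fin.last r)).erase (0 : Fin (r + 1)),
        W22 w (τ • v) 0 ξ σ k (j - pre σ a (Fin.last r) + pre σ a k) =
        ∏ k ∈ (univ.erase (Fin.last r)).erase (0 : Fin (r + 1)),
        (if ¬ (σ.symm 0 < σ.symm k ∧ σ.symm k < σ.symm (Fin.last r)) then
          τ * v k (j - pre σ a (Fin.last r) + pre σ a k) else
          w k (j - pre σ a (Fin.last r) + pre σ a k)) := by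
      refine Finset.prod_congr rfl fun k hk => ?_
      unfold W22
      rw [if_neg (Finset.ne_of_mem_erase hk),
        if_neg (Finset.ne_of_mem_erase (Finset.mem_of_mem_erase hk))]
      by_cases hb : σ.symm 0 < σ.symm k ∧ σ.symm k < σ.symm (Fin.last r)
      · rw [if_pos hb, if_neg (not_not.2 hb)]
      · rw [if_neg hb, if_pos hb]
        rfl
    rw [h1, h2, prod_if]
    have h3 : j - pre σ a (Fin.last r) + pre σ a 0 = j + (pre σ a 0 - pre σ a (Fin.last r)) := by
      ring
    rw [h3]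
    ring
  · rw [if_neg hc, if_neg hc]
    ring

theorem G2_zero [NeZero l] (α : Equiv.Perm (Fin (r + 1)) → K) (a : Fin (r + 1) → ZMod l)
    (ha : ∑ k, a k = 0)
    (w v : Fin (r + 1) → ZMod l → K) (hr : Fin.last r ≠ 0) (y : ZMod l → K)
    (ξ : ZMod l → K) (j : ZMod l) :
    G2 α a w ((0 : K) • v) y ξ j =
      y (j + a (Fin.last r)) * gtv α a w j * ξ (j + a (Fin.last r)) := by
  rw [G2_tau α a w v hr]
  unfold gtv
  rw [Finset.mul_sum, Finset.sum_mul]
  refine Finset.sum_congr rfl fun σ _ => ?_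
  by_cases h : σ 0 = 0 ∧ σ (Fin.last r) = Fin.last r
  · obtain ⟨h1, h2⟩ := h
    have h1' : σ.symm 0 = 0 := by rw [Equiv.symm_apply_eq, h1]
    have h2' : σ.symm (Fin.last r) = Fin.last r := by rw [Equiv.symm_apply_eq, h2]
    have hb : ∀ k ∈ (univ.erase (Fin.last r)).erase (0 : Fin (r + 1)),
        σ.symm 0 < σ.symm k ∧ σ.symm k < σ.symm (Fin.last r) := by
      intro k hk
      have hk0 : k ≠ 0 := Finset.ne_of_mem_erase hk
      have hkl : k ≠ Fin.last r := Finset.ne_of_mem_erase (Finset.mem_of_mem_erase hk)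
      rw [h1', h2']
      constructor
      · refine Fin.pos_iff_ne_zero.2 fun h3 => hk0 ?_
        rw [Equiv.symm_apply_eq, h1] at h3
        exact h3
      · refine Fin.lt_last_iff_ne_last.2 fun h3 => hkl ?_
        rw [Equiv.symm_apply_eq, h2] at h3
        exact h3
    have he : (((univ.erase (Fin.last r)).erase (0 : Fin (r + 1))).filter fun k =>
        ¬ (σ.symm 0 < σ.symm k ∧ σ.symm k < σ.symm (Fin.last r))) = ∅ := by
      refine Finset.filter_eq_empty_iff.2 fun k hk => not_not.2 (hb k hk)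
    have hlt : σ.symm 0 < σ.symm (Fin.last r) := by
      rw [h1', h2']
      exact Fin.pos_iff_ne_zero.2 hr
    have hpt : pre σ a (Fin.last r) = - a (Fin.last r) := by
      have h3 : pre σ a (Fin.last r) + a (Fin.last r) = ∑ k, a k := by
        unfold pre O
        rw [← Finset.add_sum_erase univ a (mem_univ (Fin.last r)),
          ← Finset.add_sum_erase univ (fun j => (((if σ.symm j < σ.symm (Fin.last r) then 1 else 0 :
            ℤ)) : ZMod l) * a j) (mem_univ (Fin.last r))]
        rw [if_neg (lt_irrefl _), Int.cast_zero, zero_mul, zero_add, add_comm]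
        congr 1
        refine Finset.sum_congr rfl fun k hk => ?_
        have hkl : k ≠ Fin.last r := Finset.ne_of_mem_erase hk
        rw [if_pos, Int.cast_one, one_mul]
        rw [h2']
        refine Fin.lt_last_iff_ne_last.2 fun h3 => hkl ?_
        rw [Equiv.symm_apply_eq, h2] at h3
        exact h3
      rw [ha] at h3
      exact eq_neg_of_add_eq_zero_left h3
    rw [he, Finset.card_empty, pow_zero, one_mul, if_pos hlt, if_pos ⟨h1, h2⟩, hpt,
      pre_zero σ h1, zero_sub, neg_neg, sub_neg_eq_add]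
    have hprod : ∏ k ∈ (univ.erase (Fin.last r)).erase (0 : Fin (r + 1)),
        (if ¬ (σ.symm 0 < σ.symm k ∧ σ.symm k < σ.symm (Fin.last r)) then
          v k (j + a (Fin.last r) + pre σ a k) else
          w k (j + a (Fin.last r) + pre σ a k)) =
        ∏ k ∈ (univ.erase (0 : Fin (r + 1))).erase (Fin.last r),
          w k (j + a (Fin.last r) + pre σ a k) := by
      rw [Finset.erase_right_comm]
      refine Finset.prod_congr rfl fun k hk => ?_
      rw [Finset.erase_right_comm] at hk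
      rw [if_neg (not_not.2 (hb k hk))]
    rw [hprod]
    ring
  · rw [if_neg h, mul_zero, zero_mul]
    by_cases hlt : σ.symm 0 < σ.symm (Fin.last r)
    · have he : (((univ.erase (Fin.last r)).erase (0 : Fin (r + 1))).filter fun k =>
          ¬ (σ.symm 0 < σ.symm k ∧ σ.symm k < σ.symm (Fin.last r))).card ≠ 0 := by
        by_cases h1 : σ 0 = 0
        · have h2 : σ (Fin.last r) ≠ Fin.last r := fun h2 => h ⟨h1, h2⟩
          refine Finset.card_ne_zero.2 ⟨σ (Fin.last r), ?_⟩
          rw [Finset.mem_filter, Equiv.symm_apply_apply]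
          refine ⟨Finset.mem_erase.2 ⟨?_, Finset.mem_erase.2 ⟨h2, mem_univ _⟩⟩, ?_⟩
          · intro h3
            rw [← h1] at h3
            exact hr (σ.injective h3)
          · rintro ⟨_, h4⟩
            exact absurd (Fin.le_last _) (not_le.2 h4)
        · refine Finset.card_ne_zero.2 ⟨σ 0, ?_⟩
          rw [Finset.mem_filter, Equiv.symm_apply_apply]
          refine ⟨Finset.mem_erase.2 ⟨h1, Finset.mem_erase.2 ⟨?_, mem_univ _⟩⟩, ?_⟩
          · intro h3
            rw [← h3, Equiv.symm_apply_apply] at hlt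
            exact Fin.not_lt_zero _ hlt
          · rintro ⟨h4, _⟩
            exact Fin.not_lt_zero _ h4
      rw [zero_pow he, zero_mul]
    · rw [if_neg hlt, zero_mul, mul_zero]

theorem finG2 [NeZero l] (α : Equiv.Perm (Fin (r + 1)) → K) (a : Fin (r + 1) → ZMod l)
    (ha : ∑ k, a k = 0) (hr : Fin.last r ≠ 0)
    (w v : Fin (r + 1) → ZMod l → K) (y : ZMod l → K) (hg : ∀ i, gtv α a w i ≠ 0)
    (hy : ∀ i, y i ≠ 0) : {τ : K | ¬ Function.Injective (G2 α a w (τ • v) y)}.Finite := by
  refine fin_bad _ _ _ (fun τ => G2 α a w (τ • v) y) (fun τ ξ j => G2_tau α a w v hr y τ ξ j) ?_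
  intro ξ ξ' h
  funext i
  have h1 := congrFun h (i - a (Fin.last r))
  simp only [G2_zero α a ha w v hr, sub_add_cancel] at h1
  exact mul_left_cancel₀ (mul_ne_zero (hy _) (hg _)) h1

end ScaleAux

open ScaleAux

theorem bad_tau [NeZero l] [CharZero K] (α : Equiv.Perm (Fin (r + 1)) → K)
    (a : Fin (r + 1) → ZMod l) (ha : ∑ k, a k = 0) (hr : Fin.last r ≠ 0)
    (w v : Fin (r + 1) → ZMod l → K) (y : ZMod l → K)
    (hw : ∀ i, gvec α a w i ≠ 0) (hv : ∀ i, gvec α a v i ≠ 0) (hg : ∀ i, gtv α a w i ≠ 0)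
    (hy : ∀ i, y i ≠ 0) :
    {τ : K | ¬ (Function.Injective (T21 α a w (τ • v)) ∧
      Function.Injective (T21 α a w (dbl (τ • v))) ∧
      Function.Injective (T21 α a (τ • v) w) ∧
      Function.Injective (T21 α a (dbl (τ • v)) w) ∧
      Function.Injective (G2 α a w (τ • v) y))}.Finite := by
  have h1 := fin21 α a w v hw
  have h2 := fin21 α a w (dbl v) hw
  have h3 := fin12 α a w v hv
  have h4 := fin12 α a w (dbl v) (fun i => by
    rw [gvec_dbl α a v hr]
    exact mul_ne_zero two_ne_zero (hv i))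
  have h5 := finG2 α a ha hr w v y hg hy
  refine ((((h1.union h2).union h3).union h4).union h5).subset ?_
  intro τ hτ
  rw [Set.mem_ofPred_eq] at hτ
  by_contra hcon
  simp only [Set.mem_union, not_or, Set.mem_ofPred_eq, not_not] at hcon
  obtain ⟨⟨⟨⟨g1, g2⟩, g3⟩, g4⟩, g5⟩ := hcon
  apply hτ
  rw [dbl_smul]
  exact ⟨g1, g2, g3, g4, g5⟩

theorem bad_Tq [NeZero l] (α : Equiv.Perm (Fin (r + 1)) → K) (a : Fin (r + 1) → ZMod l)
    (w v : Fin (r + 1) → ZMod l → K) (ξ : ZMod l → K) (i : ZMod l) (h : Tq α a w v ξ i ≠ 0) :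
    {τ : K | Tq α a w (τ • v) ξ i = 0}.Finite := by
  set e : Equiv.Perm (Fin (r + 1)) → ℕ := fun σ =>
    ((univ.erase (0 : Fin (r + 1))).filter fun k => σ.symm k < σ.symm 0).card with he
  set c : Equiv.Perm (Fin (r + 1)) → K := fun σ =>
    ((if σ.symm (Fin.last r) < σ.symm 0 then α σ else 0) * ∏ k ∈ univ.erase 0,
      (if σ.symm k < σ.symm 0 then v k (i + pre σ a k) else w k (i + pre σ a k))) *
        ξ (i + pre σ a 0) with hc
  have hT : ∀ τ : K, Tq α a w (τ • v) ξ i = ∑ σ, τ ^ e σ * c σ := fun τ =>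
    T21_tau (fun σ => if σ.symm (Fin.last r) < σ.symm 0 then α σ else 0) a w v τ ξ i
  set P : Polynomial K := ∑ σ, Polynomial.X ^ e σ * Polynomial.C (c σ) with hP
  have hev : ∀ τ : K, P.eval τ = Tq α a w (τ • v) ξ i := by
    intro τ
    rw [hT, hP, Polynomial.eval_finsetSum]
    refine Finset.sum_congr rfl fun σ _ => ?_
    rw [Polynomial.eval_mul, Polynomial.eval_pow, Polynomial.eval_X, Polynomial.eval_C]
  have hne : P ≠ 0 := by
    intro h0
    apply h
    have h1 := hev 1
    rw [h0, Polynomial.eval_zero, one_smul] at h1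
    exact h1.symm
  refine (Polynomial.finite_setOfPred_isRoot hne).subset ?_
  intro τ hτ
  rw [Set.mem_ofPred_eq] at hτ
  rw [Set.mem_ofPred_eq, Polynomial.IsRoot.def, hev, hτ]

theorem LK_smul [NeZero l] (α : Equiv.Perm (Fin (r + 1)) → K) (a : Fin (r + 1) → ZMod l)
    (v : Fin (r + 1) → ZMod l → K) (τ : K) (hτ : τ ≠ 0) (y : ZMod l → K) :
    LK α a (τ • v) y ↔ LK α a v y := by
  have h1 : ∀ (x : ZMod l → K) (i : ZMod l), Psi α a (Function.update (τ • v) 0 x) i =
      τ ^ r * Psi α a (Function.update v 0 x) i := by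
    intro x i
    unfold Psi
    rw [Finset.mul_sum]
    refine Finset.sum_congr rfl fun σ _ => ?_
    rw [← Finset.mul_prod_erase univ _ (mem_univ (0 : Fin (r + 1))),
      ← Finset.mul_prod_erase univ
        (fun k => Function.update v 0 x k (i + pre σ a k)) (mem_univ (0 : Fin (r + 1)))]
    have h2 : ∏ k ∈ univ.erase (0 : Fin (r + 1)),
        Function.update (τ • v) 0 x k (i + pre σ a k) = τ ^ r *
        ∏ k ∈ univ.erase (0 : Fin (r + 1)), Function.update v 0 x k (i + pre σ a k) := by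
      have h3 : τ ^ r = ∏ _k ∈ univ.erase (0 : Fin (r + 1)), τ := by
        rw [Finset.prod_const, Finset.card_erase_of_mem (mem_univ _), Finset.card_univ,
          Fintype.card_fin, Nat.add_sub_cancel]
      rw [h3, ← Finset.prod_mul_distrib]
      refine Finset.prod_congr rfl fun k hk => ?_
      rw [Function.update_of_ne (Finset.ne_of_mem_erase hk),
        Function.update_of_ne (Finset.ne_of_mem_erase hk), Pi.smul_apply, Pi.smul_apply,
        smul_eq_mul]
    rw [h2, Function.update_self, Function.update_self]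
    ring
  have h2 : ∀ x : ZMod l → K, ∑ i, y i * Psi α a (Function.update (τ • v) 0 x) i =
      τ ^ r * ∑ i, y i * Psi α a (Function.update v 0 x) i := by
    intro x
    rw [Finset.mul_sum]
    refine Finset.sum_congr rfl fun i _ => ?_
    rw [h1]
    ring
  constructor
  · intro h x
    have h3 := h x
    rw [h2] at h3
    exact (mul_eq_zero.1 h3).resolve_left (pow_ne_zero r hτ)
  · intro h x
    rw [h2, h x, mul_zero]

theorem gvec_smul (α : Equiv.Perm (Fin (r + 1)) → K) (a : Fin (r + 1) → ZMod l)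
    (v : Fin (r + 1) → ZMod l → K) (τ : K) (i : ZMod l) :
    gvec α a (τ • v) i = τ ^ r * gvec α a v i := by
  unfold gvec
  rw [Finset.mul_sum]
  refine Finset.sum_congr rfl fun σ _ => ?_
  split_ifs
  · have h3 : τ ^ r = ∏ _k ∈ univ.erase (0 : Fin (r + 1)), τ := by
      rw [Finset.prod_const, Finset.card_erase_of_mem (mem_univ _), Finset.card_univ,
        Fintype.card_fin, Nat.add_sub_cancel]
    have h4 : ∏ k ∈ univ.erase (0 : Fin (r + 1)), (τ • v) k (i - a 0 + pre σ a k) =
        τ ^ r * ∏ k ∈ univ.erase (0 : Fin (r + 1)), v k (i - a 0 + pre σ a k) := by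
      rw [h3, ← Finset.prod_mul_distrib]
      rfl
    rw [h4]
    ring
  · rw [mul_zero]

end Pool.Agent.P5m
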