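import Pool.Agent.Lib.P5m.CombB

/-!
# The relation between two pair matrices is total

PROOF of `semi`. For `Q = P, P'` and `s ≠ 0` say `u_s(Q)` if `A_s(Q) ≠ A_0(Q)` somewhere on
`∑ a = 0` and `v_s(Q)` if `A_s(Q) ≠ 0` somewhere on `∑ a = 0`. Suppose that for every `s ≠ 0`:
not (`u_s(P)` and `v_s(P')`), and not (`u_s(P')` and `v_s(P)`).
By `form_zero` (applied with the index `0`) `A_0(P), A_0(P') ≠ 0` on the hyperplane.
For `s ≠ 0`: if `A_s(P') = 0` on the hyperplane then `u_s(P')` holds (`A_0(P') ≠ 0`), so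
`v_s(P)` fails: `A_s(P) = 0`. If `A_s(P') ≠ 0` then `v_s(P')`, so `u_s(P)` fails:
`A_s(P) = A_0(P) ≠ 0`. So with `S = {s ≠ 0 | A_s(P) = 0}`: for `s ∈ S` `P j s = 0` for all `j`
(`form_zero`), for `s ∉ S, s ≠ 0`: `A_s(P) = A_0(P)` on the hyperplane, that is `P j s - P j 0`
does not depend on `j`; its value at `j = 0` is `P 0 s`, so `P j s - P j 0 = P 0 s` for all `j`.
If `S` is empty then `Tp P`, a contradiction. Let `j ∈ S`. Then `P s j = 0` for all `s`, so
`P j s = 0`, in particular `P j 0 = 0`; for `s ∉ S`, `s ≠ 0` the relation at this `j` gives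
`P 0 s = P j s - P j 0 = 0`. And for `s ∈ S` also `P 0 s = 0`. So `P 0 s = 0` for all `s`, so
`P s 0 = 0` for all `s`, contradicting `inv`.

PROOF of `nt_lam`. As `P` is not of top level type there are `s` and `a` with `∑ a = 0` and
`A P a s ≠ A P a 0`; `s ≠ 0`. Since `∑_j lam P s j * a j = A P a 0 - A P a s ≠ 0`
(using `∑ a = 0`), some `lam P s j ≠ 0`.
-/

open Finset

namespace Pool.Agent.P5m

variable {r : ℕ}

/-- The negation of a nonvanishing statement on the hyperplane. -/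
theorem Af_zero_of {Q : Fin (r + 1) → Fin (r + 1) → ℤ} {k : Fin (r + 1)}
    (h : ¬ ∃ a : Fin (r + 1) → ℚ, ∑ j, a j = 0 ∧ A Q a k ≠ 0) : Af Q k = 0 := by
  push Not at h
  ext v
  exact h v.1 v.2

theorem Af_eq_of {Q : Fin (r + 1) → Fin (r + 1) → ℤ} {k : Fin (r + 1)}
    (h : ¬ ∃ a : Fin (r + 1) → ℚ, ∑ j, a j = 0 ∧ A Q a k ≠ A Q a 0) : Af Q k = Af Q 0 := by
  push Not at h
  ext v
  exact h v.1 v.2

theorem semi {P P' : Fin (r + 1) → Fin (r + 1) → ℤ} (hP : Nt P) (hP' : Nt P') :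
    ∃ s : Fin (r + 1), s ≠ 0 ∧
      (((∃ a : Fin (r + 1) → ℚ, ∑ j, a j = 0 ∧ A P a s ≠ A P a 0) ∧
          ∃ a : Fin (r + 1) → ℚ, ∑ j, a j = 0 ∧ A P' a s ≠ 0) ∨
        ((∃ a : Fin (r + 1) → ℚ, ∑ j, a j = 0 ∧ A P' a s ≠ A P' a 0) ∧
          ∃ a : Fin (r + 1) → ℚ, ∑ j, a j = 0 ∧ A P a s ≠ 0)) := by
  by_contra hcon
  have hP0 : Af P 0 ≠ 0 := by
    intro h0
    obtain ⟨j, hj⟩ := hP.inv
    exact hj (form_zero hP.sm.anti 0 h0 j)
  have hP'0 : Af P' 0 ≠ 0 := by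
    intro h0
    obtain ⟨j, hj⟩ := hP'.inv
    exact hj (form_zero hP'.sm.anti 0 h0 j)
  -- the dichotomy
  have key : ∀ s : Fin (r + 1), s ≠ 0 → Af P s = 0 ∨ Af P s = Af P 0 := by
    intro s hs
    by_cases h1 : ∃ a : Fin (r + 1) → ℚ, ∑ j, a j = 0 ∧ A P' a s ≠ 0
    · right
      refine Af_eq_of fun h2 => ?_
      exact hcon ⟨s, hs, Or.inl ⟨h2, h1⟩⟩
    · left
      have h2 : Af P' s = 0 := Af_zero_of h1
      refine Af_zero_of fun h3 => ?_
      refine hcon ⟨s, hs, Or.inr ⟨?_, h3⟩⟩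
      by_contra h4
      have h5 := Af_eq_of h4
      rw [h2] at h5
      exact hP'0 h5.symm
  -- the relation for `Af P s = Af P 0`
  have hrel : ∀ s, Af P s = Af P 0 → ∀ j, P j s - P j 0 = P 0 s := by
    intro s h1 j
    have h2 := Af_dv P s j 0
    rw [h1, Af_dv, anti_diag hP.sm.anti 0] at h2
    have h3 : P j 0 - 0 = P j s - P 0 s := by exact_mod_cast h2
    omega
  by_cases hS : ∃ j, j ≠ 0 ∧ Af P j = 0
  · obtain ⟨j, hj, hj0⟩ := hS
    have h1 : ∀ t, P t j = 0 := form_zero hP.sm.anti j hj0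
    have h2 : ∀ t, P j t = 0 := by
      intro t
      rw [hP.sm.anti t j, h1 t, neg_zero]
    have h3 : ∀ s, P 0 s = 0 := by
      intro s
      by_cases hs : s = 0
      · rw [hs]
        exact anti_diag hP.sm.anti 0
      · rcases key s hs with h4 | h4
        · exact form_zero hP.sm.anti s h4 0
        · rw [← hrel s h4 j, h2, h2, sub_zero]
    obtain ⟨i, hi⟩ := hP.inv
    apply hi
    rw [hP.sm.anti 0 i, h3 i, neg_zero]
  · push Not at hS
    apply hP.ntp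
    intro k a ha
    by_cases hk : k = 0
    · rw [hk]
    · rcases key k hk with h1 | h1
      · exact absurd h1 (hS k hk)
      · exact LinearMap.congr_fun h1 ⟨a, ha⟩

theorem nt_lam {P : Fin (r + 1) → Fin (r + 1) → ℤ} (hP : Nt P) :
    ∃ s : Fin (r + 1), s ≠ 0 ∧ ∃ j, lam P s j ≠ 0 := by
  have h1 := hP.ntp
  unfold Tp at h1
  push Not at h1
  obtain ⟨s, a, ha, hne⟩ := h1
  refine ⟨s, ?_, ?_⟩
  · intro hs
    rw [hs] at hne
    exact hne rfl
  · by_contra hc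
    push Not at hc
    apply hne
    have h2 : A P a 0 - A P a s = 0 := by
      have h3 : A P a 0 - A P a s = ∑ j, ((lam P s j : ℤ) : ℚ) * a j - (P 0 s : ℚ) * ∑ j, a j := by
        unfold A lam
        rw [← sum_sub_distrib, mul_sum, ← sum_sub_distrib]
        refine sum_congr rfl fun j _ => ?_
        push_cast
        ring
      rw [h3, ha]
      simp [hc]
    linarith

end Pool.Agent.P5m
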