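import Pool.Agent.Lib.P5m.CombA

/-!
# Sums of two zeros determine the zeros: the algebraic part

The zeros are the rational functions `- nu F / de F`; `none` stands for the special zero with
denominator `1`.

PROOF of `e6_ne`. Write `Q = Dl σ τ`, `p = A_0(Q)` on the hyperplane `Hp r`. By `irr` there is `k`
such that `A_k(Q)` does not vanish identically on `ker p` (a subspace of `Hp r`); `k ≠ 0`. Each
`de F_i` (`i = 2, 3, 4`) is either the constant `1` or the functional `q = A_0(Dl σ' τ')` with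
`Dl σ' τ'` disjoint from `Q`; this `q` is nonzero and not proportional to `p` (if `q = μ p` on
`Hp r`, then `Q' j 0 - μ Q j 0` is constant in `j`, so zero by `j = 0`, and by disjointness
`Q' j 0 = 0` for all `j`, contradiction), so it does not vanish identically on `ker p` (if `q`
vanishes on `ker p` then `q = μ p` by `prop_of_ker`). By `lin_ne` on the space `ker p` there is
`a ∈ ker p` with `A_k(Q)(a) ≠ 0` and all `de F_i (a) ≠ 0`. Take `b = Pi.single k 1`: then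
`nu (some (σ, τ)) = A_k(Q)(a) ≠ 0`, `de (some (σ, τ)) = p(a) = 0`, so
`E6 = nu F_1 * de F_2 * de F_3 * de F_4 ≠ 0`. Same for `E7` (factor `2 ≠ 0` in `ℚ`).
-/

open Finset

namespace Pool.Agent.P5m

variable {r : ℕ}

/-- The fraction `F` is special, or of nontrivial type with a support disjoint from `Q`. -/
def Dj (Q : Fin (r + 1) → Fin (r + 1) → ℤ)
    (F : Option (Equiv.Perm (Fin (r + 1)) × Equiv.Perm (Fin (r + 1)))) : Prop :=
  ∀ σ τ, F = some (σ, τ) → Nt (Dl σ τ) ∧ ∀ j k, Q j k = 0 ∨ Dl σ τ j k = 0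

private theorem sid_df {Q Q' : Fin (r + 1) → Fin (r + 1) → ℤ} (hQ : Nt Q) (hQ' : Nt Q')
    (hd : ∀ j k, Q j k = 0 ∨ Q' j k = 0) : ∃ v : Hp r, Af Q 0 v = 0 ∧ Af Q' 0 v ≠ 0 := by
  by_contra hcon
  push Not at hcon
  obtain ⟨c, hc⟩ := prop_of_ker (Af Q 0) (Af Q' 0) hcon
  obtain ⟨j, hj⟩ := hQ'.inv
  have h0 : ∀ P : Fin (r + 1) → Fin (r + 1) → ℤ, Nt P → P 0 0 = 0 := by
    intro P hP
    have := hP.sm.anti 0 0
    omega
  have hj0 : j ≠ 0 := by
    rintro rfl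
    exact hj (h0 Q' hQ')
  have hv : (Pi.single j 1 - Pi.single 0 1 : Fin (r + 1) → ℚ) ∈ Hp r := by
    change ∑ i, (Pi.single j 1 - Pi.single 0 1 : Fin (r + 1) → ℚ) i = 0
    simp [Pi.sub_apply, Finset.sum_sub_distrib]
  have hA : ∀ P : Fin (r + 1) → Fin (r + 1) → ℤ, Nt P →
      Af P 0 ⟨_, hv⟩ = (P j 0 : ℚ) := by
    intro P hP
    change A P (Pi.single j 1 - Pi.single 0 1 : Fin (r + 1) → ℚ) 0 = _
    unfold A
    simp only [Pi.sub_apply, mul_sub, Finset.sum_sub_distrib]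
    rw [Finset.sum_eq_single j, Finset.sum_eq_single 0]
    · simp [h0 P hP]
    · intro i _ hi
      simp [hi]
    · simp
    · intro i _ hi
      simp [hi]
    · simp
  have h1 := LinearMap.congr_fun hc ⟨_, hv⟩
  rw [LinearMap.smul_apply, hA Q hQ, hA Q' hQ'] at h1
  rcases hd j 0 with h2 | h2
  · rw [h2] at h1
    simp at h1
    exact hj h1
  · exact hj h2

private theorem sid_aux (σ τ : Equiv.Perm (Fin (r + 1))) (h : Nt (Dl σ τ))
    (F₂ F₃ F₄ : Option (Equiv.Perm (Fin (r + 1)) × Equiv.Perm (Fin (r + 1))))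
    (h₂ : Dj (Dl σ τ) F₂) (h₃ : Dj (Dl σ τ) F₃) (h₄ : Dj (Dl σ τ) F₄) :
    ∃ a b : Fin (r + 1) → ℚ, ∑ j, a j = 0 ∧ de (some (σ, τ)) a = 0 ∧
      nu (some (σ, τ)) a b ≠ 0 ∧ de F₂ a ≠ 0 ∧ de F₃ a ≠ 0 ∧ de F₄ a ≠ 0 := by
  obtain ⟨k, v, hv0, hvk⟩ := irr h
  set V' : Submodule ℚ (Hp r) := LinearMap.ker (Af (Dl σ τ) 0) with hV'
  let g : V' →ₗ[ℚ] ℚ := (Af (Dl σ τ) k) ∘ₗ V'.subtype
  let df : Option (Equiv.Perm (Fin (r + 1)) × Equiv.Perm (Fin (r + 1))) → (V' →ₗ[ℚ] ℚ) :=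
    fun F => match F with
      | none => g
      | some (σ', τ') => (Af (Dl σ' τ') 0) ∘ₗ V'.subtype
  have hg : g ≠ 0 := by
    intro h0
    have := LinearMap.congr_fun h0 ⟨v, hv0⟩
    exact hvk this
  have hdf : ∀ F, Dj (Dl σ τ) F → df F ≠ 0 := by
    intro F hF h0
    cases F with
    | none => exact hg h0
    | some p =>
      obtain ⟨σ', τ'⟩ := p
      obtain ⟨hn, hd⟩ := hF σ' τ' rfl
      obtain ⟨w, hw0, hw1⟩ := sid_df h hn hd
      have := LinearMap.congr_fun h0 ⟨w, hw0⟩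
      exact hw1 this
  let fs : Fin 4 → (V' →ₗ[ℚ] ℚ) := fun i => if i = 0 then g else if i = 1 then df F₂ else
    if i = 2 then df F₃ else df F₄
  obtain ⟨w, hw⟩ := lin_ne (V := V') (Finset.univ : Finset (Fin 4)) fs (by
    intro i _
    fin_cases i
    · exact hg
    · exact hdf _ h₂
    · exact hdf _ h₃
    · exact hdf _ h₄)
  have hw0 : g w ≠ 0 := hw 0 (Finset.mem_univ _)
  have hw2 : df F₂ w ≠ 0 := hw 1 (Finset.mem_univ _)
  have hw3 : df F₃ w ≠ 0 := hw 2 (Finset.mem_univ _)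
  have hw4 : df F₄ w ≠ 0 := hw 3 (Finset.mem_univ _)
  have hde : ∀ F, df F w ≠ 0 → de F w.1.1 ≠ 0 := by
    intro F hF
    cases F with
    | none => exact one_ne_zero
    | some p =>
      obtain ⟨σ', τ'⟩ := p
      exact hF
  have hz : A (Dl σ τ) w.1.1 0 = 0 := w.2
  have hk : k ≠ 0 := by
    rintro rfl
    exact hw0 hz
  refine ⟨w.1.1, Pi.single k 1, w.1.2, hz, ?_, hde _ hw2, hde _ hw3, hde _ hw4⟩
  change cf (Dl σ τ) w.1.1 (Pi.single k 1) ≠ 0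
  unfold cf
  rw [Finset.sum_eq_single k]
  · rw [Pi.single_eq_same, one_mul]
    exact hw0
  · intro i _ hi
    simp [hi]
  · intro hk'
    exact absurd (Finset.mem_erase.2 ⟨hk, Finset.mem_univ _⟩) hk'

theorem e6_ne (σ τ : Equiv.Perm (Fin (r + 1))) (h : Nt (Dl σ τ))
    (F₂ F₃ F₄ : Option (Equiv.Perm (Fin (r + 1)) × Equiv.Perm (Fin (r + 1))))
    (h₂ : Dj (Dl σ τ) F₂) (h₃ : Dj (Dl σ τ) F₃) (h₄ : Dj (Dl σ τ) F₄) :
    ¬ Idz (r := r) fun a b => E6 (some (σ, τ)) F₂ F₃ F₄ a b := by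
  intro hI
  obtain ⟨a, b, ha, h0, h1, h2, h3, h4⟩ := sid_aux σ τ h F₂ F₃ F₄ h₂ h₃ h₄
  have this : E6 (some (σ, τ)) F₂ F₃ F₄ a b = 0 := hI a b ha
  unfold E6 at this
  rw [h0] at this
  simp only [mul_zero, zero_mul, add_zero, sub_zero] at this
  exact mul_ne_zero (mul_ne_zero (mul_ne_zero h1 h2) h3) h4 this

theorem e7_ne (σ τ : Equiv.Perm (Fin (r + 1))) (h : Nt (Dl σ τ))
    (F₃ F₄ : Option (Equiv.Perm (Fin (r + 1)) × Equiv.Perm (Fin (r + 1))))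
    (h₃ : Dj (Dl σ τ) F₃) (h₄ : Dj (Dl σ τ) F₄) :
    ¬ Idz (r := r) fun a b => E7 (some (σ, τ)) F₃ F₄ a b := by
  intro hI
  obtain ⟨a, b, ha, h0, h1, _, h3, h4⟩ := sid_aux σ τ h F₃ F₃ F₄ h₃ h₃ h₄
  have this : E7 (some (σ, τ)) F₃ F₄ a b = 0 := hI a b ha
  unfold E7 at this
  rw [h0] at this
  simp only [mul_zero, zero_mul, sub_zero] at this
  exact mul_ne_zero (mul_ne_zero (mul_ne_zero two_ne_zero h1) h3) h4 this

end Pool.Agent.P5m
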