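import Pool.Agent.Lib.P5m.Defs

/-!
# Small auxiliary facts

PROOF of `trace_small`. Embed `Matrix (Fin l) (Fin l) K` into `Matrix (Fin n) (Fin n) K` as the
upper left corner (`Matrix.fromBlocks A 0 0 0`, reindexed by `finSumFinEquiv`, `n = l + (n - l)`).
This map is additive, multiplicative and preserves the trace, so it maps the product of a nonempty
list to the product of the images; hence it commutes with `mval` for `m = r + 1 ≥ 1` letters.

PROOF of `mval_shift`. Reindex the sum over the permutations by `τ ↦ σ₀ * τ`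
(see the end of `Pool.Agent.P5e96.zero_block`).

PROOF of `frob`. Coprime `l, l'`, `n ≥ l * l'`: choose `x < l'` with `x * l ≡ n (mod l')`, then
`x * l ≤ n` and `l' ∣ n - x * l`. With `n - l'` instead of `n`: if `n ≥ l * l' + l'` one gets
`y ≥ 1`.

PROOF of `exists_primes`: infinitely many primes.
-/

open Finset Matrix

namespace Pool.Agent.P5m

variable {r : ℕ} {K : Type*} [Field K]

theorem corner_prod {n l : ℕ} (L : List (Matrix (Fin l) (Fin l) K)) (hL : L ≠ []) :
    (L.map fun M => (Matrix.fromBlocks M 0 0 0 :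
      Matrix (Fin l ⊕ Fin n) (Fin l ⊕ Fin n) K)).prod = Matrix.fromBlocks L.prod 0 0 0 := by
  induction L with
  | nil => exact absurd rfl hL
  | cons M L ih =>
    rcases L with _ | ⟨M', L⟩
    · simp
    · rw [List.map_cons, List.prod_cons, ih (by simp), List.prod_cons (a := M),
        Matrix.fromBlocks_multiply]
      simp

theorem trace_small (α : Equiv.Perm (Fin (r + 1)) → K) {n l : ℕ} (hl : l ≤ n)
    (h : ∀ A : Fin (r + 1) → Matrix (Fin n) (Fin n) K, (P5e96.mval α A).trace = 0)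
    (A : Fin (r + 1) → Matrix (Fin l) (Fin l) K) : (P5e96.mval α A).trace = 0 := by
  obtain ⟨d, rfl⟩ := Nat.exists_eq_add_of_le hl
  set Ψ := Matrix.reindexAlgEquiv K K (finSumFinEquiv (m := l) (n := d)) with hΨ
  have h1 := h (fun q => Ψ (Matrix.fromBlocks (A q) 0 0 0))
  have h2 : P5e96.mval α (fun q => Ψ (Matrix.fromBlocks (A q) 0 0 0)) =
      Ψ (Matrix.fromBlocks (P5e96.mval α A) 0 0 0) := by
    have h3 : Matrix.fromBlocks (P5e96.mval α A) 0 0 0 =
        ∑ σ : Equiv.Perm (Fin (r + 1)), α σ •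
          (Matrix.fromBlocks ((List.ofFn fun i => A (σ i)).prod) 0 0 0 :
            Matrix (Fin l ⊕ Fin d) (Fin l ⊕ Fin d) K) := by
      ext i j
      rw [Matrix.sum_apply]
      rcases i with i | i <;> rcases j with j | j
      · simp only [Matrix.fromBlocks_apply₁₁, Matrix.smul_apply, P5e96.mval, Matrix.sum_apply]
      · simp
      · simp
      · simp
    rw [h3, P5e96.mval, map_sum]
    refine Finset.sum_congr rfl fun σ _ => ?_
    rw [map_smul, ← corner_prod _ (by simp), map_list_prod, List.map_map, List.map_ofFn]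
    rfl
  rw [h2] at h1
  rw [← h1, Matrix.trace, Matrix.trace]
  have h4 : ∀ i, (Ψ (Matrix.fromBlocks (P5e96.mval α A) 0 0 0)).diag i =
      (Matrix.fromBlocks (P5e96.mval α A) 0 0 0 :
        Matrix (Fin l ⊕ Fin d) (Fin l ⊕ Fin d) K).diag (finSumFinEquiv.symm i) := fun i => rfl
  simp only [h4]
  rw [Equiv.sum_comp finSumFinEquiv.symm, Fintype.sum_sum_type]
  simp

theorem mval_shift {ι : Type*} [Fintype ι] [DecidableEq ι] (α : Equiv.Perm (Fin (r + 1)) → K)
    (σ₀ : Equiv.Perm (Fin (r + 1))) (A : Fin (r + 1) → Matrix ι ι K) :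
    P5e96.mval α (fun q => A (σ₀.symm q)) = P5e96.mval (fun τ => α (σ₀ * τ)) A := by
  rw [P5e96.mval, P5e96.mval, ← Equiv.sum_comp (Equiv.mulLeft σ₀)]
  refine Finset.sum_congr rfl fun τ _ => ?_
  simp [Equiv.Perm.mul_apply]

theorem frob (l l' n : ℕ) (h : Nat.Coprime l l') (hl : 0 < l) (hl' : 0 < l')
    (hn : l * l' + l' ≤ n) : ∃ x y : ℕ, 1 ≤ y ∧ n = x * l + y * l' := by
  obtain ⟨x, hxl, hu⟩ := Nat.exists_mul_mod_eq_of_coprime (n := l) (k := l') (n % l') h hl'.ne'
  have h1 : (x * l) % l' = n % l' := by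
    rw [mul_comm, hu, Nat.mod_mod]
  have h2 : x * l ≤ n - l' := by
    have : x * l ≤ l' * l := Nat.mul_le_mul_right _ hxl.le
    have h3 : l' * l = l * l' := mul_comm _ _
    omega
  have h3 : l' ∣ n - x * l := by
    have := (Nat.modEq_iff_dvd' (n := l') (show x * l ≤ n by omega)).1 h1
    exact this
  obtain ⟨y, hy⟩ := h3
  refine ⟨x, y, ?_, ?_⟩
  · by_contra h4
    have h5 : y = 0 := by omega
    rw [h5, mul_zero] at hy
    omega
  · rw [mul_comm y l', ← hy]
    omega

theorem exists_primes (L k : ℕ) : ∃ P : Finset ℕ, P.card = k ∧ ∀ p ∈ P, p.Prime ∧ L < p := by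
  have h1 : {p : ℕ | p.Prime ∧ L < p}.Infinite := by
    rw [Set.infinite_iff_exists_gt]
    intro a
    obtain ⟨p, hp1, hp2⟩ := Nat.exists_infinite_primes (max a L + 1)
    exact ⟨p, ⟨hp2, by omega⟩, by omega⟩
  obtain ⟨P, hP1, hP2⟩ := h1.exists_subset_card_eq k
  exact ⟨P, hP2, fun p hp => hP1 hp⟩

end Pool.Agent.P5m
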