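import Pool.Agent.Lib.P5m.Gen
import Pool.Agent.Lib.P5m.Count
import Pool.Agent.Lib.P5m.TBlock
import Pool.Agent.Lib.P5m.DecPeel
import Pool.Agent.Lib.P5m.Small

/-!
# Trace-vanishing multilinear polynomials: all matrices of trace zero are values
-/

open Finset Matrix

namespace Pool.Agent.P5m

universe u

variable {r : ℕ} {K : Type u} [Field K]

theorem sum_pd (s : ℕ) (hs : 1 ≤ s) (d μ : K) : ∑ i, pd s d μ i = d + ((s : K) - 1) * μ := by
  obtain ⟨t, rfl⟩ : ∃ t, s = t + 1 := ⟨s - 1, by omega⟩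
  rw [Fin.sum_univ_succ]
  simp [pd]

/-- All trace zero endomorphisms of spaces of dimension `n` have a decomposition. -/
def AllDec (α : Equiv.Perm (Fin (r + 1)) → K) (n : ℕ) : Prop :=
  ∀ (V : Type u) [AddCommGroup V] [Module K V] [FiniteDimensional K V],
    Module.finrank K V = n → ∀ T : V →ₗ[K] V, LinearMap.trace K V T = 0 → Dec α T

theorem finrank_compl {V : Type u} [AddCommGroup V] [Module K V] [FiniteDimensional K V]
    {s n : ℕ} (v : Fin s → V) (W : Submodule K V) (hv : LinearIndependent K v)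
    (hW : IsCompl (Submodule.span K (Set.range v)) W) (hn : Module.finrank K V = n + s) :
    Module.finrank K W = n := by
  have h1 := Submodule.finrank_add_eq_of_isCompl hW
  rw [finrank_span_eq_card hv, Fintype.card_fin] at h1
  omega

theorem eq_zero_of_scalar [CharZero K] {V : Type u} [AddCommGroup V] [Module K V]
    [FiniteDimensional K V] (hV : 0 < Module.finrank K V) (T : V →ₗ[K] V)
    (hT : LinearMap.trace K V T = 0) (h : ¬ ∀ μ : K, T ≠ μ • LinearMap.id) : T = 0 := by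
  push Not at h
  obtain ⟨μ, hμ⟩ := h
  rw [hμ, map_smul, LinearMap.trace_id, smul_eq_mul] at hT
  rcases mul_eq_zero.1 hT with h | h
  · rw [hμ, h, zero_smul]
  · exact absurd (Nat.cast_eq_zero.1 h) hV.ne'

theorem allDec_base [CharZero K] (α : Equiv.Perm (Fin (r + 1)) → K) (l : ℕ) (hl : 0 < l)
    (ha : ∀ D : Fin l → K, ∑ i, D i = 0 → Att α l D) : AllDec α (2 * l) := by
  intro V _ _ _ hV T hT
  by_cases h : ∀ μ : K, T ≠ μ • LinearMap.id
  · obtain ⟨D, hD, hD0⟩ := two_trace T h l hV 0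
    refine dec_of_blk α T _ D hD ?_
    have h1 := trace_blk T _ D hD
    rw [hT, Fin.sum_univ_two, hD0, zero_add] at h1
    intro a
    fin_cases a
    · exact ha _ hD0
    · exact ha _ h1.symm
  · rw [eq_zero_of_scalar (by omega) T hT h]
    exact dec_zero α (fun _ : Fin 2 => l) (by simp [hV]) fun _ => ha _ (by simp)

theorem allDec_step [CharZero K] (α : Equiv.Perm (Fin (r + 1)) → K) (n s : ℕ) (hs : 1 ≤ s)
    (hn : 2 * s + 2 ≤ n) (ha : ∀ D : Fin s → K, ∑ i, D i = 0 → Att α s D)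
    (ih : AllDec α n) : AllDec α (n + s) := by
  intro V _ _ _ hV T hT
  by_cases h : ∀ μ : K, T ≠ μ • LinearMap.id
  · obtain ⟨μ, hμ⟩ := peel T h s hs (by omega)
    obtain ⟨v, W, T', hv, hW, h1, h2, -⟩ := hμ (-(((s : K) - 1) * μ))
    have h3 : ∑ i, pd s (-(((s : K) - 1) * μ)) μ i = 0 := by
      rw [sum_pd s hs]; ring
    refine dec_peel α T _ μ v W T' hv hW h1 h2 (ha _ h3) ?_
    refine ih W (finrank_compl v W hv hW hV) T' ?_
    have h4 := trace_peel T _ μ v W T' hv hW h1 h2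
    rw [hT, h3, zero_add] at h4
    exact h4.symm
  · rw [eq_zero_of_scalar (by omega) T hT h]
    obtain ⟨v, hv⟩ : ∃ v : Fin s → V, LinearIndependent K v := by
      have b := Module.finBasisOfFinrankEq K V hV
      have hsn : s ≤ n + s := by omega
      exact ⟨fun i => b (Fin.castLE hsn i),
        b.linearIndependent.comp (Fin.castLE hsn) (Fin.castLE_injective hsn)⟩
    obtain ⟨W, hW⟩ := Submodule.exists_isCompl (Submodule.span K (Set.range v))
    have h3 : (fun i : Fin s => pd s (0 : K) 0 i) = fun _ => 0 := by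
      funext i; simp [pd]
    refine dec_peel α 0 (0 : K) 0 v W 0 hv hW ?_ ?_ (ha _ (by simp [pd]))
      (ih W (finrank_compl v W hv hW hV) 0 (by simp))
    · intro i
      simp [pd]
    · intro w
      simp

theorem allDec_all [CharZero K] (α : Equiv.Perm (Fin (r + 1)) → K) (l l' : ℕ) (hl' : 2 ≤ l')
    (hll : l' < l) (ha : ∀ D : Fin l → K, ∑ i, D i = 0 → Att α l D)
    (ha' : ∀ D : Fin l' → K, ∑ i, D i = 0 → Att α l' D) (x y : ℕ) (hy : 1 ≤ y) :
    AllDec α (2 * l + (x * l + y * l')) := by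
  have h1 : ∀ y : ℕ, AllDec α (2 * l + y * l') := by
    intro y
    induction y with
    | zero => simpa using allDec_base α l (by omega) ha
    | succ y ih =>
      have := allDec_step α (2 * l + y * l') l' (by omega) (by
        have := Nat.zero_le (y * l'); omega) ha' ih
      rw [show 2 * l + (y + 1) * l' = 2 * l + y * l' + l' by ring]
      exact this
  induction x with
  | zero => simpa using h1 y
  | succ x ih =>
    have h2 : l' ≤ y * l' := Nat.le_mul_of_pos_left l' (by omega)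
    have := allDec_step α (2 * l + (x * l + y * l')) l (by omega) (by
      have := Nat.zero_le (x * l); omega) ha ih
    rw [show 2 * l + ((x + 1) * l + y * l') = 2 * l + (x * l + y * l') + l by ring]
    exact this

/-- The bound and the two good primes. -/
theorem exists_two_good (r : ℕ) : ∃ M : ℕ, ∀ (K : Type u) [Field K] [CharZero K]
    (α : Equiv.Perm (Fin (r + 1)) → K), ∃ l l' : ℕ, l.Prime ∧ l'.Prime ∧ l' < l ∧ l ≤ M ∧
      Good l α ∧ Good l' α ∧ (∃ a b : Fin (r + 1) → ZMod l, Gpt l a b) ∧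
      ∃ a b : Fin (r + 1) → ZMod l', Gpt l' a b := by
  classical
  obtain ⟨L, hL⟩ := exists_gpt r
  set w := Fintype.card (Equiv.Perm (Fin (r + 1))) with hw
  obtain ⟨P, hP1, hP2⟩ := exists_primes (max L w) (w + 2)
  refine ⟨P.sup id, fun K _ _ α => ?_⟩
  have h1 : (P.filter fun p => ¬ Good p α).card ≤ w := by
    refine count_bad α _ fun p hp => ?_
    rw [Finset.mem_filter] at hp
    exact ⟨(hP2 p hp.1).1, lt_of_le_of_lt (le_max_right _ _) (hP2 p hp.1).2, hp.2⟩
  have h2 := Finset.card_filter_add_card_filter_not (s := P) (fun p => Good p α)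
  have h3 : 1 < (P.filter fun p => Good p α).card := by omega
  obtain ⟨p, hp, q, hq, hpq⟩ := Finset.one_lt_card.1 h3
  rw [Finset.mem_filter] at hp hq
  have hpM : ∀ p ∈ P, p ≤ P.sup id := fun p hp => Finset.le_sup (f := id) hp
  have hpL : ∀ p ∈ P, L < p := fun p hp => lt_of_le_of_lt (le_max_left _ _) (hP2 p hp).2
  rcases lt_or_gt_of_ne hpq with h | h
  · exact ⟨q, p, (hP2 q hq.1).1, (hP2 p hp.1).1, h, hpM q hq.1, hq.2, hp.2,
      hL q (hP2 q hq.1).1 (hpL q hq.1), hL p (hP2 p hp.1).1 (hpL p hp.1)⟩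
  · exact ⟨p, q, (hP2 p hp.1).1, (hP2 q hq.1).1, h, hpM p hp.1, hp.2, hq.2,
      hL p (hP2 p hp.1).1 (hpL p hp.1), hL q (hP2 q hq.1).1 (hpL q hq.1)⟩

/-- Trace-vanishing multilinear polynomials attain every matrix of trace zero. -/
theorem value_trace (r : ℕ) : ∃ N : ℕ, ∀ n ≥ N, ∀ (K : Type u) [Field K] [CharZero K]
    (α : Equiv.Perm (Fin (r + 1)) → K), α ≠ 0 →
    (∀ A : Fin (r + 1) → Matrix (Fin n) (Fin n) K, (P5e96.mval α A).trace = 0) →
    ∀ T : Matrix (Fin n) (Fin n) K, T.trace = 0 →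
      ∃ A : Fin (r + 1) → Matrix (Fin n) (Fin n) K, P5e96.mval α A = T := by
  obtain ⟨M, hM⟩ := exists_two_good.{u} r
  refine ⟨3 * M + M * M, fun n hn K _ _ α hα htr T hT => ?_⟩
  obtain ⟨σ₀, hσ₀⟩ := Function.ne_iff.1 hα
  set α' : Equiv.Perm (Fin (r + 1)) → K := fun τ => α (σ₀ * τ) with hα'
  have hα1 : α' 1 ≠ 0 := by simpa [hα'] using hσ₀
  obtain ⟨l, l', hl, hl', hll, hlM, hg, hg', ⟨a, b, hab⟩, a', b', hab'⟩ := hM K α'
  have htr' : ∀ A : Fin (r + 1) → Matrix (Fin n) (Fin n) K, (P5e96.mval α' A).trace = 0 := by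
    intro A
    rw [hα', ← mval_shift α σ₀ A]
    exact htr _
  have h1 : l * l' ≤ M * M := Nat.mul_le_mul hlM (by omega)
  obtain ⟨x, y, hy, hxy⟩ := frob l l' (n - 2 * l) ((Nat.coprime_primes hl hl').2 (by omega))
    hl.pos hl'.pos (by omega)
  have hn' : n = 2 * l + (x * l + y * l') := by omega
  have ha : ∀ D : Fin l → K, ∑ i, D i = 0 → Att α' l D := fun D hD =>
    att_trace hl α' hα1 hg a b hab (fun A => trace_small α' (by omega) htr' A) D hD
  have ha' : ∀ D : Fin l' → K, ∑ i, D i = 0 → Att α' l' D := fun D hD =>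
    att_trace hl' α' hα1 hg' a' b' hab' (fun A => trace_small α' (by omega) htr' A) D hD
  have h2 := allDec_all α' l l' hl'.two_le hll ha ha' x y hy
  rw [← hn'] at h2
  obtain ⟨A, hA⟩ := value_of_dec α' T (h2 (Fin n → K) (by simp) (Matrix.toLin' T) (by
    rw [Matrix.trace_toLin'_eq]; exact hT))
  exact ⟨fun q => A (σ₀.symm q), by rw [mval_shift]; exact hA⟩

end Pool.Agent.P5m
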