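import Pool.Agent.Lib.P5m.Ws

/-!
# Block weighted shifts

`wsM s U`: at the position `((x, i), (y, i + s))` the entry `U i x y`; here `U i` is a matrix of
small size.

PROOF. As in `Ws`: `wsM s U * wsM t V = wsM (s + t) (fun i => U i * V (i + s))`, so the product over
the word `σ` is `wsM (∑ a)` of the function `i ↦ ` product over the positions `t` of
`U (σ t) (i + pre σ a (σ t))`. (The private lemmas `ws_prod`, `ws_pre` of `Ws` can be copied.)

PROOF of `gmat_wsM`. `C q = wsM (a q) (U q)` with upper triangular `2 × 2` blocks with the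
diagonal entries `w q i` and `v q i` for `q ≠ 0`. `gmat α C = ∑_{σ 0 = 0} α σ • (tail product)`; the tail
product is `wsM (∑_{k ≠ 0} a k) (i ↦ product of the U k (i - a 0 + pre σ a k), k = σ 1, ..., σ r)`, and
this product is an upper triangular matrix with the diagonal entries
`∏_{k ≠ 0} w k (i - a 0 + pre σ a k)` and `∏_{k ≠ 0} v k (i - a 0 + pre σ a k)`. So
`gmat α C = wsM (∑_{k ≠ 0} a k) G` with `G i` upper triangular with diagonal entries
`gvec α a w i`, `gvec α a v i`, both nonzero, so `G i` is invertible. If `Y * wsM s G = 0`, then the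
entries `∑_x Y p (x, i) * G i x y = 0` for all `p, i, y`, so `Y = 0`.
(Alternative for the diagonal entries: the entry `(0, 0)` of upper triangular matrices is
multiplicative, similarly for `(1, 1)`, and the entry `(1, 0)` of products is zero.)
-/

open Finset Matrix

namespace Pool.Agent.P5m

variable {r : ℕ} {K : Type*} [Field K]

/-- A block weighted shift. -/
def wsM {β : Type*} {l : ℕ} (s : ZMod l) (U : ZMod l → Matrix β β K) :
    Matrix (β × ZMod l) (β × ZMod l) K :=
  fun p q => if q.2 = p.2 + s then U p.2 p.1 q.1 else 0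

/-- The value of the multilinear expression on matrix valued weights. -/
def PsiM {β : Type*} [Fintype β] [DecidableEq β] {l m : ℕ} (α : Equiv.Perm (Fin m) → K)
    (a : Fin m → ZMod l) (U : Fin m → ZMod l → Matrix β β K) (i : ZMod l) : Matrix β β K :=
  ∑ σ, α σ • (List.ofFn fun t => U (σ t) (i + pre σ a (σ t))).prod

private theorem wsM_one {β : Type*} [Fintype β] [DecidableEq β] {l : ℕ} [NeZero l] :
    wsM (K := K) (0 : ZMod l) (fun _ => (1 : Matrix β β K)) = 1 := by
  ext p q
  rw [Matrix.one_apply]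
  unfold wsM
  rw [add_zero]
  change (if q.2 = p.2 then (1 : Matrix β β K) p.1 q.1 else 0) = _
  rw [Matrix.one_apply]
  by_cases h : p = q
  · rw [h, if_pos rfl, if_pos rfl, if_pos rfl]
  · rw [if_neg h]
    split_ifs with h1 h2
    · exact absurd (Prod.ext h2 h1.symm) h
    · rfl
    · rfl

private theorem wsM_mul {β : Type*} [Fintype β] [DecidableEq β] {l : ℕ} [NeZero l] (s t : ZMod l)
    (U V : ZMod l → Matrix β β K) :
    wsM s U * wsM t V = wsM (s + t) (fun i => U i * V (i + s)) := by
  ext p q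
  rw [Matrix.mul_apply]
  unfold wsM
  rw [Fintype.sum_prod_type]
  have h1 : ∀ x : β, ∑ j : ZMod l, (if (x, j).2 = p.2 + s then U p.2 p.1 (x, j).1 else 0) *
      (if q.2 = (x, j).2 + t then V (x, j).2 (x, j).1 q.1 else 0) =
      U p.2 p.1 x * (if q.2 = p.2 + s + t then V (p.2 + s) x q.1 else 0) := by
    intro x
    rw [Finset.sum_eq_single (p.2 + s)]
    · simp
    · intro j _ hj
      simp only
      rw [if_neg hj, zero_mul]
    · intro h
      exact absurd (Finset.mem_univ _) h
  rw [Finset.sum_congr rfl fun x _ => h1 x, ← add_assoc]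
  split_ifs with h
  · change _ = (U p.2 * V (p.2 + s)) p.1 q.1
    rw [Matrix.mul_apply]
  · simp

private theorem wsM_prod {β : Type*} [Fintype β] [DecidableEq β] {l : ℕ} [NeZero l] :
    ∀ (n : ℕ) (s : Fin n → ZMod l) (U : Fin n → ZMod l → Matrix β β K),
      (List.ofFn fun t => wsM (s t) (U t)).prod =
      wsM (∑ t, s t) (fun i => (List.ofFn fun t =>
        U t (i + ∑ t', if t' < t then s t' else 0)).prod) := by
  intro n
  induction n with
  | zero =>
    intro s u
    simp only [List.ofFn_zero, List.prod_nil, Finset.univ_eq_empty, Finset.sum_empty]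
    exact wsM_one.symm
  | succ n ih =>
    intro s u
    rw [List.ofFn_succ, List.prod_cons, ih, wsM_mul, Fin.sum_univ_succ]
    congr 1
    funext i
    rw [List.ofFn_succ, List.prod_cons]
    congr 1
    · congr 1
      simp
    · congr 1
      congr 1
      funext t
      congr 1
      rw [Fin.sum_univ_succ, if_pos (Fin.succ_pos t), add_assoc]
      simp only [Fin.succ_lt_succ_iff]

private theorem wsM_pre {l m : ℕ} (a : Fin m → ZMod l) (σ : Equiv.Perm (Fin m)) (t : Fin m) :
    pre σ a (σ t) = ∑ t', if t' < t then a (σ t') else 0 := by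
  unfold pre
  rw [← Equiv.sum_comp σ]
  refine Finset.sum_congr rfl fun t' _ => ?_
  unfold O
  rw [Equiv.symm_apply_apply, Equiv.symm_apply_apply]
  split_ifs <;> simp

private theorem wsM_sum {β : Type*} {l : ℕ} {W : Type*} [Fintype W] (s : ZMod l)
    (c : W → K) (u : W → ZMod l → Matrix β β K) :
    ∑ σ, c σ • wsM s (u σ) = wsM s (fun i => ∑ σ, c σ • u σ i) := by
  ext p q
  rw [Matrix.sum_apply]
  have h1 : ∀ σ, (c σ • wsM s (u σ)) p q = c σ * (if q.2 = p.2 + s then u σ p.2 p.1 q.1 else 0) :=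
    fun σ => rfl
  simp only [h1]
  change _ = if q.2 = p.2 + s then (∑ σ, c σ • u σ p.2) p.1 q.1 else 0
  by_cases h : q.2 = p.2 + s
  · simp only [if_pos h]
    rw [Matrix.sum_apply]
    rfl
  · simp only [if_neg h, mul_zero, Finset.sum_const_zero]

theorem mval_wsM {β : Type*} [Fintype β] [DecidableEq β] {l : ℕ} [NeZero l] {m : ℕ}
    (α : Equiv.Perm (Fin m) → K) (a : Fin m → ZMod l) (U : Fin m → ZMod l → Matrix β β K) :
    P5e96.mval α (fun k => wsM (a k) (U k)) = wsM (∑ k, a k) (PsiM α a U) := by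
  unfold P5e96.mval
  have h : ∀ σ : Equiv.Perm (Fin m), (List.ofFn fun i => wsM (a (σ i)) (U (σ i))).prod =
      wsM (∑ k, a k) (fun i => (List.ofFn fun t => U (σ t) (i + pre σ a (σ t))).prod) := by
    intro σ
    rw [wsM_prod m (fun t => a (σ t)) (fun t => U (σ t)), Equiv.sum_comp σ a]
    simp only [wsM_pre]
  simp only [h]
  rw [wsM_sum]
  rfl

private theorem ut_prod : ∀ (n : ℕ) (A N B : Fin n → K), ∃ c : K,
    (List.ofFn fun t => !![A t, N t; 0, B t]).prod = !![∏ t, A t, c; 0, ∏ t, B t] := by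
  intro n
  induction n with
  | zero =>
    intro A N B
    refine ⟨0, ?_⟩
    rw [List.ofFn_zero, List.prod_nil, Finset.univ_eq_empty, Finset.prod_empty, Finset.prod_empty]
    exact Matrix.one_fin_two
  | succ n ih =>
    intro A N B
    obtain ⟨c, hc⟩ := ih (fun t => A t.succ) (fun t => N t.succ) (fun t => B t.succ)
    refine ⟨A 0 * c + N 0 * ∏ t : Fin n, B t.succ, ?_⟩
    rw [List.ofFn_succ, List.prod_cons, hc, Fin.prod_univ_succ, Fin.prod_univ_succ,
      Matrix.mul_fin_two]
    simp

theorem gmat_wsM {l : ℕ} [NeZero l] (α : Equiv.Perm (Fin (r + 1)) → K)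
    (a : Fin (r + 1) → ZMod l) (w v n : Fin (r + 1) → ZMod l → K)
    (hw : ∀ i, gvec α a w i ≠ 0) (hv : ∀ i, gvec α a v i ≠ 0)
    (C : ℕ → Matrix (Fin 2 × ZMod l) (Fin 2 × ZMod l) K)
    (hC : ∀ k : Fin (r + 1), k ≠ 0 → C k = wsM (a k) fun i => !![w k i, n k i; 0, v k i])
    (Y : Matrix (Fin 2 × ZMod l) (Fin 2 × ZMod l) K) (h : Y * P5e96.gmat α C = 0) : Y = 0 := by
  have hT : ∀ σ : Equiv.Perm (Fin (r + 1)), ∃ c : ZMod l → K, σ 0 = 0 →
      ((P5e96.tailList σ).map C).prod = wsM (∑ k ∈ univ.erase 0, a k) (fun i =>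
        !![∏ k ∈ univ.erase 0, w k (i - a 0 + pre σ a k), c i;
          0, ∏ k ∈ univ.erase 0, v k (i - a 0 + pre σ a k)]) := by
    intro σ
    by_cases hσ : σ 0 = 0
    swap
    · exact ⟨0, fun h' => absurd h' hσ⟩
    have hne : ∀ t : Fin r, σ t.succ ≠ 0 := by
      intro t ht
      rw [← hσ] at ht
      exact Fin.succ_ne_zero t (σ.injective ht)
    have h1 : List.map C (List.ofFn fun t : Fin r => ((σ t.succ : Fin (r + 1)) : ℕ)) =
        List.ofFn fun t : Fin r => wsM (a (σ t.succ)) (fun i =>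
          !![w (σ t.succ) i, n (σ t.succ) i; 0, v (σ t.succ) i]) := by
      rw [List.map_ofFn]
      congr 1
      funext t
      exact hC _ (hne t)
    have h2 : ∑ t : Fin r, a (σ t.succ) = ∑ k ∈ univ.erase 0, a k := by
      have h3 := Fin.sum_univ_succ (fun t : Fin (r + 1) => a (σ t))
      rw [Equiv.sum_comp σ a, hσ, ← Finset.add_sum_erase _ a (Finset.mem_univ 0)] at h3
      exact (add_left_cancel h3).symm
    have h4 : ∀ f : Fin (r + 1) → K, ∏ k ∈ univ.erase 0, f k = ∏ t : Fin r, f (σ t.succ) := by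
      intro f
      have h5 : ∏ k ∈ univ.erase 0, f k = ∏ k : Fin (r + 1), if k = 0 then 1 else f k := by
        rw [← Finset.mul_prod_erase _ (fun k : Fin (r + 1) => if k = 0 then 1 else f k)
          (Finset.mem_univ 0), if_pos rfl, one_mul]
        refine Finset.prod_congr rfl fun k hk => ?_
        rw [if_neg (Finset.mem_erase.1 hk).1]
      rw [h5, ← Equiv.prod_comp σ, Fin.prod_univ_succ, if_pos hσ, one_mul]
      refine Finset.prod_congr rfl fun t _ => ?_
      rw [if_neg (hne t)]
    have h7 : ∀ (i : ZMod l) (t : Fin r), i - a 0 + pre σ a (σ t.succ) =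
        i + ∑ t' : Fin r, if t' < t then a (σ t'.succ) else 0 := by
      intro i t
      rw [wsM_pre, Fin.sum_univ_succ, if_pos (Fin.succ_pos t), hσ]
      simp only [Fin.succ_lt_succ_iff]
      ring
    have h8 : ∀ i : ZMod l, ∃ c : K, (List.ofFn fun t : Fin r =>
        !![w (σ t.succ) (i - a 0 + pre σ a (σ t.succ)), n (σ t.succ) (i - a 0 + pre σ a (σ t.succ));
          0, v (σ t.succ) (i - a 0 + pre σ a (σ t.succ))]).prod =
        !![∏ k ∈ univ.erase 0, w k (i - a 0 + pre σ a k), c;
          0, ∏ k ∈ univ.erase 0, v k (i - a 0 + pre σ a k)] := by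
      intro i
      obtain ⟨c, hc⟩ := ut_prod r (fun t => w (σ t.succ) (i - a 0 + pre σ a (σ t.succ)))
        (fun t => n (σ t.succ) (i - a 0 + pre σ a (σ t.succ)))
        (fun t => v (σ t.succ) (i - a 0 + pre σ a (σ t.succ)))
      refine ⟨c, ?_⟩
      rw [hc, h4, h4]
    choose c hc using h8
    refine ⟨c, fun _ => ?_⟩
    unfold P5e96.tailList
    rw [h1, wsM_prod r (fun t => a (σ t.succ)), h2]
    congr 1
    funext i
    rw [← hc i]
    simp only [h7]
  choose c hc using hT
  have h6 : ∀ σ : Equiv.Perm (Fin (r + 1)),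
      (if σ 0 = 0 then α σ • ((P5e96.tailList σ).map C).prod else 0) =
        (if σ 0 = 0 then α σ else 0) • wsM (∑ k ∈ univ.erase 0, a k) (fun i =>
        !![∏ k ∈ univ.erase 0, w k (i - a 0 + pre σ a k), c σ i;
          0, ∏ k ∈ univ.erase 0, v k (i - a 0 + pre σ a k)]) := by
    intro σ
    split_ifs with h7
    · rw [hc σ h7]
    · rw [zero_smul]
  have hG : P5e96.gmat α C = wsM (∑ k ∈ univ.erase 0, a k) (fun i =>
      ∑ σ : Equiv.Perm (Fin (r + 1)), (if σ 0 = 0 then α σ else 0) •
        !![∏ k ∈ univ.erase 0, w k (i - a 0 + pre σ a k), c σ i;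
          0, ∏ k ∈ univ.erase 0, v k (i - a 0 + pre σ a k)]) := by
    unfold P5e96.gmat
    simp only [h6]
    rw [wsM_sum]
  set G : ZMod l → Matrix (Fin 2) (Fin 2) K := fun i =>
      ∑ σ : Equiv.Perm (Fin (r + 1)), (if σ 0 = 0 then α σ else 0) •
        !![∏ k ∈ univ.erase 0, w k (i - a 0 + pre σ a k), c σ i;
          0, ∏ k ∈ univ.erase 0, v k (i - a 0 + pre σ a k)] with hGdef
  have g00 : ∀ i, G i 0 0 = gvec α a w i := by
    intro i
    rw [hGdef]
    simp only
    rw [Matrix.sum_apply]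
    unfold gvec
    refine Finset.sum_congr rfl fun σ _ => ?_
    rw [Matrix.smul_apply, smul_eq_mul]
    split_ifs
    · rfl
    · rw [zero_mul]
  have g11 : ∀ i, G i 1 1 = gvec α a v i := by
    intro i
    rw [hGdef]
    simp only
    rw [Matrix.sum_apply]
    unfold gvec
    refine Finset.sum_congr rfl fun σ _ => ?_
    rw [Matrix.smul_apply, smul_eq_mul]
    split_ifs
    · rfl
    · rw [zero_mul]
  have g10 : ∀ i, G i 1 0 = 0 := by
    intro i
    rw [hGdef]
    simp only
    rw [Matrix.sum_apply]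
    refine Finset.sum_eq_zero fun σ _ => ?_
    rw [Matrix.smul_apply, smul_eq_mul]
    exact mul_zero _
  rw [hG] at h
  have key : ∀ p i y, Y p (0, i) * G i 0 y + Y p (1, i) * G i 1 y = 0 := by
    intro p i y
    have h1 := congrFun (congrFun h p) (y, i + ∑ k ∈ univ.erase 0, a k)
    rw [Matrix.mul_apply, Matrix.zero_apply, Fintype.sum_prod_type, Fin.sum_univ_two] at h1
    have h2 : ∀ x : Fin 2, ∑ j : ZMod l, Y p (x, j) *
        wsM (∑ k ∈ univ.erase 0, a k) G (x, j) (y, i + ∑ k ∈ univ.erase 0, a k) =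
        Y p (x, i) * G i x y := by
      intro x
      rw [Finset.sum_eq_single i]
      · unfold wsM
        rw [if_pos rfl]
      · intro j _ hj
        unfold wsM
        rw [if_neg (fun h' => hj (add_right_cancel h').symm), mul_zero]
      · intro h'
        exact absurd (Finset.mem_univ _) h'
    rw [h2, h2] at h1
    exact h1
  have y0 : ∀ p i, Y p (0, i) = 0 := by
    intro p i
    have h1 := key p i 0
    rw [g10, mul_zero, add_zero, g00] at h1
    exact (mul_eq_zero.1 h1).resolve_right (hw i)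
  have y1 : ∀ p i, Y p (1, i) = 0 := by
    intro p i
    have h1 := key p i 1
    rw [y0, zero_mul, zero_add, g11] at h1
    exact (mul_eq_zero.1 h1).resolve_right (hv i)
  ext p ⟨x, i⟩
  rw [Matrix.zero_apply]
  fin_cases x
  · exact y0 p i
  · exact y1 p i

end Pool.Agent.P5m
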