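import Pool.Agent.Lib.P5m.CombC
import Pool.Agent.Lib.P5m.FlipA
import Pool.Agent.Lib.P5m.Semi
import Pool.Agent.Lib.P5m.Sidon

/-!
# The zeros of the character sum

`L = AlgebraicClosure K`, `β : ZMod l` is a zero if `E α' ψ a (update b 0 β) = 0` where `α'` is `α`
in `L`.

STEP 0. Let `c : Fin (r+1) → ZMod l` be any point with `E α' ψ a c = 0`. By `Good` with
`S = {σ | α σ ≠ 0}` (and `c := fun σ => ex σ a c`) the class sums vanish; so for every `σ` with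
`α σ ≠ 0` there is `τ ≠ σ` with `α τ ≠ 0` and `ex τ a c = ex σ a c` (otherwise the class sum is
`α σ`). Moreover `ex σ a c - ex τ a c = ∑ k, c k * A (Dl σ τ) a k`.

STEP 1 (`zero_rep`). Let `β` be a zero and `c = update b 0 β`. For a matched pair `σ ≠ τ`, with
`Q = Dl σ τ`: `cf Q a b + β * A Q a 0 = 0`. If `A Q a 0 = 0` then `cf Q a b = 0`, and by `e1`, `e2`
`A Q _ 0` and `cf Q` vanish identically, so all forms `A_k(Q)` vanish on the hyperplane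
(`b = Pi.single k 1`), so `Q = 0` (`form_zero`), `σ = τ` (`eq_of_Dl`), contradiction. So
`A Q a 0 ≠ 0` for every matched pair; in particular `Q j 0 ≠ 0` for some `j`. Choose `σ₀` with
`α σ₀ ≠ 0`, a partner `τ₀` and `P = Dl σ₀ τ₀`. If `Tp P` then `A P a k = A P a 0` for all `k`
(`tp_ring`, `∑ a = 0`), so `cf P a b = bt b * A P a 0` and `β = - bt b`: this is the case
`F = none`. If not `Tp P` then `Nt P`, and for every matched pair `σ, τ`, `Q = Dl σ τ`: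
`E3 P Q a b = A P a 0 * cf Q a b - cf P a b * A Q a 0
  = A P a 0 * (- β * A Q a 0) + β * A P a 0 * A Q a 0 = 0`, so `Idz (E3 P Q)` by `e3`, so
`Q = P` or `Q = - P` by `zero_pair`. Hence `Flip α P`. Take `F = some (σ₀, τ₀)`.
In both cases `de F a ≠ 0` and `β * de F a + nu F a b = 0`.

STEP 2. Two zeros `β ≠ β'` with `F = some (σ, τ)`, `F' = some (σ', τ')`: the supports of
`Dl σ τ` and `Dl σ' τ'` are disjoint: otherwise `Dl σ' τ' = ± Dl σ τ` by `flip_disj`, then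
`β' = β`. Two zeros with `F = F' = none` are equal.

STEP 3 (`sidon`). Let `z₁ + z₂ = z₃ + z₄`. If `z₁ = z₃` or `z₁ = z₄` we are done. So assume
`z₁ ≠ z₃, z₁ ≠ z₄`, hence `z₂ ≠ z₄`, `z₂ ≠ z₃` as well. Choose representations `F_i` (the same
for equal zeros). If `F₁ = some q` and `z₂ ≠ z₁`: all of `z₂, z₃, z₄` differ from `z₁`, so
`F₂, F₃, F₄` satisfy `Dj` (step 2), and `E6 F₁ F₂ F₃ F₄ a b = 0` (multiply
`z₁ + z₂ - z₃ - z₄ = 0` with all denominators), contradicting `e6` and `e6_ne`. If `z₂ = z₁` and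
`F₁ = some q`: `E7 F₁ F₃ F₄ a b = 0`, contradicting `e7`, `e7_ne`. If `F₁ = none` but
`F₂ = some q`: exchange the roles of `z₁, z₂`. If `F₁ = F₂ = none` then `z₁ = z₂ = - bt b` and
`z₃ ≠ z₁`, so `F₃ = some q`; exchange the two sides.

STEP 4 (`total`). Let `z ≠ z'` be zeros.
Case `F = none`, `z = - bt b`, `F' = some (σ₁, τ₁)`, `P = Dl σ₁ τ₁`, `Nt P`, `Flip α P`,
`z' * A P a 0 = - cf P a b`, `A P a 0 ≠ 0`. By `nt_lam` choose `s ≠ 0` with `lam P s j ≠ 0` for some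
`j`. Claim: `E α' ψ a (update (update b 0 z) s (b s + (z' - z))) ≠ 0`. Suppose it is `0`. Then
every `σ` in the support has a partner `τ ≠ σ` with `∑ k, c k * A (Dl σ τ) a k = 0`; multiplying
by `A P a 0` this is `E4 P (Dl σ τ) s a b = 0`: with `p = A_0(P), p_k = A_k(P), z_k = A_k(Q),
x = A_0(Q), y = A_s(Q)`, `z = - bt b`: `p * ∑_{k≠0} b_k z_k + p (z' - z) y + p z x =
∑ b_k p z_k + (- cf P a b + p * bt b) y - p * bt b * x = ∑ b_k (p (z_k - x) - y (p_k - p))`.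
So `Idz (E4 P Q s)` by `e4`, `n1_alg` applies, and `n1_flip` gives a contradiction.
Case `F' = none`: symmetric.
Case both `some`: `P = Dl σ₀ τ₀` for `z`, `P' = Dl σ₁ τ₁` for `z'`, disjoint supports. By `semi`
there is `s ≠ 0` with (`U(P')` and `V(P)`) or (`U(P)` and `V(P')`), where `U(P)`: `A_s(P) ≠ A_0(P)`
somewhere, `V(P)`: `A_s(P) ≠ 0` somewhere. In the first case
`E α' ψ a (update (update b 0 z) s (b s + (z' - z))) ≠ 0`: otherwise every `σ` of the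
support has a partner `τ` with `∑ k, c k * A (Dl σ τ) a k = 0`, and multiplying by
`A P' a 0 * A P a 0` this is `E5 P' P (Dl σ τ) s a b = 0` (here `p = A_0(P')`, `q = A_0(P)`:
`p q ∑ b_k z_k + (z' - z) p q y + z p q x = ∑ b_k p q z_k + (- cf P' q + cf P p) y - cf P p x =
∑ b_k (p q z_k - y q p_k - p (x - y) q_k)`). By `e5`, `n2_alg` (with `P', P`), `n2_flip` we get a
contradiction. The second case is the same with `z, z'` exchanged.
-/

open Finset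

namespace Pool.Agent.P5m

variable {r : ℕ} {K : Type*} [Field K]

/-- The coefficients in the algebraic closure. -/
noncomputable def ac (α : Equiv.Perm (Fin (r + 1)) → K) : Equiv.Perm (Fin (r + 1)) →
    AlgebraicClosure K := fun σ => algebraMap K (AlgebraicClosure K) (α σ)

/-- The zeros. -/
def IsZ {l : ℕ} (α : Equiv.Perm (Fin (r + 1)) → K) (ψ : AddChar (ZMod l) (AlgebraicClosure K))
    (a b : Fin (r + 1) → ZMod l) (β : ZMod l) : Prop :=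
  E (ac α) ψ a (Function.update b 0 β) = 0

namespace ZerosAux

theorem partner {l : ℕ} (α : Equiv.Perm (Fin (r + 1)) → K) (hg : Good l α)
    (ψ : AddChar (ZMod l) (AlgebraicClosure K)) (hψ : ψ ≠ 1) (a c : Fin (r + 1) → ZMod l)
    (h : E (ac α) ψ a c = 0) (σ : Equiv.Perm (Fin (r + 1))) (hσ : α σ ≠ 0) :
    ∃ τ, α τ ≠ 0 ∧ σ ≠ τ ∧ ex σ a c = ex τ a c := by
  by_contra hcon
  push Not at hcon
  have h1 := hg ψ hψ univ (fun w => ex w a c) h (ex σ a c)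
  rw [Finset.sum_eq_single σ] at h1
  · exact hσ h1
  · intro τ hτ hne
    by_contra hτ0
    rw [mem_filter] at hτ
    exact hcon τ hτ0 (Ne.symm hne) hτ.2.symm
  · intro hn
    exact absurd (by simp) hn

theorem ex_sub {m : ℕ} {R : Type*} [CommRing R] (σ τ : Equiv.Perm (Fin m)) (a c : Fin m → R) :
    ex σ a c - ex τ a c = ∑ k, c k * A (Dl σ τ) a k := by
  unfold ex pre A Dl
  rw [← sum_sub_distrib]
  refine sum_congr rfl fun k _ => ?_
  rw [← mul_sub, ← sum_sub_distrib]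
  congr 1
  refine sum_congr rfl fun j _ => ?_
  push_cast
  ring

theorem sum_upd {R : Type*} [CommRing R] (b : Fin (r + 1) → R) (β : R) (f : Fin (r + 1) → R) :
    ∑ k, Function.update b 0 β k * f k = β * f 0 + ∑ k ∈ univ.erase 0, b k * f k := by
  rw [← Finset.add_sum_erase univ _ (mem_univ (0 : Fin (r + 1))), Function.update_self]
  congr 1
  refine sum_congr rfl fun k hk => ?_
  rw [Function.update_of_ne (ne_of_mem_erase hk)]

theorem sum_upd2 {R : Type*} [CommRing R] (b : Fin (r + 1) → R) (β γ : R) (s : Fin (r + 1))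
    (hs : s ≠ 0) (f : Fin (r + 1) → R) :
    ∑ k, Function.update (Function.update b 0 β) s (b s + γ) k * f k =
      β * f 0 + ∑ k ∈ univ.erase 0, b k * f k + γ * f s := by
  rw [← sum_upd]
  rw [← Finset.add_sum_erase univ _ (mem_univ s), Function.update_self,
    ← Finset.add_sum_erase univ (fun k => Function.update b 0 β k * f k) (mem_univ s),
    Function.update_of_ne hs]
  have : ∑ k ∈ univ.erase s, Function.update (Function.update b 0 β) s (b s + γ) k * f k =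
      ∑ k ∈ univ.erase s, Function.update b 0 β k * f k := by
    refine sum_congr rfl fun k hk => ?_
    rw [Function.update_of_ne (ne_of_mem_erase hk)]
  rw [this]
  ring

theorem A_neg {m : ℕ} {R : Type*} [CommRing R] {Q Q' : Fin m → Fin m → ℤ}
    (h : ∀ j k, Q' j k = - Q j k) (a : Fin m → R) (k : Fin m) : A Q' a k = - A Q a k := by
  unfold A
  rw [← sum_neg_distrib]
  refine sum_congr rfl fun j _ => ?_
  rw [h]
  push_cast
  ring

theorem A_congr {m : ℕ} {R : Type*} [CommRing R] {Q Q' : Fin m → Fin m → ℤ}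
    (h : ∀ j k, Q' j k = Q j k) (a : Fin m → R) (k : Fin m) : A Q' a k = A Q a k := by
  unfold A
  refine sum_congr rfl fun j _ => ?_
  rw [h]

theorem cf_neg {R : Type*} [CommRing R] {Q Q' : Fin (r + 1) → Fin (r + 1) → ℤ}
    (h : ∀ j k, Q' j k = - Q j k) (a b : Fin (r + 1) → R) : cf Q' a b = - cf Q a b := by
  unfold cf
  rw [← sum_neg_distrib]
  refine sum_congr rfl fun j _ => ?_
  rw [A_neg h]
  ring

theorem cf_congr {R : Type*} [CommRing R] {Q Q' : Fin (r + 1) → Fin (r + 1) → ℤ}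
    (h : ∀ j k, Q' j k = Q j k) (a b : Fin (r + 1) → R) : cf Q' a b = cf Q a b := by
  unfold cf
  refine sum_congr rfl fun j _ => ?_
  rw [A_congr h]

theorem cf_single {Q : Fin (r + 1) → Fin (r + 1) → ℤ} (a : Fin (r + 1) → ℚ) (k : Fin (r + 1))
    (hk : k ≠ 0) : cf Q a (Pi.single k 1) = A Q a k := by
  unfold cf
  rw [Finset.sum_eq_single k]
  · rw [Pi.single_eq_same, one_mul]
  · intro j _ hj
    rw [Pi.single_eq_of_ne hj, zero_mul]
  · intro hn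
    exact absurd (mem_erase.2 ⟨hk, mem_univ _⟩) hn

theorem Dl_ne {m : ℕ} {σ τ : Equiv.Perm (Fin m)} (h : σ ≠ τ) : ∃ j k, Dl σ τ j k ≠ 0 := by
  by_contra hcon
  push Not at hcon
  exact h (eq_of_Dl σ τ hcon)

/-- matched pairs at a zero -/
theorem matched {l : ℕ} {a b : Fin (r + 1) → ZMod l} (hab : Gpt l a b) {β : ZMod l}
    {σ τ : Equiv.Perm (Fin (r + 1))} (hne : σ ≠ τ)
    (h : ex σ a (Function.update b 0 β) = ex τ a (Function.update b 0 β)) :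
    cf (Dl σ τ) a b + β * A (Dl σ τ) a 0 = 0 ∧ A (Dl σ τ) a 0 ≠ 0 := by
  have h1 : β * A (Dl σ τ) a 0 + cf (Dl σ τ) a b = 0 := by
    have := ex_sub σ τ a (Function.update b 0 β)
    rw [h, sub_self, sum_upd] at this
    exact this.symm
  refine ⟨by rw [add_comm]; exact h1, fun h0 => ?_⟩
  have h2 : cf (Dl σ τ) a b = 0 := by
    rw [h0, mul_zero, zero_add] at h1
    exact h1
  have i1 := hab.e1 σ τ 0 h0
  have i2 := hab.e2 σ τ h2
  apply hne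
  apply eq_of_Dl
  intro j k
  have hz : Af (Dl σ τ) k = 0 := by
    ext v
    obtain ⟨v, hv⟩ := v
    have hv' : ∑ j, v j = 0 := hv
    change A (Dl σ τ) v k = 0
    by_cases hk : k = 0
    · rw [hk]
      exact i1 v v hv'
    · have := i2 v (Pi.single k 1) hv'
      simp only at this
      rwa [cf_single v k hk] at this
  exact form_zero (Dl_sm σ τ).anti k hz j

/-- representation of a zero -/
def Rep {l : ℕ} (α : Equiv.Perm (Fin (r + 1)) → K) (a b : Fin (r + 1) → ZMod l)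
    (F : Option (Equiv.Perm (Fin (r + 1)) × Equiv.Perm (Fin (r + 1)))) (β : ZMod l) : Prop :=
  (∀ σ τ, F = some (σ, τ) → Nt (Dl σ τ) ∧ Flip α (Dl σ τ)) ∧
      de F a ≠ 0 ∧ β * de F a + nu F a b = 0

theorem exists_rep {l : ℕ} (hl : l.Prime) (α : Equiv.Perm (Fin (r + 1)) → K)
    (hα : ∃ σ, α σ ≠ 0) (hg : Good l α) (ψ : AddChar (ZMod l) (AlgebraicClosure K)) (hψ : ψ ≠ 1)
    (a b : Fin (r + 1) → ZMod l) (hab : Gpt l a b) (β : ZMod l) (hβ : IsZ α ψ a b β) :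
    ∃ F : Option (Equiv.Perm (Fin (r + 1)) × Equiv.Perm (Fin (r + 1))), Rep α a b F β := by
  haveI : Fact l.Prime := ⟨hl⟩
  obtain ⟨σ₀, hσ₀⟩ := hα
  obtain ⟨τ₀, hτ₀, hne₀, he₀⟩ := partner α hg ψ hψ a _ hβ σ₀ hσ₀
  obtain ⟨hz₀, hA₀⟩ := matched hab hne₀ he₀
  by_cases htp : Tp (Dl σ₀ τ₀)
  · refine ⟨none, ?_, ?_, ?_⟩
    · intro σ τ h
      exact absurd h (by simp)
    · change (1 : ZMod l) ≠ 0
      exact one_ne_zero
    · change β * 1 + bt b = 0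
      have h1 : cf (Dl σ₀ τ₀) a b = bt b * A (Dl σ₀ τ₀) a 0 := by
        unfold cf bt
        rw [sum_mul]
        exact sum_congr rfl fun k _ => by rw [tp_ring htp a hab.sum k]
      rw [h1, ← add_mul] at hz₀
      rcases mul_eq_zero.1 hz₀ with h2 | h2
      · rw [mul_one, add_comm]
        exact h2
      · exact absurd h2 hA₀
  · have hnt : Nt (Dl σ₀ τ₀) := by
      refine ⟨Dl_sm σ₀ τ₀, ?_, htp⟩
      by_contra hcon
      push Not at hcon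
      apply hA₀
      unfold A
      exact sum_eq_zero fun j _ => by rw [hcon j]; simp
    refine ⟨some (σ₀, τ₀), ?_, hA₀, ?_⟩
    · intro σ τ h
      have h' : (σ₀, τ₀) = (σ, τ) := Option.some.inj h
      have h1 : σ₀ = σ := congrArg Prod.fst h'
      have h2 : τ₀ = τ := congrArg Prod.snd h'
      subst h1
      subst h2
      refine ⟨hnt, Dl_sm σ₀ τ₀, Dl_ne hne₀, ?_⟩
      intro σ hσ
      obtain ⟨τ, hτ, hne, he⟩ := partner α hg ψ hψ a _ hβ σ hσ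
      obtain ⟨hz, hA⟩ := matched hab hne he
      refine ⟨τ, hτ, ?_⟩
      have h3 : E3 (Dl σ₀ τ₀) (Dl σ τ) a b = 0 := by
        unfold E3
        have e1 : cf (Dl σ τ) a b = - (β * A (Dl σ τ) a 0) := by
          exact eq_neg_of_add_eq_zero_left hz
        have e2 : cf (Dl σ₀ τ₀) a b = - (β * A (Dl σ₀ τ₀) a 0) := by
          exact eq_neg_of_add_eq_zero_left hz₀
        rw [e1, e2]
        ring
      exact zero_pair hnt (Dl_sm σ τ) (Dl_ne hne) (hab.e3 σ₀ τ₀ σ τ h3)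
    · change β * A (Dl σ₀ τ₀) a 0 + cf (Dl σ₀ τ₀) a b = 0
      rw [add_comm]
      exact hz₀

theorem dj_of_ne {l : ℕ} [Fact l.Prime] {α : Equiv.Perm (Fin (r + 1)) → K}
    (hα : ∃ σ, α σ ≠ 0) {a b : Fin (r + 1) → ZMod l} {β β' : ZMod l}
    {σ τ : Equiv.Perm (Fin (r + 1))}
    {F' : Option (Equiv.Perm (Fin (r + 1)) × Equiv.Perm (Fin (r + 1)))}
    (h : Rep α a b (some (σ, τ)) β) (h' : Rep α a b F' β') (hne : β ≠ β') :
    Dj (Dl σ τ) F' := by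
  intro σ' τ' hF
  subst hF
  obtain ⟨h1, h2, h3⟩ := h
  obtain ⟨h1', h2', h3'⟩ := h'
  refine ⟨(h1' σ' τ' rfl).1, ?_⟩
  by_contra hcon
  push Not at hcon
  apply hne
  have h4 := flip_disj α hα (h1 σ τ rfl).2 (h1' σ' τ' rfl).2 hcon
  have e1 : β * A (Dl σ τ) a 0 + cf (Dl σ τ) a b = 0 := h3
  have e2 : β' * A (Dl σ' τ') a 0 + cf (Dl σ' τ') a b = 0 := h3'
  have e3 : A (Dl σ τ) a 0 ≠ 0 := h2
  have e4 : (β - β') * A (Dl σ τ) a 0 = 0 := by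
    rcases h4 with h4 | h4
    · rw [A_congr h4, cf_congr h4] at e2
      linear_combination e1 - e2
    · rw [A_neg h4, cf_neg h4] at e2
      linear_combination e1 + e2
  rcases mul_eq_zero.1 e4 with h5 | h5
  · exact sub_eq_zero.1 h5
  · exact absurd h5 e3

theorem eq_of_none {l : ℕ} {α : Equiv.Perm (Fin (r + 1)) → K}
    {a b : Fin (r + 1) → ZMod l} {β β' : ZMod l}
    (h : Rep α a b none β) (h' : Rep α a b none β') : β = β' := by
  have e1 : β * 1 + bt b = 0 := h.2.2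
  have e2 : β' * 1 + bt b = 0 := h'.2.2
  linear_combination e1 - e2

/-- core of the Sidon property -/
theorem core {l : ℕ} [Fact l.Prime] {α : Equiv.Perm (Fin (r + 1)) → K}
    (hα : ∃ σ, α σ ≠ 0) {a b : Fin (r + 1) → ZMod l} (hab : Gpt l a b) {z₁ z₂ z₃ z₄ : ZMod l}
    {q : Equiv.Perm (Fin (r + 1)) × Equiv.Perm (Fin (r + 1))}
    {F₂ F₃ F₄ : Option (Equiv.Perm (Fin (r + 1)) × Equiv.Perm (Fin (r + 1)))}
    (h₁ : Rep α a b (some q) z₁) (h₂ : Rep α a b F₂ z₂) (h₃ : Rep α a b F₃ z₃)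
    (h₄ : Rep α a b F₄ z₄) (h13 : z₁ ≠ z₃) (h14 : z₁ ≠ z₄) (h : z₁ + z₂ = z₃ + z₄) : False := by
  obtain ⟨σ, τ⟩ := q
  have hnt : Nt (Dl σ τ) := (h₁.1 σ τ rfl).1
  have n1 := eq_neg_of_add_eq_zero_right h₁.2.2
  have n2 := eq_neg_of_add_eq_zero_right h₂.2.2
  have n3 := eq_neg_of_add_eq_zero_right h₃.2.2
  have n4 := eq_neg_of_add_eq_zero_right h₄.2.2
  by_cases h12 : z₁ = z₂
  · have hE : E7 (some (σ, τ)) F₃ F₄ a b = 0 := by
      unfold E7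
      rw [n1, n3, n4]
      rw [← h12] at h
      linear_combination (- de (some (σ, τ)) a * de F₃ a * de F₄ a) * h
    exact e7_ne σ τ hnt F₃ F₄ (dj_of_ne hα h₁ h₃ h13) (dj_of_ne hα h₁ h₄ h14)
      (hab.e7 _ _ _ hE)
  · have hE : E6 (some (σ, τ)) F₂ F₃ F₄ a b = 0 := by
      unfold E6
      rw [n1, n2, n3, n4]
      linear_combination (- de (some (σ, τ)) a * de F₂ a * de F₃ a * de F₄ a) * h
    exact e6_ne σ τ hnt F₂ F₃ F₄ (dj_of_ne hα h₁ h₂ h12) (dj_of_ne hα h₁ h₃ h13)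
      (dj_of_ne hα h₁ h₄ h14) (hab.e6 _ _ _ _ hE)

theorem caseN {l : ℕ} (α : Equiv.Perm (Fin (r + 1)) → K)
    (hα : ∃ σ, α σ ≠ 0) (hg : Good l α) (ψ : AddChar (ZMod l) (AlgebraicClosure K)) (hψ : ψ ≠ 1)
    (a b : Fin (r + 1) → ZMod l) (hab : Gpt l a b) (z z' : ZMod l)
    (h : Rep α a b none z)
    (q : Equiv.Perm (Fin (r + 1)) × Equiv.Perm (Fin (r + 1))) (h' : Rep α a b (some q) z') :
    ∃ s : Fin (r + 1), s ≠ 0 ∧
      E (ac α) ψ a (Function.update (Function.update b 0 z) s (b s + (z' - z))) ≠ 0 := by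
  obtain ⟨σ₁, τ₁⟩ := q
  obtain ⟨hnt, hflip⟩ := h'.1 σ₁ τ₁ rfl
  obtain ⟨s, hs, hlam⟩ := nt_lam hnt
  refine ⟨s, hs, fun h0 => ?_⟩
  have e1 : z * 1 + bt b = 0 := h.2.2
  have e2 : z' * A (Dl σ₁ τ₁) a 0 + cf (Dl σ₁ τ₁) a b = 0 := h'.2.2
  refine n1_flip α hα hflip hnt s hlam fun σ hσ => ?_
  obtain ⟨τ, hτ, hne, he⟩ := partner α hg ψ hψ a _ h0 σ hσ
  refine ⟨τ, hτ, hne, ?_⟩
  have h3 := ex_sub σ τ a (Function.update (Function.update b 0 z) s (b s + (z' - z)))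
  rw [he, sub_self, sum_upd2 b z (z' - z) s hs] at h3
  refine n1_alg hnt (Dl_sm σ τ) (Dl_ne hne) s hs (hab.e4 σ₁ τ₁ σ τ s ?_)
  have h4 : E4 (Dl σ₁ τ₁) (Dl σ τ) s a b =
      A (Dl σ₁ τ₁) a 0 * (cf (Dl σ τ) a b - bt b * A (Dl σ τ) a 0) -
        A (Dl σ τ) a s * (cf (Dl σ₁ τ₁) a b - bt b * A (Dl σ₁ τ₁) a 0) := by
    unfold E4 cf bt
    simp only [mul_sum, sum_mul, mul_sub, sum_sub_distrib]
    have t1 : ∀ x ∈ univ.erase (0 : Fin (r + 1)), b x * (A (Dl σ₁ τ₁) a 0 * A (Dl σ τ) a x) =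
        A (Dl σ₁ τ₁) a 0 * (b x * A (Dl σ τ) a x) := fun x _ => by ring
    have t2 : ∀ x ∈ univ.erase (0 : Fin (r + 1)), b x * (A (Dl σ₁ τ₁) a 0 * A (Dl σ τ) a 0) =
        A (Dl σ₁ τ₁) a 0 * (b x * A (Dl σ τ) a 0) := fun x _ => by ring
    have t3 : ∀ x ∈ univ.erase (0 : Fin (r + 1)), b x * (A (Dl σ τ) a s * A (Dl σ₁ τ₁) a x) =
        A (Dl σ τ) a s * (b x * A (Dl σ₁ τ₁) a x) := fun x _ => by ring
    have t4 : ∀ x ∈ univ.erase (0 : Fin (r + 1)), b x * (A (Dl σ τ) a s * A (Dl σ₁ τ₁) a 0) =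
        A (Dl σ τ) a s * (b x * A (Dl σ₁ τ₁) a 0) := fun x _ => by ring
    rw [sum_congr rfl t1, sum_congr rfl t2, sum_congr rfl t3, sum_congr rfl t4]
  rw [h4]
  have h5 : z * A (Dl σ τ) a 0 + cf (Dl σ τ) a b + (z' - z) * A (Dl σ τ) a s = 0 := h3.symm
  have hbt : bt b = - z := by linear_combination e1
  rw [hbt]
  linear_combination A (Dl σ₁ τ₁) a 0 * h5 - A (Dl σ τ) a s * e2

theorem caseS {l : ℕ} (α : Equiv.Perm (Fin (r + 1)) → K)
    (hα : ∃ σ, α σ ≠ 0) (hg : Good l α) (ψ : AddChar (ZMod l) (AlgebraicClosure K)) (hψ : ψ ≠ 1)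
    (a b : Fin (r + 1) → ZMod l) (hab : Gpt l a b) (z z' : ZMod l)
    (σ₀ τ₀ σ₁ τ₁ : Equiv.Perm (Fin (r + 1)))
    (h : Rep α a b (some (σ₀, τ₀)) z) (h' : Rep α a b (some (σ₁, τ₁)) z')
    (hd : ∀ j k, Dl σ₁ τ₁ j k = 0 ∨ Dl σ₀ τ₀ j k = 0) (s : Fin (r + 1)) (hs : s ≠ 0)
    (hU : ∃ a : Fin (r + 1) → ℚ, ∑ j, a j = 0 ∧ A (Dl σ₁ τ₁) a s ≠ A (Dl σ₁ τ₁) a 0)
    (hV : ∃ a : Fin (r + 1) → ℚ, ∑ j, a j = 0 ∧ A (Dl σ₀ τ₀) a s ≠ 0) :
    E (ac α) ψ a (Function.update (Function.update b 0 z) s (b s + (z' - z))) ≠ 0 := by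
  intro h0
  obtain ⟨hnt, hflip⟩ := h.1 σ₀ τ₀ rfl
  obtain ⟨hnt', hflip'⟩ := h'.1 σ₁ τ₁ rfl
  have e1 : z * A (Dl σ₀ τ₀) a 0 + cf (Dl σ₀ τ₀) a b = 0 := h.2.2
  have e2 : z' * A (Dl σ₁ τ₁) a 0 + cf (Dl σ₁ τ₁) a b = 0 := h'.2.2
  refine n2_flip α hα hflip' hflip hd s hU hV fun σ hσ => ?_
  obtain ⟨τ, hτ, hne, he⟩ := partner α hg ψ hψ a _ h0 σ hσ
  refine ⟨τ, hτ, hne, ?_⟩
  have h3 := ex_sub σ τ a (Function.update (Function.update b 0 z) s (b s + (z' - z)))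
  rw [he, sub_self, sum_upd2 b z (z' - z) s hs] at h3
  refine n2_alg hnt' hnt hd (Dl_sm σ τ) s hs (hab.e5 σ₁ τ₁ σ₀ τ₀ σ τ s ?_)
  have h4 : E5 (Dl σ₁ τ₁) (Dl σ₀ τ₀) (Dl σ τ) s a b =
      A (Dl σ₁ τ₁) a 0 * A (Dl σ₀ τ₀) a 0 * cf (Dl σ τ) a b -
        A (Dl σ τ) a s * A (Dl σ₀ τ₀) a 0 * cf (Dl σ₁ τ₁) a b -
        A (Dl σ₁ τ₁) a 0 * (A (Dl σ τ) a 0 - A (Dl σ τ) a s) * cf (Dl σ₀ τ₀) a b := by
    unfold E5 cf
    rw [mul_sum, mul_sum, mul_sum, ← sum_sub_distrib, ← sum_sub_distrib]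
    exact sum_congr rfl fun k _ => by ring
  rw [h4]
  have h5 : z * A (Dl σ τ) a 0 + cf (Dl σ τ) a b + (z' - z) * A (Dl σ τ) a s = 0 := h3.symm
  linear_combination A (Dl σ₁ τ₁) a 0 * A (Dl σ₀ τ₀) a 0 * h5 -
    A (Dl σ τ) a s * A (Dl σ₀ τ₀) a 0 * e2 -
    A (Dl σ₁ τ₁) a 0 * (A (Dl σ τ) a 0 - A (Dl σ τ) a s) * e1

end ZerosAux

theorem zero_rep {l : ℕ} (hl : l.Prime) (α : Equiv.Perm (Fin (r + 1)) → K)
    (hα : ∃ σ, α σ ≠ 0) (hg : Good l α) (ψ : AddChar (ZMod l) (AlgebraicClosure K)) (hψ : ψ ≠ 1)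
    (a b : Fin (r + 1) → ZMod l) (hab : Gpt l a b) (β : ZMod l) (hβ : IsZ α ψ a b β) :
    ∃ F : Option (Equiv.Perm (Fin (r + 1)) × Equiv.Perm (Fin (r + 1))),
      (∀ σ τ, F = some (σ, τ) → Nt (Dl σ τ) ∧ Flip α (Dl σ τ)) ∧
      de F a ≠ 0 ∧ β * de F a + nu F a b = 0 :=
  ZerosAux.exists_rep hl α hα hg ψ hψ a b hab β hβ

theorem sidon {l : ℕ} (hl : l.Prime) (α : Equiv.Perm (Fin (r + 1)) → K)
    (hα : ∃ σ, α σ ≠ 0) (hg : Good l α) (ψ : AddChar (ZMod l) (AlgebraicClosure K)) (hψ : ψ ≠ 1)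
    (a b : Fin (r + 1) → ZMod l) (hab : Gpt l a b) (z₁ z₂ z₃ z₄ : ZMod l)
    (h₁ : IsZ α ψ a b z₁) (h₂ : IsZ α ψ a b z₂) (h₃ : IsZ α ψ a b z₃) (h₄ : IsZ α ψ a b z₄)
    (h : z₁ + z₂ = z₃ + z₄) : (z₁ = z₃ ∧ z₂ = z₄) ∨ (z₁ = z₄ ∧ z₂ = z₃) := by
  haveI : Fact l.Prime := ⟨hl⟩
  by_cases h13 : z₁ = z₃
  · left
    refine ⟨h13, ?_⟩
    rw [h13] at h
    exact add_left_cancel h
  by_cases h14 : z₁ = z₄
  · right
    refine ⟨h14, ?_⟩
    rw [h14, add_comm z₃ z₄] at h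
    exact add_left_cancel h
  exfalso
  have h24 : z₂ ≠ z₄ := by
    intro h24
    rw [h24] at h
    exact h13 (add_right_cancel h)
  have h23 : z₂ ≠ z₃ := by
    intro h23
    rw [h23, add_comm z₃ z₄] at h
    exact h14 (add_right_cancel h)
  obtain ⟨F₁, r₁⟩ := ZerosAux.exists_rep hl α hα hg ψ hψ a b hab z₁ h₁
  obtain ⟨F₂, r₂⟩ := ZerosAux.exists_rep hl α hα hg ψ hψ a b hab z₂ h₂
  obtain ⟨F₃, r₃⟩ := ZerosAux.exists_rep hl α hα hg ψ hψ a b hab z₃ h₃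
  obtain ⟨F₄, r₄⟩ := ZerosAux.exists_rep hl α hα hg ψ hψ a b hab z₄ h₄
  rcases F₁ with _ | q
  · rcases F₂ with _ | q
    · have h12 := ZerosAux.eq_of_none r₁ r₂
      rcases F₃ with _ | q
      · exact h13 (ZerosAux.eq_of_none r₁ r₃)
      · exact ZerosAux.core hα hab r₃ r₄ r₁ r₂ (Ne.symm h13) (Ne.symm h23) h.symm
    · exact ZerosAux.core hα hab r₂ r₁ r₃ r₄ h23 h24 (by rw [add_comm]; exact h)
  · exact ZerosAux.core hα hab r₁ r₂ r₃ r₄ h13 h14 h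

theorem total {l : ℕ} (hl : l.Prime) (α : Equiv.Perm (Fin (r + 1)) → K)
    (hα : ∃ σ, α σ ≠ 0) (hg : Good l α) (ψ : AddChar (ZMod l) (AlgebraicClosure K)) (hψ : ψ ≠ 1)
    (a b : Fin (r + 1) → ZMod l) (hab : Gpt l a b) (z z' : ZMod l)
    (h : IsZ α ψ a b z) (h' : IsZ α ψ a b z') (hz : z ≠ z') :
    ∃ s : Fin (r + 1), s ≠ 0 ∧
      (E (ac α) ψ a (Function.update (Function.update b 0 z) s (b s + (z' - z))) ≠ 0 ∨
        E (ac α) ψ a (Function.update (Function.update b 0 z') s (b s + (z - z'))) ≠ 0) := by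
  haveI : Fact l.Prime := ⟨hl⟩
  obtain ⟨F, r₁⟩ := ZerosAux.exists_rep hl α hα hg ψ hψ a b hab z h
  obtain ⟨F', r₂⟩ := ZerosAux.exists_rep hl α hα hg ψ hψ a b hab z' h'
  rcases F with _ | ⟨σ₀, τ₀⟩
  · rcases F' with _ | q
    · exact absurd (ZerosAux.eq_of_none r₁ r₂) hz
    · obtain ⟨s, hs, hE⟩ := ZerosAux.caseN α hα hg ψ hψ a b hab z z' r₁ q r₂
      exact ⟨s, hs, Or.inl hE⟩
  · rcases F' with _ | ⟨σ₁, τ₁⟩
    · obtain ⟨s, hs, hE⟩ := ZerosAux.caseN α hα hg ψ hψ a b hab z' z r₂ _ r₁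
      exact ⟨s, hs, Or.inr hE⟩
    · have hdj := (ZerosAux.dj_of_ne hα r₁ r₂ hz σ₁ τ₁ rfl).2
      obtain ⟨s, hs, hcase⟩ := semi (r₁.1 σ₀ τ₀ rfl).1 (r₂.1 σ₁ τ₁ rfl).1
      refine ⟨s, hs, ?_⟩
      rcases hcase with ⟨hU, hV⟩ | ⟨hU, hV⟩
      · right
        exact ZerosAux.caseS α hα hg ψ hψ a b hab z' z σ₁ τ₁ σ₀ τ₀ r₂ r₁ hdj s hs hU hV
      · left
        exact ZerosAux.caseS α hα hg ψ hψ a b hab z z' σ₀ τ₀ σ₁ τ₁ r₁ r₂
          (fun j k => (hdj j k).symm) s hs hU hV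

end Pool.Agent.P5m
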